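import Pool.Agent.WD3.StI
import Pool.Agent.WD2.ADX

/-!
# Generalised doubles, module ADK: the formula holds for the doubles of all diagrams
-/

set_option autoImplicit false

namespace Pool.Agent.WD3

open Pool.Agent.LibH11 Pool.Agent.IT Pool.Agent.GK Pool.Agent.TwoBr Pool.Agent.WD Pool.Agent.WD2
open Pool.Agent.LibH11.Sliced (Diag Kind cnt IsLongKnot ofDiag braidWord)
open scoped BigOperators
open PowerSeries

namespace ADK

/-- the formula for the generalised doubles of closed braids -/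
theorem fields (hY : CYK_Stmt) {JS : ℕ → SKnot → ℚ⟦X⟧} (hg : DblK JS) (k m : ℤ) (n : ℕ)
    (w : Word) (hl : IsLongKnot (cl n w)) (hd : IsLongKnot (gdouble k m (cl n w))) (hb : Bd n w)
    (hk : LibH11.IsKnot (ev n w)) :
    DK JS k (m + wr w) (ofDiag (gdouble k m (cl n w)) hd) (ofDiag (cl n w) hl) := by
  intro N hN
  apply ADX.toK_inj
  rw [hY k N hN, hg k N hN m n w hl hd hb hk]
  refine Finset.sum_congr rfl fun j _ => ?_
  rw [yt, Int.cast_add]

end ADK

open ADK in
theorem t_ADK (hY : CYK_Stmt) : ADK_Stmt := by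
  intro M cb v JS _ hv hj hg hc hD
  refine ⟨?_, ?_, ?_⟩
  · intro K
    induction K using Quot.ind with
    | _ x =>
      obtain ⟨D, hD'⟩ := x
      obtain ⟨n, w, hb, hk, hE'⟩ := hc D hD'
      have h1 : ofDiag D hD' = ofDiag (cl n w) _ := hE'.knot hD'
      have h2 : JS 1 (ofDiag D hD') = 1 := by
        rw [h1]
        exact ADX.one_eq hv hj hk _ hb
      exact h2
  · intro D hD'
    obtain ⟨n, w, hb, hk, hE'⟩ := hc D hD'
    obtain ⟨c, hc'⟩ := hD D (cl n w) hE' hD'
    refine ⟨c + wr w, fun k m hd => ?_⟩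
    have h1 := fields hY hg k (m + c) n w (hE'.isLongKnot hD')
      ((hc' k m).isLongKnot hd) hb hk
    rw [(hc' k m).knot hd, hE'.knot hD', ← add_assoc]
    exact h1
  · intro h0 k m hd
    have h1 := fields hY hg k m 0 [] h0 hd (bd_nil 0) isKnot_nil
    rw [wr_nil, add_zero] at h1
    exact h1

end Pool.Agent.WD3
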