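import Pool.Agent.WD3.BaseI

/-!
# Generalised doubles: statements of the modules on the cyclotomic form and the leading terms

The module `WI_XXX` is the file `Pool/Agent/WD3/XXX.lean` with `theorem t_XXX : XXX_Stmt` (other
statements that are used are explicit hypotheses) in the namespace `Pool.Agent.WD3`, helper lemmas in
the namespace `Pool.Agent.WD3.XXX`.

Definitions: `WD3/BaseI.lean` (`FF`, `FU`, `yt`, `cyk`), `WD2/BaseF.lean` (`b1`, `c2`, `uF`, `PT`,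
`gC`, `LdE`, `PolyC`, `Triv`, `Inf`, and the lemmas `X_mul_b1`, `gC_mul`, `PT_succ`, `PT_of_le`, …),
`InfD`, `SG0_Stmt`, `GCV_Stmt`: `WD2/StF.lean`; `ph`, `Ck`, `DblK`, `GMK_Stmt`: `WD3/StG.lean`.
-/

set_option autoImplicit false

namespace Pool.Agent.WD3

open Pool.Agent.LibH11 Pool.Agent.IT Pool.Agent.GK Pool.Agent.TwoBr Pool.Agent.WD Pool.Agent.WD2
open Pool.Agent.LibH11.Sliced (Diag Kind cnt IsLongKnot ofDiag braidWord)
open scoped BigOperators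
open PowerSeries

/-- CYK: the cyclotomic form (uses `GMK`, `ESER`).

Proof. As `t_CYF` (`WD2/CYF.lean`), with `GMK` in the place of `GMF`. (1) For `j ≤ r`:
`toK (gC r j) = (-1)^j toK X ^ r {r}! {2 j + 1} / ({r - j}! {r + j + 1}!)` (`gC_mul`, `X_pow_mul_uF`,
`X_mul_b1`; see `CYF.lean`), `sQ ^ (4 j (j+1) k) = toK (E (2 j (j+1) k))`; hence
`toK (FU k r) = (-1)^r toK X ^ r {r}! ph sQ k r`. (2) `{N + r}! / ({N - 1 - r}! {N}) =
toK (X ^ (2 r) * PT N r)` for `r < N` (as in `CYF.lean`). (3) By `GMK`, for `j < N`,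
`Ck N k j = ∑_{r = j}^{N-1} (-1)^j ph sQ k r {r}!² {N + r}! {2 j + 1} /
({N - 1 - r}! {N} {r - j}! {r + j + 1}!)` (the powers of `s` and the signs `(-1)^(N-1)` cancel;
`qn a / qn b = {a} / {b}`) `= ∑_r (-1)^r toK (PT N r * FU k r * gC r j)`. Exchange the sums. -/
def CYK_Stmt : Prop :=
  ∀ (k : ℤ) (N : ℕ), 1 ≤ N → ∀ y : ℕ → ℚ⟦X⟧,
    toK (cyk k N y) = ∑ j ∈ Finset.range N, Ck N k j * toK (y j)

/-- The coefficient of `X ^ m` in `y j` is a polynomial of degree `≤ m` in `j (j + 1)`, and the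
coefficients of `(j (j + 1)) ^ m` are those of `σ`. -/
def SymJ (y : ℕ → ℚ⟦X⟧) (σ : ℚ⟦X⟧) : Prop :=
  ∀ m : ℕ, ∃ p : Polynomial ℚ, p.natDegree ≤ m ∧ p.coeff m = coeff m σ ∧
    ∀ j : ℕ, coeff m (y j) = p.eval ((j : ℚ) * (j + 1))

/-- SJM: operations.

Proof. Products: `coeff m (y j * y' j) = ∑_{a + b = m} coeff a (y j) * coeff b (y' j)`. `E (2 j (j+1) t)`:
`coeff m = (2 t)^m (j (j+1))^m / m!`, `coeff m (E (2 t)) = (2 t)^m / m!`. `J (2 j + 1)`: if the coefficient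
of `X^m` in `J M` is `p (M)` for all odd `M`, `natDegree p ≤ m`, `p` even, then with `M² = 4 j (j+1) + 1` it
is a polynomial of degree `≤ m / 2` in `j (j + 1)`; its coefficient of index `m` is `0` for `m > 0`. -/
def SJM_Stmt : Prop :=
  (∀ (y y' : ℕ → ℚ⟦X⟧) (σ σ' : ℚ⟦X⟧), SymJ y σ → SymJ y' σ' →
    SymJ (fun j => y j * y' j) (σ * σ')) ∧
  (∀ t : ℚ, SymJ (fun j => E (2 * j * (j + 1) * t)) (E (2 * t))) ∧
  (∀ (J : ℕ → ℚ⟦X⟧), (∀ m : ℕ, ∃ p : Polynomial ℚ, 2 * p.natDegree ≤ m ∧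
    ∀ M : ℕ, Odd M → coeff m (J M) = p.eval ((M : ℚ) ^ 2)) → constantCoeff (J 1) = 1 →
    SymJ (fun j => J (2 * j + 1)) 1)

/-- DIV: divisibility of the coefficients of the cyclotomic form (uses `SJM`, `SG0`).

Proof. Induction on `i` for all `y`, `σ`. `i = 0`: `gC 0 0 = 1`, `coeff 0 (y 0) = coeff 0 σ`. Let
`1 ≤ i`. `FF 1 i = 0` (`SG0`), so `FF y i = ∑_{j < i} gC i j (y j - y i)`. Here
`y j - y i = -(X (i - j) (i + j + 1) y' j)` with `SymJ y' σ'`, `σ = C (coeff 0 σ) + X σ'` (divide the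
polynomials `p (a) - p (b)` by `a - b`, `a = j (j+1)`, `b = i (i+1)`; the polynomial for `m = 0` is
constant). Let `w a` (`a : ℚ`) be the inverse of the series `mk fun n => if Even n then
a^n / (n+1)! else 0`, so that `w a * b1 a = C (2 a)`, and `u j = w (i - j) * w (i + j + 1)`; then
`4 (i - j) (i + j + 1) = u j * b1 (i - j) * b1 (i + j + 1)`. `SymJ u 1`: the coefficient of `X^n` in `w a`
is `ω n * a^n` with `ω n = 0` for odd `n`; so the coefficient of `X^m` in `u j` is `P (2 j + 1)` for the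
polynomial `P = ∑_{n + n' = m} ω n ω n' ((c - T)/2)^n ((c + T)/2)^n'`, `c = 2 i + 1`, of degree `≤ m`,
`P (-T) = P T`, hence `P = Q (T²)`, `2 natDegree Q ≤ m`, and `(2 j + 1)² = 4 j (j+1) + 1` (third part of
`SJM` for a suitable `J`, or its proof). With `b1 (i - j) * b1 (i + j + 1) * gC i j =
b1 i * gC (i - 1) j` for `j < i` (`gC_mul`, `uF_succ`), `FF y i = -(X b1 i / 4) *
FF (fun j => u j * y' j) (i - 1)`. By induction (`SJM`) `X^(i-1)` divides the last factor, whose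
coefficient of index `i - 1` is `(-1/2)^(i-1) (i-1)! coeff (i-1) σ'`, and `coeff 0 (b1 i) = 2 i`. -/
def DIV_Stmt : Prop :=
  ∀ (y : ℕ → ℚ⟦X⟧) (σ : ℚ⟦X⟧), SymJ y σ → ∀ i : ℕ, X ^ i ∣ FF y i ∧
    coeff i (FF y i) = (-1 / 2) ^ i * (i.factorial : ℚ) * coeff i σ

/-- FUN: the coefficients of `k` full twists (uses `SJM`, `DIV`).

Proof: `SymJ (fun j => E (2 j (j + 1) k)) (E (2 k))`, `coeff i (E (2 k)) = (2 k)^i / i!`. -/
def FUN_Stmt : Prop :=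
  ∀ (k : ℤ) (i : ℕ), X ^ i ∣ FU k i ∧ coeff i (FU k i) = (-(k : ℚ)) ^ i

/-- FU1: the first coefficients (uses `SG0`, `GCV`).

Proof. `FU k 1 = gC 1 1 * (E (4 k) - 1)`, `gC 1 1 = -1/4 + X²/6 + …`. -/
def FU1_Stmt : Prop :=
  ∀ k : ℤ, coeff 0 (FU k 1) = 0 ∧ coeff 1 (FU k 1) = -(k : ℚ) ∧ coeff 2 (FU k 1) = -(2 * (k : ℚ) ^ 2) ∧
    coeff 3 (FU k 1) = 2 / 3 * (k : ℚ) - 8 / 3 * (k : ℚ) ^ 3

/-- LDK: the expansion of the cyclotomic form (uses `SG0`, `GCV`, `FUN`, `FU1`).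

Proof. As `t_LDC` (`WD2/LDC.lean`). Let `w j = y j - 1`, divisible by `X^δ`, `w 0 = 0`. By `SG0`
`J N - 1 = ∑_{i ≥ 1} T i`, `T i = (-1)^i PT N i * FU k i * ∑_{j ≤ i} gC i j w j` (extend the sum to
`i < N + 4`, `PT_of_le`), divisible by `X^(δ + i)` (`FUN`); modulo `X^(δ+4)` only `i = 1, 2, 3` matter.
`T 3`: the coefficient of `X^(δ+3)` is a multiple of `-3/320 α + 1/192 (3 α) - 1/960 (6 α) = 0`. `T 2`:
`gC 2 1 w 1 + gC 2 2 w 2 = X^δ (0 + (β₂ - 3 β)/48 X + …)`, `FU k 2 = k² X² + …`,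
`PT N 2 = 16 (N²-1)(N²-4) + O(X²)`, so `T 2 = (N²-1)(N²-4) k² (β₂ - 3 β)/3 X^(δ+3) + …`.
`T 1 = -X^δ (4 (N²-1) + (4/3)(N⁴-1) X²) (-k X - 2 k² X² + (2 k/3 - 8 k³/3) X³) (-1/4 + X²/6)
(α + β X + γ X²)`. Result: `x = -k α`, `z = -k (β + 2 k α)`, `u = -k α / 3 + k² (β₂ - 3 β) / 3`,
`v = -k (γ + 2 k β + ((8/3) k² - 1) α) - 4 k² (β₂ - 3 β) / 3`. -/
def LDK_Stmt : Prop :=
  ∀ (k : ℤ) (δ : ℕ) (α β γ β₂ : ℚ) (y J : ℕ → ℚ⟦X⟧), (∀ N : ℕ, 1 ≤ N → J N = cyk k N y) →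
    y 0 = 1 → (∀ j, X ^ δ ∣ y j - 1) →
    X ^ (δ + 3) ∣ y 1 - (1 + C α * X ^ δ + C β * X ^ (δ + 1) + C γ * X ^ (δ + 2)) →
    X ^ (δ + 2) ∣ y 2 - (1 + C (3 * α) * X ^ δ + C β₂ * X ^ (δ + 1)) →
    X ^ (δ + 1) ∣ y 3 - (1 + C (6 * α) * X ^ δ) →
    ∃ z v : ℚ, LdE (δ + 1) (-((k : ℚ) * α)) z
      (-((k : ℚ) * α) / 3 + (k : ℚ) ^ 2 * (β₂ - 3 * β) / 3) v J

/-- LDF: the leading terms of a generalised double (uses `SG0`, `LDK`).

Proof. As `t_LDD` (`WD2/LDD.lean`). `y j = E (2 j (j+1) t) J (2 j + 1)`. (1) `t ≠ 0`: there are `a`, `b`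
with `X^4 ∣ J M - (1 + C (a (M²-1)) X² + C (b (M²-1)) X³)` for all `M ≥ 1` (trivial: `a = b = 0`; `d = 2`:
`a = x`, `b = z`; `d = 3`: `a = 0`, `b = x`; `d ≥ 4`: `a = b = 0`). `LDK` with `δ = 1`, `α = 4 t`,
`β = 8 t² + 8 a`, `γ = 32 t³ / 3 + 32 t a + 8 b`, `β₂ = 72 t² + 24 a`: `x' = -4 k t`,
`u' = x'/3 + 16 k² t² = x'/3 + x'²`, `d' = 2`, `x' ≠ 0`. (2) `t = 0`, `J` trivial: `y = 1` for the odd
numbers, `J' N = cyk k N 1 = 1` by `SG0` (`FU k 0 = 1`). (3) `t = 0`, `LdE d x z u v J`, `x ≠ 0`,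
`2 ≤ d`: `LDK` with `δ = d`, `α = 8 x`, `β = 8 z`, `γ = 8 (9 u + v)`, `β₂ = 24 z`: `d' = d + 1 ≥ 3`,
`x' = -8 k x`, `u' = x'/3`. The last claim (for `t ≠ 0`) is what case (1) shows. -/
def LDF_Stmt : Prop :=
  ∀ (k t : ℤ), k ≠ 0 → ∀ (J J' : ℕ → ℚ⟦X⟧), J 1 = 1 → Inf J →
    (∀ N : ℕ, 1 ≤ N → J' N = cyk k N (yt t J)) →
    InfD J' ∧ (t ≠ 0 → ∃ z u v : ℚ, LdE 2 (-(4 * (k : ℚ) * t)) z u v J') ∧
      (t = 0 → Triv J → Triv J') ∧
      (t = 0 → ∀ (d : ℕ) (x z u v : ℚ), LdE d x z u v J → 2 ≤ d →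
        ∃ z' v' : ℚ, LdE (d + 1) (-(8 * (k : ℚ) * x)) z' (-(8 * (k : ℚ) * x) / 3) v' J')

/-- PLK: the coefficients of the cyclotomic form are polynomials in `N` (uses `FUN`).

Proof. As `t_PLD` (`WD2/PLD.lean`): the coefficient of `X^r` in `cyk k N y` is the sum over `i ≤ r`
(terms with `i > r` are divisible by `X^(r+1)` by `FUN`; for `N ≤ i ≤ r` the term vanishes,
`PT_of_le`), and the coefficients of `PT N i * h` for a fixed series `h` are polynomials in `N`. -/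
def PLK_Stmt : Prop :=
  ∀ (k : ℤ) (y J : ℕ → ℚ⟦X⟧), (∀ N : ℕ, 1 ≤ N → J N = cyk k N y) → PolyC J

/-- `K'` is the generalised double of `K` with `k` full twists in the place of the clasp and framing
`t`, as far as the coloured Jones polynomials are concerned. -/
def DK (JS : ℕ → SKnot → ℚ⟦X⟧) (k t : ℤ) (K' K : SKnot) : Prop :=
  ∀ N : ℕ, 1 ≤ N → JS N K' = cyk k N (yt t (fun n => JS n K))

/-- ADK: the formula holds for the doubles of all diagrams (uses `CYK`).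

Proof. As `t_ADX` (`WD2/ADX.lean`). `JS 1 K = 1`: every knot is `ofDiag (cl n w) _` by the hypothesis on
closed braids (`Quot.ind`, `EqD.knot`), `ADX.one_eq`. For a long `D` take `n`, `w` with
`EqD 1 D (cl n w)` and `c` from the hypothesis on equivalent diagrams (it is `Top.dbk` of
`WD3/Top.lean`): `gdouble k m D ~ gdouble k (m + c) (cl n w)` for all `k`, `m` (so the latter is a long
knot and both give the same knot, `EqD.knot`); `b = c + wr w`; `DblK`, `CYK` and the injectivity of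
`toK` (`ADX.toK_inj`). Last claim: the same with `D = [] = cl 0 []`, `wr [] = 0`. -/
def ADK_Stmt : Prop :=
  ∀ (M : CommMonoid Knot) (cb : ℕ → ℤ → Knot → Knot) (v : ℕ → Knot → ℚ⟦X⟧)
    (JS : ℕ → SKnot → ℚ⟦X⟧), Ops M cb → VOk M cb v → JOk v JS → DblK JS →
    (∀ D : Diag, IsLongKnot D → ∃ (n : ℕ) (w : Word), Bd n w ∧ LibH11.IsKnot (ev n w) ∧
      EqD 1 D (cl n w)) →
    (∀ w w' : Diag, EqD 1 w w' → IsLongKnot w →
      ∃ c : ℤ, ∀ k m : ℤ, EqD 1 (gdouble k m w) (gdouble k (m + c) w')) →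
    (∀ K, JS 1 K = 1) ∧
      (∀ (D : Diag) (hD : IsLongKnot D), ∃ b : ℤ, ∀ (k m : ℤ)
        (hd : IsLongKnot (gdouble k m D)),
        DK JS k (m + b) (ofDiag (gdouble k m D) hd) (ofDiag D hD)) ∧
      ∀ (h0 : IsLongKnot []) (k m : ℤ) (hd : IsLongKnot (gdouble k m [])),
        DK JS k m (ofDiag (gdouble k m []) hd) (ofDiag [] h0)

end Pool.Agent.WD3
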