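import Pool.Agent.WD3.Defs
import Pool.Agent.WD.DBE
import Pool.Agent.WD.DBM
import Pool.Agent.WD.SLD
import Pool.Agent.WD.HTP
import Pool.Agent.WD.LAB
import Pool.Agent.WD.PRT
import Pool.Agent.WD.LKD
import Pool.Agent.TwoBr.Rev

/-!
# Generalised doubles: topology

The doubles of a long knot are long knots, they depend only on the knot, `k` and the number of twists
up to a shift, the doubles of the trivial knot are symmetric in `k` and `m`.
-/

set_option autoImplicit false

namespace Pool.Agent.WD3

open Pool.Agent.LibH11 Pool.Agent.IT Pool.Agent.GK Pool.Agent.TwoBr Pool.Agent.WD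
open Pool.Agent.LibH11.Sliced

namespace Top

theorem run_clasps (b : Bool) (k n c : ℕ) (lab : ℕ → ℕ) (w : Diag) (h : 3 ≤ n) :
    run (List.replicate (2 * k) (Kind.crs b, 1) ++ w) (n, lab, c) = run w (n, lab, c) := by
  induction k with
  | zero => rfl
  | succ k ih =>
    have e : 2 * (k + 1) = 2 * k + 1 + 1 := by ring
    rw [e, List.replicate_succ, List.replicate_succ, List.cons_append, List.cons_append,
      LKD.two_crs b 1 n c lab _ (by omega), ih]

/-- the doubles `k`, `m` with the same number of twists have the same labels -/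
theorem run_gdouble {D : Diag} (hD : cnt 1 D = some 1) (k m : ℤ) :
    run (gdouble k m D) start = run (double true m D) start := by
  have h2 : cnt 3 (para D ++ twists m) = some 3 := by
    have h1 : cnt (2 + 1) (para D) = some (2 + 1) := cnt_widen 1 _ _ _ (cnt_para D 1 1 hD)
    rw [cnt_app h1]
    exact cnt_twists m 1
  have key : ∀ w : Diag, run (((.cup, 1) : Kind × ℕ) :: (para D ++ twists m ++ w)) start =
      (run (((.cup, 1) : Kind × ℕ) :: (para D ++ twists m)) start).bind (run w) := by
    intro w
    rw [← List.cons_append, run_append]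
  unfold gdouble double
  rw [List.append_assoc, key, key]
  cases hr : run (((.cup, 1) : Kind × ℕ) :: (para D ++ twists m)) start with
  | none => rfl
  | some s =>
    obtain ⟨n, lab, c⟩ := s
    have hn : cnt 1 (((.cup, 1) : Kind × ℕ) :: (para D ++ twists m)) = some n :=
      Sliced.run_cnt _ start _ hr
    have hn2 : cnt 1 (((.cup, 1) : Kind × ℕ) :: (para D ++ twists m)) = some 3 := by
      have h0 : cnt 1 [((.cup, 1) : Kind × ℕ)] = some 3 := rfl
      rw [← List.singleton_append, cnt_app h0, h2]
    have h3 : n = 3 := by
      rw [hn] at hn2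
      exact Option.some.inj hn2
    subst h3
    simp only [Option.bind_some]
    unfold clasps
    rw [run_clasps _ _ _ _ _ _ le_rfl]
    rw [show ([(.crs true, 1), (.crs true, 1), (.cap, 0)] : Diag) =
      (.crs true, 1) :: (.crs true, 1) :: [(.cap, 0)] from rfl,
      LKD.two_crs true 1 3 c lab _ (by omega)]

/-- the generalised doubles of a long knot are long knots -/
theorem long_g {D : Diag} (hD : IsLongKnot D) (k m : ℤ) : IsLongKnot (gdouble k m D) := by
  have h := t_LKD D hD true m
  rw [Sliced.isLongKnot_iff] at h ⊢
  rw [run_gdouble (DBE.cnt_lk hD) k m]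
  exact h

theorem cnt_clasps (k : ℤ) : cnt 3 (clasps k) = some 3 := by
  have h := cnt_sh 1 (twists k) 2
  rw [cnt_twists k 0] at h
  have e : sh 1 (twists k) = clasps k := by
    unfold twists clasps sh
    rw [List.map_replicate]
  rw [e] at h
  exact h

/-- equivalent long knots have equivalent generalised doubles, up to the number of twists -/
theorem dbk {w w' : Diag} (h : EqD 1 w w') (hw : IsLongKnot w) :
    ∃ c : ℤ, ∀ k m : ℤ, EqD 1 (gdouble k m w) (gdouble k (m + c) w') := by
  obtain ⟨c, hc⟩ := DBE.main t_DBM (t_SLD t_HTP (t_LAB t_HTP) t_PRT) h hw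
  refine ⟨c, fun k m => ?_⟩
  have k1 := (hc m).widen 1
  have k2 := k1.ctx (N := 1) [(.cup, 1)] (clasps k ++ [(.cap, 0)]) rfl (by
    have h0 : cnt 1 [((.cup, 1) : Kind × ℕ)] = some 3 := rfl
    rw [List.append_assoc, cnt_app h0]
    have h1 : cnt 3 (para w) = some 3 := cnt_widen 1 _ _ _ (DBE.cnt_p hw)
    rw [List.append_assoc, cnt_app h1, cnt_app (cnt_twists m 1), cnt_app (cnt_clasps k)]
    decide)
  unfold gdouble
  simp only [List.append_assoc, List.cons_append, List.nil_append] at k2 ⊢
  exact k2

/-- a generalised double of the trivial diagram as a 2-bridge diagram -/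
theorem nil_KW (k m : ℤ) : gdouble k m [] = KW
    (List.replicate (2 * m.natAbs) ((0 : Fin 2), decide (0 < m)) ++
      List.replicate (2 * k.natAbs) ((1 : Fin 2), decide (0 < k))) := by
  unfold gdouble KW twists clasps
  rw [bw_append]
  simp [bw, para, List.map_replicate]

/-- The doubles of the trivial diagram are symmetric. -/
theorem swap_nil (k m : ℤ) : EqD 1 (gdouble k m []) (gdouble m k []) := by
  rw [nil_KW, nil_KW]
  have h := rev_KW (List.replicate (2 * m.natAbs) ((0 : Fin 2), decide (0 < m)) ++
      List.replicate (2 * k.natAbs) ((1 : Fin 2), decide (0 < k)))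
  have e : rho (List.replicate (2 * m.natAbs) ((0 : Fin 2), decide (0 < m)) ++
      List.replicate (2 * k.natAbs) ((1 : Fin 2), decide (0 < k))) =
      List.replicate (2 * k.natAbs) ((0 : Fin 2), decide (0 < k)) ++
      List.replicate (2 * m.natAbs) ((1 : Fin 2), decide (0 < m)) := by
    unfold rho
    simp [List.map_append, List.map_replicate]
  rw [e] at h
  exact h

/-- The doubles without twists of the trivial diagram are trivial. -/
theorem nil_zero (k : ℤ) : EqD 1 (gdouble k 0 []) [] := by
  have key : ∀ (b : Bool) (n : ℕ), EqD 1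
      (((.cup, 1) : Kind × ℕ) :: (List.replicate n (Kind.crs b, 1) ++ [(.cap, 0)])) [] := by
    intro b n
    induction n with
    | zero => exact EqD.move (Move.zagzig 0) (by simp only [List.replicate_zero, List.nil_append]; decide) (by decide)
    | succ n ih =>
      refine EqD.trans ?_ ih
      have h1 : EqD 1 [(.cup, 1), (Kind.crs b, 1)] [((.cup, 1) : Kind × ℕ)] :=
        EqD.move (Move.r1Cup 1 b) (by cases b <;> decide) (by decide)
      have h2 := h1.right (List.replicate n (Kind.crs b, 1) ++ [(.cap, 0)]) (by
        have h3 : cnt 1 [((.cup, 1) : Kind × ℕ), (Kind.crs b, 1)] = some 3 := by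
          cases b <;> rfl
        have h4 : ∀ n : ℕ, cnt 3 (List.replicate n (Kind.crs b, 1)) = some 3 := by
          intro n
          induction n with
          | zero => rfl
          | succ n ih =>
            have h5 : cnt 3 [((Kind.crs b, 1) : Kind × ℕ)] = some 3 := cnt_crs (by omega)
            rw [List.replicate_succ, ← List.singleton_append, cnt_app h5, ih]
        rw [cnt_app h3, cnt_app (h4 n)]
        decide)
      exact h2
  exact key _ _

end Top

end Pool.Agent.WD3
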