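import Pool.Agent.WD3.Cls
import Pool.Agent.WD3.StI
import Pool.Agent.WD3.Top
import Pool.Agent.WD2.Asm

/-!
# Iterated generalised doubles: the induction
-/

set_option autoImplicit false

namespace Pool.Agent.WD3

open Pool.Agent.LibH11 Pool.Agent.IT Pool.Agent.GK Pool.Agent.TwoBr Pool.Agent.WD Pool.Agent.WD2
open Pool.Agent.LibH11.Sliced (Diag Kind cnt IsLongKnot ofDiag braidWord)
open Pool.Agent.WD2.Asm (Odds Sep eqd_of_knot Odds.symm Sep.symm Sep.congr inf_of)
open scoped BigOperators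
open PowerSeries

/-- `J` is trivial in odd dimensions. -/
def OddT (J : ℕ → ℚ⟦X⟧) : Prop := ∀ N : ℕ, Odd N → J N = 1

/-- The comparison of two generalised doubles, for companions with the property `P`. -/
def CmpP (P : (ℕ → ℚ⟦X⟧) → Prop) : Prop :=
  ∀ (k k' t t' : ℤ) (J J' : ℕ → ℚ⟦X⟧), k ≠ 0 → k' ≠ 0 → P J → P J' →
    (∀ N : ℕ, 1 ≤ N → cyk k N (yt t J) = cyk k' N (yt t' J')) →
    (k = k' ∧ t = t' ∧ ∀ N : ℕ, Odd N → J N = J' N) ∨
    (OddT J ∧ OddT J' ∧ ((t = 0 ∧ t' = 0) ∨ (k' = t ∧ t' = k)))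

/-- The property `P` passes to generalised doubles. -/
def DblP (P : (ℕ → ℚ⟦X⟧) → Prop) : Prop :=
  ∀ (k t : ℤ) (J J' : ℕ → ℚ⟦X⟧), k ≠ 0 → P J →
    (∀ N : ℕ, 1 ≤ N → J' N = cyk k N (yt t J)) → P J' ∧ InfD J'

namespace Asm

/-- Diagrams of the knots of the class: closed braids of graph knots, and doubles. -/
inductive Cls : ℕ → Diag → Prop
  | graph (n : ℕ) (w : Word) (hw : Bd n w) (h : LibH11.IsKnot (ev n w))
      (hg : GraphKnot (closure (ev n w) h)) : Cls 0 (cl n w)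
  | double (d : ℕ) (k : ℤ) (hk : k ≠ 0) (m : ℤ) (D : Diag) (hD : Cls d D) :
      Cls (d + 1) (gdouble k m D)

theorem Cls.long (hL : LKC_Stmt) {d : ℕ} {D : Diag} (h : Cls d D) : IsLongKnot D := by
  induction h with
  | graph n w hw h hg => exact hL n w hw h
  | double d k hk m D hD ih => exact Top.long_g ih k m

theorem cls_nil : Cls 0 [] := Cls.graph 0 [] (bd_nil 0) (isKnot_zero 1) GraphKnot.unknot

/-- a knot of the class has a diagram of the class -/
theorem exists_cls {K : SKnot} (hK : IsIterated K) :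
    ∃ (d : ℕ) (D : Diag) (h : IsLongKnot D), Cls d D ∧ K = ofDiag D h := by
  induction hK with
  | graph n w hw h hg hl => exact ⟨0, _, hl, Cls.graph n w hw h hg, rfl⟩
  | double k hk m D hD hK hl ih =>
    obtain ⟨d, D1, h1, hc, he⟩ := ih
    obtain ⟨c, hc1⟩ := Top.dbk (eqd_of_knot he) hD
    exact ⟨d + 1, _, (hc1 k m).isLongKnot hl, Cls.double d k hk (m + c) D1 hc, (hc1 k m).knot hl⟩

/-- What is used about the coloured Jones polynomials. -/
structure Ctx (P : (ℕ → ℚ⟦X⟧) → Prop) (JS : ℕ → SKnot → ℚ⟦X⟧) : Prop where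
  cmp : CmpP P
  dbl : DblP P
  pol : ∀ J, P J → PolyC J
  adk : ∀ (D : Diag) (hD : IsLongKnot D), ∃ b : ℤ, ∀ (k m : ℤ)
    (hd : IsLongKnot (gdouble k m D)), DK JS k (m + b) (ofDiag (gdouble k m D) hd) (ofDiag D hD)
  adn : ∀ (h0 : IsLongKnot []) (k m : ℤ) (hd : IsLongKnot (gdouble k m [])),
    DK JS k m (ofDiag (gdouble k m []) hd) (ofDiag [] h0)
  grp : ∀ (n : ℕ) (w : Word) (h : LibH11.IsKnot (ev n w)) (hl : IsLongKnot (cl n w)), Bd n w →
    GraphKnot (closure (ev n w) h) → P (fun N => JS N (ofDiag (cl n w) hl))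
  gri : ∀ (n : ℕ) (w : Word) (h : LibH11.IsKnot (ev n w)) (hl : IsLongKnot (cl n w)), Bd n w →
    GraphKnot (closure (ev n w) h) → PolyC (fun N => JS N (ofDiag (cl n w) hl)) ∧
    ((closure (ev n w) h = unknot ∧ Triv (fun N => JS N (ofDiag (cl n w) hl))) ∨
    (((∃ ht : LibH11.IsKnot (ev 1 [(0, true), (0, true), (0, true)]),
        closure (ev n w) h = closure (ev 1 [(0, true), (0, true), (0, true)]) ht) ∨
      (∃ ht : LibH11.IsKnot (ev 1 [(0, false), (0, false), (0, false)]),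
        closure (ev n w) h = closure (ev 1 [(0, false), (0, false), (0, false)]) ht)) ∧
      ∃ x z u v' : ℚ, LdE 2 x z u v' (fun N => JS N (ofDiag (cl n w) hl)) ∧ x ≠ 0 ∧
        u = x / 3 + x ^ 2) ∨
    ∃ x z u v' : ℚ, LdE 2 x z u v' (fun N => JS N (ofDiag (cl n w) hl)) ∧ x < 0 ∧
      u < x / 3 + x ^ 2)
  nil : ∀ h0 : IsLongKnot [], ∀ N : ℕ, 1 ≤ N → JS N (ofDiag [] h0) = 1
  ggo : ∀ (n n' : ℕ) (w w' : Word) (h : LibH11.IsKnot (ev n w)) (h' : LibH11.IsKnot (ev n' w'))
      (hl : IsLongKnot (cl n w)) (hl' : IsLongKnot (cl n' w')), Bd n w → Bd n' w' →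
    GraphKnot (closure (ev n w) h) → GraphKnot (closure (ev n' w') h') →
    (∀ N : ℕ, Odd N → JS N (ofDiag (cl n w) hl) = JS N (ofDiag (cl n' w') hl')) →
    closure (ev n w) h = closure (ev n' w') h'

/-- The statements of modules of `WD`, `WD2`. -/
structure Mods : Prop where
  plx : PLX_Stmt
  gvd : GVD_Stmt
  mrk : MRK_Stmt
  lkc : LKC_Stmt

section Main

variable {P : (ℕ → ℚ⟦X⟧) → Prop} {JS : ℕ → SKnot → ℚ⟦X⟧}

theorem p_double (c : Ctx P JS) {D : Diag} (hD : IsLongKnot D)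
    (hI : P (fun N => JS N (ofDiag D hD))) {k : ℤ} (hk : k ≠ 0) (m : ℤ)
    (hd : IsLongKnot (gdouble k m D)) :
    P (fun N => JS N (ofDiag (gdouble k m D) hd)) ∧
      InfD (fun N => JS N (ofDiag (gdouble k m D) hd)) := by
  obtain ⟨b, hb⟩ := c.adk D hD
  exact c.dbl k (m + b) _ _ hk hI (hb k m hd)

/-- The property `P` for the class. -/
theorem p_all (c : Ctx P JS) (M : Mods) {d : ℕ} {D : Diag} (h : Cls d D) :
    ∀ hD : IsLongKnot D, P (fun N => JS N (ofDiag D hD)) := by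
  induction h with
  | graph n w hw h hg =>
    intro hD
    exact c.grp n w h hD hw hg
  | double d k hk m D hD ih =>
    intro hd
    have hl := hD.long M.lkc
    exact (p_double c hl (ih hl) hk m hd).1

/-- equality for all dimensions -/
theorem all_eq (c : Ctx P JS) (M : Mods) {d d' : ℕ} {D D' : Diag} (h : Cls d D) (h' : Cls d' D')
    (hD : IsLongKnot D) (hD' : IsLongKnot D') (hs : Odds JS (ofDiag D hD) (ofDiag D' hD')) :
    ∀ N : ℕ, 1 ≤ N → JS N (ofDiag D hD) = JS N (ofDiag D' hD') :=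
  M.plx _ _ (c.pol _ (p_all c M h hD)) (c.pol _ (p_all c M h' hD')) hs

/-- the framing is determined -/
theorem twist_eq (c : Ctx P JS) {k : ℤ} (hk : k ≠ 0) {t t' : ℤ} {K1 K K1' K' : SKnot}
    (hK : P (fun N => JS N K)) (hK' : P (fun N => JS N K')) (h : DK JS k t K1 K)
    (h' : DK JS k t' K1' K') (he : K1 = K1') : t = t' := by
  have h1 : ∀ N : ℕ, 1 ≤ N → cyk k N (yt t (fun n => JS n K)) =
      cyk k N (yt t' (fun n => JS n K')) := by
    intro N hN
    rw [← h N hN, ← h' N hN, he]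
  rcases c.cmp k k t t' _ _ hk hk hK hK' h1 with ⟨-, h2, -⟩ | ⟨-, -, h2 | h2⟩
  · exact h2
  · omega
  · omega

/-- two doubles of equivalent diagrams -/
theorem same (c : Ctx P JS) (M : Mods) {d d' : ℕ} {D D' : Diag} (h : Cls d D) (h' : Cls d' D')
    (hE : EqD 1 D D') {k : ℤ} (hk : k ≠ 0) (m m' t : ℤ) (hd : IsLongKnot (gdouble k m D))
    (hd' : IsLongKnot (gdouble k m' D')) (hD : IsLongKnot D) (hD' : IsLongKnot D')
    (hF : DK JS k t (ofDiag (gdouble k m D) hd) (ofDiag D hD))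
    (hF' : DK JS k t (ofDiag (gdouble k m' D') hd') (ofDiag D' hD')) :
    EqD 1 (gdouble k m D) (gdouble k m' D') := by
  obtain ⟨a, ha⟩ := Top.dbk hE hD
  have hd2 := (ha k m).isLongKnot hd
  obtain ⟨b', hb'⟩ := c.adk D' hD'
  have hJ := p_all c M h hD
  have hJ' := p_all c M h' hD'
  have h1 : t = m + a + b' := twist_eq c hk hJ hJ' hF (hb' k (m + a) hd2) ((ha k m).knot hd)
  have h2 : t = m' + b' := twist_eq c hk hJ' hJ' hF' (hb' k m' hd') rfl
  have hm : m + a = m' := by omega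
  rw [← hm]
  exact ha k m

theorem long_nil (M : Mods) : IsLongKnot [] := M.lkc 0 [] (bd_nil 0) (isKnot_zero 1)

/-- two doubles -/
theorem dd (c : Ctx P JS) (M : Mods) {d d' : ℕ} {D D' : Diag} (h : Cls d D) (h' : Cls d' D')
    (h0 : Sep JS D D') (h1 : Sep JS D []) (h2 : Sep JS [] D') {k k' : ℤ} (hk : k ≠ 0)
    (hk' : k' ≠ 0) (m m' : ℤ) : Sep JS (gdouble k m D) (gdouble k' m' D') := by
  intro hd hd' hs
  have hD := h.long M.lkc
  have hD' := h'.long M.lkc
  have hn := long_nil M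
  obtain ⟨b, hb⟩ := c.adk D hD
  obtain ⟨b', hb'⟩ := c.adk D' hD'
  have hall := all_eq c M (Cls.double d k hk m D h) (Cls.double d' k' hk' m' D' h') hd hd' hs
  have hc : ∀ N : ℕ, 1 ≤ N → cyk k N (yt (m + b) (fun n => JS n (ofDiag D hD))) =
      cyk k' N (yt (m' + b') (fun n => JS n (ofDiag D' hD'))) := by
    intro N hN
    rw [← hb k m hd N hN, ← hb' k' m' hd' N hN]
    exact hall N hN
  have hu := c.nil hn
  rcases c.cmp k k' _ _ _ _ hk hk' (p_all c M h hD) (p_all c M h' hD') hc with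
    ⟨rfl, ht, ho⟩ | ⟨hT, hT', hc2⟩
  · have hE : EqD 1 D D' := h0 hD hD' ho
    have hF' := hb' k m' hd'
    rw [← ht] at hF'
    exact same c M h h' hE hk m m' (m + b) hd hd' hD hD' (hb k m hd) hF'
  · have hE : EqD 1 D [] := h1 hD hn fun N hN => (hT N hN).trans (hu N hN.pos).symm
    have hE' : EqD 1 D' [] := (h2 hn hD' fun N hN => (hu N hN.pos).trans (hT' N hN).symm).symm
    have hg : IsLongKnot (gdouble k (m + b) []) := Top.long_g hn _ _
    have hg' : IsLongKnot (gdouble k' (m' + b') []) := Top.long_g hn _ _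
    have a1 : EqD 1 (gdouble k m D) (gdouble k (m + b) []) :=
      same c M h cls_nil hE hk m (m + b) (m + b) hd hg hD hn (hb k m hd) (c.adn hn k (m + b) hg)
    have a2 : EqD 1 (gdouble k' m' D') (gdouble k' (m' + b') []) :=
      same c M h' cls_nil hE' hk' m' (m' + b') (m' + b') hd' hg' hD' hn (hb' k' m' hd')
        (c.adn hn k' (m' + b') hg')
    refine a1.trans (EqD.trans ?_ a2.symm)
    rcases hc2 with ⟨e1, e2⟩ | ⟨e1, e2⟩
    · rw [e1, e2]
      exact (Top.nil_zero k).trans (Top.nil_zero k').symm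
    · rw [e2, ← e1]
      exact Top.swap_nil k k'

theorem gd_pos (m : ℤ) (D : Diag) : gdouble 1 m D = double true m D := by
  unfold gdouble double clasps
  simp [List.replicate]

theorem gd_neg (m : ℤ) (D : Diag) : gdouble (-1) m D = double false m D := by
  unfold gdouble double clasps
  simp [List.replicate]

/-- a graph knot and a double -/
theorem gd (c : Ctx P JS) (M : Mods) {n : ℕ} {w : Word} (hw : Bd n w)
    (hk : LibH11.IsKnot (ev n w)) (hg : GraphKnot (closure (ev n w) hk)) {d : ℕ} {D : Diag}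
    (h : Cls d D) (h0 : Sep JS [] D) (h1 : Sep JS [] []) {k : ℤ} (hk0 : k ≠ 0) (m : ℤ) :
    Sep JS (cl n w) (gdouble k m D) := by
  intro hl hd hs
  obtain ⟨-, hc⟩ := c.gri n w hk hl hw hg
  rcases hc with ⟨hu, -⟩ | ⟨⟨ht, hu⟩ | ⟨ht, hu⟩, -⟩ | ⟨x, z, u, v', hx, hx0, hu⟩
  · have hE := (M.mrk n 0 w [] hw (bd_nil 0) hk (isKnot_zero 1) hu).trans
      (Top.nil_zero 1).symm
    exact Sep.congr hE (dd c M cls_nil h h0 h1 h0 one_ne_zero hk0 0 m) hl hd hs
  · have hE := (M.mrk n 1 w _ hw (by intro x hx; simp at hx; simp [hx]) hk ht hu).trans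
      trefoil_false.symm
    rw [← gd_neg] at hE
    exact Sep.congr hE (dd c M cls_nil h h0 h1 h0 (by norm_num) hk0 (-1) m) hl hd hs
  · have hE := (M.mrk n 1 w _ hw (by intro x hx; simp at hx; simp [hx]) hk ht hu).trans
      trefoil_true.symm
    rw [← gd_pos] at hE
    exact Sep.congr hE (dd c M cls_nil h h0 h1 h0 one_ne_zero hk0 1 m) hl hd hs
  · exfalso
    have hD := h.long M.lkc
    have hall := all_eq c M (Cls.graph n w hw hk hg) (Cls.double d k hk0 m D h) hl hd hs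
    have hx' : LdE 2 x z u v' (fun N => JS N (ofDiag (gdouble k m D) hd)) := by
      intro N hN
      have h3 := hx N hN
      simp only at h3 ⊢
      rw [← hall N hN]
      exact h3
    exact M.gvd _ x z u v' (p_double c hD (p_all c M h hD) hk0 m hd).2 hx' hx0 hu

/-- The coloured Jones polynomials of odd dimension separate the class. -/
theorem sep_all (c : Ctx P JS) (M : Mods) : ∀ (s d d' : ℕ) (D D' : Diag), d + d' ≤ s →
    Cls d D → Cls d' D' → Sep JS D D' := by
  intro s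
  induction s with
  | zero =>
    intro d d' D D' hs h h'
    cases h with
    | graph n w hw hk hg =>
      cases h' with
      | graph n' w' hw' hk' hg' =>
        intro hD hD' ho
        exact M.mrk n n' w w' hw hw' hk hk'
          (c.ggo n n' w w' hk hk' hD hD' hw hw' hg hg' ho)
      | double d1 k hk0 m D1 h1 => omega
    | double d1 k hk0 m D1 h1 => omega
  | succ s ih =>
    intro d d' D D' hs h h'
    cases h with
    | graph n w hw hk hg =>
      cases h' with
      | graph n' w' hw' hk' hg' =>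
        intro hD hD' ho
        exact M.mrk n n' w w' hw hw' hk hk'
          (c.ggo n n' w w' hk hk' hD hD' hw hw' hg hg' ho)
      | double d1 k hk0 m D1 h1 =>
        exact gd c M hw hk hg h1 (ih 0 d1 [] D1 (by omega) cls_nil h1)
          (ih 0 0 [] [] (by omega) cls_nil cls_nil) hk0 m
    | double d1 k hk0 m D1 h1 =>
      cases h' with
      | graph n' w' hw' hk' hg' =>
        exact (gd c M hw' hk' hg' h1 (ih 0 d1 [] D1 (by omega) cls_nil h1)
          (ih 0 0 [] [] (by omega) cls_nil cls_nil) hk0 m).symm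
      | double d2 k2 hk2 m2 D2 h2 =>
        exact dd c M h1 h2 (ih d1 d2 D1 D2 (by omega) h1 h2)
          (ih d1 0 D1 [] (by omega) h1 cls_nil) (ih 0 d2 [] D2 (by omega) cls_nil h2) hk0 hk2 m m2

end Main

end Asm

open Asm in
/-- The induction, for invariants with integer values. -/
theorem main_of {P : (ℕ → ℚ⟦X⟧) → Prop} {JS : ℕ → SKnot → ℚ⟦X⟧} (c : Ctx P JS) (M : Asm.Mods)
    (hft : ∀ N : ℕ, 1 ≤ N → ∀ K K' : SKnot, Same0 K K' → JS N K = JS N K')
    (K K' : SKnot) (hK : IsIterated K) (hK' : IsIterated K') (hs : Same0 K K') : K = K' := by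
  obtain ⟨d, D, hD, h, rfl⟩ := exists_cls hK
  obtain ⟨d', D', hD', h', rfl⟩ := exists_cls hK'
  exact (sep_all c M (d + d') d d' D D' le_rfl h h' hD hD'
    fun N hN => hft N hN.pos _ _ hs).knot hD

end Pool.Agent.WD3
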