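import Pool.Agent.WD3.BaseI
import Mathlib.RingTheory.Polynomial.Chebyshev

/-!
# Generalised doubles: comparison of two doubles, definitions
-/

set_option autoImplicit false

namespace Pool.Agent.WD3

open Pool.Agent.LibH11 Pool.Agent.IT Pool.Agent.GK Pool.Agent.TwoBr Pool.Agent.WD Pool.Agent.WD2
open scoped BigOperators
open PowerSeries

/-- `E a + E (-a) - 2` -/
noncomputable def Yf (a : ℚ) : ℚ⟦X⟧ := E a + E (-a) - 2

/-- `(z ^ b - z ^ (-b)) / (z - z⁻¹)` as a polynomial in `z + z⁻¹` -/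
noncomputable def uc (b : ℤ) : Polynomial ℚ := Polynomial.Chebyshev.S ℚ (b - 1)

/-- `(z ^ (2 b + 1) + 1) / (z ^ b (z + 1))` as a polynomial in `z + z⁻¹` -/
noncomputable def vc (b : ℤ) : Polynomial ℚ := uc (b + 1) - uc b

/-- `J N` is the double series `h` at `Y = E N + E (-N) - 2` and `X`. -/
def Rep (J : ℕ → ℚ⟦X⟧) (h : ℕ → ℕ → ℚ) : Prop :=
  ∀ N R : ℕ, 1 ≤ N → (X : ℚ⟦X⟧) ^ R ∣ J N - ∑ n ∈ Finset.range R, ∑ m ∈ Finset.range R,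
    C (h n m) * X ^ n * Yf N ^ m

/-- `g` is the series `f` at `y`. -/
def Cm (f y g : ℚ⟦X⟧) : Prop :=
  ∀ R : ℕ, (X : ℚ⟦X⟧) ^ R ∣ g - ∑ m ∈ Finset.range R, C (coeff m f) * y ^ m

/-- The coefficient of `X ^ r` in `a i` is a polynomial in `i` of degree at most `r`; the coefficient
of `i ^ r` in this polynomial is the coefficient of `X ^ r` in `σ`. -/
def Sy (a : ℕ → ℚ⟦X⟧) (σ : ℚ⟦X⟧) : Prop :=
  ∀ r : ℕ, ∃ p : Polynomial ℚ, p.natDegree ≤ r ∧ p.coeff r = coeff r σ ∧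
    ∀ i : ℕ, coeff r (a i) = p.eval (i : ℚ)

/-- the iterates of `Φ ↦ (i ↦ a i * Φ i + ρ i * Φ (i - 1))` -/
noncomputable def MM (a ρ : ℕ → ℚ⟦X⟧) : ℕ → ℕ → ℚ⟦X⟧
  | 0, _ => 1
  | m + 1, i => a i * MM a ρ m i + ρ i * MM a ρ m (i - 1)

/-- `D` is even and `D (2 + Y)` is the inverse of the leading term of `h`. -/
structure Lead0 (h : ℕ → ℕ → ℚ) (D : Polynomial ℚ) : Prop where
  even : D.comp (-Polynomial.X) = D
  inv : (PowerSeries.mk fun m => h 0 m) *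
    ((D.comp (Polynomial.X + 2) : Polynomial ℚ) : ℚ⟦X⟧) = 1

/-- What is known about the coloured Jones polynomials of a knot of the class. -/
def CI (J : ℕ → ℚ⟦X⟧) : Prop := ∃ (h : ℕ → ℕ → ℚ) (D : Polynomial ℚ), Rep J h ∧ Lead0 h D ∧
  ((0 < D.natDegree ∧ h 0 1 ≠ 0) ∨ Triv J ∨
    ∃ (d : ℕ) (x z u v : ℚ), 3 ≤ d ∧ LdE d x z u v J ∧ x ≠ 0 ∧ u = x / 3)

end Pool.Agent.WD3
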