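import Pool.Agent.WD.Defs

/-!
# Generalised twisted doubles of knots (MP_31fd3b_gt)

Knots are diagrams of long knots in Morse position modulo the moves (`LibH11/SlicedKnots`), `cl n w`
is the closure of a braid word on `n + 1` strands, `para D` the blackboard parallel of `D` and
`twists m` are `m` full twists (`WD/Defs`).
-/

set_option autoImplicit false

namespace Pool.Agent.WD3

open Pool.Agent.LibH11.Sliced
open Pool.Agent.IT (Word ev)
open Pool.Agent.GK (GraphKnot)
open Pool.Agent.WD (cl para twists)

/-- `k` full twists of the second and the third strand: the clasp is `k = 1` or `k = -1` -/
def clasps (k : ℤ) : Diag := List.replicate (2 * k.natAbs) (Kind.crs (decide (0 < k)), 1)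

/-- The generalised twisted double of the long knot with diagram `D`: the blackboard parallel of `D`
with `m` full twists, closed by a minimum at the bottom on the right, and at the top by `k` full
twists with the strand on the right and a maximum. For `k = 1` and `k = -1` it is the twisted
Whitehead double with clasp of type `true` and `false`. -/
def gdouble (k m : ℤ) (D : Diag) : Diag :=
  (.cup, 1) :: (para D ++ twists m ++ clasps k ++ [(.cap, 0)])

end Pool.Agent.WD3
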