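import Pool.Agent.WD2.StF
import Pool.Agent.WD3.Defs

/-!
# Generalised doubles: statements of the quantum modules

The module `WG_XXX` is the file `Pool/Agent/WD3/XXX.lean` with `theorem t_XXX : XXX_Stmt` (other
statements that are used are explicit hypotheses) in the namespace `Pool.Agent.WD3`, helper lemmas in
the namespace `Pool.Agent.WD3.XXX`. Import `Pool.Agent.WD3.StG` and what you need of `Pool/Agent/WD`,
`Pool/Agent/WD2`.

`{n} = br s n = s^(2 n) - s^(-2 n)`, `{n}! = bf s n`, `om`, `pp`: `WD2/BaseE.lean`. `W = fpow s (V s N) 2`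
with labels `x : Fin 2 → Fin N` of weight `2 (N - 1 - x 0 - x 1)`. `R` is the braiding, `tw (RD s V) k`
is `R ^ (2 k)`. Most modules are variants of modules of `Pool/Agent/WD` and `Pool/Agent/WD2`, where the
clasp is replaced by `k` full twists (`k` an integer).
-/

set_option autoImplicit false

namespace Pool.Agent.WD3

open Pool.Agent.LibH11 Pool.Agent.IT Pool.Agent.GK Pool.Agent.TwoBr Pool.Agent.WD Pool.Agent.WD2
open Pool.Agent.LibH11.Sliced (Diag Kind cnt IsLongKnot ofDiag braidWord)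
open scoped BigOperators
open PowerSeries

/-! ## Definitions -/

section General

variable {A ι : Type} [CommRing A] [Fintype ι] [DecidableEq ι]

/-- An endomorphism `Z` of two strands turned by a right angle: the diagram `(cup, 2)`, `Z` on the
strands 1 and 2, `(cap, 0)` on two strands. -/
def rot (M : Mats A ι) (Z : Matrix (Fin 2 → ι) (Fin 2 → ι) A) :
    Matrix (Fin 2 → ι) (Fin 2 → ι) A := fun x y =>
  ∑ c, ∑ z, M.cup c (y 1) * Z ![x 1, c] ![z, y 0] * M.cap (x 0) z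

end General

section Fld

variable {K : Type} [Field K] (s : K)

/-- The coefficient of `pp s r` in the expansion of the `k`-th power of the twist `s ^ (4 j (j + 1))`. -/
def ph (k : ℤ) (r : ℕ) : K :=
  ∑ l ∈ Finset.range (r + 1), (-1) ^ (r + l) * br s (2 * l + 1) * s ^ (4 * (l * (l + 1)) * k) /
    (bf s (r - l) * bf s (r + l + 1))

/-- The coefficient of the `2 j`-th summand of an endomorphism of `V ⊗ V`. -/
def chn (N : ℕ) (Y : Matrix (Fin 2 → Fin N) (Fin 2 → Fin N) K) (j : ℕ) : K :=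
  wtr (fpow s (V s N) 2) (2 * (j : ℤ)) Y - wtr (fpow s (V s N) 2) (2 * (j : ℤ) + 2) Y

/-- `k` full twists turned by a right angle. -/
noncomputable def rtw (N : ℕ) (k : ℤ) : Matrix (Fin 2 → Fin N) (Fin 2 → Fin N) K :=
  rot (MV s N) (tw (RD s (V s N)) k)

end Fld

/-! ## Diagrams -/

/-- DVK: the value of a generalised double.

Proof: as `t_DVF` (`WD/DVF.lean`, there `clasp`): by `VRI` and `DCL` for the parallel, `VOP` with
`n = 1` for the twists `m`; the `k` full twists are `sh 1` of `twists k`, again `VOP` with `n = 1`. With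
`P = ptr (blkD (rdM M κ) 1) n w` the value is `ε ^ (2 n) ∑ b c, cup b c * ∑ y, (P * tw m) ![a, b] y *
∑ u, Y y c u * F [u]`, `Y y c u = ∑ z, tw k ![y 1, c] ![z, u] * cap (y 0) z`; by `Zig`
`Y y c u = ∑ v, rot M (tw k) y ![u, v] * cap v c`; sum over `c` with `Piv`. -/
def DVK_Stmt : Prop :=
  ∀ (A : Type) [CommRing A] (ι : Type) [Fintype ι] [DecidableEq ι] (M : Mats A ι) (ε : A)
    (κ : ι → A), Piv M ε κ → Zig M → ∀ (k m : ℤ) (n : ℕ) (w : Word), Bd n w →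
    ∀ (F : List ι → A) (a : ι),
    M.val (gdouble k m (cl n w)) F [a] = ε ^ (2 * n + 1) * ∑ u,
      (∑ b, κ b * (ptr (blkD (rdM M κ) 1) n w * tw (rdM M κ) m *
        rot M (tw (rdM M κ) k)) ![a, b] ![u, b]) * F [u]

/-- NRK: the framing factor of a generalised double.

Proof: as `t_NRD` (`WD/NRD.lean`) with `DVK` in the place of `DVF`. The strands `x 1` and `c` of the `k`
full twists are antiparallel, so each of the `2 |k|` crossings has the factor `θ (!(0 < k))`. -/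
def NRK_Stmt : Prop :=
  ∀ (A : Type) [CommRing A] (ι : Type) [Fintype ι] [DecidableEq ι] (M : Mats A ι) (ε : A)
    (κ : ι → A) (θ : Bool → A), Piv M ε κ → Zig M → (∀ e, θ e * θ (!e) = 1) →
    ∀ (k m : ℤ) (n : ℕ) (w : Word), Bd n w → LibH11.IsKnot (ev n w) →
    ∀ (F : List (Bool × ι) → A) (a : ι),
    (M.nrm θ).val (gdouble k m (cl n w)) F [(true, a)] =
      θ (!(decide (0 < k))) ^ (2 * k.natAbs) * θ (!(decide (0 < m))) ^ (2 * m.natAbs) *
        M.val (gdouble k m (cl n w)) (fun l => F (l.map fun x => (true, x))) [a]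

/-- CLK: the turned twists are a morphism.

Proof: as `t_CLM` (`WD/CLM.lean`) with the word `List.replicate (2 * k.natAbs) (1, decide (0 < k))` in
the place of `[(1, e), (1, e)]` in the middle. -/
def CLK_Stmt : Prop :=
  ∀ (K : Type) [Field K] (s : K), IT.Gen s → ∀ N : ℕ, 1 ≤ N → ∀ k : ℤ,
    Mor (fpow s (V s N) 2) (fpow s (V s N) 2) (rtw s N k)

/-- SCK: the value of a generalised double is a scalar.

Proof: as `t_SCD` (`WD/SCD.lean`) with `DVK`, `CLK` in the place of `DVF`, `CLM`. -/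
def SCK_Stmt : Prop :=
  ∀ (K : Type) [Field K] (s : K), IT.Gen s → ∀ N : ℕ, 1 ≤ N → ∀ (k m : ℤ) (n : ℕ)
    (w : Word), Bd n w →
    ∃ c : K, (∀ (F : List (Fin N) → K) (a : Fin N),
      (MV s N).val (gdouble k m (cl n w)) F [a] = c * F [a]) ∧
      c * (∑ i, (RD s (V s N)).κ i) = (-1) ^ (N - 1) *
        G (blkD (RD s (V s N)) 1) n w (tw (RD s (V s N)) m * rtw s N k)

/-- GSY: the closure with twists and any endomorphism.

Proof: this is the second part of the proof of `t_GS2` (`WD2/GS2.lean`) with `Y` in the place of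
`clasp (MV s N) e` (only `hC : Mor … (clasp …)` is used there). -/
def GSY_Stmt : Prop :=
  ∀ (K : Type) [Field K] (s : K), IT.Gen s → ∀ (N : ℕ), 1 ≤ N →
    ∀ Y, Mor (fpow s (V s N) 2) (fpow s (V s N) 2) Y →
    ∀ (m : ℤ) (n : ℕ) (w : Word), LibH11.IsKnot (ev n w) →
    G (blkD (RD s (V s N)) 1) n w (tw (RD s (V s N)) m * Y) =
      ∑ j ∈ Finset.range N,
        chn s N Y j * s ^ (m * ((2 * (j : ℤ) + 1) ^ 2 - 1 - 2 * ((N : ℤ) ^ 2 - 1))) *
          Jfr (RD s (V s (2 * j + 1))) n w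

/-- TWS: the full twists on the summands.

Proof: `MULT` for `2 j` and `Y = tw k` (a morphism by `MOP`): `chn = trace (Q * tw k * P)`, and
`tw k * P = r ^ k • P`, `r = s^((2 j + 1)² - 1 - 2 (N² - 1))` (`GSUMM.tw_act` in `WD/GSUM.lean`, used in
`t_GS2`), so it is `r ^ k * trace (Q * P)`, and `trace (Q * P) = chn 1 = 1` for `j < N`
(`GMF.wtr_diff`). -/
def TWS_Stmt : Prop :=
  ∀ (K : Type) [Field K] (s : K), IT.Gen s → ∀ (N : ℕ), 1 ≤ N → ∀ (k : ℤ), ∀ j < N,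
    chn s N (tw (RD s (V s N)) k) j =
      s ^ (k * ((2 * (j : ℤ) + 1) ^ 2 - 1 - 2 * ((N : ℤ) ^ 2 - 1)))

/-- DIA: diagonal entries of an endomorphism from those between labels of weight zero.

Proof. `Y * (F^n * E^n) = F^n * Y * E^n`. Column `y = (0, N-1)` of `E^n`: `E^n (e_0 ⊗ e_(N-1)) =
[n]! e_0 ⊗ e_(N-1-n)` (induction on `n`, `E = E ⊗ K + 1 ⊗ E`, `E e_0 = 0`, `E e_b = [N - b] e_(b-1)`;
see `WD2/FEN.lean`). Row `y` of `F^n`: it is `s^(-2 n (N-1)) [N-1]! / [N-1-n]!` at `z = (0, N-1-n)` and zero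
otherwise (`F = F ⊗ 1 + K⁻¹ ⊗ F`: if `(F x y) ≠ 0` and `x 0 = 0` then `y 0 = 0` and `x 1 = y 1 + 1`).
`{1}^n [n]! = {n}!` (`qfac_eq`). -/
def DIA_Stmt : Prop :=
  ∀ (K : Type) [Field K] (s : K), IT.Gen s → ∀ (N : ℕ), 1 ≤ N →
    ∀ Y, Mor (fpow s (V s N) 2) (fpow s (V s N) 2) Y → ∀ (y z : Fin 2 → Fin N) (n : ℕ),
    (y 0 : ℕ) = 0 → (y 1 : ℕ) + 1 = N → (z 0 : ℕ) = 0 → (z 1 : ℕ) + n + 1 = N →
    br s 1 ^ (2 * n) * (Y * ((fpow s (V s N) 2).F ^ n * (fpow s (V s N) 2).E ^ n)) y y =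
      s ^ (-(2 * ((n : ℤ) * ((N : ℤ) - 1)))) * (bf s n * bf s (N - 1) / bf s (z 1)) * Y z z

/-- MOM: the moments of a turned endomorphism. Here `x = (N-1, 0)`, `y = (0, N-1)`.

Proof. As the first claim of `BIV` for `e = true` (`WD2/BIV.lean`). In `rot (MV s N) Z x t` only
`z = 0` and `c = N - 1 - t 1` contribute, `vcap (N-1) 0 = 1`. `(F^i E^i) t y` is zero unless the weight of
`t` is zero, i.e. `t = (a, N-1-a)`, then `c = a`, and for `a ≤ i` it is given by `FEN`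
(`y 0 = 0`). `vcup a (N-1-a) = (-1)^a s^(2 a (a - N)) [N-1]! / ([a]! [N-1-a]!)`. The exponent is
`2 (a (a - N) + (i - a) (a - N + 1)) = 2 ((i - 1) a - i (N - 1))`. -/
def MOM_Stmt : Prop :=
  ∀ (K : Type) [Field K] (s : K), IT.Gen s → ∀ (N : ℕ) (hN : 1 ≤ N)
    (Z : Matrix (Fin 2 → Fin N) (Fin 2 → Fin N) K) (x y : Fin 2 → Fin N),
    (x 0 : ℕ) + 1 = N → (x 1 : ℕ) = 0 → (y 0 : ℕ) = 0 → (y 1 : ℕ) + 1 = N → ∀ i < N,
    br s 1 ^ (2 * i) * (rot (MV s N) Z *
      ((fpow s (V s N) 2).F ^ i * (fpow s (V s N) 2).E ^ i)) x y =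
      bf s (N - 1) * bf s i / bf s (N - 1 - i) * s ^ (-(2 * ((i : ℤ) * ((N : ℤ) - 1)))) *
        ∑ a ∈ Finset.range (i + 1), (-1) ^ a * s ^ (2 * (((i : ℤ) - 1) * a)) *
          (bf s i / (bf s a * bf s (i - a))) *
          (if h : a < N then Z ![⟨0, hN⟩, ⟨a, h⟩] ![⟨0, hN⟩, ⟨a, h⟩] else 0)

/-! ## Identities -/

/-- MNR: products of the polynomials `pp`.

Proof. Write `M n r` for the right side (`n, r < N`). Induction on `r` for all `n < N`. `r = 0`:
`pp s 0 j = 1`, the hypothesis. Step: `pp (r + 1) j = pp r j (om j - om r)`,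
`pp (n + 1) j = pp n j (om j - om n)`, so `pp n pp (r + 1) = pp (n + 1) pp r + (om n - om r) pp n pp r`. If
`n + 1 < N` the sum is `M (n + 1) r + (om n - om r) M n r`, and `om n - om r = {n - r} {n + r + 1}`
(`om_sub`); the identity to check is, after division by `M n r {n + r + 1}`,
`s^(2 (n - (N-1))) {N - 1 - r} = s^(2 (r - (N-1))) {N - 1 - n} + {n - r}`. If `n + 1 = N` then
`pp s N j = 0` for `j < N` (`pp_of_lt`), and the first summand is zero as `{N - 1 - n} = 0`. -/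
def MNR_Stmt : Prop :=
  ∀ (K : Type) [Field K] (s : K), IT.Gen s → ∀ (N : ℕ) (ρ : ℕ → K), 1 ≤ N →
    (∀ n < N, ∑ j ∈ Finset.range N, ρ j * pp s n j =
      s ^ (-(2 * ((n : ℤ) * ((N : ℤ) - 1)))) * (bf s n * bf s (N - 1) / bf s (N - 1 - n))) →
    ∀ n < N, ∀ r < N, ∑ j ∈ Finset.range N, ρ j * pp s n j * pp s r j =
      s ^ (2 * ((n : ℤ) * r - ((n : ℤ) + r) * ((N : ℤ) - 1))) *
        (bf s (N - 1) ^ 2 * bf s (n + r) / (bf s (N - 1 - n) * bf s (N - 1 - r)))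

/-- SID: a `q`-difference.

Proof. Let `U i n` be the left side (`i ≤ n`, `r` fixed). Induction on `i` for all `n ≥ i`. `i = 0` clear.
Pascal's rule `B (i + 1) m = s^(-2 m) B i m + s^(2 (i + 1 - m)) B i (m - 1)` for
`B i m = {i}! / ({m}! {i - m}!)` (see `GBT`, `D2`) gives `U (i + 1) n = U i n - s^(2 (2 i - r)) U i (n - 1)`.
For `i < r`: `{n + r - i} - s^(-2 (r - i)) {n} = s^(2 n) {r - i}`; for `i = r` the two terms are equal; for
`i > r` both are zero. -/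
def SID_Stmt : Prop :=
  ∀ (K : Type) [Field K] (s : K), IT.Gen s → ∀ (r i n : ℕ), i ≤ n →
    ∑ m ∈ Finset.range (i + 1), (-1) ^ m * s ^ (2 * (((i : ℤ) - 1 - r) * m)) *
      (bf s i / (bf s m * bf s (i - m))) * (bf s (n - m + r) / bf s (n - m)) =
    if i ≤ r then s ^ (2 * ((i : ℤ) * n)) * (bf s r * bf s (n + r - i) / (bf s (r - i) * bf s n))
    else 0

/-- INV: the powers of the twist in terms of the polynomials `pp`.

Proof. `D0` says that the matrices `A m j = (-1)^(m+j) {2 j + 1} / ({m - j}! {m + j + 1}!)` for `j ≤ m`,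
`0` for `j > m`, and `P j i = pp s i j` (`i, j, m < M`, `pp s i j = 0` for `j < i`) satisfy `A * P = 1`,
hence `P * A = 1` (`Matrix.mul_eq_one_comm`), i.e. `∑ r, pp s r j * A r l = if j = l then 1 else 0`;
multiply by `s ^ (4 l (l + 1) k)` and sum over `l`. -/
def INV_Stmt : Prop :=
  ∀ (K : Type) [Field K] (s : K), IT.Gen s → ∀ (k : ℤ) (M j : ℕ), j < M →
    ∑ r ∈ Finset.range M, ph s k r * pp s r j = s ^ (4 * ((j : ℤ) * (j + 1)) * k)

/-- CNK: the moments of the candidate for the coefficients.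

Proof. Exchange the sums (`j ≤ r < N`; the signs cancel). For `i ≤ r` the inner sum over `j ≤ r` is `D1`
with `m = r`, `n = N - 1` (`bf s (N + j) = bf s (N - 1 + j + 1)`); for `r < i` all `pp s i j`, `j ≤ r`,
vanish. -/
def CNK_Stmt : Prop :=
  ∀ (K : Type) [Field K] (s : K), IT.Gen s → ∀ (N : ℕ), 1 ≤ N → ∀ (φ : ℕ → K), ∀ i < N,
    ∑ j ∈ Finset.range N, pp s i j * (((-1) ^ (N - 1 + j) * br s (2 * j + 1) *
      bf s (N - 1) ^ 2 / (bf s (N - 1 - j) * bf s (N + j))) *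
      ((-1) ^ (N - 1 + j) * ∑ r ∈ Finset.Ico j N, φ r * (bf s r ^ 2 *
        (bf s (N + r) / bf s (N - 1 - r)) / (bf s (r - j) * bf s (r + j + 1))))) =
    bf s (N - 1) * bf s i / bf s (N - 1 - i) *
      ∑ r ∈ Finset.Ico i N, φ r * (bf s r * bf s (N - 1 + r - i) /
        (bf s (N - 1 - r) * bf s (r - i)))

/-- GMK: the coefficients of the turned twists.

Proof. Let `x = (N-1, 0)`, `y = (0, N-1)`, `T = tw (RD s (V s N)) k` (a morphism, `MOP`).
(1) `ENT` for `(x, y)` gives `ρ`; `Y = 1` and the second claim of `BIV` (`e = true`), `CND` (a), `UNQ`: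
`ρ j = (-1)^(N-1+j) {2 j + 1} {N-1}!² / ({N-1-j}! {N+j}!)` (exactly as in `t_GMF`). (2) `ENT` for `(y, y)`
gives `ρ'`; `Y = 1` and `DIA` (`z 1 = N - 1 - n`): `ρ'` satisfies the hypothesis of `MNR`. For `Y = T`:
`TWS`, `INV` (`M = N`), `MNR` and `DIA`: with `n = N - 1 - a`,
`T ![0, a] ![0, a] = s^(-2 k (N² - 1)) ∑_{r < N} ph k r s^(-2 r a) {N-1}! {n + r}! / ({n}! {N-1-r}!)`.
(3) `MOM` for `Z = T` and `SID` with `n = N - 1`: the moments of `rtw s N k` are
`s^(-2 k (N² - 1)) {N-1}! {i}! / {N-1-i}! ∑_{i ≤ r < N} ph k r {r}! {N-1+r-i}! / ({N-1-r}! {r-i}!)`.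
(4) `ENT` for `(x, y)` and `Y = rtw s N k` (`CLK`), `CNK` with `φ r = s^(-2 k (N² - 1)) ph k r`, `UNQ`:
`ρ j * chn j = ρ j * candidate`, `ρ j ≠ 0`. Checked by computer (`N ≤ 4`, `-3 ≤ k ≤ 4`). -/
def GMK_Stmt : Prop :=
  ∀ (K : Type) [Field K] (s : K), IT.Gen s → ∀ (N : ℕ), 1 ≤ N → ∀ (k : ℤ), ∀ j < N,
    chn s N (rtw s N k) j = (-1) ^ (N - 1 + j) * s ^ (-(2 * k * ((N : ℤ) ^ 2 - 1))) *
      ∑ r ∈ Finset.Ico j N, ph s k r * (bf s r ^ 2 * (bf s (N + r) / bf s (N - 1 - r)) /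
        (bf s (r - j) * bf s (r + j + 1)))

/-! ## The invariants -/

open LaurentPolynomial in
/-- JFK: the values of the invariants of the integral model on generalised doubles.

Proof: as the second part of `t_JFD` (`WD/JFD.lean`) with `NRK`, `SCK` in the place of `NRD`, `SCD`. -/
def JFK_Stmt : Prop :=
  ∀ (φ : ℤ[T;T⁻¹] →+* ℚ⟦X⟧), IsEv φ → ∀ (N : ℕ) (hN : 1 ≤ N)
    (Z : Mats ℤ[T;T⁻¹] (Bool × Fin N)) (g g' : Bool × Fin N → KQ), (∀ u, g u * g' u = 1) →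
    (∀ i, g (true, i) = 1) → mapM (toK.comp φ) Z = gau ((MV sQ N).nrm (th sQ N)) g g' →
    ∀ F : List (Bool × Fin N) → ℤ[T;T⁻¹], (∀ l, F l = if l = [(true, ⟨0, hN⟩)] then 1 else 0) →
    ∀ (n : ℕ) (w : Word), Bd n w → LibH11.IsKnot (ev n w) → ∀ (k m : ℤ),
        toK (φ (Z.val (gdouble k m (cl n w)) F [(true, ⟨0, hN⟩)])) *
          (∑ i, (RD sQ (V sQ N)).κ i) =
        sQ ^ ((2 * m + 2 * k) * ((N : ℤ) ^ 2 - 1)) * (-1) ^ (N - 1) *
          G (blkD (RD sQ (V sQ N)) 1) n w (tw (RD sQ (V sQ N)) m * rtw sQ N k)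

/-- The coefficients in the formula for generalised doubles. -/
noncomputable def Ck (N : ℕ) (k : ℤ) (j : ℕ) : KQ :=
  (-1) ^ (N - 1) * sQ ^ (2 * k * ((N : ℤ) ^ 2 - 1)) * chn sQ N (rtw sQ N k) j *
    qn sQ (2 * j + 1) / qn sQ N

/-- The formula for the generalised doubles of closed braids. -/
def DblK (JS : ℕ → SKnot → ℚ⟦X⟧) : Prop :=
  ∀ (k : ℤ) (N : ℕ), 1 ≤ N → ∀ (m : ℤ) (n : ℕ) (w : Word) (hl : IsLongKnot (cl n w))
    (hd : IsLongKnot (gdouble k m (cl n w))), Bd n w → LibH11.IsKnot (ev n w) →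
    toK (JS N (ofDiag (gdouble k m (cl n w)) hd)) = ∑ j ∈ Finset.range N,
      Ck N k j * toK (E (2 * j * (j + 1) * (m + wr w)) * JS (2 * j + 1) (ofDiag (cl n w) hl))

/-- JXK: the invariants exist.

Proof: as `t_JX2` (`WD2/JX2.lean`); the last part in the same way with `JFK`, `GSY`, `CLK` in the place
of the second part of `JFD` and `GS2`:
`s^(m ((2j+1)² - 1 - 2 (N² - 1))) * s^(2 m (N² - 1)) = s^(m ((2j+1)² - 1))`. -/
def JXK_Stmt : Prop :=
  ∀ (M : CommMonoid Knot) (cb : ℕ → ℤ → Knot → Knot), Ops M cb →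
    ∃ (v : ℕ → Knot → ℚ⟦X⟧) (JS : ℕ → SKnot → ℚ⟦X⟧), VOk M cb v ∧ JOk v JS ∧ DblK JS

end Pool.Agent.WD3
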