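import Pool.Agent.WD2.StF
import Pool.Agent.WD3.StG

/-!
# Generalised doubles: the cyclotomic form, definitions
-/

set_option autoImplicit false

namespace Pool.Agent.WD3

open Pool.Agent.LibH11 Pool.Agent.IT Pool.Agent.GK Pool.Agent.TwoBr Pool.Agent.WD Pool.Agent.WD2
open scoped BigOperators
open PowerSeries

/-- The `i`-th coefficient in the cyclotomic form. -/
noncomputable def FF (y : ℕ → ℚ⟦X⟧) (i : ℕ) : ℚ⟦X⟧ := ∑ j ∈ Finset.range (i + 1), gC i j * y j

/-- The coefficients of `k` full twists. -/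
noncomputable def FU (k : ℤ) (i : ℕ) : ℚ⟦X⟧ := FF (fun j => E (2 * j * (j + 1) * k)) i

/-- The sequence of a companion with framing `t`. -/
noncomputable def yt (t : ℤ) (J : ℕ → ℚ⟦X⟧) (j : ℕ) : ℚ⟦X⟧ :=
  E (2 * j * (j + 1) * t) * J (2 * j + 1)

/-- The cyclotomic form of the formula for generalised doubles; `y = yt t J`. -/
noncomputable def cyk (k : ℤ) (N : ℕ) (y : ℕ → ℚ⟦X⟧) : ℚ⟦X⟧ :=
  ∑ i ∈ Finset.range N, (-1) ^ i * PT N i * (FU k i * FF y i)

end Pool.Agent.WD3
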