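import Pool.Agent.WD3.StH

/-!
# Generalised doubles: module CHD, divisibility of Chebyshev polynomials
-/

set_option autoImplicit false

namespace Pool.Agent.WD3

open Polynomial

namespace CHDx

/-- `uc` at natural numbers. -/
noncomputable def u (n : ℕ) : ℚ[X] := uc n

lemma u_zero : u 0 = 0 := by
  unfold u uc
  rw [Nat.cast_zero, zero_sub, Chebyshev.S_neg_one]

lemma u_one : u 1 = 1 := by
  unfold u uc
  rw [Nat.cast_one, sub_self, Chebyshev.S_zero]

lemma u_succ (n : ℕ) : u (n + 1) = Chebyshev.S ℚ n := by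
  unfold u uc
  congr 1
  push_cast
  ring

lemma u_add_two (n : ℕ) : u (n + 2) = X * u (n + 1) - u n := by
  have h := Chebyshev.S_add_one ℚ (n : ℤ)
  rw [u_succ n, show u (n + 2) = Chebyshev.S ℚ ((n : ℤ) + 1) by
    rw [show n + 2 = (n + 1) + 1 from rfl, u_succ]
    push_cast
    rfl]
  exact h

lemma u_add (a b : ℕ) : u (a + b + 1) = u (a + 1) * u (b + 1) - u a * u b ∧
    u (a + b + 2) = u (a + 1) * u (b + 2) - u a * u (b + 1) := by
  induction b with
  | zero =>
    refine ⟨by rw [u_zero, u_one]; ring_nf, ?_⟩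
    rw [show a + 0 + 2 = a + 2 from rfl, u_add_two a, show 0 + 2 = 0 + 1 + 1 from rfl,
      show u (0 + 1 + 1) = X * u (0 + 1) - u 0 from u_add_two 0]
    simp only [zero_add, u_zero, u_one]
    ring
  | succ b ih =>
    refine ⟨ih.2, ?_⟩
    rw [show a + (b + 1) + 2 = (a + b + 1) + 2 by ring, u_add_two,
      show a + b + 1 + 1 = a + b + 2 by ring, ih.1, ih.2,
      show b + 1 + 2 = (b + 1) + 2 from rfl, u_add_two (b + 1),
      show b + 1 + 1 = b + 2 from rfl]
    have h := u_add_two b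
    rw [h]
    ring

lemma cop_succ (n : ℕ) : IsCoprime (u (n + 1)) (u n) := by
  cases n with
  | zero =>
    rw [zero_add, u_one]
    exact isCoprime_one_left
  | succ n =>
    have h := Chebyshev.S_sq_add_S_sq ℚ (n : ℤ)
    rw [u_succ (n + 1), u_succ n]
    refine ⟨Chebyshev.S ℚ ((n + 1 : ℕ) : ℤ) - X * Chebyshev.S ℚ (n : ℤ),
      Chebyshev.S ℚ (n : ℤ), ?_⟩
    push_cast
    linear_combination h

lemma cop_add {m c : ℕ} (hm : 0 < m) (h : IsCoprime (u m) (u c)) :
    IsCoprime (u m) (u (c + m)) := by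
  obtain ⟨k, rfl⟩ : ∃ k, m = k + 1 := ⟨m - 1, by omega⟩
  have h1 := (u_add c k).1
  rw [show c + (k + 1) = c + k + 1 from rfl, h1]
  have h2 : IsCoprime (u (k + 1)) (-(u c * u k)) := (h.mul_right (cop_succ k)).neg_right
  have h3 := h2.add_mul_left_right (u (c + 1))
  have e : u (c + 1) * u (k + 1) - u c * u k = -(u c * u k) + u (k + 1) * u (c + 1) := by ring
  rw [e]
  exact h3

lemma cop_mul {m c : ℕ} (hm : 0 < m) (h : IsCoprime (u m) (u c)) (k : ℕ) :
    IsCoprime (u m) (u (c + m * k)) := by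
  induction k with
  | zero => simpa using h
  | succ k ih =>
    rw [show c + m * (k + 1) = (c + m * k) + m by ring]
    exact cop_add hm ih

lemma cop (p q : ℕ) : Nat.Coprime p q → IsCoprime (u p) (u q) := by
  induction p, q using Nat.gcd.induction with
  | H0 n =>
    intro h
    rw [Nat.coprime_zero_left] at h
    rw [h, u_one]
    exact isCoprime_one_right
  | H1 m n hm ih =>
    intro h
    have h1 : Nat.Coprime (n % m) m := by
      unfold Nat.Coprime
      rw [← Nat.gcd_rec]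
      exact h
    have h2 := cop_mul hm (ih h1).symm (n / m)
    rwa [Nat.mod_add_div] at h2

lemma dvd_mul (a b : ℕ) : u a ∣ u (a * b) := by
  rcases Nat.eq_zero_or_pos a with rfl | ha
  · rw [zero_mul]
  obtain ⟨k, rfl⟩ : ∃ k, a = k + 1 := ⟨a - 1, by omega⟩
  induction b with
  | zero =>
    rw [mul_zero, u_zero]
    exact dvd_zero _
  | succ b ih =>
    rw [show (k + 1) * (b + 1) = (k + 1) * b + k + 1 by ring, (u_add ((k + 1) * b) k).1]
    exact dvd_sub (Dvd.intro_left _ rfl) (ih.mul_right _)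

lemma eval_u (n : ℕ) : (u n).eval 2 = n := by
  unfold u uc
  rw [Chebyshev.S_eval_two]
  push_cast
  ring

lemma comp_u (n : ℕ) : (u n).comp (-X) = (-1) ^ (n + 1) * u n ∧
    (u (n + 1)).comp (-X) = (-1) ^ (n + 2) * u (n + 1) := by
  induction n with
  | zero =>
    rw [u_zero, zero_add, u_one]
    simp
  | succ n ih =>
    refine ⟨ih.2, ?_⟩
    rw [show n + 1 + 1 = n + 2 from rfl, u_add_two, sub_comp, mul_comp, X_comp, ih.1, ih.2]
    ring

end CHDx

open CHDx in
theorem t_CHD : CHD_Stmt := by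
  intro p q hp hq hpq
  obtain ⟨Q, hQ⟩ := (cop p q hpq).mul_dvd (dvd_mul p q) (by
    rw [mul_comm]
    exact dvd_mul q p)
  have hne : u p * u q ≠ 0 := by
    intro h
    have h1 := congrArg (Polynomial.eval 2) h
    rw [eval_mul, eval_u, eval_u, eval_zero] at h1
    have h2 : (0 : ℚ) < p := by exact_mod_cast hp
    have h3 : (0 : ℚ) < q := by exact_mod_cast hq
    exact (mul_pos h2 h3).ne' h1
  refine ⟨Q, ?_, ?_, ?_⟩
  · have h1 : uc ((p : ℤ) * q) = u (p * q) := by
      unfold u
      rw [Nat.cast_mul]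
    rw [h1, hQ]
    rfl
  · have h1 := congrArg (fun f : ℚ[X] => f.comp (-X)) hQ
    simp only [mul_comp] at h1
    rw [(comp_u (p * q)).1, (comp_u p).1, (comp_u q).1, hQ] at h1
    have h2 : ((-1 : ℚ[X])) ^ (p * q + 1) = (-1) ^ (p + 1) * (-1) ^ (q + 1) := by
      rw [← pow_add]
      have h3 : Even ((p + 1) * (q + 1)) := by
        rw [Nat.even_mul]
        by_contra hcon
        push Not at hcon
        obtain ⟨h4, h5⟩ := hcon
        rw [Nat.not_even_iff_odd] at h4 h5
        have h6 : 2 ∣ p := by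
          obtain ⟨c, hc⟩ := h4
          omega
        have h7 : 2 ∣ q := by
          obtain ⟨c, hc⟩ := h5
          omega
        have h8 := Nat.dvd_gcd h6 h7
        rw [hpq] at h8
        omega
      obtain ⟨c, hc⟩ := h3
      have e : p * q + 1 + (p + 1 + (q + 1)) = 2 * (c + 1) := by nlinarith
      have e2 : ((-1 : ℚ[X])) ^ (p * q + 1) * (-1) ^ (p + 1 + (q + 1)) = 1 := by
        rw [← pow_add, e, pow_mul]
        simp
      have e3 : ((-1 : ℚ[X])) ^ (p + 1 + (q + 1)) * (-1) ^ (p + 1 + (q + 1)) = 1 := by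
        rw [← mul_pow]
        simp
      calc ((-1 : ℚ[X])) ^ (p * q + 1)
          = (-1) ^ (p * q + 1) * ((-1) ^ (p + 1 + (q + 1)) * (-1) ^ (p + 1 + (q + 1))) := by
            rw [e3, mul_one]
        _ = (-1) ^ (p + 1 + (q + 1)) := by rw [← mul_assoc, e2, one_mul]
    have h3 : ((-1 : ℚ[X])) ^ (p + 1) * (-1) ^ (q + 1) ≠ 0 :=
      mul_ne_zero (pow_ne_zero _ (by norm_num)) (pow_ne_zero _ (by norm_num))
    rw [h2] at h1
    have h4 : ((-1 : ℚ[X])) ^ (p + 1) * (-1) ^ (q + 1) * (u p * u q) * Q =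
        (-1) ^ (p + 1) * (-1) ^ (q + 1) * (u p * u q) * Q.comp (-X) := by
      linear_combination h1
    exact (mul_left_cancel₀ (mul_ne_zero h3 hne) h4).symm
  · have h1 := congrArg (Polynomial.eval 2) hQ
    rw [eval_mul, eval_mul, eval_u, eval_u, eval_u] at h1
    have h2 : (0 : ℚ) < p := by exact_mod_cast hp
    have h3 : (0 : ℚ) < q := by exact_mod_cast hq
    push_cast at h1
    have h4 : ((p : ℚ) * q) * 1 = (p * q) * Q.eval 2 := by rw [mul_one]; exact h1
    exact (mul_left_cancel₀ (mul_pos h2 h3).ne' h4).symm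

end Pool.Agent.WD3
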