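import Pool.Agent.WD3.StH

/-!
# Generalised doubles: CID, doubles have the property `CI`
-/

set_option autoImplicit false

namespace Pool.Agent.WD3

open Pool.Agent.LibH11 Pool.Agent.IT Pool.Agent.GK Pool.Agent.TwoBr Pool.Agent.WD Pool.Agent.WD2
open scoped BigOperators
open PowerSeries

namespace CID

theorem gC_zero : gC 0 0 = 1 := by
  have h1 := gC_mul 0 0
  have h2 : uF (0 + 0 + 1) = b1 1 := by
    have h3 := uF_succ 0
    rw [uF_zero, one_mul] at h3
    simpa using h3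
  have h4 : b1 1 ≠ 0 := by
    intro h0
    have h5 := constantCoeff_b1 1
    rw [h0, map_zero] at h5
    norm_num at h5
  rw [h2, Nat.sub_zero, uF_zero, one_mul, pow_zero, one_mul, one_mul] at h1
  have h6 : b1 (2 * ((0 : ℕ) : ℚ) + 1) = b1 1 := by
    congr 1
    norm_num
  rw [h6] at h1
  exact mul_right_cancel₀ h4 (h1.trans (one_mul _).symm)

theorem E_zero : E 0 = 1 := by
  ext n
  cases n with
  | zero => simp [E]
  | succ n => simp [E, coeff_one]

theorem dbl_one (k t : ℤ) {J : ℕ → ℚ⟦X⟧} (hJ : J 1 = 1) : cyk k 1 (yt t J) = 1 := by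
  unfold cyk
  rw [Finset.sum_range_one, pow_zero, PT_zero, one_mul, one_mul]
  unfold FU FF yt
  rw [Finset.sum_range_one, Finset.sum_range_one, gC_zero, one_mul, one_mul]
  have e1 : (2 * ((0 : ℕ) : ℚ) * (((0 : ℕ) : ℚ) + 1) * (k : ℚ)) = 0 := by simp
  have e2 : (2 * ((0 : ℕ) : ℚ) * (((0 : ℕ) : ℚ) + 1) * (t : ℚ)) = 0 := by simp
  beta_reduce
  rw [e1, e2, E_zero, one_mul, one_mul]
  exact hJ

/-- a series which is a geometric series to every order -/
theorem geo (F : ℚ⟦X⟧) (a : ℚ) (hF : ∀ R : ℕ, (X : ℚ⟦X⟧) ^ R ∣ F -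
    ∑ i ∈ Finset.range R, C ((-a) ^ i) * (X ^ 2 + 4 * X) ^ i) :
    F * (1 + C a * (X ^ 2 + 4 * X)) = 1 := by
  have key : ∀ R : ℕ, (X : ℚ⟦X⟧) ^ R ∣ F * (1 + C a * (X ^ 2 + 4 * X)) - 1 := by
    intro R
    set u : ℚ⟦X⟧ := -(C a * (X ^ 2 + 4 * X)) with hu
    have e1 : ∑ i ∈ Finset.range R, C ((-a) ^ i) * (X ^ 2 + 4 * X) ^ i
        = ∑ i ∈ Finset.range R, u ^ i := by
      refine Finset.sum_congr rfl fun i _ => ?_
      rw [map_pow, ← mul_pow, hu]
      congr 1
      rw [map_neg]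
      ring
    have e2 := geom_sum_mul_neg u R
    have e3 : F * (1 + C a * (X ^ 2 + 4 * X)) - 1
        = (F - ∑ i ∈ Finset.range R, u ^ i) * (1 - u) - u ^ R := by
      rw [sub_mul, e2, hu]
      ring
    rw [e3]
    refine dvd_sub (Dvd.dvd.mul_right ?_ _) ?_
    · rw [← e1]
      exact hF R
    · refine pow_dvd_pow_of_dvd ?_ R
      refine ⟨-(C a * (X + 4)), ?_⟩
      rw [hu]
      ring
  have h0 : F * (1 + C a * (X ^ 2 + 4 * X)) - 1 = 0 := by
    ext n
    rw [map_zero]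
    exact X_pow_dvd_iff.1 (key (n + 1)) n (Nat.lt_succ_self n)
  exact sub_eq_zero.1 h0

theorem coeffs {F : ℚ⟦X⟧} {a : ℚ} (hF : F * (1 + C a * (X ^ 2 + 4 * X)) = 1) :
    coeff 0 F = 1 ∧ coeff 1 F = -(4 * a) := by
  have e1 : F * (1 + C a * (X ^ 2 + 4 * X)) = F + C a * (F * X ^ 2) + C (4 * a) * (F * X) := by
    rw [map_mul, map_ofNat]
    ring
  rw [e1] at hF
  have h0 := congrArg (coeff 0) hF
  have h1 := congrArg (coeff 1) hF
  have e0 : coeff 0 F = 1 := by
    simpa [coeff_mul_X_pow', coeff_C_mul] using h0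
  refine ⟨e0, ?_⟩
  have c1 : coeff 1 (F * X) = coeff 0 F := coeff_succ_mul_X 0 F
  have c2 : coeff 1 (F * X ^ 2) = 0 := by
    rw [coeff_mul_X_pow', if_neg (by norm_num)]
  rw [map_add, map_add, coeff_C_mul, coeff_C_mul, c1, c2, e0, mul_zero, mul_one,
    coeff_one, if_neg one_ne_zero] at h1
  linarith

theorem lead {h : ℕ → ℕ → ℚ} {a : ℚ}
    (hF : (PowerSeries.mk fun m => h 0 m) * (1 + C a * (X ^ 2 + 4 * X)) = 1) :
    Lead0 h (1 + Polynomial.C a * (Polynomial.X ^ 2 - 4)) := by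
  refine ⟨?_, ?_⟩
  · simp
  · have e1 : (1 + Polynomial.C a * (Polynomial.X ^ 2 - 4) : Polynomial ℚ).comp
        (Polynomial.X + 2) = 1 + Polynomial.C a * (Polynomial.X ^ 2 + 4 * Polynomial.X) := by
      simp only [Polynomial.add_comp, Polynomial.one_comp, Polynomial.mul_comp,
        Polynomial.C_comp, Polynomial.sub_comp, Polynomial.pow_comp, Polynomial.X_comp,
        Polynomial.ofNat_comp]
      ring
    rw [e1]
    have e2 : ((1 + Polynomial.C a * (Polynomial.X ^ 2 + 4 * Polynomial.X) : Polynomial ℚ) : ℚ⟦X⟧)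
        = 1 + C a * (X ^ 2 + 4 * X) := by
      have e3 : (4 : Polynomial ℚ) = Polynomial.C 4 := rfl
      rw [e3]
      simp only [Polynomial.coe_add, Polynomial.coe_one, Polynomial.coe_mul, Polynomial.coe_C,
        Polynomial.coe_pow, Polynomial.coe_X]
      rw [show (C (4 : ℚ) : ℚ⟦X⟧) = 4 from map_ofNat C 4]
    rw [e2]
    exact hF

theorem deg {a : ℚ} (ha : a ≠ 0) :
    0 < (1 + Polynomial.C a * (Polynomial.X ^ 2 - 4) : Polynomial ℚ).natDegree := by
  have e1 : (1 + Polynomial.C a * (Polynomial.X ^ 2 - 4) : Polynomial ℚ)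
      = Polynomial.C a * Polynomial.X ^ 2 + Polynomial.C 0 * Polynomial.X
        + Polynomial.C (1 - 4 * a) := by
    have e3 : (4 : Polynomial ℚ) = Polynomial.C 4 := rfl
    rw [e3]
    simp only [map_sub, map_mul, map_one, map_zero]
    ring
  rw [e1, Polynomial.natDegree_quadratic ha]
  norm_num

end CID

open CID in
/-- CID -/
theorem t_CID (hT : FTA_Stmt) (hF : FFT_Stmt) (hP : RPD_Stmt) (hR : RE3_Stmt) : CID_Stmt := by
  intro k t J J' hk hJ1 hCI hJ' hI
  obtain ⟨h, D, hRep, -, -⟩ := hCI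
  choose A hA hA0 using fun i => hT k i
  choose B hB hB0 using fun i => hF t J h hRep hJ1 i
  have e : ∀ N : ℕ, 1 ≤ N → J' N = ∑ i ∈ Finset.range N,
      PT N i * X ^ (2 * i) * ((-1) ^ i * (A i * B i)) := by
    intro N hN
    rw [hJ' N hN]
    unfold cyk
    refine Finset.sum_congr rfl fun i _ => ?_
    rw [hA, hB]
    ring
  obtain ⟨h', hRep', hm⟩ := hP (fun i => (-1) ^ i * (A i * B i)) J' e
  have hc : ∀ i : ℕ, constantCoeff ((-1) ^ i * (A i * B i) : ℚ⟦X⟧) = (-((k : ℚ) * t)) ^ i := by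
    intro i
    rw [map_mul, map_pow, map_neg, map_one, map_mul, hA0, hB0, ← mul_pow, ← mul_pow]
    congr 1
    ring
  simp only [hc] at hm
  have hinv := geo _ _ hm
  obtain ⟨-, h1⟩ := coeffs hinv
  rw [coeff_mk] at h1
  refine ⟨h', _, hRep', lead hinv, ?_⟩
  by_cases ht : t = 0
  · right
    have h01 : h' 0 1 = 0 := by rw [h1, ht]; simp
    rcases hI with hI | ⟨d, x, z, u, v, hL, hx, hu | hu⟩
    · exact Or.inl hI
    · exfalso
      obtain ⟨hd, -⟩ := hu
      subst hd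
      have hJ'1 : J' 1 = 1 := by rw [hJ' 1 le_rfl, dbl_one k t hJ1]
      obtain ⟨-, -, v', hL'⟩ := hR J' h' hRep' hJ'1
      have a1 := X_pow_dvd_iff.1 (hL 2 (by norm_num)) 2 (by norm_num)
      have a2 := X_pow_dvd_iff.1 (hL' 2 (by norm_num)) 2 (by norm_num)
      rw [h01] at a2
      simp only [map_sub, map_add, coeff_C_mul, coeff_X_pow, coeff_one] at a1 a2
      norm_num at a1 a2
      rw [a2] at a1
      apply hx
      linarith
    · exact Or.inr ⟨d, x, z, u, v, hu.1, hL, hx, hu.2⟩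
  · left
    have hkt : (k : ℚ) * t ≠ 0 := by
      have h2 : (k : ℚ) ≠ 0 := by exact_mod_cast hk
      have h3 : (t : ℚ) ≠ 0 := by exact_mod_cast ht
      exact mul_ne_zero h2 h3
    refine ⟨deg hkt, ?_⟩
    rw [h1]
    exact neg_ne_zero.2 (mul_ne_zero (by norm_num) hkt)

end Pool.Agent.WD3
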