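import Pool.Agent.WD3.StH

/-!
# Generalised doubles, module CIG (helper21): graph knots have the property `CI`
-/

set_option autoImplicit false

namespace Pool.Agent.WD3

open Pool.Agent.LibH11 Pool.Agent.IT Pool.Agent.GK Pool.Agent.TwoBr Pool.Agent.WD Pool.Agent.WD2
open Pool.Agent.LibH11.Sliced (Diag Kind cnt IsLongKnot ofDiag braidWord)
open scoped BigOperators
open PowerSeries

namespace CIG

theorem E_sub_ne {N : ℕ} (hN : 1 ≤ N) : E (N : ℚ) - E (-(N : ℚ)) ≠ 0 := by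
  rw [← X_mul_b1]
  refine mul_ne_zero X_ne_zero ?_
  intro h
  have h1 := constantCoeff_b1 (N : ℚ)
  rw [h, map_zero] at h1
  have h2 : (N : ℚ) ≠ 0 := by exact_mod_cast (by omega : N ≠ 0)
  exact h2 (by linarith)

/-- the coefficient of `X ^ 2` -/
theorem c2_eq {x z u v : ℚ} {J : ℕ → ℚ⟦X⟧} (h : LdE 2 x z u v J) : coeff 2 (J 2) = 3 * x := by
  have h1 := (X_pow_dvd_iff.mp (h 2 (by norm_num))) 2 (by norm_num)
  rw [map_sub, map_add, map_add, map_add, coeff_C_mul_X_pow, coeff_C_mul_X_pow,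
    coeff_C_mul_X_pow, coeff_one] at h1
  norm_num at h1
  linarith

theorem deg_pos {h : ℕ → ℕ → ℚ} {D : Polynomial ℚ} (hL : Lead0 h D) (h01 : h 0 1 ≠ 0) :
    0 < D.natDegree := by
  rw [Nat.pos_iff_ne_zero]
  intro h0
  have h1 := hL.inv
  rw [Polynomial.eq_C_of_natDegree_eq_zero h0, Polynomial.C_comp, Polynomial.coe_C] at h1
  have e0 := congrArg (coeff 0) h1
  have e1 := congrArg (coeff 1) h1
  rw [coeff_mul_C, coeff_mk, coeff_one] at e0 e1
  norm_num at e0 e1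
  rcases e1 with e1 | e1
  · exact h01 e1
  · rw [e1, mul_zero] at e0
    exact zero_ne_one e0

end CIG

open CIG in
/-- CIG: graph knots have the property `CI`. -/
theorem t_CIG (hGRD : GRD_Stmt) (hRPG : RPG_Stmt) (hRE3 : RE3_Stmt) (hGRI : GRI_Stmt) :
    CIG_Stmt := by
  intro M cb v JS hO hV hJ n w h hl bd gr
  obtain ⟨G, D, hG, hodd, heven, hD⟩ := hGRD M cb v hO hV _ gr
  obtain ⟨hh, hR, hL⟩ := hRPG G D (fun N => JS N (ofDiag (cl n w) hl)) hodd heven hD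
    (fun N hN => by
      show (E N - E (-N)) * JS N (ofDiag (cl n w) hl) = evB N G
      rw [hJ.br N hN n w h hl bd, ← hG.2 N])
  have hJ1 : (fun N => JS N (ofDiag (cl n w) hl)) 1 = 1 := by
    have h1 := hJ.br 1 le_rfl n w h hl bd
    rw [hV.one, Nat.cast_one] at h1
    have h2 := E_sub_ne (N := 1) le_rfl
    rw [Nat.cast_one] at h2
    exact mul_left_cancel₀ h2 h1
  obtain ⟨-, -, v₀, hLd⟩ := hRE3 _ hh hR hJ1
  refine ⟨hh, D, hR, hL, ?_⟩
  have key : ∀ x z u v' : ℚ, LdE 2 x z u v' (fun N => JS N (ofDiag (cl n w) hl)) → x ≠ 0 →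
      0 < D.natDegree ∧ hh 0 1 ≠ 0 := by
    intro x z u v' hx hx0
    have e1 := c2_eq hx
    have e2 := c2_eq hLd
    have e3 : hh 0 1 = x := by linarith
    have h01 : hh 0 1 ≠ 0 := by rw [e3]; exact hx0
    exact ⟨deg_pos hL h01, h01⟩
  rcases (hGRI M cb v JS hO hV hJ n w h hl bd gr).2 with
    ⟨-, hT⟩ | ⟨-, x, z, u, v', hx, hx0, -⟩ | ⟨x, z, u, v', hx, hx0, -⟩
  · exact Or.inr (Or.inl hT)
  · exact Or.inl (key x z u v' hx hx0)
  · exact Or.inl (key x z u v' hx hx0.ne)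

end Pool.Agent.WD3
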