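import Pool.Agent.WD3.StG
import Pool.Agent.WD.CLM

/-!
CLK: the turned twists are a morphism.
-/

set_option autoImplicit false

namespace Pool.Agent.WD3.CLK

open Pool.Agent.LibH11 Pool.Agent.IT Pool.Agent.GK Pool.Agent.TwoBr Pool.Agent.WD
open Pool.Agent.WD.CLM (B1 B3 B1_apply B3_apply atp_mid sum_two sum_four)
open scoped BigOperators

/-- powers of one letter -/
theorem op_pow {A ι : Type} [CommRing A] [Fintype ι] [DecidableEq ι] (hA : ATP_Stmt)
    (T : RData A ι) (n i : ℕ) (hi : i < n) (e : Bool) (m : ℕ) :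
    op T n (List.replicate m (i, e)) =
      atp ((if e then T.R else T.R') ^ m) (⟨i, Nat.lt_succ_of_lt hi⟩ : Fin (n + 1))
        ⟨i + 1, Nat.succ_lt_succ hi⟩ := by
  have hne : (⟨i, Nat.lt_succ_of_lt hi⟩ : Fin (n + 1)) ≠ ⟨i + 1, Nat.succ_lt_succ hi⟩ := by
    intro h
    have := congrArg Fin.val h
    simp at this
  induction m with
  | zero =>
    rw [pow_zero, (hA A ι (Fin (n + 1)) (if e then T.R else T.R') (if e then T.R else T.R') 1 1
      _ _ 0 0 hne).2.1]
    rfl
  | succ m ih =>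
    rw [pow_succ', (hA A ι (Fin (n + 1)) (if e then T.R else T.R')
      ((if e then T.R else T.R') ^ m) 1 1 _ _ 0 0 hne).1, ← ih]
    rw [List.replicate_succ]
    show opl T n (i, e) * op T n (List.replicate m (i, e)) = _
    unfold opl
    rw [dif_pos hi]

/-- a turned matrix as a product -/
theorem rot_eq {K : Type} [Field K] (s : K) (N : ℕ)
    (S : Matrix (Fin N × Fin N) (Fin N × Fin N) K) :
    rot (MV s N) (atp S (0 : Fin (1 + 1)) 1 :
        Matrix (Fin (1 + 1) → Fin N) (Fin (1 + 1) → Fin N) K) =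
      (B1 s N * (atp S (1 : Fin (2 + 2)) 2)) * B3 s N := by
  ext x y
  rw [Matrix.mul_apply, sum_four]
  have h1 : ∀ u v : Fin 2 → Fin N,
      (B1 s N * (atp S (1 : Fin (2 + 2)) 2)) x (Fin.append u v) =
      ∑ c, vcup s N c (v 1) * (if x 0 = u 0 then S (x 1, c) (u 1, v 0) else 0) := by
    intro u v
    rw [Matrix.mul_apply, sum_four, Finset.sum_eq_single x, sum_two]
    · refine Finset.sum_congr rfl fun c _ => ?_
      rw [Finset.sum_eq_single (v 1)]
      · rw [B1_apply, atp_mid, if_pos rfl, one_mul]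
        simp
      · intro d _ hd
        rw [B1_apply, atp_mid, if_neg (c := x 0 = u 0 ∧ _), mul_zero]
        rintro ⟨-, h⟩
        exact hd h
      · intro h
        exact absurd (Finset.mem_univ _) h
    · intro a _ ha
      refine Finset.sum_eq_zero fun w _ => ?_
      rw [B1_apply, if_neg (Ne.symm ha), zero_mul, zero_mul]
    · intro h
      exact absurd (Finset.mem_univ _) h
  have h2 : ∀ u : Fin 2 → Fin N, ∑ v : Fin 2 → Fin N,
      (B1 s N * (atp S (1 : Fin (2 + 2)) 2)) x (Fin.append u v) *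
        B3 s N (Fin.append u v) y =
      (∑ c, vcup s N c (y 1) * (if x 0 = u 0 then S (x 1, c) (u 1, y 0) else 0)) *
        vcap s N (u 0) (u 1) := by
    intro u
    rw [Finset.sum_eq_single y]
    · rw [h1, B3_apply, if_pos rfl, mul_one]
    · intro v _ hv
      rw [B3_apply, if_neg hv, mul_zero, mul_zero]
    · intro h
      exact absurd (Finset.mem_univ _) h
  refine Eq.trans ?_ (Finset.sum_congr rfl fun u _ => (h2 u).symm)
  have h3 : ∀ a b c d : Fin N, (atp S (0 : Fin (1 + 1)) 1 :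
      Matrix (Fin (1 + 1) → Fin N) (Fin (1 + 1) → Fin N) K) ![a, b] ![c, d] = S (a, b) (c, d) := by
    intro a b c d
    unfold atp
    rw [if_pos]
    · rfl
    · intro z h0 h1
      fin_cases z
      · exact absurd rfl h0
      · exact absurd rfl h1
  rw [sum_two, Finset.sum_eq_single (x 0)]
  · show ∑ c, ∑ z, (MV s N).cup c (y 1) * (atp S (0 : Fin (1 + 1)) 1 :
      Matrix (Fin (1 + 1) → Fin N) (Fin (1 + 1) → Fin N) K) ![x 1, c] ![z, y 0] *
      (MV s N).cap (x 0) z = _
    rw [Finset.sum_comm]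
    refine Finset.sum_congr rfl fun z _ => ?_
    rw [Finset.sum_mul]
    refine Finset.sum_congr rfl fun c _ => ?_
    show _ = vcup s N c (y 1) * (if x 0 = x 0 then S (x 1, c) (z, y 0) else 0) *
      vcap s N (x 0) z
    rw [if_pos rfl, h3]
    rfl
  · intro z' _ hz
    refine Finset.sum_eq_zero fun z _ => ?_
    rw [Finset.sum_eq_zero, zero_mul]
    intro c _
    show vcup s N c (y 1) * (if x 0 = z' then S (x 1, c) (z, y 0) else 0) = 0
    rw [if_neg (Ne.symm hz), mul_zero]
  · intro h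
    exact absurd (Finset.mem_univ _) h

/-- the turned twists as a product -/
theorem rtw_eq {K : Type} [Field K] (hA : ATP_Stmt) (s : K) (N : ℕ) (k : ℤ) :
    rtw s N k =
      (B1 s N * (op (RD s (V s N)) 3 (List.replicate (2 * k.natAbs) (1, decide (0 < k))) :
        Matrix (Fin (2 + 2) → Fin N) (Fin (2 + 2) → Fin N) K)) * B3 s N := by
  unfold rtw tw
  rw [op_pow hA _ 1 0 (by norm_num), op_pow hA _ 3 1 (by norm_num)]
  exact rot_eq s N _

end Pool.Agent.WD3.CLK

namespace Pool.Agent.WD3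

open Pool.Agent.LibH11 Pool.Agent.IT Pool.Agent.GK Pool.Agent.TwoBr Pool.Agent.WD
open scoped BigOperators

/-- **CLK**: the turned twists are a morphism -/
theorem t_CLK (hC : CUPM_Stmt) (hM : MOP_Stmt) (hT : TENSOK_Stmt) (hP : FPOWOK_Stmt)
    (hV : VOK_Stmt) (hF : FPOWT_Stmt) (hA : ATP_Stmt) : CLK_Stmt := by
  intro K _ s hs N hN k
  obtain ⟨-, -, -, -, hcup, hcap⟩ := hC K s hs N hN
  have hVN : Ok s (V s N) := (hV K s hs).1 N
  have hV1 : Ok s (V s 1) := (hV K s hs).1 1
  have hP2 : Ok s (fpow s (V s N) 2) := hP K s hs (Fin N) (V s N) hVN 2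
  have i2 := CLM.is_two (s := s) (V s N)
  have i4 := CLM.is_four hs hF (V s N)
  have ir := CLM.is_right (s := s) (fpow s (V s N) 2)
  have il := CLM.is_left (s := s) (fpow s (V s N) 2)
  have i1 : CLM.Is (V s 1) (V s 1) (Equiv.refl _) :=
    ⟨fun _ => rfl, fun _ _ => rfl, fun _ _ => rfl⟩
  have k1 := i4.mor ir ((hT K s hs _ _ _ _ (fpow s (V s N) 2) (fpow s (V s N) 2)
    (fpow s (V s N) 2) (V s 1) hP2 hP2).2 _ _ (CLM.mor_one _) (i2.mor i1 hcup))
  have k3 := il.mor i4 ((hT K s hs _ _ _ _ (V s 1) (fpow s (V s N) 2)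
    (fpow s (V s N) 2) (fpow s (V s N) 2) hV1 hP2).2 _ _ (i1.mor i2 hcap) (CLM.mor_one _))
  have k2 := hM K s hs (Fin N) (V s N) hVN 3
    (List.replicate (2 * k.natAbs) (1, decide (0 < k)))
  rw [CLK.rtw_eq hA]
  exact CLM.mor_mul k3 (CLM.mor_mul k2 k1)

end Pool.Agent.WD3
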