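import Pool.Agent.WD3.StH

/-!
# Generalised doubles: composition (module CMB)
-/

set_option autoImplicit false

namespace Pool.Agent.WD3

open PowerSeries

namespace CMB

theorem aeval_trunc (f y : ℚ⟦X⟧) (R : ℕ) :
    Polynomial.aeval y (trunc R f) = ∑ m ∈ Finset.range R, C (coeff m f) * y ^ m := by
  have h : trunc R f = ∑ m ∈ Finset.range R, Polynomial.monomial m (coeff m f) := by
    ext k
    rw [coeff_trunc, Polynomial.finsetSum_coeff]
    simp only [Polynomial.coeff_monomial]
    rw [Finset.sum_ite_eq' (Finset.range R) k]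
    simp only [Finset.mem_range]
  rw [h, map_sum]
  refine Finset.sum_congr rfl fun m _ => ?_
  rw [Polynomial.aeval_monomial]
  rfl

theorem cm_iff (f y g : ℚ⟦X⟧) : Cm f y g ↔
    ∀ R : ℕ, (X : ℚ⟦X⟧) ^ R ∣ g - Polynomial.aeval y (trunc R f) := by
  unfold Cm
  simp only [aeval_trunc]

theorem zero_of_dvd {a : ℚ⟦X⟧} (h : ∀ R : ℕ, (X : ℚ⟦X⟧) ^ R ∣ a) : a = 0 := by
  ext m
  rw [PowerSeries.X_pow_dvd_iff.1 (h (m + 1)) m (Nat.lt_succ_self m), map_zero]

theorem dvd_aeval {y : ℚ⟦X⟧} (hy : constantCoeff y = 0) (p : Polynomial ℚ) (R : ℕ)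
    (hp : ∀ m < R, p.coeff m = 0) : (X : ℚ⟦X⟧) ^ R ∣ Polynomial.aeval y p := by
  obtain ⟨q, rfl⟩ := Polynomial.X_pow_dvd_iff.2 hp
  rw [map_mul, map_pow, Polynomial.aeval_X]
  exact (pow_dvd_pow_of_dvd (PowerSeries.X_dvd_iff.2 hy) R).mul_right _

theorem cm_mul {f y g : ℚ⟦X⟧} (hy : constantCoeff y = 0) (P : Polynomial ℚ) (h : Cm f y g) :
    Cm (f * (P : ℚ⟦X⟧)) y (g * Polynomial.aeval y P) := by
  rw [cm_iff] at h ⊢
  intro R
  have h1 : (X : ℚ⟦X⟧) ^ R ∣
      Polynomial.aeval y (trunc R f * P - trunc R (f * (P : ℚ⟦X⟧))) := by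
    refine dvd_aeval hy _ R fun m hm => ?_
    rw [Polynomial.coeff_sub, coeff_trunc, if_pos hm, sub_eq_zero]
    rw [PowerSeries.coeff_mul, Polynomial.coeff_mul]
    refine Finset.sum_congr rfl fun q hq => ?_
    have hq1 : q.1 < R := by
      have := Finset.HasAntidiagonal.mem_antidiagonal.1 hq
      omega
    rw [coeff_trunc, if_pos hq1, Polynomial.coeff_coe]
  rw [map_sub, map_mul] at h1
  have h2 := (h R).mul_right (Polynomial.aeval y P)
  have h3 := dvd_add h2 h1
  have e : (g - Polynomial.aeval y (trunc R f)) * Polynomial.aeval y P +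
      (Polynomial.aeval y (trunc R f) * Polynomial.aeval y P -
        Polynomial.aeval y (trunc R (f * (P : ℚ⟦X⟧)))) =
      g * Polynomial.aeval y P - Polynomial.aeval y (trunc R (f * (P : ℚ⟦X⟧))) := by ring
  rwa [e] at h3

theorem cm_one {y : ℚ⟦X⟧} (hy : constantCoeff y = 0) : Cm 1 y 1 := by
  rw [cm_iff]
  intro R
  have h1 : (X : ℚ⟦X⟧) ^ R ∣ Polynomial.aeval y ((1 : Polynomial ℚ) - trunc R (1 : ℚ⟦X⟧)) := by
    refine dvd_aeval hy _ R fun m hm => ?_
    rw [Polynomial.coeff_sub, coeff_trunc, if_pos hm, PowerSeries.coeff_one,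
      Polynomial.coeff_one]
    simp
  rwa [map_sub, map_one] at h1

theorem cm_unique {f y g g' : ℚ⟦X⟧} (h : Cm f y g) (h' : Cm f y g') : g = g' := by
  rw [← sub_eq_zero]
  refine zero_of_dvd fun R => ?_
  have := dvd_sub (h R) (h' R)
  have e : g - ∑ m ∈ Finset.range R, C (coeff m f) * y ^ m -
      (g' - ∑ m ∈ Finset.range R, C (coeff m f) * y ^ m) = g - g' := by ring
  rwa [e] at this

theorem cm_inj {f f' y g : ℚ⟦X⟧} (hy : constantCoeff y = 0) (hy0 : y ≠ 0) (h : Cm f y g)
    (h' : Cm f' y g) : f = f' := by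
  by_contra hne
  have hF : f - f' ≠ 0 := sub_ne_zero.2 hne
  have hex : ∃ m, coeff m (f - f') ≠ 0 := by
    by_contra hc
    push Not at hc
    exact hF (PowerSeries.ext fun m => by rw [hc m, map_zero])
  classical
  set r := Nat.find hex with hr
  have hr1 : coeff r (f - f') ≠ 0 := Nat.find_spec hex
  have hr2 : ∀ m < r, coeff m (f - f') = 0 := fun m hm => by
    by_contra hc
    exact Nat.find_min hex hm hc
  apply hy0
  have hyr : y ^ r = 0 := by
    refine zero_of_dvd fun R => ?_
    have h1 : (X : ℚ⟦X⟧) ^ (R + r + 1) ∣ Polynomial.aeval y (trunc (R + r + 1) (f - f')) := by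
      rw [cm_iff] at h h'
      have h2 := dvd_sub (h' (R + r + 1)) (h (R + r + 1))
      have e : g - Polynomial.aeval y (trunc (R + r + 1) f') -
          (g - Polynomial.aeval y (trunc (R + r + 1) f)) =
          Polynomial.aeval y (trunc (R + r + 1) (f - f')) := by
        have e2 : trunc (R + r + 1) (f - f') = trunc (R + r + 1) f - trunc (R + r + 1) f' := by
          ext m
          rw [Polynomial.coeff_sub, coeff_trunc, coeff_trunc, coeff_trunc, map_sub]
          split_ifs
          · rfl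
          · rw [sub_zero]
        rw [e2, map_sub]
        ring
      rwa [e] at h2
    have h3 : ∀ m < r, (trunc (R + r + 1) (f - f')).coeff m = 0 := fun m hm => by
      rw [coeff_trunc, if_pos (by omega), hr2 m hm]
    obtain ⟨q, hq⟩ := Polynomial.X_pow_dvd_iff.2 h3
    have hq0 : q.coeff 0 = coeff r (f - f') := by
      have h4 : (trunc (R + r + 1) (f - f')).coeff r = coeff r (f - f') := by
        rw [coeff_trunc, if_pos (by omega)]
      rw [hq, Polynomial.coeff_X_pow_mul', if_pos le_rfl, Nat.sub_self] at h4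
      exact h4
    have hcc : constantCoeff (Polynomial.aeval y q) = q.coeff 0 := by
      rw [Polynomial.aeval_def, Polynomial.hom_eval₂, hy, Polynomial.eval₂_at_zero]
      rfl
    have hu : IsUnit (Polynomial.aeval y q) := by
      rw [PowerSeries.isUnit_iff_constantCoeff, hcc, hq0]
      exact isUnit_iff_ne_zero.2 hr1
    rw [hq, map_mul, map_pow, Polynomial.aeval_X] at h1
    have h5 := (hu.dvd_mul_right).1 h1
    exact (pow_dvd_pow _ (by omega : R ≤ R + r + 1)).trans h5
  exact eq_zero_of_pow_eq_zero hyr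

end CMB

theorem t_CMB : CMB_Stmt := by
  intro f y g D hy hy0 h
  have e : Polynomial.aeval (2 + y) D =
      Polynomial.aeval y (D.comp (Polynomial.X + 2) : Polynomial ℚ) := by
    rw [Polynomial.aeval_comp]
    have e0 : Polynomial.aeval y (Polynomial.X + 2 : Polynomial ℚ) = 2 + y := by
      rw [map_add, Polynomial.aeval_X, map_ofNat, add_comm]
    rw [e0]
  rw [e]
  have h1 := CMB.cm_mul hy (D.comp (Polynomial.X + 2) : Polynomial ℚ) h
  constructor
  · intro hf
    rw [hf] at h1
    exact CMB.cm_unique h1 (CMB.cm_one hy)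
  · intro hg
    rw [hg] at h1
    exact CMB.cm_inj hy hy0 h1 (CMB.cm_one hy)

end Pool.Agent.WD3
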