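import Pool.Agent.WD3.StG
import Pool.Agent.WD2.CND

/-!
# The moments of the candidate for the coefficients of the turned twists
-/

set_option autoImplicit false

namespace Pool.Agent.WD3

open Pool.Agent.LibH11 Pool.Agent.IT Pool.Agent.GK Pool.Agent.TwoBr Pool.Agent.WD Pool.Agent.WD2
open scoped BigOperators

namespace CNK

variable {K : Type} [Field K] {s : K}

/-- the exchange of the sums -/
theorem exch (i n : ℕ) (φ : ℕ → K) :
    ∑ j ∈ Finset.range (n + 1), pp s i j * (((-1) ^ (n + j) * br s (2 * j + 1) *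
      bf s n ^ 2 / (bf s (n - j) * bf s (n + 1 + j))) *
      ((-1) ^ (n + j) * ∑ r ∈ Finset.Ico j (n + 1), φ r * (bf s r ^ 2 *
        (bf s (n + 1 + r) / bf s (n - r)) / (bf s (r - j) * bf s (r + j + 1))))) =
    ∑ r ∈ Finset.range (n + 1), (bf s n ^ 2 * φ r *
      (bf s r ^ 2 * (bf s (n + 1 + r) / bf s (n - r)))) * CND.inner s i n r := by
  have h1 : ∀ j ∈ Finset.range (n + 1),
      pp s i j * (((-1) ^ (n + j) * br s (2 * j + 1) *
      bf s n ^ 2 / (bf s (n - j) * bf s (n + 1 + j))) *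
      ((-1) ^ (n + j) * ∑ r ∈ Finset.Ico j (n + 1), φ r * (bf s r ^ 2 *
        (bf s (n + 1 + r) / bf s (n - r)) / (bf s (r - j) * bf s (r + j + 1))))) =
      ∑ r ∈ Finset.Ico j (n + 1), (bf s n ^ 2 * φ r *
        (bf s r ^ 2 * (bf s (n + 1 + r) / bf s (n - r)))) * (br s (2 * j + 1) * pp s i j /
        (bf s (r - j) * bf s (r + j + 1) * (bf s (n - j) * bf s (n + j + 1)))) := by
    intro j _
    rw [← mul_assoc, ← mul_assoc, Finset.mul_sum]
    refine Finset.sum_congr rfl fun m _ => ?_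
    have e : n + 1 + j = n + j + 1 := by omega
    rw [e]
    calc pp s i j * ((-1) ^ (n + j) * br s (2 * j + 1) * bf s n ^ 2 /
          (bf s (n - j) * bf s (n + j + 1))) * (-1) ^ (n + j) *
          (φ m * (bf s m ^ 2 * (bf s (n + 1 + m) / bf s (n - m)) /
            (bf s (m - j) * bf s (m + j + 1)))) =
        ((-1) ^ (n + j) * (-1) ^ (n + j)) * ((bf s n ^ 2 * φ m *
        (bf s m ^ 2 * (bf s (n + 1 + m) / bf s (n - m)))) * (br s (2 * j + 1) * pp s i j /
        (bf s (m - j) * bf s (m + j + 1) * (bf s (n - j) * bf s (n + j + 1))))) := by ring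
      _ = _ := by rw [CND.sign_sq, one_mul]
  rw [Finset.sum_congr rfl h1, Finset.range_eq_Ico, Finset.sum_Ico_Ico_comm]
  refine Finset.sum_congr rfl fun m _ => ?_
  unfold CND.inner
  rw [Finset.mul_sum, Finset.range_eq_Ico]

/-- only `i ≤ r` contributes -/
theorem shift (i n : ℕ) (h : i ≤ n) (C : ℕ → K) :
    ∑ r ∈ Finset.range (n + 1), C r * CND.inner s i n r =
      ∑ r ∈ Finset.Ico i (n + 1), C r * CND.inner s i n r := by
  rw [Finset.range_eq_Ico, ← Finset.sum_Ico_consecutive _ (Nat.zero_le i)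
    (Nat.le_succ_of_le h), Finset.sum_eq_zero, zero_add]
  intro m hm
  rw [CND.inner_zero i n m (Finset.mem_Ico.mp hm).2, mul_zero]

end CNK

theorem t_CNK (h1 : D1_Stmt) : CNK_Stmt := by
  intro K _ s hs N hN φ i hi
  obtain ⟨n, rfl⟩ : ∃ n, N = n + 1 := ⟨N - 1, by omega⟩
  have hbf : ∀ n : ℕ, bf s n ≠ 0 := fun n => bf_ne hs n
  simp only [Nat.add_sub_cancel]
  refine (CNK.exch (s := s) i n φ).trans ?_
  rw [CNK.shift i n (by omega), Finset.mul_sum]
  refine Finset.sum_congr rfl fun r hr => ?_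
  obtain ⟨hr1, hr2⟩ := Finset.mem_Ico.mp hr
  have hD := h1 K s hs i r n hr1 (by omega)
  unfold CND.inner
  rw [hD]
  have e1 : n + 1 + r = r + n + 1 := by omega
  have e2 : n + r - i = r + n - i := by omega
  rw [e1, e2]
  have n1 := hbf r
  have n2 := hbf (r + n + 1)
  have n3 := hbf n
  have n4 := hbf (n - r)
  have n5 := hbf (r - i)
  have n6 := hbf (n - i)
  field_simp

end Pool.Agent.WD3
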