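import Pool.Agent.WD3.StH

/-!
# W3: module CQK, the cyclotomic coefficients are determined (helper95)
-/

set_option autoImplicit false

namespace Pool.Agent.WD3

open Pool.Agent.LibH11 Pool.Agent.IT Pool.Agent.GK Pool.Agent.TwoBr Pool.Agent.WD Pool.Agent.WD2
open scoped BigOperators
open PowerSeries

namespace CQK

theorem cc_c2 (a : ℚ) : constantCoeff (c2 a) = a ^ 2 := by
  rw [← coeff_zero_eq_constantCoeff_apply]
  simp [c2]

theorem PT_ne (i : ℕ) : PT ((i + 1 : ℕ) : ℚ) i ≠ 0 := by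
  unfold PT
  refine Finset.prod_ne_zero_iff.2 fun l hl h => ?_
  have h1 := congrArg (constantCoeff (R := ℚ)) h
  rw [map_sub, cc_c2, cc_c2, map_zero] at h1
  have h2 : l < i := Finset.mem_range.1 hl
  have h3 : (l : ℚ) < (i : ℚ) := by exact_mod_cast h2
  have h4 : (0 : ℚ) ≤ (l : ℚ) := Nat.cast_nonneg l
  push_cast at h1
  nlinarith

end CQK

/-- the cyclotomic coefficients are determined -/
theorem t_CQK : CQK_Stmt := by
  intro k k' y y' h i
  induction i using Nat.strong_induction_on with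
  | _ i ih =>
    have h1 := h (i + 1) (by omega)
    unfold cyk at h1
    rw [Finset.sum_range_succ, Finset.sum_range_succ] at h1
    have h2 : ∀ l ∈ Finset.range i, (-1 : ℚ⟦X⟧) ^ l * PT ((i + 1 : ℕ) : ℚ) l * (FU k l * FF y l) =
        (-1 : ℚ⟦X⟧) ^ l * PT ((i + 1 : ℕ) : ℚ) l * (FU k' l * FF y' l) := fun l hl => by
      rw [ih l (Finset.mem_range.1 hl)]
    rw [Finset.sum_congr rfl h2] at h1
    have h3 := add_left_cancel h1
    refine mul_left_cancel₀ (mul_ne_zero (pow_ne_zero _ ?_) (CQK.PT_ne i)) h3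
    exact neg_ne_zero.2 one_ne_zero

end Pool.Agent.WD3
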