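import Pool.Agent.WD3.StI
import Pool.Agent.WD2.CYF

/-!
# Generalised doubles: CYK, the cyclotomic form
-/

set_option autoImplicit false

namespace Pool.Agent.WD3

open Pool.Agent.LibH11 Pool.Agent.IT Pool.Agent.GK Pool.Agent.TwoBr Pool.Agent.WD Pool.Agent.WD2
open scoped BigOperators
open PowerSeries

namespace CYK

/-- the coefficients `gC` as quotients -/
theorem gQ' (h : ESER_Stmt) {i j : ℕ} (hj : j ≤ i) :
    toK (gC i j) = toK X ^ i * (-1) ^ j * (bf sQ i * br sQ (2 * (j : ℤ) + 1)) /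
      (bf sQ (i - j) * bf sQ (i + j + 1)) := by
  have hs : Gen sQ := h.2.2.2.2.1
  rw [eq_div_iff (mul_ne_zero (bf_ne hs (i - j)) (bf_ne hs (i + j + 1))), CYF.gQ h hj]

/-- the coefficients of `k` full twists -/
theorem fuQ (h : ESER_Stmt) (k : ℤ) (r : ℕ) :
    toK (FU k r) = (-1) ^ r * toK X ^ r * bf sQ r * ph sQ k r := by
  unfold FU FF ph
  rw [map_sum, Finset.mul_sum]
  refine Finset.sum_congr rfl fun l hl => ?_
  have hl' : l ≤ r := Nat.lt_succ_iff.mp (Finset.mem_range.mp hl)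
  have hz : sQ ^ (4 * ((l : ℤ) * (l + 1)) * k) = toK (E (2 * (l : ℚ) * (l + 1) * k)) := by
    rw [h.2.2.2.1]
    push_cast
    congr 2
    ring
  have hm : ((-1 : KQ)) ^ r * (-1) ^ (r + l) = (-1) ^ l := by
    rw [pow_add, ← mul_assoc, ← pow_add, show r + r = 2 * r by ring, pow_mul]
    simp
  rw [map_mul, gQ' h hl', ← hz, ← hm]
  ring

theorem term (h : ESER_Stmt) (k : ℤ) {N i j : ℕ} (hj : j ≤ i) (hi : i < N) :
    (-1) ^ j * (ph sQ k i * (bf sQ i ^ 2 * (bf sQ (N + i) / bf sQ (N - 1 - i)) /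
      (bf sQ (i - j) * bf sQ (i + j + 1)))) *
      br sQ (2 * (j : ℤ) + 1) / br sQ N =
    toK ((-1) ^ i * PT N i * (FU k i * gC i j)) := by
  have hs : Gen sQ := h.2.2.2.2.1
  have hN : br sQ (N : ℤ) ≠ 0 := br_ne hs (by omega)
  have n1 := bf_ne hs (i - j)
  have n2 := bf_ne hs (i + j + 1)
  have n3 := bf_ne hs (N - 1 - i)
  have hr : toK ((-1) ^ i * PT N i * (FU k i * gC i j)) =
      (-1) ^ i * toK (PT N i) * (toK (FU k i) * toK (gC i j)) := by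
    simp only [map_mul, map_pow, map_neg, map_one]
  have ht : toK (X ^ (2 * i) * PT N i) = toK X ^ (2 * i) * toK (PT N i) := by
    simp only [map_mul, map_pow]
  have hm : ((-1 : KQ)) ^ i * (-1) ^ i = 1 := by
    rw [← pow_add, show i + i = 2 * i by ring, pow_mul]
    simp
  rw [hr, CYF.top h N i hi, ht, gQ' h hj, fuQ h]
  have e1 : (-1) ^ i * toK (PT N i) * ((-1) ^ i * toK X ^ i * bf sQ i * ph sQ k i *
      (toK X ^ i * (-1) ^ j * (bf sQ i * br sQ (2 * (j : ℤ) + 1)) /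
        (bf sQ (i - j) * bf sQ (i + j + 1)))) =
      ((-1) ^ i * (-1) ^ i) * (toK (PT N i) * (toK X ^ i * bf sQ i * ph sQ k i *
      (toK X ^ i * (-1) ^ j * (bf sQ i * br sQ (2 * (j : ℤ) + 1)) /
        (bf sQ (i - j) * bf sQ (i + j + 1))))) := by ring
  rw [e1, hm, one_mul]
  field_simp
  ring

theorem coef (h1 : GMK_Stmt) (h : ESER_Stmt) (k : ℤ) {N j : ℕ} (hN : 1 ≤ N) (hj : j < N) :
    Ck N k j = ∑ i ∈ Finset.Ico j N, toK ((-1) ^ i * PT N i * (FU k i * gC i j)) := by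
  have hs : Gen sQ := h.2.2.2.2.1
  have hb1 : br sQ 1 ≠ 0 := br_ne hs one_ne_zero
  have hbN : br sQ (N : ℤ) ≠ 0 := br_ne hs (by omega)
  have hz : sQ ^ (2 * k * ((N : ℤ) ^ 2 - 1)) * sQ ^ (-(2 * k * ((N : ℤ) ^ 2 - 1))) = 1 := by
    rw [← zpow_add₀ hs.1, add_neg_cancel, zpow_zero]
  have hm : ((-1 : KQ)) ^ (N - 1) * (-1) ^ (N - 1 + j) = (-1) ^ j := by
    rw [← pow_add, show N - 1 + (N - 1 + j) = 2 * (N - 1) + j by ring, pow_add, pow_mul]
    simp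
  unfold Ck
  rw [h1 KQ sQ hs N hN k j hj, WD2.qn_eq, WD2.qn_eq]
  rw [← Finset.sum_congr rfl fun i hi => term h k (Finset.mem_Ico.mp hi).1 (Finset.mem_Ico.mp hi).2]
  rw [← Finset.sum_div, ← Finset.sum_mul, ← Finset.mul_sum]
  set S := ∑ i ∈ Finset.Ico j N, ph sQ k i * (bf sQ i ^ 2 * (bf sQ (N + i) / bf sQ (N - 1 - i)) /
    (bf sQ (i - j) * bf sQ (i + j + 1))) with hS
  have e1 : br sQ (2 * (j : ℤ) + 1) / br sQ 1 / (br sQ (N : ℤ) / br sQ 1) =
      br sQ (2 * (j : ℤ) + 1) / br sQ N := by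
    field_simp
  calc (-1) ^ (N - 1) * sQ ^ (2 * k * ((N : ℤ) ^ 2 - 1)) *
        ((-1) ^ (N - 1 + j) * sQ ^ (-(2 * k * ((N : ℤ) ^ 2 - 1))) * S) *
        (br sQ (2 * (j : ℤ) + 1) / br sQ 1) / (br sQ (N : ℤ) / br sQ 1)
      = ((-1) ^ (N - 1) * (-1) ^ (N - 1 + j)) * (sQ ^ (2 * k * ((N : ℤ) ^ 2 - 1)) *
          sQ ^ (-(2 * k * ((N : ℤ) ^ 2 - 1)))) * S *
          (br sQ (2 * (j : ℤ) + 1) / br sQ 1 / (br sQ (N : ℤ) / br sQ 1)) := by ring
    _ = (-1) ^ j * S * br sQ (2 * (j : ℤ) + 1) / br sQ N := by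
        rw [hm, hz, e1]
        ring

end CYK

open CYK in
/-- CYK -/
theorem t_CYK (h1 : GMK_Stmt) (h2 : ESER_Stmt) : CYK_Stmt := by
  intro k N hN y
  unfold cyk
  rw [map_sum]
  have e1 : ∀ i ∈ Finset.range N, toK ((-1) ^ i * PT N i * (FU k i * FF y i)) =
      ∑ j ∈ Finset.range (i + 1),
        toK ((-1) ^ i * PT N i * (FU k i * gC i j)) * toK (y j) := by
    intro i _
    unfold FF
    rw [Finset.mul_sum, Finset.mul_sum, map_sum]
    refine Finset.sum_congr rfl fun j _ => ?_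
    rw [← map_mul]
    congr 1
    ring
  rw [Finset.sum_congr rfl e1]
  rw [Finset.sum_comm' (t' := Finset.range N) (s' := fun j => Finset.Ico j N)]
  · refine Finset.sum_congr rfl fun j hj => ?_
    rw [coef h1 h2 k hN (Finset.mem_range.mp hj), Finset.sum_mul]
  · intro i j
    simp only [Finset.mem_range, Finset.mem_Ico]
    omega

end Pool.Agent.WD3
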