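import Pool.Agent.WD3.Defs

/-!
# Graph knots and all their iterated generalised twisted doubles (MP_31fd3b_gt)

Knots are diagrams of long knots in Morse position modulo the moves (`LibH11/SlicedKnots`), `cl n w`
is the closure of a braid word on `n + 1` strands and `gdouble k m D` the generalised twisted double
with `k` full twists in the place of the clasp and `m` additional full twists of the two parallel
strands (`WD3/Defs`).
-/

set_option autoImplicit false

namespace Pool.Agent.WD3

open Pool.Agent.LibH11.Sliced
open Pool.Agent.IT (Word ev)
open Pool.Agent.GK (GraphKnot)
open Pool.Agent.WD (cl)

/-- The class of all graph knots and all their iterated generalised twisted doubles: the smallest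
class of knots that contains the graph knots and with a knot, given by any diagram `D`, all its
generalised twisted doubles (any number `k ≠ 0` of full twists in the place of the clasp, any number
of twists of the two parallel strands). -/
inductive IsIterated : Knot → Prop
  | graph (n : ℕ) (w : Word) (hw : ∀ x ∈ w, x.1 < n) (h : LibH11.IsKnot (ev n w))
      (hg : GraphKnot (LibH11.closure (ev n w) h)) (hl : IsLongKnot (cl n w)) :
      IsIterated (ofDiag (cl n w) hl)
  | double (k : ℤ) (hk : k ≠ 0) (m : ℤ) (D : Diag) (hD : IsLongKnot D)
      (hK : IsIterated (ofDiag D hD)) (hl : IsLongKnot (gdouble k m D)) :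
      IsIterated (ofDiag (gdouble k m D) hl)

end Pool.Agent.WD3
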