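import Pool.Agent.WD3.StH

/-!
# DD3: comparison of two doubles
-/

set_option autoImplicit false

namespace Pool.Agent.WD3

open Pool.Agent.LibH11 Pool.Agent.IT Pool.Agent.GK Pool.Agent.TwoBr Pool.Agent.WD Pool.Agent.WD2
open Pool.Agent.LibH11.Sliced (Diag Kind cnt IsLongKnot ofDiag braidWord)
open scoped BigOperators
open PowerSeries

namespace DD3

theorem FU_ne (FTA : FTA_Stmt) {k : ℤ} (hk : k ≠ 0) (i : ℕ) : FU k i ≠ 0 := by
  obtain ⟨A, hA, hc⟩ := FTA k i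
  rw [hA]
  refine mul_ne_zero (pow_ne_zero _ PowerSeries.X_ne_zero) ?_
  intro h
  rw [h, map_zero] at hc
  have hk' : (-(k : ℚ)) ≠ 0 := by
    rw [neg_ne_zero]
    exact_mod_cast hk
  exact pow_ne_zero i hk' hc.symm

theorem cancel (FTA : FTA_Stmt) (ODJ : ODJ_Stmt) {k t : ℤ} (hk : k ≠ 0) (J J' : ℕ → ℚ⟦X⟧)
    (h : ∀ i, FU k i * FF (yt t J) i = FU k i * FF (yt t J') i) :
    ∀ N : ℕ, Odd N → J N = J' N :=
  ODJ t J J' fun i => mul_left_cancel₀ (FU_ne FTA hk i) (h i)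

end DD3

theorem t_DD3 (CQK : CQK_Stmt) (RE3 : RE3_Stmt) (KTE : KTE_Stmt) (FTA : FTA_Stmt)
    (ODJ : ODJ_Stmt) (SWD : SWD_Stmt) (SWC : SWC_Stmt) (TTA : TTA_Stmt) (TTB : TTB_Stmt)
    (T0C : T0C_Stmt) : DD3_Stmt := by
  intro k t k' t' J J' hk hk' hJ hJ' hC hC' H
  have hF := CQK k k' (yt t J) (yt t' J') H
  obtain ⟨h, D, hR, hL, hA⟩ := hC
  obtain ⟨h', D', hR', hL', hA'⟩ := hC'
  obtain ⟨e1, -, -⟩ := RE3 J h hR hJ
  obtain ⟨e1', -, -⟩ := RE3 J' h' hR' hJ'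
  obtain ⟨k1, k2⟩ := KTE k t k' t' _ _ _ _ J J' hk hk' hJ hJ' (e1 3 (by norm_num))
    (e1 5 (by norm_num)) (e1' 3 (by norm_num)) (e1' 5 (by norm_num)) hF
  by_cases ht : t = 0
  · have ht' : t' = 0 := k1.1 ht
    subst ht ht'
    by_cases hD : 0 < D.natDegree ∨ 0 < D'.natDegree
    · have hkk : k = k' := TTB k k' h h' D D' hk hk' hL hL' (TTA k k' J J' h h' hR hR' hF) hD
      subst hkk
      exact Or.inl ⟨rfl, rfl, DD3.cancel FTA ODJ hk J J' hF⟩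
    · have a1 : Triv J ∨ ∃ (d : ℕ) (x z u v : ℚ), 3 ≤ d ∧ LdE d x z u v J ∧ x ≠ 0 ∧ u = x / 3 :=
        hA.resolve_left fun h1 => hD (Or.inl h1.1)
      have a2 : Triv J' ∨ ∃ (d : ℕ) (x z u v : ℚ), 3 ≤ d ∧ LdE d x z u v J' ∧ x ≠ 0 ∧ u = x / 3 :=
        hA'.resolve_left fun h1 => hD (Or.inr h1.1)
      rcases T0C k k' J J' hk hk' hJ hJ' a1 a2 hF with hkk | ⟨c1, c2⟩
      · subst hkk
        exact Or.inl ⟨rfl, rfl, DD3.cancel FTA ODJ hk J J' hF⟩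
      · exact Or.inr (Or.inr ⟨rfl, rfl, c1, c2⟩)
  · obtain ⟨m1, m2⟩ := k2 ht
    by_cases hkk : k' = k
    · subst hkk
      have htt : t' = t := by linarith
      subst htt
      exact Or.inl ⟨rfl, rfl, DD3.cancel FTA ODJ hk J J' hF⟩
    · have m3 : (k' - k) * (k' - t) = 0 := by linear_combination k' * (-m2) + m1
      have hkt : k' = t := by
        rcases mul_eq_zero.1 m3 with h1 | h1
        · exact absurd (by linarith) hkk
        · linarith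
      subst hkt
      have htk : t' = k := by linarith
      subst htk
      by_cases hD : 0 < D.natDegree ∨ 0 < D'.natDegree
      · exact absurd (SWD k' t' J J' h h' D D' hk' hk hR hR' hL hL' hD hF) hkk
      · have a1 : Triv J ∨ ∃ (d : ℕ) (x z u v : ℚ), 3 ≤ d ∧ LdE d x z u v J ∧ x ≠ 0 ∧
            u = x / 3 := hA.resolve_left fun h1 => hD (Or.inl h1.1)
        have a2 : Triv J' ∨ ∃ (d : ℕ) (x z u v : ℚ), 3 ≤ d ∧ LdE d x z u v J' ∧ x ≠ 0 ∧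
            u = x / 3 := hA'.resolve_left fun h1 => hD (Or.inr h1.1)
        obtain ⟨c1, c2⟩ := SWC k' t' J J' hk' hk hkk hJ hJ' a1 a2 hF
        exact Or.inr (Or.inl ⟨rfl, rfl, hk', c1, c2⟩)

end Pool.Agent.WD3
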