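import Pool.Agent.WD3.StG
import Pool.Agent.WD2.FEN

/-!
# Generalised doubles, module DIA (helper12): diagonal entries of an endomorphism
-/

set_option autoImplicit false

namespace Pool.Agent.WD3

open Pool.Agent.LibH11 Pool.Agent.IT Pool.Agent.GK Pool.Agent.TwoBr Pool.Agent.WD Pool.Agent.WD2
open scoped BigOperators

namespace DIA

variable {K : Type} [Field K] {s : K}

/-- The powers of `F` at the labels `(0, b)`. -/
theorem FF_row (hs : IT.Gen s) (N : ℕ) (n b : ℕ) (g : ℕ → ℕ → K) :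
    (FEN.FF s N)^[n] g 0 (b + n) =
      s ^ (-(2 * ((n : ℤ) * ((N : ℤ) - 1)))) * (qfac s (b + n) / qfac s b) * g 0 b := by
  have h0 := hs.1
  induction n generalizing g with
  | zero =>
    rw [Function.iterate_zero, id_eq, add_zero, div_self (FEN.qfac_ne s hs b)]
    simp
  | succ n ih =>
    rw [Function.iterate_succ_apply']
    unfold FEN.FF
    rw [Nat.cast_zero, FEN.qn_zero, zero_mul, zero_add,
      show b + (n + 1) - 1 = b + n by omega]
    change _ * (FEN.FF s N)^[n] g 0 (b + n) = _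
    rw [ih, show b + (n + 1) = (b + n) + 1 by omega, FEN.qfac_succ]
    have e : s ^ (-(2 * (((n + 1 : ℕ) : ℤ) * ((N : ℤ) - 1)))) =
        s ^ (-(2 * ((N : ℤ) - 1 - 2 * 0))) * s ^ (-(2 * ((n : ℤ) * ((N : ℤ) - 1)))) := by
      rw [← zpow_add₀ h0]
      congr 1
      push_cast
      ring
    rw [e]
    push_cast
    ring

/-- The function of the two labels with the given values. -/
def ofv (N : ℕ) (u : (Fin 2 → Fin N) → K) (a b : ℕ) : K :=
  if h : a < N ∧ b < N then u ![⟨a, h.1⟩, ⟨b, h.2⟩] else 0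

theorem vec_ofv (N : ℕ) (u : (Fin 2 → Fin N) → K) : FEN.vec N (ofv N u) = u := by
  funext x
  unfold FEN.vec ofv
  rw [dif_pos ⟨(x 0).2, (x 1).2⟩]
  congr 1
  funext k
  fin_cases k
  · rfl
  · rfl

end DIA

theorem t_DIA : DIA_Stmt := by
  intro K _ s hs N hN Y hY y z n hy0 hy1 hz0 hz1
  have hb : br s 1 ≠ 0 := br_ne hs one_ne_zero
  have hy1' : (y 1 : ℕ) = (z 1 : ℕ) + n := by omega
  have hc : Y * ((fpow s (V s N) 2).F ^ n * (fpow s (V s N) 2).E ^ n) =
      (fpow s (V s N) 2).F ^ n * (Y * (fpow s (V s N) 2).E ^ n) := by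
    have h1 : Commute (fpow s (V s N) 2).F Y := hY.F
    have h2 : (fpow s (V s N) 2).F ^ n * Y = Y * (fpow s (V s N) 2).F ^ n := h1.pow_left n
    rw [← mul_assoc, ← h2, mul_assoc]
  have hE : ((fpow s (V s N) 2).E ^ n).mulVec (Pi.single y 1) =
      qfac s n • (Pi.single z 1 : (Fin 2 → Fin N) → K) := by
    have h1 : (Pi.single y 1 : (Fin 2 → Fin N) → K) =
        FEN.vec N fun a b => if a = 0 ∧ b = N - 1 then 1 else 0 := by
      funext x
      change _ = if (x 0 : ℕ) = 0 ∧ (x 1 : ℕ) = N - 1 then (1 : K) else 0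
      by_cases h : x = y
      · rw [h, Pi.single_eq_same, if_pos ⟨hy0, by omega⟩]
      · rw [Pi.single_eq_of_ne h, if_neg]
        rintro ⟨h0, h1⟩
        apply h
        funext k
        have hk : k = 0 ∨ k = 1 := by omega
        rcases hk with rfl | rfl
        · exact Fin.ext (by omega)
        · exact Fin.ext (by omega)
    rw [h1, FEN.pow_E, FEN.E_left s N n (by omega)]
    funext x
    change (if (x 0 : ℕ) = 0 ∧ (x 1 : ℕ) = N - 1 - n then qfac s n else 0) =
      qfac s n * (Pi.single z 1 : (Fin 2 → Fin N) → K) x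
    by_cases h : x = z
    · rw [h, Pi.single_eq_same, if_pos ⟨hz0, by omega⟩, mul_one]
    · rw [Pi.single_eq_of_ne h, if_neg, mul_zero]
      rintro ⟨h0, h1⟩
      apply h
      funext k
      have hk : k = 0 ∨ k = 1 := by omega
      rcases hk with rfl | rfl
      · exact Fin.ext (by omega)
      · exact Fin.ext (by omega)
  have hent : (Y * ((fpow s (V s N) 2).F ^ n * (fpow s (V s N) 2).E ^ n)) y y =
      s ^ (-(2 * ((n : ℤ) * ((N : ℤ) - 1)))) * (qfac s (z 1 + n) / qfac s (z 1)) *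
        (qfac s n * Y z z) := by
    have h2 := congrFun (Matrix.mulVec_single_one
      (Y * ((fpow s (V s N) 2).F ^ n * (fpow s (V s N) 2).E ^ n)) y) y
    have h3 : (Y * ((fpow s (V s N) 2).F ^ n * (fpow s (V s N) 2).E ^ n)) y y =
        ((Y * ((fpow s (V s N) 2).F ^ n * (fpow s (V s N) 2).E ^ n)).mulVec
          (Pi.single y 1)) y := h2.symm
    have h4 : Y.mulVec (qfac s n • (Pi.single z 1 : (Fin 2 → Fin N) → K)) =
        FEN.vec N (DIA.ofv N fun x => qfac s n * Y x z) := by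
      rw [DIA.vec_ofv, Matrix.mulVec_smul, Matrix.mulVec_single_one]
      rfl
    rw [h3, hc, ← Matrix.mulVec_mulVec, ← Matrix.mulVec_mulVec, hE, h4, FEN.pow_F]
    change (FEN.FF s N)^[n] (DIA.ofv N fun x => qfac s n * Y x z) (y 0) (y 1) = _
    rw [hy0, hy1', DIA.FF_row hs]
    congr 1
    unfold DIA.ofv
    rw [dif_pos ⟨by omega, (z 1).2⟩]
    have e : (![⟨0, by omega⟩, ⟨(z 1 : ℕ), (z 1).2⟩] : Fin 2 → Fin N) = z := by
      funext k
      fin_cases k
      · exact Fin.ext hz0.symm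
      · rfl
    rw [e]
  rw [hent]
  have hN1 : N - 1 = z 1 + n := by omega
  have q1 := qfac_eq hs n
  have q2 := qfac_eq hs (z 1 + n)
  have q3 := qfac_eq hs (z 1 : ℕ)
  have n1 := FEN.qfac_ne s hs (z 1 : ℕ)
  rw [hN1, ← q1, ← q2, ← q3, pow_add, show 2 * n = n + n by ring, pow_add]
  field_simp

end Pool.Agent.WD3
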