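import Pool.Agent.WD3.StI

/-!
# Generalised doubles, module DIV (helper21): divisibility of the coefficients of the cyclotomic form
-/

set_option autoImplicit false

namespace Pool.Agent.WD3

open Pool.Agent.LibH11 Pool.Agent.IT Pool.Agent.GK Pool.Agent.TwoBr Pool.Agent.WD Pool.Agent.WD2
open scoped BigOperators
open PowerSeries

namespace DIV

/-- `(E 1 - E (-1)) / (2 X)` -/
noncomputable def s1 : ℚ⟦X⟧ :=
  PowerSeries.mk fun n => if Even n then 1 / ((n + 1).factorial : ℚ) else 0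

/-- the inverse of `s1` -/
noncomputable def w1 : ℚ⟦X⟧ := s1⁻¹

theorem cc_s1 : constantCoeff s1 = 1 := by
  rw [← coeff_zero_eq_constantCoeff_apply]
  simp [s1]

theorem w1_mul : w1 * s1 = 1 :=
  PowerSeries.inv_mul_cancel _ (by rw [cc_s1]; exact one_ne_zero)

theorem cc_w1 : constantCoeff w1 = 1 := by
  have h := congrArg constantCoeff w1_mul
  rwa [map_mul, cc_s1, mul_one, map_one] at h

theorem b1_eq (a : ℚ) : b1 a = C (2 * a) * rescale a s1 := by
  ext n
  rw [coeff_C_mul, coeff_rescale]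
  simp only [b1, s1, coeff_mk]
  split_ifs with h
  · rw [Odd.neg_pow (Even.add_one h)]
    ring
  · rw [Even.neg_pow (Odd.add_one (Nat.not_even_iff_odd.mp h))]
    ring

theorem w_mul_b1 (a : ℚ) : rescale a w1 * b1 a = C (2 * a) := by
  rw [b1_eq, mul_left_comm, ← map_mul, w1_mul, map_one, mul_one]

/-- the recursion for the coefficients -/
theorem gC_step {i j : ℕ} (hj : j ≤ i) :
    gC (i + 1) j * (b1 ((i : ℚ) + 1 - j) * b1 ((i : ℚ) + 1 + j + 1)) =
      b1 ((i : ℚ) + 1) * gC i j := by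
  have h1 := gC_mul (i + 1) j
  have h2 := gC_mul i j
  have e1 : i + 1 - j = (i - j) + 1 := by omega
  have e2 : i + 1 + j + 1 = (i + j + 1) + 1 := by omega
  rw [e1, e2, uF_succ (i - j), uF_succ (i + j + 1), uF_succ i] at h1
  have e3 : (((i - j : ℕ) : ℚ) + 1) = (i : ℚ) + 1 - j := by
    push_cast [Nat.cast_sub hj]
    ring
  have e4 : (((i + j + 1 : ℕ) : ℚ) + 1) = (i : ℚ) + 1 + j + 1 := by
    push_cast
    ring
  rw [e3, e4] at h1
  have hne : uF (i - j) * uF (i + j + 1) ≠ 0 := fun h => uu_ne i j (by rw [h, map_zero])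
  refine mul_right_cancel₀ hne ?_
  linear_combination h1 - b1 ((i : ℚ) + 1) * h2

/-! ### Symmetric polynomials in two variables with a given sum -/

theorem pw (c : ℚ) : ∀ k : ℕ, ∃ P : Polynomial ℚ, 2 * P.natDegree ≤ k ∧
    ∀ A B : ℚ, A + B = c → A ^ k + B ^ k = P.eval (A * B)
  | 0 => ⟨Polynomial.C 2, by simp, fun A B _ => by
      rw [Polynomial.eval_C]
      norm_num⟩
  | 1 => ⟨Polynomial.C c, by simp, fun A B h => by
      rw [Polynomial.eval_C, pow_one, pow_one, h]⟩
  | k + 2 => by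
    obtain ⟨P, hP, h1⟩ := pw c k
    obtain ⟨Q, hQ, h2⟩ := pw c (k + 1)
    refine ⟨Polynomial.C c * Q - Polynomial.X * P, ?_, fun A B h => ?_⟩
    · have e1 := Polynomial.natDegree_sub_le (Polynomial.C c * Q) (Polynomial.X * P)
      have e2 := Polynomial.natDegree_C_mul_le c Q
      have e3 := Polynomial.natDegree_mul_le (p := (Polynomial.X : Polynomial ℚ)) (q := P)
      rw [Polynomial.natDegree_X] at e3
      rcases max_choice (Polynomial.C c * Q).natDegree (Polynomial.X * P).natDegree with h | h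
      · rw [h] at e1
        omega
      · rw [h] at e1
        omega
    · rw [Polynomial.eval_sub, Polynomial.eval_mul, Polynomial.eval_C, Polynomial.eval_mul,
        Polynomial.eval_X, ← h1 A B h, ← h2 A B h, ← h]
      ring

theorem pr0 (c : ℚ) (n k : ℕ) : ∃ P : Polynomial ℚ, 2 * P.natDegree ≤ n + (n + k) ∧
    ∀ A B : ℚ, A + B = c → A ^ n * B ^ (n + k) + B ^ n * A ^ (n + k) = P.eval (A * B) := by
  obtain ⟨P, hP, h1⟩ := pw c k
  refine ⟨Polynomial.X ^ n * P, ?_, fun A B h => ?_⟩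
  · have e3 := Polynomial.natDegree_mul_le (p := (Polynomial.X ^ n : Polynomial ℚ)) (q := P)
    rw [Polynomial.natDegree_X_pow] at e3
    omega
  · rw [Polynomial.eval_mul, Polynomial.eval_pow, Polynomial.eval_X, ← h1 A B h]
    ring

theorem pr (c : ℚ) (n n' : ℕ) : ∃ P : Polynomial ℚ, 2 * P.natDegree ≤ n + n' ∧
    ∀ A B : ℚ, A + B = c → A ^ n * B ^ n' + B ^ n * A ^ n' = P.eval (A * B) := by
  rcases le_total n n' with h | h
  · obtain ⟨k, rfl⟩ := Nat.exists_eq_add_of_le h
    exact pr0 c n k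
  · obtain ⟨k, rfl⟩ := Nat.exists_eq_add_of_le h
    obtain ⟨P, hP, h1⟩ := pr0 c n' k
    refine ⟨P, by omega, fun A B h => ?_⟩
    rw [← h1 A B h]
    ring

/-- the coefficients of `w (A X) w (B X)` for `A + B = c` -/
theorem cw (c : ℚ) (w : ℚ⟦X⟧) (m : ℕ) : ∃ P : Polynomial ℚ, 2 * P.natDegree ≤ m ∧
    ∀ A B : ℚ, A + B = c → coeff m (rescale A w * rescale B w) = P.eval (A * B) := by
  choose P hP h1 using pr c
  refine ⟨Polynomial.C (1 / 2) * ∑ x ∈ Finset.HasAntidiagonal.antidiagonal m,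
    Polynomial.C (coeff x.1 w * coeff x.2 w) * P x.1 x.2, ?_, fun A B h => ?_⟩
  · have e1 := Polynomial.natDegree_C_mul_le (1 / 2 : ℚ) (∑ x ∈ Finset.HasAntidiagonal.antidiagonal m,
      Polynomial.C (coeff x.1 w * coeff x.2 w) * P x.1 x.2)
    have e2 : (∑ x ∈ Finset.HasAntidiagonal.antidiagonal m,
        Polynomial.C (coeff x.1 w * coeff x.2 w) * P x.1 x.2).natDegree ≤ m / 2 := by
      refine Polynomial.natDegree_sum_le_of_forall_le _ _ fun x hx => ?_
      have e3 := Finset.HasAntidiagonal.mem_antidiagonal.mp hx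
      have e4 := hP x.1 x.2
      have e5 := Polynomial.natDegree_C_mul_le (coeff x.1 w * coeff x.2 w) (P x.1 x.2)
      omega
    omega
  · have e1 : coeff m (rescale A w * rescale B w) =
        1 / 2 * (coeff m (rescale A w * rescale B w) + coeff m (rescale B w * rescale A w)) := by
      rw [mul_comm (rescale B w)]
      ring
    rw [e1, Polynomial.eval_mul, Polynomial.eval_C, Polynomial.eval_finsetSum, coeff_mul,
      coeff_mul, ← Finset.sum_add_distrib]
    congr 1
    refine Finset.sum_congr rfl fun x _ => ?_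
    rw [Polynomial.eval_mul, Polynomial.eval_C, ← h1 x.1 x.2 A B h, coeff_rescale, coeff_rescale,
      coeff_rescale, coeff_rescale]
    ring

/-- the series `u` -/
theorem symU (h : SJM_Stmt) (i : ℕ) : SymJ (fun j => rescale ((i : ℚ) + 1 - j) w1 *
    rescale ((i : ℚ) + 1 + j + 1) w1) 1 := by
  have h1 := h.2.2 (fun M => rescale ((2 * (i : ℚ) + 3 - M) / 2) w1 *
    rescale ((2 * (i : ℚ) + 3 + M) / 2) w1) ?_ ?_
  · have e : (fun j : ℕ => rescale ((i : ℚ) + 1 - j) w1 * rescale ((i : ℚ) + 1 + j + 1) w1) =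
        fun j : ℕ => rescale ((2 * (i : ℚ) + 3 - (2 * j + 1 : ℕ)) / 2) w1 *
          rescale ((2 * (i : ℚ) + 3 + (2 * j + 1 : ℕ)) / 2) w1 := by
      funext j
      have e1 : (2 * (i : ℚ) + 3 - (2 * j + 1 : ℕ)) / 2 = (i : ℚ) + 1 - j := by
        push_cast
        ring
      have e2 : (2 * (i : ℚ) + 3 + (2 * j + 1 : ℕ)) / 2 = (i : ℚ) + 1 + j + 1 := by
        push_cast
        ring
      rw [e1, e2]
    rw [e]
    exact h1
  · intro m
    obtain ⟨P, hP, h2⟩ := cw (2 * (i : ℚ) + 3) w1 m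
    refine ⟨P.comp (Polynomial.C ((2 * (i : ℚ) + 3) ^ 2 / 4) -
      Polynomial.C (1 / 4) * Polynomial.X), ?_, fun M _ => ?_⟩
    · rw [Polynomial.natDegree_comp]
      have e1 : (Polynomial.C ((2 * (i : ℚ) + 3) ^ 2 / 4) -
          Polynomial.C (1 / 4) * Polynomial.X : Polynomial ℚ).natDegree ≤ 1 := by
        refine (Polynomial.natDegree_sub_le _ _).trans (max_le (by simp) ?_)
        exact (Polynomial.natDegree_C_mul_le _ _).trans Polynomial.natDegree_X.le
      calc 2 * (P.natDegree * _) ≤ 2 * (P.natDegree * 1) := by gcongr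
        _ ≤ m := by omega
    · have e1 := h2 ((2 * (i : ℚ) + 3 - M) / 2) ((2 * (i : ℚ) + 3 + M) / 2) (by ring)
      rw [Polynomial.eval_comp, Polynomial.eval_sub, Polynomial.eval_mul, Polynomial.eval_C,
        Polynomial.eval_C, Polynomial.eval_X]
      refine e1.trans ?_
      congr 1
      ring
  · rw [map_mul, ← coeff_zero_eq_constantCoeff_apply, ← coeff_zero_eq_constantCoeff_apply,
      coeff_rescale, coeff_rescale, coeff_zero_eq_constantCoeff_apply, cc_w1]
    norm_num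

/-- the difference quotient -/
theorem diffQ (p : Polynomial ℚ) (b : ℚ) (m : ℕ) (hp : p.natDegree ≤ m + 1) :
    ∃ q : Polynomial ℚ, q.natDegree ≤ m ∧ q.coeff m = p.coeff (m + 1) ∧
      ∀ a : ℚ, p.eval a - p.eval b = (a - b) * q.eval a := by
  have hq : (p /ₘ (Polynomial.X - Polynomial.C b)).natDegree ≤ m := by
    rw [Polynomial.natDegree_divByMonic _ (Polynomial.monic_X_sub_C b),
      Polynomial.natDegree_X_sub_C]
    omega
  have h := Polynomial.modByMonic_add_div p (Polynomial.X - Polynomial.C b)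
  rw [Polynomial.modByMonic_X_sub_C_eq_C_eval] at h
  refine ⟨p /ₘ (Polynomial.X - Polynomial.C b), hq, ?_, fun a => ?_⟩
  · have h1 := congrArg (fun f => Polynomial.coeff f (m + 1)) h
    simp only [Polynomial.coeff_add, Polynomial.coeff_C_succ, sub_mul, Polynomial.coeff_sub,
      Polynomial.coeff_X_mul, Polynomial.coeff_C_mul] at h1
    rw [Polynomial.coeff_eq_zero_of_natDegree_lt (lt_of_le_of_lt hq (Nat.lt_succ_self m))] at h1
    linarith
  · have h1 := congrArg (Polynomial.eval a) h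
    rw [Polynomial.eval_add, Polynomial.eval_C, Polynomial.eval_mul, Polynomial.eval_sub,
      Polynomial.eval_X, Polynomial.eval_C] at h1
    linarith

/-- the sequence `y'` -/
theorem symY {y : ℕ → ℚ⟦X⟧} {σ : ℚ⟦X⟧} (h : SymJ y σ) (i : ℕ) :
    ∃ y' : ℕ → ℚ⟦X⟧, SymJ y' (PowerSeries.mk fun m => coeff (m + 1) σ) ∧
      ∀ j : ℕ, y j - y (i + 1) =
        -(X * C (((i : ℚ) + 1 - j) * ((i : ℚ) + 1 + j + 1)) * y' j) := by
  choose p hp hc hv using h
  choose q hq hqc hqv using fun m : ℕ =>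
    diffQ (p (m + 1)) (((i + 1 : ℕ) : ℚ) * ((i + 1 : ℕ) + 1)) m (hp (m + 1))
  refine ⟨fun j => PowerSeries.mk fun m => (q m).eval ((j : ℚ) * (j + 1)), fun m => ?_,
    fun j => ?_⟩
  · refine ⟨q m, hq m, ?_, fun j => ?_⟩
    · rw [hqc, hc, coeff_mk]
    · rw [coeff_mk]
  · ext n
    cases n with
    | zero =>
      have h0 := Polynomial.eq_C_of_natDegree_le_zero (hp 0)
      rw [map_sub, hv, hv, h0, Polynomial.eval_C, Polynomial.eval_C, sub_self, map_neg, mul_assoc,
        coeff_zero_X_mul, neg_zero]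
    | succ n =>
      rw [map_sub, hv, hv, hqv, map_neg, mul_assoc, coeff_succ_X_mul, coeff_C_mul, coeff_mk]
      push_cast
      ring

theorem FF_eq (h2 : SG0_Stmt) (y : ℕ → ℚ⟦X⟧) (i : ℕ) : FF y (i + 1) =
    ∑ j ∈ Finset.range (i + 1), gC (i + 1) j * (y j - y (i + 1)) := by
  have h3 := h2.2 (i + 1) (by omega)
  have e1 : FF y (i + 1) = ∑ j ∈ Finset.range (i + 1 + 1), gC (i + 1) j * (y j - y (i + 1)) := by
    unfold FF
    simp only [mul_sub]
    rw [Finset.sum_sub_distrib, ← Finset.sum_mul, h3, zero_mul, sub_zero]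
  rw [e1, Finset.sum_range_succ, sub_self, mul_zero, add_zero]

end DIV

open DIV in
/-- DIV: divisibility of the coefficients of the cyclotomic form. -/
theorem t_DIV (h1 : SJM_Stmt) (h2 : SG0_Stmt) : DIV_Stmt := by
  intro y σ hy i
  induction i generalizing y σ with
  | zero =>
    refine ⟨by simp, ?_⟩
    obtain ⟨p, hp, hc, hv⟩ := hy 0
    have h0 := Polynomial.eq_C_of_natDegree_le_zero hp
    have e1 : FF y 0 = y 0 := by simp [FF, h2.1]
    rw [e1, hv, h0, Polynomial.eval_C, hc]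
    simp
  | succ i ih =>
    obtain ⟨y', hy', hd⟩ := symY hy i
    have hu := h1.1 _ _ _ _ (symU h1 i) hy'
    obtain ⟨g1, g2⟩ := ih _ _ hu
    set u : ℕ → ℚ⟦X⟧ := fun j => rescale ((i : ℚ) + 1 - j) w1 * rescale ((i : ℚ) + 1 + j + 1) w1
      with hu_def
    have key : FF y (i + 1) = X * (C (-1 / 4) * b1 ((i : ℚ) + 1) *
        FF (fun j => u j * y' j) i) := by
      rw [FF_eq h2]
      unfold FF
      rw [Finset.mul_sum, Finset.mul_sum]
      refine Finset.sum_congr rfl fun j hj => ?_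
      have hj' : j ≤ i := Nat.lt_succ_iff.mp (Finset.mem_range.mp hj)
      rw [hd]
      have e1 : (C (((i : ℚ) + 1 - j) * ((i : ℚ) + 1 + j + 1)) : ℚ⟦X⟧) = C (1 / 4) *
          (u j * (b1 ((i : ℚ) + 1 - j) * b1 ((i : ℚ) + 1 + j + 1))) := by
        have e2 : u j * (b1 ((i : ℚ) + 1 - j) * b1 ((i : ℚ) + 1 + j + 1)) =
            (rescale ((i : ℚ) + 1 - j) w1 * b1 ((i : ℚ) + 1 - j)) *
            (rescale ((i : ℚ) + 1 + j + 1) w1 * b1 ((i : ℚ) + 1 + j + 1)) := by
          rw [hu_def]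
          ring
        rw [e2, w_mul_b1, w_mul_b1, ← map_mul, ← map_mul]
        congr 1
        ring
      have e3 := gC_step hj'
      have e4 : (C (-1 / 4) : ℚ⟦X⟧) = -C (1 / 4) := by
        rw [← map_neg]
        congr 1
        norm_num
      rw [e1, e4]
      linear_combination (-(X * C (1 / 4) * u j * y' j)) * e3
    obtain ⟨r, hr⟩ := g1
    constructor
    · refine ⟨C (-1 / 4) * b1 ((i : ℚ) + 1) * r, ?_⟩
      rw [key, hr, pow_succ]
      ring
    · rw [hr, show X ^ i * r = r * X ^ i by ring, coeff_mul_X_pow'] at g2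
      rw [if_pos le_rfl, Nat.sub_self, one_mul, coeff_mk] at g2
      rw [key, hr, show X * (C (-1 / 4) * b1 ((i : ℚ) + 1) * (X ^ i * r)) =
        (C (-1 / 4) * (b1 ((i : ℚ) + 1) * r)) * X ^ (i + 1) by rw [pow_succ]; ring,
        coeff_mul_X_pow', if_pos le_rfl, Nat.sub_self, coeff_C_mul,
        coeff_zero_eq_constantCoeff_apply, map_mul, constantCoeff_b1,
        ← coeff_zero_eq_constantCoeff_apply, g2, Nat.factorial_succ, pow_succ]
      push_cast
      ring

end Pool.Agent.WD3
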