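import Pool.Agent.WD3.StG
import Pool.Agent.WD.DVF

/-!
# Module DVK: the value of a generalised double
-/

set_option autoImplicit false

namespace Pool.Agent.WD3

open Pool.Agent.LibH11 Pool.Agent.IT Pool.Agent.GK Pool.Agent.TwoBr Pool.Agent.WD Pool.Agent.WD2
open Pool.Agent.LibH11.Sliced (Diag Kind cnt IsLongKnot ofDiag braidWord)
open scoped BigOperators

namespace DVK

variable {A ι : Type} [CommRing A] [Fintype ι] [DecidableEq ι]

/-- crossings to the right of the first strand -/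
lemma val_shift (M : Mats A ι) (e : Bool) (F : List ι → A) (x : ι) :
    ∀ (j : ℕ) (l : List ι), M.val (List.replicate j (Kind.crs e, 1)) F (x :: l) =
      M.val (List.replicate j (Kind.crs e, 0)) (fun l' => F (x :: l')) l := by
  intro j
  induction j with
  | zero => intro l; rfl
  | succ j ih =>
    intro l
    rw [List.replicate_succ, List.replicate_succ]
    have h1 : M.val ((Kind.crs e, 1) :: List.replicate j (Kind.crs e, 1)) F (x :: l) =
        M.loc (Kind.crs e) (fun l' => M.val (List.replicate j (Kind.crs e, 1)) F (x :: l')) l :=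
      rfl
    have h2 : M.val ((Kind.crs e, 0) :: List.replicate j (Kind.crs e, 0))
        (fun l' => F (x :: l')) l =
        M.loc (Kind.crs e) (M.val (List.replicate j (Kind.crs e, 0)) (fun l' => F (x :: l'))) l :=
      rfl
    rw [h1, h2]
    congr 1
    funext l'
    exact ih l'

lemma ofFn2 (y : Fin 2 → ι) : List.ofFn y = [y 0, y 1] := by
  simp [List.ofFn_succ]

lemma braid_twists (m : ℤ) :
    braidWord (List.replicate (2 * m.natAbs) (0, decide (0 < m))) = twists m := by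
  simp [braidWord, twists]

lemma bd_twists (m : ℤ) : Bd 1 (List.replicate (2 * m.natAbs) ((0 : ℕ), decide (0 < m))) := by
  intro x hx
  rw [(List.mem_replicate.1 hx).2]
  exact Nat.zero_lt_one

/-- the value of full twists -/
lemma val_twists (hO : VOP_Stmt) (M : Mats A ι) (κ : ι → A) (m : ℤ) (F : List ι → A)
    (y : Fin 2 → ι) (r : List ι) :
    M.val (twists m) F (y 0 :: y 1 :: r) =
      ∑ t : Fin 2 → ι, tw (rdM M κ) m y t * F (t 0 :: t 1 :: r) := by
  have h3 := hO A ι M κ 1 (List.replicate (2 * m.natAbs) (0, decide (0 < m))) (bd_twists m) F y r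
  rw [braid_twists, ofFn2 y] at h3
  refine h3.trans (Finset.sum_congr rfl fun t _ => ?_)
  rw [ofFn2 t]
  rfl

/-- the upper twists with the last strand not yet closed -/
def Y (M : Mats A ι) (Z : Matrix (Fin 2 → ι) (Fin 2 → ι) A) (t : Fin 2 → ι) (c u : ι) : A :=
  ∑ z, Z ![t 1, c] ![z, u] * M.cap (t 0) z

lemma sum_fin2 (f : (Fin 2 → ι) → A) : ∑ y, f y = ∑ u, ∑ z, f ![z, u] := by
  rw [← (finTwoArrowEquiv ι).symm.sum_comp, Fintype.sum_prod_type, Finset.sum_comm]
  rfl

lemma top_val (hO : VOP_Stmt) (M : Mats A ι) (κ : ι → A) (k : ℤ) (F : List ι → A)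
    (t : Fin 2 → ι) (c : ι) :
    M.val (clasps k ++ [(Kind.cap, 0)]) F [t 0, t 1, c] =
      ∑ u, Y M (tw (rdM M κ) k) t c u * F [u] := by
  rw [Mats.val_append]
  unfold clasps
  rw [val_shift]
  have h := val_twists hO M κ k (fun l' => M.val [(Kind.cap, 0)] F (t 0 :: l')) ![t 1, c] []
  unfold twists at h
  refine h.trans ?_
  have h1 : ∀ y : Fin 2 → ι, M.val [(Kind.cap, 0)] F (t 0 :: [y 0, y 1]) =
      M.cap (t 0) (y 0) * F [y 1] := fun y => rfl
  rw [Finset.sum_congr rfl fun y _ => by rw [h1 y],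
    sum_fin2 fun y => tw (rdM M κ) k ![t 1, c] y * (M.cap (t 0) (y 0) * F [y 1])]
  refine Finset.sum_congr rfl fun u _ => ?_
  unfold Y
  rw [Finset.sum_mul]
  refine Finset.sum_congr rfl fun z _ => ?_
  rw [mul_assoc]
  rfl

lemma rot_eq (M : Mats A ι) (Z : Matrix (Fin 2 → ι) (Fin 2 → ι) A) (t : Fin 2 → ι) (u v : ι) :
    rot M Z t ![u, v] = ∑ c, M.cup c v * Y M Z t c u := by
  unfold rot Y
  refine Finset.sum_congr rfl fun c _ => ?_
  rw [Finset.mul_sum]
  refine Finset.sum_congr rfl fun z _ => ?_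
  rw [← mul_assoc]
  rfl

lemma Y_eq {M : Mats A ι} (hz : Zig M) (Z : Matrix (Fin 2 → ι) (Fin 2 → ι) A)
    (t : Fin 2 → ι) (c u : ι) :
    Y M Z t c u = ∑ v, rot M Z t ![u, v] * M.cap v c := by
  have h1 : ∀ v, rot M Z t ![u, v] * M.cap v c =
      ∑ c', Y M Z t c' u * (M.cup c' v * M.cap v c) := by
    intro v
    rw [rot_eq, Finset.sum_mul]
    exact Finset.sum_congr rfl fun c' _ => by ring
  rw [Finset.sum_congr rfl fun v _ => h1 v, Finset.sum_comm]
  have h2 : ∀ c', ∑ v, Y M Z t c' u * (M.cup c' v * M.cap v c) =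
      if c' = c then Y M Z t c' u else 0 := by
    intro c'
    rw [← Finset.mul_sum, hz c c']
    split_ifs
    · rw [mul_one]
    · rw [mul_zero]
  rw [Finset.sum_congr rfl fun c' _ => h2 c', Finset.sum_ite_eq' Finset.univ c,
    if_pos (Finset.mem_univ c)]

end DVK

open DVK in
/-- **DVK** -/
theorem t_DVK (hV : VRI_Stmt) (hD : DCL_Stmt) (hO : VOP_Stmt) : DVK_Stmt := by
  intro A _ ι _ _ M ε κ hp hz k m n w hw F a
  have hcnt : cnt 2 (para (cl n w)) = some 2 := cnt_para (cl n w) 1 1 (cnt_cl hw 0)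
  obtain ⟨Q, hQ⟩ : ∃ Q : Matrix (Fin 2 → ι) (Fin 2 → ι) A,
      Q = ptr (blkD (rdM M κ) 1) n w * tw (rdM M κ) m := ⟨_, rfl⟩
  obtain ⟨C, hC⟩ : ∃ C : Matrix (Fin 2 → ι) (Fin 2 → ι) A,
      C = rot M (tw (rdM M κ) k) := ⟨_, rfl⟩
  rw [← hQ, ← hC]
  have hin : ∀ b c, M.val (para (cl n w) ++ twists m ++ clasps k ++ [(Kind.cap, 0)]) F
      [a, b, c] =
      ε ^ (2 * n) * ∑ t, Q ![a, b] t * ∑ u, (∑ v, C t ![u, v] * M.cap v c) * F [u] := by
    intro b c
    rw [List.append_assoc, List.append_assoc, Mats.val_append, Mats.val_append]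
    have h1 := hV A ι M (para (cl n w)) 2 2 hcnt (M.val (twists m)
      (M.val (clasps k ++ [(Kind.cap, 0)]) F)) [a, b] [c] rfl
    have h2 := hD A ι M ε κ hp n w hw (fun l' => M.val (twists m)
      (M.val (clasps k ++ [(Kind.cap, 0)]) F) (l' ++ [c])) a b
    refine h1.trans (h2.trans ?_)
    congr 1
    have h4 : ∀ t, Q ![a, b] t = ∑ y, ptr (blkD (rdM M κ) 1) n w ![a, b] y *
        tw (rdM M κ) m y t := by
      intro t
      rw [hQ]
      rfl
    have h5 : ∀ t, Q ![a, b] t * ∑ u, (∑ v, C t ![u, v] * M.cap v c) * F [u] =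
        ∑ y, ptr (blkD (rdM M κ) 1) n w ![a, b] y * (tw (rdM M κ) m y t *
          M.val (clasps k ++ [(Kind.cap, 0)]) F [t 0, t 1, c]) := by
      intro t
      rw [h4, Finset.sum_mul, top_val hO M κ]
      refine Finset.sum_congr rfl fun y _ => ?_
      rw [hC, Finset.sum_congr rfl fun u _ => by rw [← Y_eq hz _ t c u], mul_assoc]
    rw [Finset.sum_congr rfl fun t _ => h5 t, Finset.sum_comm]
    refine Finset.sum_congr rfl fun y _ => ?_
    rw [← Finset.mul_sum]
    congr 1
    exact val_twists hO M κ m (M.val (clasps k ++ [(Kind.cap, 0)]) F) y [c]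
  have h0 : M.val (gdouble k m (cl n w)) F [a] = ∑ b, ∑ c, M.cup b c *
      M.val (para (cl n w) ++ twists m ++ clasps k ++ [(Kind.cap, 0)]) F [a, b, c] := rfl
  rw [h0]
  have h6 : ∀ b, ∑ c, M.cup b c * M.val (para (cl n w) ++ twists m ++ clasps k ++
        [(Kind.cap, 0)]) F [a, b, c] =
      ε ^ (2 * n + 1) * ∑ u, κ b * (Q * C) ![a, b] ![u, b] * F [u] := by
    intro b
    have h7 : ∀ c, M.cup b c * M.val (para (cl n w) ++ twists m ++ clasps k ++
        [(Kind.cap, 0)]) F [a, b, c] =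
        ε ^ (2 * n) * (M.cup b c * ∑ t, Q ![a, b] t *
          ∑ u, (∑ v, C t ![u, v] * M.cap v c) * F [u]) := by
      intro c
      rw [hin b c]
      ring
    rw [Finset.sum_congr rfl fun c _ => h7 c, ← Finset.mul_sum,
      DVFx.rearr (fun c => M.cup b c) (fun t => Q ![a, b] t) (fun t u v => C t ![u, v])
        (fun v c => M.cap v c) (fun u => F [u]), pow_succ, mul_assoc]
    congr 1
    rw [Finset.mul_sum]
    refine Finset.sum_congr rfl fun u _ => ?_
    have h8 : ∀ v, (∑ t, Q ![a, b] t * C t ![u, v]) *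
        (∑ c, M.cup b c * M.cap v c) * F [u] =
        if b = v then (∑ t, Q ![a, b] t * C t ![u, v]) * (ε * κ b) * F [u] else 0 := by
      intro v
      rw [hp b v]
      split_ifs
      · rfl
      · rw [mul_zero, zero_mul]
    rw [Finset.sum_congr rfl fun v _ => h8 v, Finset.sum_ite_eq Finset.univ b,
      if_pos (Finset.mem_univ b), Matrix.mul_apply]
    ring
  rw [Finset.sum_congr rfl fun b _ => h6 b, ← Finset.mul_sum, Finset.sum_comm]
  congr 1
  refine Finset.sum_congr rfl fun u _ => ?_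
  rw [Finset.sum_mul]

end Pool.Agent.WD3
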