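import Pool.Agent.WD3.StZ

/-!
# ENA: two polynomials with a common generic zero have common zeros over every complex number
-/

set_option autoImplicit false

namespace Pool.Agent.WD3

open PowerSeries

namespace ENA

theorem inj0 (w : ℚ⟦X⟧) (hw : w ≠ 0) (hc : constantCoeff w = 0) :
    ∀ (n : ℕ) (q : Polynomial ℚ), q.natDegree ≤ n → Polynomial.aeval w q = 0 → q = 0 := by
  intro n
  induction n with
  | zero =>
    intro q hq h
    rw [Polynomial.eq_C_of_natDegree_le_zero hq] at h ⊢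
    rw [Polynomial.aeval_C] at h
    have h1 := (algebraMap ℚ ℚ⟦X⟧).injective (h.trans (map_zero _).symm)
    rw [h1, Polynomial.C_0]
  | succ n ih =>
    intro q hq h
    have h1 := Polynomial.divX_mul_X_add q
    have h2 : Polynomial.aeval w q.divX * w + algebraMap ℚ ℚ⟦X⟧ (q.coeff 0) = 0 := by
      rw [← h]
      conv_rhs => rw [← h1]
      rw [map_add, map_mul, Polynomial.aeval_X, Polynomial.aeval_C]
    have h3 : q.coeff 0 = 0 := by
      have h4 := congrArg (constantCoeff (R := ℚ)) h2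
      rw [map_add, map_mul, hc, mul_zero, zero_add, map_zero] at h4
      exact h4
    rw [h3, map_zero, add_zero] at h2
    have h5 : Polynomial.aeval w q.divX = 0 := (mul_eq_zero.1 h2).resolve_right hw
    have h6 : q.divX = 0 := ih _ (by
      rw [Polynomial.natDegree_divX_eq_natDegree_tsub_one]
      omega) h5
    rw [← h1, h6, h3, zero_mul, zero_add, Polynomial.C_0]

theorem inj (v : ℚ⟦X⟧) (hv : v ≠ C (constantCoeff v)) :
    Function.Injective (Polynomial.aeval v : Polynomial ℚ →ₐ[ℚ] ℚ⟦X⟧) := by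
  rw [injective_iff_map_eq_zero]
  intro p hp
  have h1 : Polynomial.aeval (v - C (constantCoeff v))
      (p.comp (Polynomial.X + Polynomial.C (constantCoeff v))) = 0 := by
    rw [Polynomial.aeval_comp, map_add, Polynomial.aeval_X, Polynomial.aeval_C]
    have h2 : algebraMap ℚ ℚ⟦X⟧ (constantCoeff v) = C (constantCoeff v) := rfl
    rw [h2, sub_add_cancel, hp]
  have h3 := inj0 (v - C (constantCoeff v)) (sub_ne_zero.2 hv) (by
    rw [map_sub, constantCoeff_C, sub_self]) _ _ le_rfl h1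
  have h4 := congrArg (fun q : Polynomial ℚ =>
    q.comp (Polynomial.X - Polynomial.C (constantCoeff v))) h3
  simpa [Polynomial.comp_assoc] using h4

/-- The minimal polynomial. -/
theorem core {R : Type} [CommRing R] [IsDomain R] [Algebra (Polynomial ℚ) R]
    (hinj : Function.Injective (algebraMap (Polynomial ℚ) R)) (y : R)
    (A B : Polynomial (Polynomial ℚ)) (hB : B.Monic)
    (h1 : Polynomial.eval₂ (algebraMap (Polynomial ℚ) R) y A = 0)
    (h2 : Polynomial.eval₂ (algebraMap (Polynomial ℚ) R) y B = 0) :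
    ∃ m : Polynomial (Polynomial ℚ), m.Monic ∧ 0 < m.natDegree ∧ m ∣ A ∧ m ∣ B := by
  have hint : IsIntegral (Polynomial ℚ) y := ⟨B, hB, h2⟩
  have : Module.IsTorsionFree (Polynomial ℚ) R :=
    Module.isTorsionFree_iff_algebraMap_injective.2 hinj
  exact ⟨minpoly (Polynomial ℚ) y, minpoly.monic hint, minpoly.natDegree_pos hint,
    minpoly.isIntegrallyClosed_dvd hint h1, minpoly.isIntegrallyClosed_dvd hint h2⟩

end ENA

theorem t_ENA : ENA_Stmt := by
  intro v v' hv A B hB h1 h2 x₀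
  let alg : Algebra (Polynomial ℚ) ℚ⟦X⟧ :=
    ((Polynomial.aeval v : Polynomial ℚ →ₐ[ℚ] ℚ⟦X⟧) : Polynomial ℚ →+* ℚ⟦X⟧).toAlgebra
  obtain ⟨m, hm, hdeg, hA', hB'⟩ := @ENA.core ℚ⟦X⟧ _ _ alg (ENA.inj v hv) v' A B hB h1 h2
  have hm' : (m.map ((Polynomial.aeval x₀ : Polynomial ℚ →ₐ[ℚ] ℂ) :
      Polynomial ℚ →+* ℂ)).natDegree = m.natDegree := hm.natDegree_map _
  obtain ⟨y₀, hy⟩ := IsAlgClosed.exists_root (m.map ((Polynomial.aeval x₀ :
      Polynomial ℚ →ₐ[ℚ] ℂ) : Polynomial ℚ →+* ℂ)) (by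
    intro h
    have h3 := Polynomial.natDegree_eq_of_degree_eq_some h
    rw [hm'] at h3
    exact hdeg.ne' h3)
  have h3 : ev2 x₀ y₀ m = 0 := by
    unfold ev2
    rw [Polynomial.eval₂_eq_eval_map]
    exact hy
  have hdvd : ∀ Q : Polynomial (Polynomial ℚ), m ∣ Q → ev2 x₀ y₀ Q = 0 := by
    rintro _ ⟨q, rfl⟩
    have h4 : ev2 x₀ y₀ (m * q) = ev2 x₀ y₀ m * ev2 x₀ y₀ q := by
      unfold ev2
      rw [Polynomial.eval₂_mul]
    rw [h4, h3, zero_mul]
  exact ⟨y₀, hdvd A hA', hdvd B hB'⟩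

end Pool.Agent.WD3
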