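import Pool.Agent.WD3.StZ

/-!
# Generalised doubles, module ENB: both exponents are positive
-/

set_option autoImplicit false

open Filter Topology Finset

namespace Pool.Agent.WD3

namespace ENB

theorem den_ne {z : ℂ} (hz : 1 < ‖z‖) (T : ℕ) : z ^ (2 * T + 2) + z ≠ 0 := by
  intro h
  have h1 : z ^ (2 * T + 2) = -z := eq_neg_of_add_eq_zero_left h
  have h2 : ‖z‖ ^ (2 * T + 2) = ‖z‖ := by rw [← norm_pow, h1, norm_neg]
  have h3 : ‖z‖ ^ 2 ≤ ‖z‖ ^ (2 * T + 2) := pow_le_pow_right₀ hz.le (by omega)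
  nlinarith

/-- the quotient `a` -/
noncomputable def qu (T : ℕ) (z : ℂ) : ℂ := (z ^ 2 - 1) / (z ^ (2 * T + 2) + z)

theorem quo {l : Filter ℝ} {z : ℝ → ℂ} (hz : ∀ᶠ e in l, z e ≠ 0)
    (hi : Tendsto (fun e => (z e)⁻¹) l (𝓝 0)) (T : ℕ) :
    Tendsto (fun e => qu T (z e) * (z e) ^ (2 * T)) l (𝓝 1) := by
  have h1 : Tendsto (fun e => (1 - ((z e)⁻¹) ^ 2) / (1 + ((z e)⁻¹) ^ (2 * T + 1))) l
      (𝓝 ((1 - 0 ^ 2) / (1 + 0 ^ (2 * T + 1)))) := by
    refine Tendsto.div (tendsto_const_nhds.sub (hi.pow 2)) (tendsto_const_nhds.add (hi.pow _)) ?_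
    simp
  have h2 : ((1 - 0 ^ 2) / (1 + 0 ^ (2 * T + 1)) : ℂ) = 1 := by simp
  rw [h2] at h1
  refine h1.congr' ?_
  filter_upwards [hz] with e he
  have h3 : (z e) ^ (2 * T + 2) ≠ 0 := pow_ne_zero _ he
  have hsz : (z e)⁻¹ * z e = 1 := inv_mul_cancel₀ he
  have hn : (1 - ((z e)⁻¹) ^ 2) * (z e) ^ (2 * T + 2) = ((z e) ^ 2 - 1) * (z e) ^ (2 * T) := by
    have : ((z e)⁻¹) ^ 2 * (z e) ^ (2 * T + 2) = (z e) ^ (2 * T) := by
      calc ((z e)⁻¹) ^ 2 * (z e) ^ (2 * T + 2) = ((z e)⁻¹ * z e) ^ 2 * (z e) ^ (2 * T) := by ring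
        _ = _ := by rw [hsz, one_pow, one_mul]
    rw [sub_mul, this]
    ring
  have hd : (1 + ((z e)⁻¹) ^ (2 * T + 1)) * (z e) ^ (2 * T + 2) = (z e) ^ (2 * T + 2) + z e := by
    have : ((z e)⁻¹) ^ (2 * T + 1) * (z e) ^ (2 * T + 2) = z e := by
      calc ((z e)⁻¹) ^ (2 * T + 1) * (z e) ^ (2 * T + 2) =
          ((z e)⁻¹ * z e) ^ (2 * T + 1) * z e := by
            rw [mul_pow]
            ring
        _ = _ := by rw [hsz, one_pow, one_mul]
    rw [add_mul, this, one_mul]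
  rw [← mul_div_mul_right _ _ h3, hn, hd, qu]
  ring

/-- the difference of the quotients -/
theorem dif {l : Filter ℝ} {s a a' : ℝ → ℂ} {T K : ℕ} (hs : Tendsto s l (𝓝 0))
    {x : ℝ → ℂ} (hxs : ∀ᶠ e in l, s e * x e = 1)
    (ha : Tendsto (fun e => a e * (x e) ^ (2 * T)) l (𝓝 1))
    (ha' : Tendsto (fun e => a' e * (x e) ^ (2 * K)) l (𝓝 1)) (h : T ≠ K) :
    ∃ (m : ℕ) (c : ℂ), c ≠ 0 ∧
      Tendsto (fun e => (a' e - a e) * (x e) ^ (2 * m)) l (𝓝 c) := by
  have key : ∀ (b : ℝ → ℂ) (P Q : ℕ), P < Q →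
      Tendsto (fun e => b e * (x e) ^ (2 * Q)) l (𝓝 1) →
      Tendsto (fun e => b e * (x e) ^ (2 * P)) l (𝓝 0) := by
    intro b P Q hPQ hb
    have h1 := hb.mul (hs.pow (2 * (Q - P)))
    rw [one_mul, zero_pow (by omega)] at h1
    refine h1.congr' ?_
    filter_upwards [hxs] with e he
    have h2 : (x e) ^ (2 * Q) = (x e) ^ (2 * P) * (x e) ^ (2 * (Q - P)) := by
      rw [← pow_add]
      congr 1
      omega
    calc b e * (x e) ^ (2 * Q) * (s e) ^ (2 * (Q - P)) =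
        b e * (x e) ^ (2 * P) * (s e * x e) ^ (2 * (Q - P)) := by
          rw [h2, mul_pow]
          ring
      _ = _ := by rw [he, one_pow, mul_one]
  rcases lt_or_gt_of_ne h with h1 | h1
  · refine ⟨T, -1, by norm_num, ?_⟩
    have h2 := (key a' T K h1 ha').sub ha
    rw [zero_sub] at h2
    refine h2.congr fun e => ?_
    ring
  · refine ⟨K, 1, one_ne_zero, ?_⟩
    have h2 := ha'.sub (key a K T h1 ha)
    rw [sub_zero] at h2
    refine h2.congr fun e => ?_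
    ring

/-- the leading term of a polynomial -/
theorem lead {l : Filter ℝ} {s w : ℝ → ℂ} (hs : Tendsto s l (𝓝 0))
    (hw : Tendsto (fun e => w e * (s e) ^ 2) l (𝓝 1)) (P : Polynomial ℂ) :
    Tendsto (fun e => P.eval (w e) * (s e) ^ (2 * P.natDegree)) l (𝓝 P.leadingCoeff) := by
  have h1 : Tendsto (fun e => ∑ i ∈ range (P.natDegree + 1),
      P.coeff i * ((w e * (s e) ^ 2) ^ i * (s e) ^ (2 * (P.natDegree - i)))) l
      (𝓝 (∑ i ∈ range (P.natDegree + 1), P.coeff i * (1 ^ i * 0 ^ (2 * (P.natDegree - i))))) :=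
    tendsto_finsetSum _ fun i _ => tendsto_const_nhds.mul ((hw.pow i).mul (hs.pow _))
  have h2 : ∑ i ∈ range (P.natDegree + 1), P.coeff i * (1 ^ i * 0 ^ (2 * (P.natDegree - i))) =
      P.leadingCoeff := by
    rw [sum_range_succ, sum_eq_zero]
    · simp
    · intro i hi
      rw [mem_range] at hi
      rw [zero_pow (by omega), mul_zero, mul_zero]
  rw [h2] at h1
  refine h1.congr fun e => ?_
  rw [Polynomial.eval_eq_sum_range, sum_mul]
  refine sum_congr rfl fun i hi => ?_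
  rw [mem_range] at hi
  have h3 : (s e) ^ (2 * P.natDegree) = (s e) ^ (2 * i) * (s e) ^ (2 * (P.natDegree - i)) := by
    rw [← pow_add]
    congr 1
    omega
  rw [h3, mul_pow, ← pow_mul]
  ring

/-- the leading term of a difference -/
theorem lead2 {l : Filter ℝ} {s w w' u : ℝ → ℂ} {d : ℂ} (hs : Tendsto s l (𝓝 0))
    (hw : Tendsto (fun e => w e * (s e) ^ 2) l (𝓝 1))
    (hw' : Tendsto (fun e => w' e * (s e) ^ 2) l (𝓝 1))
    (hd : Tendsto (fun e => (w' e - w e) * u e) l (𝓝 d)) (P : Polynomial ℂ) :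
    Tendsto (fun e => (P.eval (w' e) - P.eval (w e)) * u e * (s e) ^ (2 * (P.natDegree - 1))) l
      (𝓝 (d * (P.leadingCoeff * P.natDegree))) := by
  have h1 : Tendsto (fun e => ∑ i ∈ range (P.natDegree + 1),
      P.coeff i * ∑ j ∈ range i, ((w' e * (s e) ^ 2) ^ j * (w e * (s e) ^ 2) ^ (i - 1 - j) *
        (s e) ^ (2 * (P.natDegree - i)))) l
      (𝓝 (∑ i ∈ range (P.natDegree + 1), P.coeff i * ∑ j ∈ range i,
        (1 ^ j * 1 ^ (i - 1 - j) * 0 ^ (2 * (P.natDegree - i))))) :=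
    tendsto_finsetSum _ fun i _ => tendsto_const_nhds.mul (tendsto_finsetSum _ fun j _ =>
      ((hw'.pow j).mul (hw.pow _)).mul (hs.pow _))
  have h2 : ∑ i ∈ range (P.natDegree + 1), P.coeff i * ∑ j ∈ range i,
      ((1 : ℂ) ^ j * 1 ^ (i - 1 - j) * 0 ^ (2 * (P.natDegree - i))) =
      P.leadingCoeff * P.natDegree := by
    rw [sum_range_succ, sum_eq_zero]
    · simp
    · intro i hi
      rw [mem_range] at hi
      rw [zero_pow (by omega)]
      simp
  rw [h2] at h1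
  refine (hd.mul h1).congr fun e => ?_
  have h4 : P.eval (w' e) - P.eval (w e) = (w' e - w e) *
      ∑ i ∈ range (P.natDegree + 1), P.coeff i * ∑ j ∈ range i,
        (w' e) ^ j * (w e) ^ (i - 1 - j) := by
    rw [Polynomial.eval_eq_sum_range, Polynomial.eval_eq_sum_range, ← sum_sub_distrib, mul_sum]
    refine sum_congr rfl fun i _ => ?_
    rw [← mul_sub, ← geom_sum₂_mul]
    ring
  rw [h4]
  have h5 : (∑ i ∈ range (P.natDegree + 1), P.coeff i * ∑ j ∈ range i,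
        (w' e) ^ j * (w e) ^ (i - 1 - j)) * (s e) ^ (2 * (P.natDegree - 1)) =
      ∑ i ∈ range (P.natDegree + 1),
      P.coeff i * ∑ j ∈ range i, ((w' e * (s e) ^ 2) ^ j * (w e * (s e) ^ 2) ^ (i - 1 - j) *
        (s e) ^ (2 * (P.natDegree - i))) := by
    rw [sum_mul]
    refine sum_congr rfl fun i hi => ?_
    rw [mem_range] at hi
    rw [mul_assoc, sum_mul]
    congr 1
    refine sum_congr rfl fun j hj => ?_
    rw [mem_range] at hj
    have h6 : (s e) ^ (2 * (P.natDegree - 1)) =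
        (s e) ^ (2 * j) * (s e) ^ (2 * (i - 1 - j)) * (s e) ^ (2 * (P.natDegree - i)) := by
      rw [← pow_add, ← pow_add]
      congr 1
      omega
    rw [h6, mul_pow, mul_pow, ← pow_mul, ← pow_mul]
    ring
  rw [← h5]
  ring

/-- powers of `x` -/
theorem powr {l : Filter ℝ} [l.NeBot] {s x : ℝ → ℂ} (hs : Tendsto s l (𝓝 0))
    (hxs : ∀ᶠ e in l, s e * x e = 1) {A B : ℕ} (hAB : A ≠ B) {c : ℂ} (hc : c ≠ 0)
    (h : Tendsto (fun e => (x e) ^ A * (s e) ^ B) l (𝓝 c)) : False := by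
  rcases lt_or_gt_of_ne hAB with h1 | h1
  · have h2 : Tendsto (fun e => (x e) ^ A * (s e) ^ B) l (𝓝 0) := by
      have h3 := hs.pow (B - A)
      rw [zero_pow (by omega)] at h3
      refine h3.congr' ?_
      filter_upwards [hxs] with e he
      have h4 : (s e) ^ B = (s e) ^ A * (s e) ^ (B - A) := by
        rw [← pow_add]
        congr 1
        omega
      calc (s e) ^ (B - A) = (s e * x e) ^ A * (s e) ^ (B - A) := by rw [he, one_pow, one_mul]
        _ = _ := by rw [h4, mul_pow]; ring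
    exact hc (tendsto_nhds_unique h h2)
  · have h3 := h.mul (hs.pow (A - B))
    rw [zero_pow (by omega), mul_zero] at h3
    have h5 : Tendsto (fun _ : ℝ => (1 : ℂ)) l (𝓝 0) := by
      refine h3.congr' ?_
      filter_upwards [hxs] with e he
      have h4 : (s e) ^ B * (s e) ^ (A - B) = (s e) ^ A := by
        rw [← pow_add]
        congr 1
        omega
      calc (x e) ^ A * (s e) ^ B * (s e) ^ (A - B) = (x e) ^ A * ((s e) ^ B * (s e) ^ (A - B)) := by
            ring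
        _ = (s e * x e) ^ A := by rw [h4, mul_pow]; ring
        _ = 1 := by rw [he, one_pow]
    exact one_ne_zero (tendsto_nhds_unique tendsto_const_nhds h5)

/-- boundedness backwards -/
theorem back {l : Filter ℝ} (P : Polynomial ℂ) {w : ℝ → ℂ}
    (h : Tendsto (fun e => ‖P.eval (w e)‖) l atTop) : Tendsto (fun e => ‖w e‖) l atTop := by
  rw [tendsto_atTop]
  intro B
  obtain ⟨M, hM⟩ := (isCompact_closedBall (0 : ℂ) B).exists_bound_of_continuousOn
    (P.continuous.continuousOn)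
  filter_upwards [h.eventually_gt_atTop M] with e he
  by_contra hc
  push Not at hc
  have h1 : w e ∈ Metric.closedBall (0 : ℂ) B := by
    rw [mem_closedBall_zero_iff]
    exact hc.le
  exact absurd (hM _ h1) (not_le.2 he)

theorem main (g g' : Polynomial ℂ) (T K : ℕ) (hg : 1 ≤ g.natDegree) (hg' : 1 ≤ g'.natDegree)
    (E₀ : ℝ) (F : ℝ → ℂ) (hF1 : ∀ e : ℝ, E₀ ≤ e → 1 ≤ ‖F e‖)
    (hF2 : ∀ e : ℝ, E₀ ≤ e → ((e : ℂ) ^ (2 * (T + 1) + 1) + 1) * (F e ^ (2 * (K + 1)) + F e) =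
      ((e : ℂ) ^ (2 * (T + 1)) + e) * (F e ^ (2 * (K + 1) + 1) + 1))
    (hF3 : ∀ e : ℝ, E₀ ≤ e → g.eval (((e : ℂ) + (e : ℂ)⁻¹) ^ 2 - 4) =
      g'.eval ((F e + (F e)⁻¹) ^ 2 - 4)) : T = K := by
  by_contra hTK
  -- the functions
  set s : ℝ → ℂ := fun e => (e : ℂ)⁻¹ with hs
  set r : ℝ → ℂ := fun e => (F e)⁻¹ with hr
  set Y : ℝ → ℂ := fun e => ((e : ℂ) + (e : ℂ)⁻¹) ^ 2 - 4 with hY
  set Y' : ℝ → ℂ := fun e => (F e + (F e)⁻¹) ^ 2 - 4 with hY'
  have hs0 : Tendsto s atTop (𝓝 0) := by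
    have h1 : Tendsto (fun e : ℝ => ((e⁻¹ : ℝ) : ℂ)) atTop (𝓝 ((0 : ℝ) : ℂ)) :=
      (Complex.continuous_ofReal.tendsto 0).comp tendsto_inv_atTop_zero
    rw [Complex.ofReal_zero] at h1
    refine h1.congr fun e => ?_
    rw [Complex.ofReal_inv]
  have hx1 : ∀ᶠ e : ℝ in atTop, 1 < ‖(e : ℂ)‖ := by
    filter_upwards [eventually_gt_atTop (1 : ℝ)] with e he
    rw [Complex.norm_real, Real.norm_eq_abs, abs_of_pos (by linarith)]
    exact he
  have hx0 : ∀ᶠ e : ℝ in atTop, (e : ℂ) ≠ 0 := by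
    filter_upwards [hx1] with e he
    rw [← norm_pos_iff]
    linarith
  have hsx : ∀ᶠ e : ℝ in atTop, s e * (e : ℂ) = 1 := by
    filter_upwards [hx0] with e he
    exact inv_mul_cancel₀ he
  have hxn : Tendsto (fun e : ℝ => ‖(e : ℂ)‖) atTop atTop := by
    refine tendsto_abs_atTop_atTop.congr fun e => ?_
    rw [Complex.norm_real, Real.norm_eq_abs]
  -- `Y / x^2 → 1`
  have hw : Tendsto (fun e => Y e * (s e) ^ 2) atTop (𝓝 1) := by
    have h1 : Tendsto (fun e => 1 - 2 * (s e) ^ 2 + (s e) ^ 4) atTop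
        (𝓝 (1 - 2 * 0 ^ 2 + 0 ^ 4)) :=
      (tendsto_const_nhds.sub (tendsto_const_nhds.mul (hs0.pow 2))).add (hs0.pow 4)
    have h2 : (1 - 2 * 0 ^ 2 + 0 ^ 4 : ℂ) = 1 := by norm_num
    rw [h2] at h1
    refine h1.congr' ?_
    filter_upwards [hsx] with e he
    have h3 : Y e = (e : ℂ) ^ 2 + 2 * (s e * (e : ℂ)) + (s e) ^ 2 - 4 := by
      simp only [hY, hs]
      ring
    rw [h3, he]
    have h4 : (e : ℂ) ^ 2 * (s e) ^ 2 = 1 := by
      rw [← mul_pow, mul_comm, he, one_pow]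
    linear_combination -h4
  -- everything tends to infinity
  have hYn : Tendsto (fun e => ‖Y e‖) atTop atTop := by
    have h1 : Tendsto (fun e => ‖Y e * (s e) ^ 2‖) atTop (𝓝 1) := by
      have := hw.norm
      rwa [norm_one] at this
    have h2 : Tendsto (fun e : ℝ => ‖(e : ℂ)‖ ^ 2) atTop atTop :=
      (tendsto_pow_atTop two_ne_zero).comp hxn
    refine (h1.pos_mul_atTop one_pos h2).congr' ?_
    filter_upwards [hsx] with e he
    rw [← norm_pow, ← norm_mul]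
    congr 1
    calc Y e * (s e) ^ 2 * (e : ℂ) ^ 2 = Y e * (s e * (e : ℂ)) ^ 2 := by ring
      _ = Y e := by rw [he, one_pow, mul_one]
  have hgY : Tendsto (fun e => ‖g.eval (Y e)‖) atTop atTop :=
    g.tendsto_norm_atTop (Polynomial.natDegree_pos_iff_degree_pos.1 hg) hYn
  have hY'n : Tendsto (fun e => ‖Y' e‖) atTop atTop := by
    refine back g' (hgY.congr' ?_)
    filter_upwards [eventually_ge_atTop E₀] with e he
    rw [hF3 e he]
  have hFn : Tendsto (fun e => ‖F e‖) atTop atTop := by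
    rw [tendsto_atTop]
    intro B
    filter_upwards [hY'n.eventually_gt_atTop ((B + 1) ^ 2 + 4), eventually_ge_atTop E₀]
      with e he he'
    by_contra hc
    push Not at hc
    have h1 := hF1 e he'
    have h2 : ‖(F e)⁻¹‖ ≤ 1 := by
      rw [norm_inv]
      exact inv_le_one_of_one_le₀ h1
    have h3 : ‖F e + (F e)⁻¹‖ ≤ B + 1 := (norm_add_le _ _).trans (by linarith)
    have h4 : ‖Y' e‖ ≤ (B + 1) ^ 2 + 4 := by
      refine (norm_sub_le _ _).trans ?_
      rw [norm_pow]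
      have h5 : ‖(4 : ℂ)‖ = 4 := by norm_num
      rw [h5]
      exact add_le_add (pow_le_pow_left₀ (norm_nonneg _) h3 2) le_rfl
    linarith
  have hy1 : ∀ᶠ e : ℝ in atTop, 1 < ‖F e‖ := hFn.eventually_gt_atTop 1
  have hy0 : ∀ᶠ e : ℝ in atTop, F e ≠ 0 := by
    filter_upwards [hy1] with e he
    rw [← norm_pos_iff]
    linarith
  have hr0 : Tendsto r atTop (𝓝 0) := by
    rw [tendsto_zero_iff_norm_tendsto_zero]
    refine (tendsto_inv_atTop_zero.comp hFn).congr fun e => ?_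
    simp only [hr, Function.comp, norm_inv]
  -- the relation
  have hrel : ∀ᶠ e : ℝ in atTop, F e - (e : ℂ) = qu K (F e) - qu T (e : ℂ) := by
    filter_upwards [hx1, hy1, eventually_ge_atTop E₀] with e h1 h2 h3
    have h4 := den_ne h1 T
    have h5 := den_ne h2 K
    have h6 := hF2 e h3
    have h7 : 2 * (T + 1) = 2 * T + 2 := by ring
    have h8 : 2 * (K + 1) = 2 * K + 2 := by ring
    rw [h7, h8] at h6
    have h9 : (e : ℂ) - qu T (e : ℂ) =
        ((e : ℂ) ^ (2 * T + 2 + 1) + 1) / ((e : ℂ) ^ (2 * T + 2) + e) := by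
      rw [qu, eq_div_iff h4, sub_mul, div_mul_cancel₀ _ h4]
      ring
    have h10 : F e - qu K (F e) = (F e ^ (2 * K + 2 + 1) + 1) / (F e ^ (2 * K + 2) + F e) := by
      rw [qu, eq_div_iff h5, sub_mul, div_mul_cancel₀ _ h5]
      ring
    have h11 : (e : ℂ) - qu T (e : ℂ) = F e - qu K (F e) := by
      rw [h9, h10, div_eq_div_iff h4 h5, h6]
      ring
    linear_combination -h11
  have hax := quo hx0 hs0 T
  have hay := quo hy0 hr0 K
  have hlim : ∀ (z t : ℝ → ℂ) (P : ℕ), (∀ᶠ e in atTop, t e * z e = 1) → Tendsto t atTop (𝓝 0) →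
      Tendsto (fun e => qu P (z e) * (z e) ^ (2 * P)) atTop (𝓝 1) →
      Tendsto (fun e => qu P (z e)) atTop (𝓝 (1 * 0 ^ (2 * P))) := by
    intro z t P h1 h2 h3
    refine (h3.mul (h2.pow (2 * P))).congr' ?_
    filter_upwards [h1] with e he
    calc qu P (z e) * (z e) ^ (2 * P) * (t e) ^ (2 * P) = qu P (z e) * (t e * z e) ^ (2 * P) := by
          rw [mul_pow]
          ring
      _ = _ := by rw [he, one_pow, mul_one]
  have hry : ∀ᶠ e : ℝ in atTop, r e * F e = 1 := by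
    filter_upwards [hy0] with e he
    exact inv_mul_cancel₀ he
  have hax0 := hlim (fun e => (e : ℂ)) s T hsx hs0 hax
  have hay0 := hlim F r K hry hr0 hay
  have hyx : Tendsto (fun e => F e * s e) atTop (𝓝 1) := by
    have h1 := (tendsto_const_nhds (x := (1 : ℂ))).add ((hay0.sub hax0).mul hs0)
    rw [mul_zero, add_zero] at h1
    refine h1.congr' ?_
    filter_upwards [hrel, hsx] with e h2 h3
    rw [← h2]
    linear_combination -h3
  have hxy : Tendsto (fun e : ℝ => (e : ℂ) * r e) atTop (𝓝 1) := by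
    have h1 := hyx.inv₀ one_ne_zero
    rw [inv_one] at h1
    refine h1.congr' ?_
    filter_upwards [hx0, hy0] with e h2 h3
    simp only [hs, hr]
    rw [mul_inv, inv_inv, mul_comm]
  have hay' : Tendsto (fun e => qu K (F e) * (e : ℂ) ^ (2 * K)) atTop (𝓝 1) := by
    have h1 := hay.mul (hxy.pow (2 * K))
    rw [one_pow, mul_one] at h1
    refine h1.congr' ?_
    filter_upwards [hry] with e he
    calc qu K (F e) * F e ^ (2 * K) * ((e : ℂ) * r e) ^ (2 * K) =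
        qu K (F e) * (e : ℂ) ^ (2 * K) * (r e * F e) ^ (2 * K) := by
          rw [mul_pow, mul_pow]
          ring
      _ = _ := by rw [he, one_pow, mul_one]
  obtain ⟨m, c, hc, hdc⟩ := dif hs0 (x := fun e : ℝ => (e : ℂ)) hsx hax hay' hTK
  have hdc' : Tendsto (fun e => (F e - (e : ℂ)) * (e : ℂ) ^ (2 * m)) atTop (𝓝 c) := by
    refine hdc.congr' ?_
    filter_upwards [hrel] with e he
    rw [he]
  -- the difference `Y' - Y`
  have hd : Tendsto (fun e => (Y' e - Y e) * ((e : ℂ) ^ (2 * m) * s e)) atTop (𝓝 (c * 2)) := by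
    have h1 : Tendsto (fun e => (F e - (e : ℂ)) * (e : ℂ) ^ (2 * m) *
        ((F e * s e + 1) * (1 - (s e) ^ 2 * (r e) ^ 2))) atTop
        (𝓝 (c * ((1 + 1) * (1 - 0 ^ 2 * 0 ^ 2)))) :=
      hdc'.mul ((hyx.add tendsto_const_nhds).mul
        (tendsto_const_nhds.sub ((hs0.pow 2).mul (hr0.pow 2))))
    have h2 : (1 + 1) * (1 - 0 ^ 2 * 0 ^ 2) = (2 : ℂ) := by norm_num
    rw [h2] at h1
    refine h1.congr' ?_
    filter_upwards [hsx, hry] with e h3 h4
    have h5 : Y e = (e : ℂ) ^ 2 + 2 * (s e * (e : ℂ)) + (s e) ^ 2 - 4 := by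
      simp only [hY, hs]
      ring
    have h6 : Y' e = F e ^ 2 + 2 * (r e * F e) + (r e) ^ 2 - 4 := by
      simp only [hY', hr]
      ring
    rw [h5, h6, h3, h4]
    have h7 : (F e - (e : ℂ)) * (F e + (e : ℂ)) * (1 - (s e) ^ 2 * (r e) ^ 2) =
        F e ^ 2 + (r e) ^ 2 - (e : ℂ) ^ 2 - (s e) ^ 2 := by
      have h8 : (e : ℂ) ^ 2 * ((s e) ^ 2 * (r e) ^ 2) = (r e) ^ 2 := by
        calc (e : ℂ) ^ 2 * ((s e) ^ 2 * (r e) ^ 2) = (s e * (e : ℂ)) ^ 2 * (r e) ^ 2 := by ring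
          _ = _ := by rw [h3, one_pow, one_mul]
      have h9 : F e ^ 2 * ((s e) ^ 2 * (r e) ^ 2) = (s e) ^ 2 := by
        calc F e ^ 2 * ((s e) ^ 2 * (r e) ^ 2) = (r e * F e) ^ 2 * (s e) ^ 2 := by ring
          _ = _ := by rw [h4, one_pow, one_mul]
      linear_combination h8 - h9
    have h10 : F e * s e + 1 = (F e + (e : ℂ)) * s e := by
      linear_combination -h3
    rw [h10]
    calc (F e - (e : ℂ)) * (e : ℂ) ^ (2 * m) *
          ((F e + (e : ℂ)) * s e * (1 - (s e) ^ 2 * (r e) ^ 2)) =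
        ((F e - (e : ℂ)) * (F e + (e : ℂ)) * (1 - (s e) ^ 2 * (r e) ^ 2)) *
          ((e : ℂ) ^ (2 * m) * s e) := by ring
      _ = _ := by
        rw [h7]
        ring
  have hw' : Tendsto (fun e => Y' e * (s e) ^ 2) atTop (𝓝 1) := by
    have h1 : Tendsto (fun e => (F e * s e) ^ 2 - 2 * (s e) ^ 2 + (s e) ^ 2 * (r e) ^ 2) atTop
        (𝓝 (1 ^ 2 - 2 * 0 ^ 2 + 0 ^ 2 * 0 ^ 2)) :=
      ((hyx.pow 2).sub (tendsto_const_nhds.mul (hs0.pow 2))).add ((hs0.pow 2).mul (hr0.pow 2))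
    have h2 : (1 ^ 2 - 2 * 0 ^ 2 + 0 ^ 2 * 0 ^ 2 : ℂ) = 1 := by norm_num
    rw [h2] at h1
    refine h1.congr' ?_
    filter_upwards [hry] with e he
    have h3 : Y' e = F e ^ 2 + 2 * (r e * F e) + (r e) ^ 2 - 4 := by
      simp only [hY', hr]
      ring
    rw [h3, he]
    ring
  have hL := lead2 hs0 hw hw' hd g'
  have hlc : g'.leadingCoeff ≠ 0 := by
    intro h
    rw [Polynomial.leadingCoeff_eq_zero] at h
    rw [h] at hg'
    simp at hg'
  have hn0 : ((g'.natDegree : ℕ) : ℂ) ≠ 0 := by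
    rw [Nat.cast_ne_zero]
    omega
  have hL0 : c * 2 * (g'.leadingCoeff * g'.natDegree) ≠ 0 :=
    mul_ne_zero (mul_ne_zero hc two_ne_zero) (mul_ne_zero hlc hn0)
  have hL2 : Tendsto (fun e => (g - g').eval (Y e) * ((e : ℂ) ^ (2 * m) * s e) *
      (s e) ^ (2 * (g'.natDegree - 1))) atTop (𝓝 (c * 2 * (g'.leadingCoeff * g'.natDegree))) := by
    refine hL.congr' ?_
    filter_upwards [eventually_ge_atTop E₀] with e he
    rw [Polynomial.eval_sub, hF3 e he]
  by_cases hgg : g - g' = 0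
  · rw [hgg] at hL2
    simp only [Polynomial.eval_zero, zero_mul] at hL2
    exact hL0 (tendsto_nhds_unique hL2 tendsto_const_nhds)
  · have hM := lead hs0 hw (g - g')
    have hM0 : (g - g').leadingCoeff ≠ 0 := by
      rwa [Ne, Polynomial.leadingCoeff_eq_zero]
    have hQ := hL2.div hM hM0
    refine powr hs0 hsx (A := 2 * (g - g').natDegree + 2 * m)
      (B := 1 + 2 * (g'.natDegree - 1)) (by omega) (div_ne_zero hL0 hM0) (hQ.congr' ?_)
    have hne : ∀ᶠ e : ℝ in atTop, (g - g').eval (Y e) * (s e) ^ (2 * (g - g').natDegree) ≠ 0 :=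
      hM.eventually_ne hM0
    filter_upwards [hne, hsx] with e h1 h2
    rw [Pi.div_apply, div_eq_iff h1]
    have h3 : (e : ℂ) ^ (2 * (g - g').natDegree) * (s e) ^ (2 * (g - g').natDegree) = 1 := by
      rw [← mul_pow, mul_comm, h2, one_pow]
    calc (g - g').eval (Y e) * ((e : ℂ) ^ (2 * m) * s e) * (s e) ^ (2 * (g'.natDegree - 1)) =
        ((e : ℂ) ^ (2 * (g - g').natDegree) * (s e) ^ (2 * (g - g').natDegree)) *
          ((g - g').eval (Y e) * ((e : ℂ) ^ (2 * m) * s e) *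
            (s e) ^ (2 * (g'.natDegree - 1))) := by rw [h3, one_mul]
      _ = _ := by
        rw [pow_add, pow_add]
        ring

end ENB

/-- MODULE ENB. -/
theorem t_ENB : ENB_Stmt := by
  intro g g' t k ht hk hg hg' h
  obtain ⟨E₀, h⟩ := h
  obtain ⟨T, rfl⟩ := Nat.exists_eq_add_of_le' ht
  obtain ⟨K, rfl⟩ := Nat.exists_eq_add_of_le' hk
  have hc : ∀ e : ℝ, ∃ e' : ℂ, E₀ ≤ e → 1 ≤ ‖e'‖ ∧
      ((e : ℂ) ^ (2 * (T + 1) + 1) + 1) * (e' ^ (2 * (K + 1)) + e') =
        ((e : ℂ) ^ (2 * (T + 1)) + e) * (e' ^ (2 * (K + 1) + 1) + 1) ∧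
      Polynomial.aeval (((e : ℂ) + (e : ℂ)⁻¹) ^ 2 - 4) g =
        Polynomial.aeval ((e' + e'⁻¹) ^ 2 - 4) g' := by
    intro e
    by_cases he : E₀ ≤ e
    · obtain ⟨e', h1⟩ := h e he
      exact ⟨e', fun _ => h1⟩
    · exact ⟨0, fun h1 => absurd h1 he⟩
  choose F hF using hc
  have hm := ENB.main (g.map (algebraMap ℚ ℂ)) (g'.map (algebraMap ℚ ℂ)) T K
    (by rwa [Polynomial.natDegree_map]) (by rwa [Polynomial.natDegree_map]) E₀ F
    (fun e he => (hF e he).1) (fun e he => (hF e he).2.1) (fun e he => by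
      have h1 := (hF e he).2.2
      rwa [Polynomial.aeval_def, Polynomial.aeval_def, Polynomial.eval₂_eq_eval_map,
        Polynomial.eval₂_eq_eval_map] at h1)
  rw [hm]

end Pool.Agent.WD3
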