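import Pool.Agent.WD3.StZ

/-!
# Generalised doubles, module END: the comparison of the swapped pair
-/

set_option autoImplicit false

namespace Pool.Agent.WD3

open Pool.Agent.LibH11 Pool.Agent.IT Pool.Agent.GK Pool.Agent.TwoBr Pool.Agent.WD Pool.Agent.WD2
open scoped BigOperators
open PowerSeries

namespace END

section Ev

variable {R : Type} [CommRing R] [Algebra ℚ R] (x y : R)

theorem ev2_C (p : Polynomial ℚ) : ev2 x y (Polynomial.C p) = Polynomial.aeval x p := by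
  unfold ev2
  rw [Polynomial.eval₂_C]
  rfl

theorem ev2_map (q : Polynomial ℚ) : ev2 x y (q.map Polynomial.C) = Polynomial.aeval y q := by
  unfold ev2
  rw [Polynomial.eval₂_map, Polynomial.aeval_def]
  congr 1
  refine RingHom.ext fun a => ?_
  show Polynomial.aeval x (Polynomial.C a) = _
  rw [Polynomial.aeval_C]

theorem ev2_sub (A B : Polynomial (Polynomial ℚ)) : ev2 x y (A - B) = ev2 x y A - ev2 x y B := by
  unfold ev2
  rw [Polynomial.eval₂_sub]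

theorem ev2_mul (A B : Polynomial (Polynomial ℚ)) : ev2 x y (A * B) = ev2 x y A * ev2 x y B := by
  unfold ev2
  rw [Polynomial.eval₂_mul]

theorem aeval_q (g : Polynomial ℚ) (c : ℚ) :
    Polynomial.aeval x (Polynomial.C c * g.comp (Polynomial.X * (Polynomial.X + 4))) =
      algebraMap ℚ R c * Polynomial.aeval (x * (x + 4)) g := by
  have h4 : Polynomial.aeval x (4 : Polynomial ℚ) = (4 : R) := map_ofNat _ 4
  rw [map_mul, Polynomial.aeval_C, Polynomial.aeval_comp, map_mul, map_add, Polynomial.aeval_X, h4]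

end Ev

theorem quad (y : ℂ) : ∃ e : ℂ, 1 ≤ ‖e‖ ∧ y = e + e⁻¹ - 2 := by
  obtain ⟨d, hd⟩ := IsAlgClosed.exists_pow_nat_eq ((y + 2) ^ 2 - 4) (n := 2) (by norm_num)
  have h1 : ((y + 2 + d) / 2) * ((y + 2 - d) / 2) = 1 := by
    have : ((y + 2 + d) / 2) * ((y + 2 - d) / 2) = ((y + 2) ^ 2 - d ^ 2) / 4 := by ring
    rw [this, hd]
    ring
  have h2 : ‖(y + 2 + d) / 2‖ * ‖(y + 2 - d) / 2‖ = 1 := by
    rw [← norm_mul, h1, norm_one]
  by_cases h3 : 1 ≤ ‖(y + 2 + d) / 2‖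
  · refine ⟨(y + 2 + d) / 2, h3, ?_⟩
    rw [inv_eq_of_mul_eq_one_right h1]
    ring
  · rw [not_le] at h3
    refine ⟨(y + 2 - d) / 2, ?_, ?_⟩
    · by_contra h4
      rw [not_le] at h4
      have h5 : ‖(y + 2 + d) / 2‖ * ‖(y + 2 - d) / 2‖ < 1 :=
        mul_lt_one_of_nonneg_of_lt_one_left (norm_nonneg _) h3 h4.le
      linarith
    · rw [inv_eq_of_mul_eq_one_left h1]
      ring

theorem Pz_pos (n : ℕ) : Pz ((n + 1 : ℕ) : ℤ) = Pn (n + 1) := by
  unfold Pz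
  rw [if_pos (by positivity), Int.natAbs_natCast]

theorem Pz_pos' (n : ℕ) : Pz (((n + 1 : ℕ) : ℤ) - 1) = Pn n := by
  have h : ((n + 1 : ℕ) : ℤ) - 1 = (n : ℤ) := by push_cast; ring
  unfold Pz
  rw [h, if_pos (by positivity), Int.natAbs_natCast]

theorem Pz_neg (n : ℕ) : Pz (-((n + 1 : ℕ) : ℤ)) = Pn n := by
  unfold Pz
  rw [if_neg (by push_cast; omega), Int.natAbs_neg, Int.natAbs_natCast]
  rfl

theorem Pz_neg' (n : ℕ) : Pz (-((n + 1 : ℕ) : ℤ) - 1) = Pn (n + 1) := by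
  unfold Pz
  rw [if_neg (by push_cast; omega)]
  have h : (-((n + 1 : ℕ) : ℤ) - 1).natAbs - 1 = n + 1 := by omega
  rw [h]

theorem int_cases (t : ℤ) (ht : t ≠ 0) :
    (∃ n : ℕ, t = ((n + 1 : ℕ) : ℤ)) ∨ ∃ n : ℕ, t = -((n + 1 : ℕ) : ℤ) := by
  rcases lt_or_gt_of_ne ht with h | h
  · right
    exact ⟨(-t - 1).toNat, by omega⟩
  · left
    exact ⟨(t - 1).toNat, by omega⟩

theorem rel (hA : ENA_Stmt) (g g' : Polynomial ℚ) (t k : ℤ) (v v' : ℚ⟦X⟧)
    (hg' : 1 ≤ g'.natDegree) (hv : v ≠ C (constantCoeff v))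
    (h1 : Polynomial.aeval v (Pz t) = E 2 * Polynomial.aeval v (Pz (t - 1)))
    (h2 : Polynomial.aeval v' (Pz k) = E 2 * Polynomial.aeval v' (Pz (k - 1)))
    (h3 : Polynomial.aeval (v * (v + 4)) g = Polynomial.aeval (v' * (v' + 4)) g') (e : ℂ)
    (_he : e ≠ 0) :
    ∃ e' : ℂ, 1 ≤ ‖e'‖ ∧
      Polynomial.aeval (e + e⁻¹ - 2) (Pz t) * Polynomial.aeval (e' + e'⁻¹ - 2) (Pz (k - 1)) =
        Polynomial.aeval (e + e⁻¹ - 2) (Pz (t - 1)) *
          Polynomial.aeval (e' + e'⁻¹ - 2) (Pz k) ∧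
      Polynomial.aeval ((e + e⁻¹) ^ 2 - 4) g = Polynomial.aeval ((e' + e'⁻¹) ^ 2 - 4) g' := by
  have hg0 : g' ≠ 0 := by
    rintro rfl
    simp at hg'
  have hl : g'.leadingCoeff ≠ 0 := Polynomial.leadingCoeff_ne_zero.2 hg0
  set c := (g'.leadingCoeff)⁻¹ with hc
  have hc0 : c ≠ 0 := inv_ne_zero hl
  set Q : Polynomial ℚ := Polynomial.X * (Polynomial.X + 4) with hQ
  have hX4 : (Polynomial.X + 4 : Polynomial ℚ) = Polynomial.X + Polynomial.C 4 := rfl
  have hQm : Q.Monic := by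
    rw [hQ, hX4]
    exact Polynomial.monic_X.mul (Polynomial.monic_X_add_C 4)
  have hQd : Q.natDegree = 2 := by
    rw [hQ, hX4, Polynomial.Monic.natDegree_mul Polynomial.monic_X (Polynomial.monic_X_add_C 4),
      Polynomial.natDegree_X, Polynomial.natDegree_X_add_C]
  set G1 : Polynomial ℚ := Polynomial.C c * g'.comp Q with hG1
  set G0 : Polynomial ℚ := Polynomial.C c * g.comp Q with hG0
  have hG1d : 0 < G1.natDegree := by
    rw [hG1, Polynomial.natDegree_C_mul hc0, Polynomial.natDegree_comp, hQd]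
    omega
  have hG1m : G1.Monic := by
    unfold Polynomial.Monic
    rw [hG1, Polynomial.leadingCoeff_mul, Polynomial.leadingCoeff_C,
      Polynomial.leadingCoeff_comp (by rw [hQd]; norm_num), hQm.leadingCoeff, one_pow, mul_one, hc]
    exact inv_mul_cancel₀ hl
  have hBm : (G1.map Polynomial.C - Polynomial.C G0 : Polynomial (Polynomial ℚ)).Monic := by
    refine (hG1m.map _).sub_of_left ?_
    refine lt_of_le_of_lt Polynomial.degree_C_le ?_
    rw [Polynomial.degree_map_eq_of_injective Polynomial.C_injective]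
    exact Polynomial.natDegree_pos_iff_degree_pos.1 hG1d
  have hBv : ev2 v v' (G1.map Polynomial.C - Polynomial.C G0) = 0 := by
    rw [ev2_sub, ev2_C, ev2_map, hG1, hG0, hQ, aeval_q, aeval_q, h3, sub_self]
  have hAv : ev2 v v' (Polynomial.C (Pz t) * (Pz (k - 1)).map Polynomial.C -
      Polynomial.C (Pz (t - 1)) * (Pz k).map Polynomial.C) = 0 := by
    rw [ev2_sub, ev2_mul, ev2_mul, ev2_C, ev2_C, ev2_map, ev2_map, h1, h2]
    ring
  obtain ⟨y, hy1, hy2⟩ := hA v v' hv _ _ hBm hAv hBv (e + e⁻¹ - 2)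
  obtain ⟨e', he', rfl⟩ := quad y
  have he0 : e' ≠ 0 := by
    rintro rfl
    rw [norm_zero] at he'
    linarith
  refine ⟨e', he', ?_, ?_⟩
  · rw [ev2_sub, ev2_mul, ev2_mul, ev2_C, ev2_C, ev2_map, ev2_map, sub_eq_zero] at hy1
    exact hy1
  · rw [ev2_sub, ev2_C, ev2_map, hG1, hG0, hQ, aeval_q, aeval_q, sub_eq_zero] at hy2
    have hcC : (algebraMap ℚ ℂ c) ≠ 0 := by
      rw [Ne, _root_.map_eq_zero]
      exact hc0
    have h4 := mul_left_cancel₀ hcC hy2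
    have h5 : ∀ z : ℂ, (z + z⁻¹ - 2) * (z + z⁻¹ - 2 + 4) = (z + z⁻¹) ^ 2 - 4 := by
      intro z
      ring
    rw [h5, h5] at h4
    exact h4.symm

end END

open END in
theorem t_END (hP : ENP_Stmt) (hA : ENA_Stmt) (hB : ENB_Stmt) (hM : ENM_Stmt) : END_Stmt := by
  intro g g' t k v v' ht hk hg hg' hv h1 h2 h3
  have hR := rel hA g g' t k v v' hg' hv h1 h2 h3
  have hne : ∀ e : ℝ, (1 : ℝ) ≤ e → (e : ℂ) ≠ 0 := fun e he =>
    Complex.ofReal_ne_zero.2 (by linarith)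
  have hne' : ∀ e : ℂ, 1 ≤ ‖e‖ → e ≠ 0 := by
    intro e he h0
    rw [h0, norm_zero] at he
    linarith
  rcases int_cases t ht with ⟨n, rfl⟩ | ⟨n, rfl⟩ <;> rcases int_cases k hk with ⟨m, rfl⟩ | ⟨m, rfl⟩
  · have h4 : n + 1 = m + 1 := by
      refine hB g g' (n + 1) (m + 1) (by omega) (by omega) hg hg' ⟨1, fun e he => ?_⟩
      obtain ⟨e', he', hr, hs⟩ := hR e (hne e he)
      refine ⟨e', he', ?_, hs⟩
      rw [Pz_pos, Pz_pos, Pz_pos', Pz_pos'] at hr
      have a0 := hP n e (hne e he)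
      have a1 := hP (n + 1) e (hne e he)
      have b0 := hP m e' (hne' e' he')
      have b1 := hP (m + 1) e' (hne' e' he')
      have c1 : e' ^ (2 * (m + 1)) + e' = e' * (e' ^ (2 * m + 1) + 1) := by ring
      have c2 : (e : ℂ) ^ (2 * (n + 1)) + e = e * ((e : ℂ) ^ (2 * n + 1) + 1) := by ring
      rw [c1, c2, ← a0, ← a1, ← b0, ← b1]
      linear_combination ((e : ℂ) ^ (n + 1) * (e + 1) * e' ^ (m + 1) * (e' + 1)) * hr
    rw [h4]
  · exfalso
    refine hM g g' (n + 1) (m + 1) (by omega) (by omega) hg hg' ⟨1, fun e he => ?_⟩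
    obtain ⟨e', he', hr, hs⟩ := hR e (hne e he)
    refine ⟨e', he', ?_, hs⟩
    rw [Pz_pos, Pz_neg, Pz_pos', Pz_neg'] at hr
    have a0 := hP n e (hne e he)
    have a1 := hP (n + 1) e (hne e he)
    have b0 := hP m e' (hne' e' he')
    have b1 := hP (m + 1) e' (hne' e' he')
    have c1 : e' ^ (2 * (m + 1)) + e' = e' * (e' ^ (2 * m + 1) + 1) := by ring
    have c2 : (e : ℂ) ^ (2 * (n + 1)) + e = e * ((e : ℂ) ^ (2 * n + 1) + 1) := by ring
    rw [c1, c2, ← a0, ← a1, ← b0, ← b1]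
    linear_combination ((e : ℂ) ^ (n + 1) * (e + 1) * e' ^ (m + 1) * (e' + 1)) * hr
  · exfalso
    refine hM g g' (n + 1) (m + 1) (by omega) (by omega) hg hg' ⟨1, fun e he => ?_⟩
    obtain ⟨e', he', hr, hs⟩ := hR e (hne e he)
    refine ⟨e', he', ?_, hs⟩
    rw [Pz_neg, Pz_pos, Pz_neg', Pz_pos'] at hr
    have a0 := hP n e (hne e he)
    have a1 := hP (n + 1) e (hne e he)
    have b0 := hP m e' (hne' e' he')
    have b1 := hP (m + 1) e' (hne' e' he')
    have c1 : e' ^ (2 * (m + 1)) + e' = e' * (e' ^ (2 * m + 1) + 1) := by ring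
    have c2 : (e : ℂ) ^ (2 * (n + 1)) + e = e * ((e : ℂ) ^ (2 * n + 1) + 1) := by ring
    rw [c1, c2, ← a0, ← a1, ← b0, ← b1]
    linear_combination (-((e : ℂ) ^ (n + 1) * (e + 1) * e' ^ (m + 1) * (e' + 1))) * hr
  · have h4 : n + 1 = m + 1 := by
      refine hB g g' (n + 1) (m + 1) (by omega) (by omega) hg hg' ⟨1, fun e he => ?_⟩
      obtain ⟨e', he', hr, hs⟩ := hR e (hne e he)
      refine ⟨e', he', ?_, hs⟩
      rw [Pz_neg, Pz_neg, Pz_neg', Pz_neg'] at hr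
      have a0 := hP n e (hne e he)
      have a1 := hP (n + 1) e (hne e he)
      have b0 := hP m e' (hne' e' he')
      have b1 := hP (m + 1) e' (hne' e' he')
      have c1 : e' ^ (2 * (m + 1)) + e' = e' * (e' ^ (2 * m + 1) + 1) := by ring
      have c2 : (e : ℂ) ^ (2 * (n + 1)) + e = e * ((e : ℂ) ^ (2 * n + 1) + 1) := by ring
      rw [c1, c2, ← a0, ← a1, ← b0, ← b1]
      linear_combination (-((e : ℂ) ^ (n + 1) * (e + 1) * e' ^ (m + 1) * (e' + 1))) * hr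
    rw [h4]

end Pool.Agent.WD3
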