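import Pool.Agent.WD3.StZ

/-!
# Exponents of different signs (module WZ_ENM, helper56)
-/

set_option autoImplicit false

namespace Pool.Agent.WD3

open Pool.Agent.LibH11 Pool.Agent.IT Pool.Agent.GK Pool.Agent.TwoBr Pool.Agent.WD Pool.Agent.WD2
open scoped BigOperators

namespace ENM

/-- `(e + 1/e)² - 4` is at least `e² - 4` -/
lemma norm_Y (e : ℝ) (he : 1 ≤ e) : e ^ 2 - 4 ≤ ‖((e : ℂ) + (e : ℂ)⁻¹) ^ 2 - 4‖ := by
  have h0 : 0 < e := by linarith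
  have h1 : ((e : ℂ) + (e : ℂ)⁻¹) ^ 2 - 4 = (((e + e⁻¹) ^ 2 - 4 : ℝ) : ℂ) := by
    push_cast
    ring
  rw [h1, Complex.norm_real, Real.norm_eq_abs]
  refine le_trans ?_ (le_abs_self _)
  have h2 : 0 < e⁻¹ := inv_pos.2 h0
  nlinarith [mul_pos h0 h2]

/-- the left side of the relation between the polynomials is large -/
lemma large (g : Polynomial ℚ) (hg : 1 ≤ g.natDegree) (M : ℝ) :
    ∃ E₁ : ℝ, ∀ e : ℝ, E₁ ≤ e → M < ‖Polynomial.aeval (((e : ℂ) + (e : ℂ)⁻¹) ^ 2 - 4) g‖ := by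
  have hd : 0 < g.degree := Polynomial.natDegree_pos_iff_degree_pos.1 (by omega)
  have hl : algebraMap ℚ ℂ g.leadingCoeff ≠ 0 := by
    rw [Ne, map_eq_zero]
    intro h
    rw [Polynomial.leadingCoeff_eq_zero] at h
    rw [h, Polynomial.natDegree_zero] at hg
    omega
  have hz : Filter.Tendsto ((norm : ℂ → ℝ) ∘ fun e : ℝ => ((e : ℂ) + (e : ℂ)⁻¹) ^ 2 - 4)
      Filter.atTop Filter.atTop := by
    have h1 : Filter.Tendsto (fun e : ℝ => e ^ 2 - 4) Filter.atTop Filter.atTop :=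
      Filter.tendsto_atTop_add_const_right _ _ (Filter.tendsto_pow_atTop two_ne_zero)
    refine Filter.tendsto_atTop_mono' _ ?_ h1
    filter_upwards [Filter.eventually_ge_atTop (1 : ℝ)] with e he
    exact norm_Y e he
  have h2 := Polynomial.tendsto_abv_aeval_atTop (norm : ℂ → ℝ) g hd hl hz
  obtain ⟨E₁, h3⟩ := Filter.eventually_atTop.1 (h2.eventually (Filter.eventually_gt_atTop M))
  exact ⟨E₁, h3⟩

/-- the right side is bounded if `e'` is -/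
lemma bounded (g : Polynomial ℚ) :
    ∃ M : ℝ, ∀ e : ℂ, 1 ≤ ‖e‖ → ‖e‖ ≤ 10 → ‖Polynomial.aeval ((e + e⁻¹) ^ 2 - 4) g‖ ≤ M := by
  obtain ⟨M, hM⟩ := (isCompact_closedBall (0 : ℂ) 125).exists_bound_of_continuousOn
    (f := fun z : ℂ => Polynomial.aeval z g) (Polynomial.continuous_aeval g).continuousOn
  refine ⟨M, fun e h1 h2 => hM _ ?_⟩
  rw [mem_closedBall_zero_iff]
  have h3 : ‖e⁻¹‖ ≤ 1 := by
    rw [norm_inv]
    exact inv_le_one_of_one_le₀ h1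
  have h4 : ‖e + e⁻¹‖ ≤ 11 := (norm_add_le _ _).trans (by linarith)
  calc ‖(e + e⁻¹) ^ 2 - 4‖ ≤ ‖(e + e⁻¹) ^ 2‖ + ‖(4 : ℂ)‖ := norm_sub_le _ _
    _ = ‖e + e⁻¹‖ ^ 2 + 4 := by
        rw [norm_pow]
        norm_num
    _ ≤ 11 ^ 2 + 4 := by
        have := pow_le_pow_left₀ (norm_nonneg _) h4 2
        linarith
    _ = 125 := by norm_num

lemma lower (z : ℂ) (n : ℕ) (hz : 10 ≤ ‖z‖) : 9 * ‖z‖ ^ n ≤ ‖z ^ (n + 1) + 1‖ := by
  have h1 : ‖z ^ (n + 1)‖ - ‖(1 : ℂ)‖ ≤ ‖z ^ (n + 1) + 1‖ := by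
    have := norm_sub_norm_le (z ^ (n + 1)) (-1)
    rw [norm_neg, sub_neg_eq_add] at this
    exact this
  rw [norm_pow, norm_one, pow_succ] at h1
  have h2 : 1 ≤ ‖z‖ ^ n := one_le_pow₀ (by linarith)
  nlinarith

lemma upper (z : ℂ) (n : ℕ) (hn : 1 ≤ n) (hz : 10 ≤ ‖z‖) : ‖z ^ n + z‖ ≤ 2 * ‖z‖ ^ n := by
  have h1 : ‖z‖ ≤ ‖z‖ ^ n := by
    have := pow_le_pow_right₀ (show (1 : ℝ) ≤ ‖z‖ by linarith) hn
    rwa [pow_one] at this
  calc ‖z ^ n + z‖ ≤ ‖z ^ n‖ + ‖z‖ := norm_add_le _ _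
    _ ≤ 2 * ‖z‖ ^ n := by
        rw [norm_pow]
        linarith

end ENM

open ENM in
/-- ENM: exponents of different signs. -/
theorem t_ENM : ENM_Stmt := by
  intro g g' t k ht hk hg hg' ⟨E₀, h⟩
  obtain ⟨M, hM⟩ := bounded g'
  obtain ⟨E₁, hE₁⟩ := large g hg M
  obtain ⟨e', h1, h2, h3⟩ := h (max E₀ (max E₁ 10)) (le_max_left _ _)
  have h4 := hE₁ (max E₀ (max E₁ 10)) ((le_max_left _ _).trans (le_max_right _ _))
  have h5 : (10 : ℝ) ≤ max E₀ (max E₁ 10) := (le_max_right _ _).trans (le_max_right _ _)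
  set e : ℝ := max E₀ (max E₁ 10) with he
  have h6 : 10 ≤ ‖e'‖ := by
    by_contra h7
    have h8 := hM e' h1 (not_le.1 h7).le
    rw [← h3] at h8
    exact absurd h8 (not_le.2 h4)
  have h7 : 10 ≤ ‖(e : ℂ)‖ := by
    rw [Complex.norm_real, Real.norm_eq_abs]
    exact h5.trans (le_abs_self _)
  have h8 := lower (e : ℂ) (2 * t) h7
  have h9 := lower e' (2 * k) h6
  have h10 := upper (e : ℂ) (2 * t) (by omega) h7
  have h11 := upper e' (2 * k) (by omega) h6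
  have h12 : 0 < ‖(e : ℂ)‖ ^ (2 * t) := pow_pos (by linarith) _
  have h13 : 0 < ‖e'‖ ^ (2 * k) := pow_pos (by linarith) _
  have h14 := congrArg norm h2
  rw [norm_mul, norm_mul] at h14
  have h15 : 9 * ‖(e : ℂ)‖ ^ (2 * t) * (9 * ‖e'‖ ^ (2 * k)) ≤
      2 * ‖(e : ℂ)‖ ^ (2 * t) * (2 * ‖e'‖ ^ (2 * k)) := by
    calc 9 * ‖(e : ℂ)‖ ^ (2 * t) * (9 * ‖e'‖ ^ (2 * k)) ≤
        ‖(e : ℂ) ^ (2 * t + 1) + 1‖ * ‖e' ^ (2 * k + 1) + 1‖ :=
          mul_le_mul h8 h9 (by positivity) (norm_nonneg _)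
      _ = ‖(e : ℂ) ^ (2 * t) + e‖ * ‖e' ^ (2 * k) + e'‖ := h14
      _ ≤ 2 * ‖(e : ℂ)‖ ^ (2 * t) * (2 * ‖e'‖ ^ (2 * k)) :=
          mul_le_mul h10 h11 (norm_nonneg _) (by positivity)
  nlinarith [mul_pos h12 h13]

end Pool.Agent.WD3
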