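import Pool.Agent.WD3.StZ

/-!
# ENP: the polynomials `P_n` in terms of `e`
-/

set_option autoImplicit false

namespace Pool.Agent.WD3

theorem t_ENP : ENP_Stmt := by
  intro n e he
  induction n using Nat.twoStepInduction with
  | zero => simp [Pn]
  | one =>
      simp only [Pn, map_add, Polynomial.aeval_X, map_one]
      field_simp
      ring
  | more n h0 h1 =>
      have hr : Polynomial.aeval (e + e⁻¹ - 2) (Pn (n + 2)) =
          (e + e⁻¹) * Polynomial.aeval (e + e⁻¹ - 2) (Pn (n + 1)) -
            Polynomial.aeval (e + e⁻¹ - 2) (Pn n) := by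
        have h2 : Polynomial.aeval (e + e⁻¹ - 2) (2 : Polynomial ℚ) = 2 := by
          simpa using map_ofNat (Polynomial.aeval (R := ℚ) (e + e⁻¹ - 2)) 2
        simp only [Pn, map_sub, map_mul, map_add, Polynomial.aeval_X, h2]
        ring
      rw [hr]
      generalize Polynomial.aeval (e + e⁻¹ - 2) (Pn (n + 1)) = a at h1 ⊢
      generalize Polynomial.aeval (e + e⁻¹ - 2) (Pn n) = b at h0 ⊢
      have hi : e * e⁻¹ = 1 := mul_inv_cancel₀ he
      linear_combination (e ^ 2 + e * e⁻¹) * h1 - e ^ 2 * h0 + (e ^ (2 * n + 3) + 1) * hi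

end Pool.Agent.WD3
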