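import Pool.Agent.WD3.StH

/-!
# Generalised doubles: FFT, the leading term of the cyclotomic coefficients
-/

set_option autoImplicit false

namespace Pool.Agent.WD3

open Pool.Agent.LibH11 Pool.Agent.IT Pool.Agent.GK Pool.Agent.TwoBr Pool.Agent.WD Pool.Agent.WD2
open scoped BigOperators
open PowerSeries

/-- FFT -/
theorem t_FFT (hS : SYR_Stmt) (hT : FTA_Stmt) (hR : RE3_Stmt) (hF : RFF_Stmt) (_hG : SG0_Stmt) :
    FFT_Stmt := by
  intro t J h hJ hJ1 i
  have h00 : h 0 0 = 1 := (hR J h hJ hJ1).2.1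
  by_cases ht : t = 0
  · subst ht
    obtain ⟨q, hq⟩ := hF J h hJ i
    have e1 : FF (yt 0 J) i = C (h 0 i) * (-1) ^ i * X ^ (2 * i) * uF i + X ^ (2 * i + 1) * q := by
      rw [← hq]
      ring
    rcases Nat.eq_zero_or_pos i with hi | hi
    · subst hi
      refine ⟨FF (yt 0 J) 0, by rw [pow_zero, one_mul], ?_⟩
      rw [e1, uF_zero, h00]
      simp
    · refine ⟨C (h 0 i) * (-1) ^ i * X ^ i * uF i + X ^ (i + 1) * q, ?_, ?_⟩
      · rw [e1]
        ring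
      · have hi0 : i ≠ 0 := hi.ne'
        simp [hi0]
  · obtain ⟨y, -, -, -, h1⟩ := hS t ht
    obtain ⟨Ψ, σ, h2, h3, -, -⟩ := h1 J h hJ
    obtain ⟨A, hA, hA0⟩ := hT t i
    refine ⟨A * Ψ i, ?_, ?_⟩
    · rw [h2 i, hA]
      ring
    · rw [map_mul, hA0, h3 i, h00, mul_one]

end Pool.Agent.WD3
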