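import Pool.Agent.WD3.BaseI

/-!
# Generalised doubles: the algebraic functions, statements

The module `WZ_XXX` is the file `Pool/Agent/WD3/XXX.lean` with `theorem t_XXX : XXX_Stmt` (other
statements that are used are explicit hypotheses) in the namespace `Pool.Agent.WD3`, helper lemmas in
the namespace `Pool.Agent.WD3.XXX`. Everything here is about polynomials, no knots.

`P_n (e + 1/e - 2) = (e^(2n+1) + 1) / (e^n (e + 1))`.
-/

set_option autoImplicit false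

namespace Pool.Agent.WD3

open Pool.Agent.LibH11 Pool.Agent.IT Pool.Agent.GK Pool.Agent.TwoBr Pool.Agent.WD Pool.Agent.WD2
open scoped BigOperators
open PowerSeries

/-- The polynomials `P_n`, `n : ℕ`. -/
noncomputable def Pn : ℕ → Polynomial ℚ
  | 0 => 1
  | 1 => Polynomial.X + 1
  | (n + 2) => (Polynomial.X + 2) * Pn (n + 1) - Pn n

/-- The polynomials `P_t`, `t : ℤ`, `P_(-t) = P_(t-1)`. -/
noncomputable def Pz (t : ℤ) : Polynomial ℚ := if 0 ≤ t then Pn t.natAbs else Pn (t.natAbs - 1)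

/-- The value of a polynomial in two variables: the coefficients are polynomials in the first
variable. -/
noncomputable def ev2 {R : Type} [CommRing R] [Algebra ℚ R] (x y : R)
    (A : Polynomial (Polynomial ℚ)) : R :=
  Polynomial.eval₂ ((Polynomial.aeval x : Polynomial ℚ →ₐ[ℚ] R) : Polynomial ℚ →+* R) y A

/-- ENP: the polynomials `P_n` in terms of `e`.

Proof: induction on `n` with the recursion (`Nat.twoStepInduction`). -/
def ENP_Stmt : Prop :=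
  ∀ (n : ℕ) (e : ℂ), e ≠ 0 →
    Polynomial.aeval (e + e⁻¹ - 2) (Pn n) * (e ^ n * (e + 1)) = e ^ (2 * n + 1) + 1

/-- ENA: two polynomials with a common generic zero have common zeros over every complex number.

Proof. `Polynomial.aeval v : ℚ[X] → ℚ⟦X⟧` is injective: if `p (v) = 0`, `p ≠ 0`, `v = C c + w`,
`w ≠ 0` without constant term, then `q = p.comp (X + C c) ≠ 0`, `q (w) = 0`, but `q = X^r q'` with
`q'(0) ≠ 0`, `q' (w) ≠ 0` (constant coefficient) and `w^r ≠ 0`. So `ℚ⟦X⟧` is a domain and a torsion free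
algebra over the integrally closed domain `ℚ[X]` (`(aeval v).toRingHom.toAlgebra`), `v'` is integral
(`B`). Let `m = minpoly ℚ[X] v'`, monic; `m ∣ A`, `m ∣ B` (`minpoly.isIntegrallyClosed_dvd`). For
`x₀ : ℂ` the polynomial `m.map (aeval x₀)` is monic of degree `≥ 1` (`minpoly.natDegree_pos`), so it
has a root `y₀`. -/
def ENA_Stmt : Prop :=
  ∀ (v v' : ℚ⟦X⟧), v ≠ C (constantCoeff v) → ∀ A B : Polynomial (Polynomial ℚ), B.Monic →
    ev2 v v' A = 0 → ev2 v v' B = 0 → ∀ x₀ : ℂ, ∃ y₀ : ℂ, ev2 x₀ y₀ A = 0 ∧ ev2 x₀ y₀ B = 0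

/-- ENB: both exponents are positive.

Proof. Choose `e' = e'(e)` for `e ≥ E₀` (`atTop`). Put `Y = (e + 1/e)² - 4`, `Y' = (e' + 1/e')² - 4`.
(1) `Y → ∞`, so `‖g(Y)‖ → ∞` (`1 ≤ natDegree g`), hence `‖g'(Y')‖ → ∞`, hence `‖e'‖ → ∞` (if `1 ≤ ‖e'‖ ≤ B`
then `‖Y'‖ ≤ (B + 1)² + 4` and `g'` is bounded there). (2) For `‖e'‖ > 1` we have `e'^(2k) + e' ≠ 0`, and
the relation says `e - a = e' - a'`, `a = (e² - 1)/(e^(2t) + e)`, `a' = (e'² - 1)/(e'^(2k) + e')` (as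
`(e^(2t+1) + 1)/(e^(2t) + e) = e - a`). `a e^(2t-2) → 1`, `a' e'^(2k-2) → 1`, so `a`, `a'` are bounded
(`t, k ≥ 1`), `e' - e` is bounded, `e'/e → 1`, `a' e^(2k-2) → 1`. Let `μ = min t k`; since `t ≠ k`,
`(e' - e) e^(2μ-2) = (a' - a) e^(2μ-2) → c₀`, `c₀ = 1` or `-1`. (3) `Y' - Y = (e' - e)(e' + e)
(1 - 1/(e² e'²))`, so `(Y' - Y) e^(2μ-3) → 2 c₀`, `Y'/e² → 1`, `Y/e² → 1`. (4) With
`g'(Y') - g'(Y) = (Y' - Y) q`, `q = ∑ (coefficients of g') * ∑ Y'^i Y^j`, `q e^(-2(n'-1)) → n' l'`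
(`n' = natDegree g'`, `l'` its leading coefficient): `(g - g')(Y) = g'(Y') - g'(Y)`, so
`(g - g')(Y) e^(2μ-2n'-1) → 2 c₀ n' l' ≠ 0`. (5) If `g = g'` the left side is `0`; otherwise with
`h = natDegree (g - g')` we have `(g - g')(Y) e^(-2h) → c ≠ 0`, so `e^(2h+2μ-2n'-1)` would have a
nonzero limit for `e → ∞`, but the exponent is odd. -/
def ENB_Stmt : Prop :=
  ∀ (g g' : Polynomial ℚ) (t k : ℕ), 1 ≤ t → 1 ≤ k → 1 ≤ g.natDegree → 1 ≤ g'.natDegree →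
    (∃ E₀ : ℝ, ∀ e : ℝ, E₀ ≤ e → ∃ e' : ℂ, 1 ≤ ‖e'‖ ∧
      ((e : ℂ) ^ (2 * t + 1) + 1) * (e' ^ (2 * k) + e') =
        ((e : ℂ) ^ (2 * t) + e) * (e' ^ (2 * k + 1) + 1) ∧
      Polynomial.aeval (((e : ℂ) + (e : ℂ)⁻¹) ^ 2 - 4) g =
        Polynomial.aeval ((e' + e'⁻¹) ^ 2 - 4) g') → t = k

/-- ENM: exponents of different signs.

Proof. As in `ENB` (1), `‖e'‖ → ∞`. For `e`, `‖e'‖ ≥ 10`: `‖left side‖ ≥ (e^(2t+1) - 1)(‖e'‖^(2k+1) - 1)
≥ e^(2t+1) ‖e'‖^(2k+1) / 4`, `‖right side‖ ≤ 4 e^(2t) ‖e'‖^(2k)`. -/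
def ENM_Stmt : Prop :=
  ∀ (g g' : Polynomial ℚ) (t k : ℕ), 1 ≤ t → 1 ≤ k → 1 ≤ g.natDegree → 1 ≤ g'.natDegree →
    ¬ (∃ E₀ : ℝ, ∀ e : ℝ, E₀ ≤ e → ∃ e' : ℂ, 1 ≤ ‖e'‖ ∧
      ((e : ℂ) ^ (2 * t + 1) + 1) * (e' ^ (2 * k + 1) + 1) =
        ((e : ℂ) ^ (2 * t) + e) * (e' ^ (2 * k) + e') ∧
      Polynomial.aeval (((e : ℂ) + (e : ℂ)⁻¹) ^ 2 - 4) g =
        Polynomial.aeval ((e' + e'⁻¹) ^ 2 - 4) g')

/-- END: the comparison of the swapped pair (uses `ENP`, `ENA`, `ENB`, `ENM`).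

Proof. `A (x, y) = P_t (x) P_(k-1) (y) - P_(t-1) (x) P_k (y)` and `B (x, y) = (g' (y (y+4)) -
g (x (x+4))) / l'` (`l'` the leading coefficient of `g'`; `B` is monic in `y`) vanish at `(v, v')`. For
real `e` large put `x₀ = e + 1/e - 2`, so `x₀ (x₀ + 4) = (e + 1/e)² - 4`; `ENA` gives `y₀`; choose
`e' : ℂ` with `e'² - (y₀ + 2) e' + 1 = 0`, `1 ≤ ‖e'‖` (the product of the two roots is 1), then
`y₀ = e' + 1/e' - 2`. `t, k ≥ 1`: multiply `A = 0` by `e^t (e+1) e'^k (e'+1)` (`ENP`) to get the relation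
of `ENB`. `t = -s < 0`: `P_t = Pn (s-1)`, `P_(t-1) = Pn s`. Both negative: the relation of `ENB` for
`s`, `r` (multiplied by -1); different signs: the relation of `ENM`. -/
def END_Stmt : Prop :=
  ∀ (g g' : Polynomial ℚ) (t k : ℤ) (v v' : ℚ⟦X⟧), t ≠ 0 → k ≠ 0 → 1 ≤ g.natDegree →
    1 ≤ g'.natDegree → v ≠ C (constantCoeff v) →
    Polynomial.aeval v (Pz t) = E 2 * Polynomial.aeval v (Pz (t - 1)) →
    Polynomial.aeval v' (Pz k) = E 2 * Polynomial.aeval v' (Pz (k - 1)) →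
    Polynomial.aeval (v * (v + 4)) g = Polynomial.aeval (v' * (v' + 4)) g' → t = k

/-- ZER: the case without framing.

Proof. `f = g.comp (k w (k w + 4))` is invariant under `w ↦ -4/k - w` and under `w ↦ -4/k' - w`, hence
under the translation by `4/k - 4/k'`; if `k ≠ k'` then `f` is constant (it takes the value `f 0`
infinitely often), but its degree is `2 natDegree g`. -/
def ZER_Stmt : Prop :=
  ∀ (g g' : Polynomial ℚ) (k k' : ℤ), k ≠ 0 → k' ≠ 0 → 1 ≤ g.natDegree →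
    g.comp (Polynomial.C (k : ℚ) * Polynomial.X * (Polynomial.C (k : ℚ) * Polynomial.X + 4)) =
    g'.comp (Polynomial.C (k' : ℚ) * Polynomial.X * (Polynomial.C (k' : ℚ) * Polynomial.X + 4)) →
    k = k'

end Pool.Agent.WD3
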