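import Pool.Agent.WD3.StH
import Pool.Agent.WD3.StZ

/-!
The equation of symbols, from the statement about `Pz` (`END_Stmt`, `WD3/StZ.lean`).
-/

set_option autoImplicit false

namespace Pool.Agent.WD3

open Pool.Agent.LibH11 Pool.Agent.IT Pool.Agent.GK Pool.Agent.TwoBr Pool.Agent.WD Pool.Agent.WD2
open scoped BigOperators
open PowerSeries

namespace FIN

theorem uc_zero : uc 0 = 0 := by
  unfold uc
  simp

theorem uc_one : uc 1 = 1 := by
  unfold uc
  simp

theorem uc_succ (b : ℤ) : uc (b + 1) = Polynomial.X * uc b - uc (b - 1) := by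
  unfold uc
  have h := Polynomial.Chebyshev.S_add_one ℚ (b - 1)
  rw [show b - 1 + 1 = b + 1 - 1 by ring] at h
  exact h

theorem uc_neg (b : ℤ) : uc (-b) = -uc b := by
  unfold uc
  have h := Polynomial.Chebyshev.S_neg_sub_one ℚ b
  exact h

theorem vc_neg (b : ℤ) : vc (-b) = vc (b - 1) := by
  unfold vc
  have h1 : uc (-b + 1) = -uc (b - 1) := by
    rw [← uc_neg]
    congr 1
    ring
  rw [h1, uc_neg, show b - 1 + 1 = b by ring]
  ring

theorem vc_succ (b : ℤ) : vc (b + 1) = Polynomial.X * vc b - vc (b - 1) := by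
  unfold vc
  rw [uc_succ (b + 1), uc_succ b, show b + 1 - 1 = b by ring, show b - 1 + 1 = b by ring]
  ring

theorem vc_zero : vc 0 = 1 := by
  unfold vc
  rw [zero_add, uc_one, uc_zero, sub_zero]

theorem vc_one : vc 1 = Polynomial.X - 1 := by
  have h := vc_succ 0
  rw [zero_add, vc_zero, zero_sub, vc_neg, sub_self, vc_zero, mul_one] at h
  exact h

theorem vc_nat (n : ℕ) : (vc (n : ℤ)).comp (Polynomial.X + 2) = Pn n := by
  induction n using Nat.twoStepInduction with
  | zero => simp [vc_zero, Pn]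
  | one =>
    simp only [Nat.cast_one, vc_one, Pn]
    rw [Polynomial.sub_comp, Polynomial.X_comp, Polynomial.one_comp]
    ring
  | more n h1 h2 =>
    have h := vc_succ ((n : ℤ) + 1)
    rw [show ((n : ℤ) + 1 + 1) = ((n + 2 : ℕ) : ℤ) by push_cast; ring,
      show ((n : ℤ) + 1 - 1) = (n : ℤ) by ring] at h
    rw [h, Polynomial.sub_comp, Polynomial.mul_comp, Polynomial.X_comp, h1]
    rw [show ((n : ℤ) + 1) = ((n + 1 : ℕ) : ℤ) by push_cast; ring, h2]
    rfl

theorem vc_int (t : ℤ) : (vc t).comp (Polynomial.X + 2) = Pz t := by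
  unfold Pz
  by_cases h : 0 ≤ t
  · rw [if_pos h, ← vc_nat, show ((t.natAbs : ℕ) : ℤ) = t by omega]
  · rw [if_neg h, ← vc_nat]
    have h1 := vc_neg (-t)
    rw [neg_neg] at h1
    rw [h1]
    congr 2
    omega

theorem aeval_vc (y : ℚ⟦X⟧) (t : ℤ) :
    Polynomial.aeval (2 + y) (vc t) = Polynomial.aeval y (Pz t) := by
  rw [← vc_int, Polynomial.aeval_comp]
  congr 1
  rw [map_add, Polynomial.aeval_X]
  have h2 : (Polynomial.aeval y) (2 : Polynomial ℚ) = 2 := map_ofNat _ 2
  rw [h2]
  ring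

/-- an even polynomial is a polynomial in `x ^ 2 - 4` -/
theorem even_poly (D : Polynomial ℚ) (h : D.comp (-Polynomial.X) = D) :
    ∃ g : Polynomial ℚ, D = g.comp (Polynomial.X ^ 2 - 4) := by
  -- first `D = f (x ^ 2)`
  have hodd : ∀ n : ℕ, Odd n → D.coeff n = 0 := by
    intro n hn
    have h1 : (D.comp (-Polynomial.X)).coeff n = (-1) ^ n * D.coeff n := by
      have e : (-Polynomial.X : Polynomial ℚ) = Polynomial.C (-1) * Polynomial.X := by simp
      rw [e, Polynomial.comp_C_mul_X_coeff]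
      ring
    rw [h, hn.neg_one_pow] at h1
    linarith
  have hf : ∃ f : Polynomial ℚ, D = f.comp (Polynomial.X ^ 2) := by
    refine ⟨∑ m ∈ Finset.range (D.natDegree + 1), Polynomial.C (D.coeff (2 * m)) *
      Polynomial.X ^ m, ?_⟩
    rw [Polynomial.sum_comp]
    ext n
    rw [Polynomial.finset_sum_coeff]
    have e : ∀ m : ℕ, ((Polynomial.C (D.coeff (2 * m)) * Polynomial.X ^ m).comp
        (Polynomial.X ^ 2)).coeff n = if n = 2 * m then D.coeff (2 * m) else 0 := by
      intro m
      rw [Polynomial.mul_comp, Polynomial.C_comp, Polynomial.pow_comp, Polynomial.X_comp, ← pow_mul,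
        Polynomial.coeff_C_mul, Polynomial.coeff_X_pow]
      split_ifs <;> simp
    simp only [e]
    rcases Nat.even_or_odd n with hn | hn
    · obtain ⟨r, hr⟩ := hn
      have hr2 : n = 2 * r := by omega
      by_cases hm : r < D.natDegree + 1
      · rw [Finset.sum_eq_single r]
        · rw [if_pos hr2, hr2]
        · intro b _ hb
          rw [if_neg (by omega)]
        · intro hb
          exact absurd (Finset.mem_range.mpr hm) hb
      · rw [Finset.sum_eq_zero]
        · exact Polynomial.coeff_eq_zero_of_natDegree_lt (by omega)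
        · intro b hb
          have := Finset.mem_range.mp hb
          rw [if_neg (by omega)]
    · rw [hodd n hn, Finset.sum_eq_zero]
      intro b _
      obtain ⟨r, hr⟩ := hn
      rw [if_neg (by omega)]
  obtain ⟨f, hf⟩ := hf
  refine ⟨f.comp (Polynomial.X + 4), ?_⟩
  rw [Polynomial.comp_assoc, hf]
  congr 1
  rw [Polynomial.add_comp, Polynomial.X_comp]
  have : (4 : Polynomial ℚ).comp (Polynomial.X ^ 2 - 4) = 4 := by
    have e4 : (4 : Polynomial ℚ) = Polynomial.C 4 := (map_ofNat Polynomial.C 4).symm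
    rw [e4, Polynomial.C_comp]
  rw [this]
  ring

theorem natDegree_sq : (Polynomial.X ^ 2 - 4 : Polynomial ℚ).natDegree = 2 := by
  have e4 : (4 : Polynomial ℚ) = Polynomial.C 4 := (map_ofNat Polynomial.C 4).symm
  rw [e4, Polynomial.natDegree_X_pow_sub_C]

theorem aeval_g (y : ℚ⟦X⟧) (g : Polynomial ℚ) :
    Polynomial.aeval (2 + y) (g.comp (Polynomial.X ^ 2 - 4)) =
      Polynomial.aeval (y * (y + 4)) g := by
  rw [Polynomial.aeval_comp]
  congr 1
  rw [map_sub, map_pow, Polynomial.aeval_X]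
  have h4 : (Polynomial.aeval (2 + y)) (4 : Polynomial ℚ) = 4 := map_ofNat _ 4
  rw [h4]
  ring

theorem ne_C {y : ℚ⟦X⟧} (h : coeff 1 y ≠ 0) (c : ℚ) : y ≠ C c := by
  intro hc
  rw [hc] at h
  apply h
  rw [coeff_C]
  simp

/-- a nonconstant polynomial at a nonconstant series is not constant -/
theorem aeval_ne (g : Polynomial ℚ) (v : ℚ⟦X⟧) (hv : constantCoeff v = 0) (hv0 : v ≠ 0)
    (hg : 0 < g.natDegree) (c : ℚ) : Polynomial.aeval v g ≠ C c := by
  intro h
  have h1 : Polynomial.aeval v (g - Polynomial.C c) = 0 := by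
    rw [map_sub, h, Polynomial.aeval_C]
    exact sub_self _
  have hp : g - Polynomial.C c ≠ 0 := by
    intro h0
    have : g = Polynomial.C c := sub_eq_zero.mp h0
    rw [this, Polynomial.natDegree_C] at hg
    exact lt_irrefl 0 hg
  obtain ⟨q, hq, hq0⟩ := Polynomial.exists_eq_pow_rootMultiplicity_mul_and_not_dvd _ hp 0
  rw [Polynomial.C_0, sub_zero] at hq hq0
  rw [hq, map_mul, map_pow, Polynomial.aeval_X] at h1
  rcases mul_eq_zero.mp h1 with h2 | h2
  · exact hv0 (pow_eq_zero_iff (by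
      intro hc
      rw [hc] at h2
      simp at h2)|>.mp h2)
  · have h3 : constantCoeff (Polynomial.aeval v q) = q.coeff 0 := by
      rw [Polynomial.aeval_eq_sum_range, map_sum, Finset.sum_eq_single 0]
      · simp
      · intro b _ hb
        rw [smul_eq_C_mul, map_mul, map_pow, hv, zero_pow hb, mul_zero]
      · intro hb
        simp at hb
    rw [h2, map_zero] at h3
    exact hq0 (Polynomial.X_dvd_iff.mpr h3.symm)

end FIN

open FIN in
theorem t_FIN (hE : END_Stmt) : FIN_Stmt := by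
  intro t k D D' y y' ht hk hD hD' hdeg hy0 hy1 hy0' hy1' hV hV' hDD
  obtain ⟨g, hg⟩ := even_poly D hD
  obtain ⟨g', hg'⟩ := even_poly D' hD'
  rw [aeval_vc, aeval_vc] at hV hV'
  rw [hg, hg', aeval_g, aeval_g] at hDD
  have hne : ∀ z : ℚ⟦X⟧, coeff 1 z ≠ 0 → z ≠ 0 := by
    intro z hz h0
    exact hz (by rw [h0, map_zero])
  have h4 : ∀ z : ℚ⟦X⟧, constantCoeff z = 0 → coeff 1 z ≠ 0 →
      constantCoeff (z * (z + 4)) = 0 ∧ z * (z + 4) ≠ 0 := by
    intro z hz hz1
    refine ⟨by rw [map_mul, hz, zero_mul], mul_ne_zero (hne z hz1) ?_⟩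
    intro h0
    have h5 := congrArg constantCoeff h0
    rw [map_add, hz, map_zero, zero_add, map_ofNat] at h5
    norm_num at h5
  have hd : D.natDegree = g.natDegree * 2 := by
    rw [hg, Polynomial.natDegree_comp, natDegree_sq]
  have hd' : D'.natDegree = g'.natDegree * 2 := by
    rw [hg', Polynomial.natDegree_comp, natDegree_sq]
  have key : ∀ (p p' : Polynomial ℚ) (z z' : ℚ⟦X⟧), constantCoeff z = 0 → coeff 1 z ≠ 0 →
      0 < p.natDegree → Polynomial.aeval (z * (z + 4)) p = Polynomial.aeval (z' * (z' + 4)) p' →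
      0 < p'.natDegree := by
    intro p p' z z' hz hz1 hp he
    by_contra hc
    have h0 : p'.natDegree = 0 := by omega
    obtain ⟨c, hc⟩ := Polynomial.natDegree_eq_zero.mp h0
    rw [← hc, Polynomial.aeval_C] at he
    obtain ⟨h5, h6⟩ := h4 z hz hz1
    exact aeval_ne p _ h5 h6 hp c he
  have hgg : 0 < g.natDegree ∧ 0 < g'.natDegree := by
    rcases hdeg with h | h
    · have h1 : 0 < g.natDegree := by omega
      exact ⟨h1, key g g' y y' hy0 hy1 h1 hDD⟩
    · have h1 : 0 < g'.natDegree := by omega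
      exact ⟨key g' g y' y hy0' hy1' h1 hDD.symm, h1⟩
  exact hE g g' t k y y' ht hk hgg.1 hgg.2 (ne_C hy1 _) hV hV' hDD

end Pool.Agent.WD3
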