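import Pool.Agent.WD3.StH

/-!
# Project W3, module FNS (helper5): the asymptotic argument, same sign
-/

set_option autoImplicit false

open Polynomial Filter Topology

namespace Pool.Agent.WD3.FNSx

/-- difference quotients of polynomials are continuous -/
theorem exists_quot (P : ℂ[X]) : ∃ Q : ℂ × ℂ → ℂ, Continuous Q ∧
    ∀ x y, P.eval x - P.eval y = (x - y) * Q (x, y) := by
  induction P using Polynomial.induction_on with
  | C a => exact ⟨fun _ => 0, continuous_const, fun x y => by simp⟩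
  | add p q hp hq =>
    obtain ⟨Q, hQ, h⟩ := hp
    obtain ⟨Q', hQ', h'⟩ := hq
    refine ⟨fun z => Q z + Q' z, hQ.add hQ', fun x y => ?_⟩
    rw [eval_add, eval_add, mul_add, ← h, ← h']
    ring
  | monomial n a hp =>
    obtain ⟨Q, hQ, h⟩ := hp
    refine ⟨fun z => z.1 * Q z + (C a * X ^ n).eval z.2, ?_, fun x y => ?_⟩
    · exact (continuous_fst.mul hQ).add ((Polynomial.continuous _).comp continuous_snd)
    · have e1 : ∀ x, (C a * X ^ (n + 1)).eval x = x * (C a * X ^ n).eval x := by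
        intro x
        simp only [eval_mul, eval_C, eval_pow, eval_X]
        ring
      rw [e1, e1]
      show _ = (x - y) * (x * Q (x, y) + (C a * X ^ n).eval y)
      have := h x y
      linear_combination x * this

/-- the core of the asymptotic argument -/
theorem core {ι : Type} {l : Filter ι} [l.NeBot] (α β : ι → ℂ) (hα : Tendsto α l (𝓝 0))
    (hβ : Tendsto β l (𝓝 0)) (hα0 : ∀ i, α i ≠ 0) (a c n n' : ℕ)
    (hc : 0 < c) (hn : 0 < n) (R R' : ℂ[X]) (hR : R.eval 0 ≠ 0) (hR' : R'.eval 0 ≠ 0)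
    (h1 : ∀ i, (α i ^ (2 * a + 3) + 1) * (β i ^ (2 * (a + c) + 1) + 1) * β i =
      (β i ^ (2 * (a + c) + 3) + 1) * (α i ^ (2 * a + 1) + 1) * α i)
    (h2 : ∀ i, β i ^ n' * R.eval (α i ^ 2) = α i ^ n * R'.eval (β i ^ 2)) : False := by
  -- limits of powers
  have pα : ∀ k : ℕ, 0 < k → Tendsto (fun i => α i ^ k) l (𝓝 0) := fun k hk => by
    have := hα.pow k
    rwa [zero_pow hk.ne'] at this
  have pβ : ∀ k : ℕ, 0 < k → Tendsto (fun i => β i ^ k) l (𝓝 0) := fun k hk => by
    have := hβ.pow k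
    rwa [zero_pow hk.ne'] at this
  -- the ratio
  let r : ι → ℂ := fun i => β i / α i
  have hr : ∀ i, β i = r i * α i := fun i => (div_mul_cancel₀ _ (hα0 i)).symm
  let den : ι → ℂ := fun i => (α i ^ (2 * a + 3) + 1) * (β i ^ (2 * (a + c) + 1) + 1)
  have hden : Tendsto den l (𝓝 1) := by
    have := ((pα (2 * a + 3) (by omega)).add_const 1).mul
      ((pβ (2 * (a + c) + 1) (by omega)).add_const 1)
    simpa using this
  have hden0 : ∀ᶠ i in l, den i ≠ 0 := hden.eventually_ne one_ne_zero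
  have hrd : ∀ i, den i * r i = (β i ^ (2 * (a + c) + 3) + 1) * (α i ^ (2 * a + 1) + 1) := by
    intro i
    have h3 := h1 i
    have h4 : den i * β i = (β i ^ (2 * (a + c) + 3) + 1) * (α i ^ (2 * a + 1) + 1) * α i := h3
    show den i * (β i / α i) = _
    rw [← mul_div_assoc, h4, mul_div_assoc, div_self (hα0 i), mul_one]
  have hrt : Tendsto r l (𝓝 1) := by
    have h3 : Tendsto (fun i => (β i ^ (2 * (a + c) + 3) + 1) * (α i ^ (2 * a + 1) + 1) / den i) l
        (𝓝 1) := by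
      have e : Tendsto (fun i => (β i ^ (2 * (a + c) + 3) + 1) * (α i ^ (2 * a + 1) + 1) / den i) l
          (𝓝 ((0 + 1) * (0 + 1) / 1)) := (((pβ (2 * (a + c) + 3) (by omega)).add_const 1).mul
        ((pα (2 * a + 1) (by omega)).add_const 1)).div hden one_ne_zero
      have e0 : ((0 : ℂ) + 1) * (0 + 1) / 1 = 1 := by norm_num
      rwa [e0] at e
    refine h3.congr' ?_
    filter_upwards [hden0] with i hi
    rw [← hrd, mul_div_assoc, mul_comm, div_mul_cancel₀ _ hi]
  -- the first order term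
  let q : ι → ℂ := fun i => (1 + r i ^ (2 * a + 1) * β i ^ (2 * c + 2) * (1 + α i ^ (2 * a + 1)) -
    α i ^ 2 - r i ^ (2 * a + 1) * β i ^ (2 * c) * (1 + α i ^ (2 * a + 3))) / den i
  have hq : Tendsto q l (𝓝 1) := by
    have e1 := hrt.pow (2 * a + 1)
    have e2 := (e1.mul (pβ (2 * c + 2) (by omega))).mul ((pα (2 * a + 1) (by omega)).const_add 1)
    have e3 := (e1.mul (pβ (2 * c) (by omega))).mul ((pα (2 * a + 3) (by omega)).const_add 1)
    have e4 : Tendsto q l (𝓝 ((1 + 1 ^ (2 * a + 1) * 0 * (1 + 0) - 0 -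
        1 ^ (2 * a + 1) * 0 * (1 + 0)) / 1)) :=
      ((((e2.const_add 1).sub (pα 2 (by omega)))).sub e3).div hden one_ne_zero
    have e0 : ((1 : ℂ) + 1 ^ (2 * a + 1) * 0 * (1 + 0) - 0 -
        1 ^ (2 * a + 1) * 0 * (1 + 0)) / 1 = 1 := by norm_num
    rwa [e0] at e4
  have hrq : ∀ᶠ i in l, r i - 1 = α i ^ (2 * a + 1) * q i := by
    filter_upwards [hden0] with i hi
    have h3 := hrd i
    have h4 : β i ^ (2 * (a + c) + 3) = r i ^ (2 * a + 1) * α i ^ (2 * a + 1) * β i ^ (2 * c + 2) := by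
      rw [← mul_pow, ← hr, ← pow_add]
      congr 1
      ring
    have h5 : β i ^ (2 * (a + c) + 1) = r i ^ (2 * a + 1) * α i ^ (2 * a + 1) * β i ^ (2 * c) := by
      rw [← mul_pow, ← hr, ← pow_add]
      congr 1
      ring
    have h6 : den i = (α i ^ (2 * a + 3) + 1) *
        (r i ^ (2 * a + 1) * α i ^ (2 * a + 1) * β i ^ (2 * c) + 1) := by
      rw [← h5]
    rw [h4] at h3
    show r i - 1 = α i ^ (2 * a + 1) * (_ / den i)
    rw [← mul_div_assoc, eq_div_iff hi]
    have h7 : α i ^ (2 * a + 3) = α i ^ (2 * a + 1) * α i ^ 2 := by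
      rw [← pow_add]
    have h8 : (r i - 1) * den i = den i * r i - den i := by ring
    rw [h8, h3, h6, h7]
    ring
  -- the values of the polynomials
  have tR : ∀ P : ℂ[X], Tendsto (fun i => P.eval (α i ^ 2)) l (𝓝 (P.eval 0)) := fun P =>
    (P.continuous.tendsto 0).comp (pα 2 (by omega))
  have tR' : Tendsto (fun i => R'.eval (β i ^ 2)) l (𝓝 (R'.eval 0)) :=
    (R'.continuous.tendsto 0).comp (pβ 2 (by omega))
  have h2' : ∀ i, r i ^ n' * α i ^ n' * R.eval (α i ^ 2) = α i ^ n * R'.eval (β i ^ 2) := by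
    intro i
    rw [← mul_pow, ← hr]
    exact h2 i
  have hnn : n' = n := by
    rcases lt_trichotomy n' n with h | h | h
    · exfalso
      have h3 : ∀ i, r i ^ n' * R.eval (α i ^ 2) = α i ^ (n - n') * R'.eval (β i ^ 2) := by
        intro i
        have h4 := h2' i
        have h5 : α i ^ n = α i ^ n' * α i ^ (n - n') := by
          rw [← pow_add]
          congr 1
          omega
        rw [h5] at h4
        refine mul_left_cancel₀ (pow_ne_zero n' (hα0 i)) ?_
        linear_combination h4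
      have h4 : Tendsto (fun i => r i ^ n' * R.eval (α i ^ 2)) l (𝓝 (1 ^ n' * R.eval 0)) :=
        (hrt.pow n').mul (tR R)
      have h5 : Tendsto (fun i => α i ^ (n - n') * R'.eval (β i ^ 2)) l (𝓝 (0 * R'.eval 0)) :=
        (pα _ (by omega)).mul tR'
      have h6 := tendsto_nhds_unique (h4.congr h3) h5
      rw [one_pow, one_mul, zero_mul] at h6
      exact hR h6
    · exact h
    · exfalso
      have h3 : ∀ i, r i ^ n' * α i ^ (n' - n) * R.eval (α i ^ 2) = R'.eval (β i ^ 2) := by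
        intro i
        have h4 := h2' i
        have h5 : α i ^ n' = α i ^ n * α i ^ (n' - n) := by
          rw [← pow_add]
          congr 1
          omega
        rw [h5] at h4
        refine mul_left_cancel₀ (pow_ne_zero n (hα0 i)) ?_
        linear_combination h4
      have h4 : Tendsto (fun i => r i ^ n' * α i ^ (n' - n) * R.eval (α i ^ 2)) l
          (𝓝 (1 ^ n' * 0 * R.eval 0)) :=
        ((hrt.pow n').mul (pα _ (by omega))).mul (tR R)
      have h6 := tendsto_nhds_unique (h4.congr h3) tR'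
      rw [mul_zero, zero_mul] at h6
      exact hR' h6.symm
  subst hnn
  have h3 : ∀ i, r i ^ n' * R.eval (α i ^ 2) = R'.eval (β i ^ 2) := by
    intro i
    refine mul_left_cancel₀ (pow_ne_zero n' (hα0 i)) ?_
    linear_combination h2' i
  obtain ⟨Q, hQ, hQe⟩ := exists_quot R'
  let w : ι → ℂ := fun i => q i * (∑ j ∈ Finset.range n', r i ^ j) * R.eval (α i ^ 2) -
    α i ^ 2 * q i * (r i + 1) * Q (α i ^ 2, β i ^ 2)
  have hw : Tendsto w l (𝓝 (n' * R.eval 0)) := by
    have e1 : Tendsto (fun i => ∑ j ∈ Finset.range n', r i ^ j) l (𝓝 n') := by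
      have := tendsto_finsetSum (Finset.range n') (fun j _ => hrt.pow j)
      simpa using this
    have e2 := (hq.mul e1).mul (tR R)
    have e3 : Tendsto (fun i => Q (α i ^ 2, β i ^ 2)) l (𝓝 (Q (0, 0))) :=
      (hQ.tendsto (0, 0)).comp ((pα 2 (by omega)).prodMk_nhds (pβ 2 (by omega)))
    have e4 := (((pα 2 (by omega)).mul hq).mul (hrt.add_const 1)).mul e3
    have e5 := e2.sub e4
    simpa using e5
  have hSw : ∀ᶠ i in l, (R' - R).eval (α i ^ 2) = α i ^ (2 * a + 1) * w i := by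
    filter_upwards [hrq] with i hi
    have h4 := h3 i
    have h5 := hQe (α i ^ 2) (β i ^ 2)
    have h6 : r i ^ n' - 1 = (r i - 1) * ∑ j ∈ Finset.range n', r i ^ j := by
      rw [mul_comm, geom_sum_mul]
    have h7 : α i ^ 2 - β i ^ 2 = - (α i ^ 2 * (r i - 1) * (r i + 1)) := by
      rw [hr i]
      ring
    rw [eval_sub]
    show _ = α i ^ (2 * a + 1) * (q i * (∑ j ∈ Finset.range n', r i ^ j) * R.eval (α i ^ 2) -
      α i ^ 2 * q i * (r i + 1) * Q (α i ^ 2, β i ^ 2))
    have h8 : R'.eval (α i ^ 2) - R.eval (α i ^ 2) =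
        (R'.eval (α i ^ 2) - R'.eval (β i ^ 2)) + (r i ^ n' - 1) * R.eval (α i ^ 2) := by
      rw [← h4]
      ring
    rw [h8, h5, h6, h7, hi]
    ring
  have hL : (n' : ℂ) * R.eval 0 ≠ 0 := mul_ne_zero (Nat.cast_ne_zero.2 hn.ne') hR
  by_cases hS : R' - R = 0
  · have h4 : ∀ᶠ i in l, w i = 0 := by
      filter_upwards [hSw] with i hi
      rw [hS, eval_zero] at hi
      exact (mul_eq_zero.1 hi.symm).resolve_left (pow_ne_zero _ (hα0 i))
    have h5 : Tendsto w l (𝓝 0) := tendsto_const_nhds.congr' (h4.mono fun i hi => hi.symm)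
    exact hL (tendsto_nhds_unique hw h5)
  · obtain ⟨S₁, hS₁, hnd⟩ := exists_eq_pow_rootMultiplicity_mul_and_not_dvd (R' - R) hS 0
    set j := (R' - R).rootMultiplicity 0
    have hS0 : S₁.eval 0 ≠ 0 := fun h => hnd (dvd_iff_isRoot.2 h)
    have hSe : ∀ t, (R' - R).eval t = t ^ j * S₁.eval t := by
      intro t
      rw [hS₁, eval_mul, eval_pow, eval_sub, eval_X, eval_C, sub_zero]
    rcases Nat.lt_or_ge (2 * j) (2 * a + 1) with h | h
    · have h4 : ∀ᶠ i in l, α i ^ (2 * a + 1 - 2 * j) * w i = S₁.eval (α i ^ 2) := by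
        filter_upwards [hSw] with i hi
        rw [hSe, ← pow_mul] at hi
        refine mul_left_cancel₀ (pow_ne_zero (2 * j) (hα0 i)) ?_
        rw [hi, ← mul_assoc, ← pow_add]
        congr 2
        omega
      have h5 := ((pα (2 * a + 1 - 2 * j) (by omega)).mul hw).congr' h4
      have h6 := tendsto_nhds_unique h5 (tR S₁)
      rw [zero_mul] at h6
      exact hS0 h6.symm
    · have h4 : ∀ᶠ i in l, α i ^ (2 * j - (2 * a + 1)) * S₁.eval (α i ^ 2) = w i := by
        filter_upwards [hSw] with i hi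
        rw [hSe, ← pow_mul] at hi
        refine mul_left_cancel₀ (pow_ne_zero (2 * a + 1) (hα0 i)) ?_
        rw [← hi, ← mul_assoc, ← pow_add]
        congr 2
        omega
      have h5 := ((pα (2 * j - (2 * a + 1)) (by omega)).mul (tR S₁)).congr' h4
      have h6 := tendsto_nhds_unique hw h5
      rw [zero_mul] at h6
      exact hL h6

/-! ### The polynomials `vc` -/

theorem vc_zero : vc 0 = 1 := by
  unfold vc uc
  norm_num

theorem vc_one : vc 1 = X - 1 := by
  unfold vc uc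
  norm_num

theorem vc_add_two (n : ℤ) : vc (n + 2) = X * vc (n + 1) - vc n := by
  unfold vc uc
  have h1 := Polynomial.Chebyshev.S_add_two ℚ n
  have h2 := Polynomial.Chebyshev.S_add_two ℚ (n - 1)
  have e1 : n + 2 + 1 - 1 = n + 2 := by ring
  have e2 : n + 2 - 1 = n - 1 + 2 := by ring
  have e3 : n + 1 + 1 - 1 = n + 1 := by ring
  have e4 : n + 1 - 1 = n := by ring
  have e5 : n - 1 + 1 = n := by ring
  rw [e5] at h2
  rw [e1, e2, e3, e4, h1, h2]
  ring

theorem vc_eval (x : ℂ) (hx : x ≠ 0) (b : ℕ) :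
    aeval (x + x⁻¹) (vc b) * (x ^ b * (x + 1)) = x ^ (2 * b + 1) + 1 := by
  have key : ∀ b : ℕ, aeval (x + x⁻¹) (vc b) * (x ^ b * (x + 1)) = x ^ (2 * b + 1) + 1 ∧
      aeval (x + x⁻¹) (vc ((b : ℤ) + 1)) * (x ^ (b + 1) * (x + 1)) = x ^ (2 * b + 3) + 1 := by
    intro b
    induction b with
    | zero =>
      constructor
      · rw [Nat.cast_zero, vc_zero, map_one]
        ring
      · rw [Nat.cast_zero, zero_add, vc_one, map_sub, aeval_X, map_one]
        field_simp
        ring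
    | succ b ih =>
      obtain ⟨h1, h2⟩ := ih
      refine ⟨?_, ?_⟩
      · rw [Nat.cast_add, Nat.cast_one, h2]
        congr 1
      · have e : ((b + 1 : ℕ) : ℤ) + 1 = (b : ℤ) + 2 := by
          push_cast
          ring
        rw [e, vc_add_two, map_sub, map_mul, aeval_X]
        have e2 : (x + x⁻¹) * x = x ^ 2 + 1 := by
          field_simp
        have e3 : ((x + x⁻¹) * aeval (x + x⁻¹) (vc ((b : ℤ) + 1)) - aeval (x + x⁻¹) (vc b)) *
            (x ^ (b + 1 + 1) * (x + 1)) =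
            (x + x⁻¹) * x * (aeval (x + x⁻¹) (vc ((b : ℤ) + 1)) * (x ^ (b + 1) * (x + 1))) -
            x ^ 2 * (aeval (x + x⁻¹) (vc b) * (x ^ b * (x + 1))) := by
          ring
        rw [e3, h1, h2, e2]
        ring
  exact (key b).1

/-! ### Even polynomials -/

theorem even_poly (D : ℚ[X]) (hD : D.comp (-X) = D) (h0 : D ≠ 0) :
    ∃ R : ℂ[X], R.eval 0 ≠ 0 ∧ ∀ x : ℂ, x ≠ 0 →
      x ^ D.natDegree * aeval (x + x⁻¹) D = R.eval (x ^ 2) := by
  have hodd : ∀ k, ¬ 2 ∣ k → D.coeff k = 0 := by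
    intro k hk
    have h1 : (D.comp (C (-1) * X)).coeff k = D.coeff k := by
      have e : (C (-1) * X : ℚ[X]) = -X := by simp
      rw [e, hD]
    rw [comp_C_mul_X_coeff] at h1
    have h2 : (-1 : ℚ) ^ k = -1 := Odd.neg_one_pow (by rw [← Nat.not_even_iff_odd, even_iff_two_dvd]; exact hk)
    rw [h2] at h1
    linarith
  have hE : D = expand ℚ 2 (contract 2 D) := by
    ext k
    rw [coeff_expand (by norm_num)]
    split_ifs with h
    · rw [coeff_contract (by norm_num), Nat.div_mul_cancel h]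
    · exact hodd k h
  set E := contract 2 D with hEdef
  have hE0 : E ≠ 0 := by
    intro h
    rw [h, map_zero] at hE
    exact h0 hE
  set m := E.natDegree with hm
  have hn : D.natDegree = 2 * m := by
    rw [hE, natDegree_expand, mul_comm]
  refine ⟨∑ i ∈ Finset.range (m + 1), C ((E.coeff i : ℚ) : ℂ) * (X + 1) ^ (2 * i) * X ^ (m - i),
    ?_, ?_⟩
  · rw [eval_finsetSum, Finset.sum_range_succ, Finset.sum_eq_zero]
    · simp only [eval_mul, eval_C, eval_pow, eval_add, eval_X, eval_one, zero_add, one_pow, mul_one,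
        Nat.sub_self, pow_zero]
      exact Rat.cast_ne_zero.2 (leadingCoeff_ne_zero.2 hE0)
    · intro i hi
      have h1 : m - i ≠ 0 := by
        have := Finset.mem_range.1 hi
        omega
      simp only [eval_mul, eval_pow, eval_X, zero_pow h1, mul_zero]
  · intro x hx
    have h1 : aeval (x + x⁻¹) D = aeval ((x + x⁻¹) ^ 2) E := by
      conv_lhs => rw [hE]
      rw [expand_aeval]
    rw [h1, hn, aeval_eq_sum_range, eval_finsetSum, Finset.mul_sum]
    refine Finset.sum_congr rfl fun i hi => ?_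
    have hi' : i ≤ m := by
      have := Finset.mem_range.1 hi
      omega
    simp only [eval_mul, eval_C, eval_pow, eval_add, eval_X, eval_one]
    have e2 : (x + x⁻¹) * x = x ^ 2 + 1 := by
      field_simp
    have e3 : x ^ (2 * m) = x ^ (2 * i) * (x ^ 2) ^ (m - i) := by
      rw [← pow_mul, ← pow_add]
      congr 1
      omega
    rw [e3, Algebra.smul_def, eq_ratCast, ← e2, mul_pow, ← pow_mul (x + x⁻¹) 2 i]
    ring

/-! ### The choice of `β` -/

theorem exists_beta (ω : ℂ) : ∃ β : ℂ, β ≠ 0 ∧ ‖β‖ ≤ 1 ∧ β + β⁻¹ = ω := by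
  obtain ⟨s, hs⟩ := IsAlgClosed.exists_eq_mul_self (ω ^ 2 - 4)
  have h1 : (ω + s) / 2 * ((ω - s) / 2) = 1 := by
    linear_combination (1 / 4 : ℂ) * hs
  have h2 : (ω + s) / 2 ≠ 0 := left_ne_zero_of_mul_eq_one h1
  have h3 : ((ω + s) / 2)⁻¹ = (ω - s) / 2 := inv_eq_of_mul_eq_one_right h1
  rcases le_total ‖(ω + s) / 2‖ 1 with h | h
  · refine ⟨_, h2, h, ?_⟩
    rw [h3]
    ring
  · refine ⟨((ω + s) / 2)⁻¹, inv_ne_zero h2, ?_, ?_⟩
    · rw [norm_inv]
      exact inv_le_one_of_one_le₀ h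
    · rw [inv_inv, h3]
      ring

end Pool.Agent.WD3.FNSx

namespace Pool.Agent.WD3

open FNSx

theorem t_FNS : FNS_Stmt := by
  intro a b D D' ha hab hD hD' hdeg hω
  obtain ⟨a', rfl⟩ : ∃ a', a = a' + 1 := ⟨a - 1, by omega⟩
  obtain ⟨c, rfl⟩ : ∃ c, b = a' + c + 1 := ⟨b - a' - 1, by omega⟩
  have hc : 0 < c := by omega
  have hD0 : D ≠ 0 := by
    rintro rfl
    simp at hdeg
  -- the real sequence
  let z : ℕ → ℝ := fun k => ((k : ℝ) + 1)⁻¹ + ((k : ℝ) + 1)
  choose ω hω1 hω2 using fun k => hω (z k)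
  choose β hβ0 hβ1 hβ using fun k => exists_beta (ω k)
  let α : ℕ → ℂ := fun k => ((k : ℂ) + 1)⁻¹
  have hα0 : ∀ k, α k ≠ 0 := fun k => inv_ne_zero (Nat.cast_add_one_ne_zero k)
  have hz : ∀ k, ((z k : ℝ) : ℂ) = α k + (α k)⁻¹ := by
    intro k
    show ((((k : ℝ) + 1)⁻¹ + ((k : ℝ) + 1) : ℝ) : ℂ) = ((k : ℂ) + 1)⁻¹ + (((k : ℂ) + 1)⁻¹)⁻¹
    push_cast
    rw [inv_inv]
  have hα : Tendsto α atTop (𝓝 0) := by
    have := tendsto_one_div_add_atTop_nhds_zero_nat (𝕜 := ℂ)
    simpa [α, one_div] using this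
  -- large values
  have hzn : Tendsto (fun k => ‖((z k : ℝ) : ℂ)‖) atTop atTop := by
    refine tendsto_atTop_mono ?_ tendsto_natCast_atTop_atTop
    intro k
    have h1 : (0 : ℝ) < ((k : ℝ) + 1)⁻¹ := by positivity
    have h2 : (k : ℝ) ≤ z k := by
      show (k : ℝ) ≤ ((k : ℝ) + 1)⁻¹ + ((k : ℝ) + 1)
      linarith
    rw [Complex.norm_real]
    exact h2.trans (Real.le_norm_self _)
  have hDn : Tendsto (fun k => ‖aeval ((z k : ℝ) : ℂ) D‖) atTop atTop := by
    have h1 : 0 < (D.map (algebraMap ℚ ℂ)).degree := by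
      rw [degree_map]
      exact natDegree_pos_iff_degree_pos.1 hdeg
    have h2 := tendsto_norm_atTop (D.map (algebraMap ℚ ℂ)) h1 hzn
    simpa [eval_map, aeval_def] using h2
  have hD'0 : D' ≠ 0 := by
    rintro rfl
    have h1 : ∀ k, ‖aeval ((z k : ℝ) : ℂ) D‖ = 0 := fun k => by rw [hω1 k, map_zero, norm_zero]
    have h2 : Tendsto (fun _ : ℕ => (0 : ℝ)) atTop atTop := hDn.congr h1
    exact not_tendsto_const_atTop _ _ h2
  obtain ⟨R, hR, hRe⟩ := even_poly D hD hD0
  obtain ⟨R', hR', hRe'⟩ := even_poly D' hD' hD'0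
  have hR'b : ∃ M : ℝ, 0 < M ∧ ∀ t : ℂ, ‖t‖ ≤ 1 → ‖R'.eval t‖ ≤ M := by
    obtain ⟨M, hM⟩ := (isCompact_closedBall (0 : ℂ) 1).exists_bound_of_continuousOn
      R'.continuous.continuousOn
    refine ⟨max M 1, lt_max_of_lt_right one_pos, fun t ht => (hM t ?_).trans (le_max_left _ _)⟩
    rw [Metric.mem_closedBall, dist_zero_right]
    exact ht
  obtain ⟨M, hM0, hM⟩ := hR'b
  have hbd : ∀ k, ‖β k‖ ^ D'.natDegree * ‖aeval ((z k : ℝ) : ℂ) D‖ ≤ M := by
    intro k
    rw [hω1 k, ← norm_pow, ← norm_mul]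
    have h1 := hRe' (β k) (hβ0 k)
    rw [hβ k] at h1
    rw [h1]
    refine hM _ ?_
    rw [norm_pow]
    exact pow_le_one₀ (norm_nonneg _) (hβ1 k)
  have hn' : 0 < D'.natDegree := by
    rcases Nat.eq_zero_or_pos D'.natDegree with h | h
    · exfalso
      obtain ⟨k, hk⟩ := (hDn.eventually_gt_atTop M).exists
      have := hbd k
      rw [h, pow_zero, one_mul] at this
      linarith
    · exact h
  have hβt : Tendsto β atTop (𝓝 0) := by
    rw [Metric.tendsto_atTop']
    intro ε hε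
    have h1 := hDn.eventually_gt_atTop (M / ε ^ D'.natDegree)
    obtain ⟨K, hK⟩ := Filter.eventually_atTop.1 h1
    refine ⟨K, fun k hk => ?_⟩
    rw [dist_zero_right]
    by_contra hcon
    rw [not_lt] at hcon
    have h2 := hK k (le_of_lt hk)
    rw [div_lt_iff₀ (pow_pos hε _)] at h2
    have h3 : ‖aeval ((z k : ℝ) : ℂ) D‖ * ε ^ D'.natDegree ≤ M := by
      refine le_trans ?_ (hbd k)
      rw [mul_comm]
      exact mul_le_mul_of_nonneg_right (pow_le_pow_left₀ hε.le hcon _) (norm_nonneg _)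
    linarith
  -- the two relations
  refine core α β hα hβt hα0 a' c D.natDegree D'.natDegree hc hdeg R R' hR hR' ?_ ?_
  · intro k
    have e := hω2 k
    have c1 : (((a' + 1 : ℕ) : ℤ) - 1) = (a' : ℤ) := by push_cast; ring
    have c2 : (((a' + c + 1 : ℕ) : ℤ) - 1) = ((a' + c : ℕ) : ℤ) := by push_cast; ring
    rw [c1, c2, hz k, ← hβ k] at e
    have v1 := vc_eval (α k) (hα0 k) (a' + 1)
    have v2 := vc_eval (α k) (hα0 k) a'
    have v3 := vc_eval (β k) (hβ0 k) (a' + c + 1)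
    have v4 := vc_eval (β k) (hβ0 k) (a' + c)
    have w1 : 2 * (a' + 1) + 1 = 2 * a' + 3 := by ring
    have w2 : 2 * (a' + c + 1) + 1 = 2 * (a' + c) + 3 := by ring
    rw [w1] at v1
    rw [w2] at v3
    rw [← v1, ← v2, ← v3, ← v4]
    linear_combination (α k ^ (a' + 1) * (α k + 1) * (β k ^ (a' + c + 1) * (β k + 1))) * e
  · intro k
    have e := hω1 k
    rw [hz k, ← hβ k] at e
    have v1 := hRe (α k) (hα0 k)
    have v2 := hRe' (β k) (hβ0 k)
    rw [← v1, ← v2, e]
    ring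

end Pool.Agent.WD3
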