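import Pool.Agent.WD3.StH

/-!
# Generalised doubles: FTA, the leading term of the coefficients of `t` twists
-/

set_option autoImplicit false

namespace Pool.Agent.WD3.FTA

open Pool.Agent.LibH11 Pool.Agent.IT Pool.Agent.GK Pool.Agent.TwoBr Pool.Agent.WD Pool.Agent.WD2
open Pool.Agent.WD3
open scoped BigOperators
open PowerSeries

/-- the value of the coefficient at a polynomial in `Yf` -/
noncomputable def GG (t : ℤ) (q : Polynomial ℚ) (i : ℕ) : ℚ⟦X⟧ :=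
  FF (fun j => E (2 * j * (j + 1) * t) * Polynomial.aeval (Yf (2 * j + 1)) q) i

theorem FF_add (y z : ℕ → ℚ⟦X⟧) (i : ℕ) : FF (fun j => y j + z j) i = FF y i + FF z i := by
  unfold FF
  rw [← Finset.sum_add_distrib]
  exact Finset.sum_congr rfl fun j _ => by ring

theorem FF_mul (a : ℚ⟦X⟧) (y : ℕ → ℚ⟦X⟧) (i : ℕ) : FF (fun j => a * y j) i = a * FF y i := by
  unfold FF
  rw [Finset.mul_sum]
  exact Finset.sum_congr rfl fun j _ => by ring

theorem FF_sub (y z : ℕ → ℚ⟦X⟧) (i : ℕ) : FF (fun j => y j - z j) i = FF y i - FF z i := by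
  unfold FF
  rw [← Finset.sum_sub_distrib]
  exact Finset.sum_congr rfl fun j _ => by ring

theorem aeval_C' (y : ℚ⟦X⟧) (a : ℚ) :
    Polynomial.aeval y (Polynomial.C a) = (C a : ℚ⟦X⟧) := by
  rw [Polynomial.aeval_C]
  rfl

theorem GG_add (t : ℤ) (p q : Polynomial ℚ) (i : ℕ) :
    GG t (p + q) i = GG t p i + GG t q i := by
  unfold GG
  rw [← FF_add]
  congr 1
  funext j
  rw [map_add]
  ring

theorem GG_C_mul (t : ℤ) (a : ℚ) (q : Polynomial ℚ) (i : ℕ) :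
    GG t (Polynomial.C a * q) i = C a * GG t q i := by
  unfold GG
  rw [← FF_mul]
  congr 1
  funext j
  rw [map_mul, aeval_C']
  ring

theorem GG_C (t : ℤ) (a : ℚ) (i : ℕ) : GG t (Polynomial.C a) i = C a * FU t i := by
  have h := GG_C_mul t a 1 i
  rw [mul_one] at h
  rw [h]
  congr 1
  unfold GG FU
  congr 1
  funext j
  rw [map_one, mul_one]

theorem GG_zero (hR : REC_Stmt) (t : ℤ) (q : Polynomial ℚ) :
    GG t (Polynomial.X * q) 0 = Yf 1 * GG t q 0 := by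
  have h := (hR fun j => E (2 * j * (j + 1) * t) * Polynomial.aeval (Yf (2 * j + 1)) q).1
  unfold GG
  rw [← h]
  congr 1
  funext j
  rw [map_mul, Polynomial.aeval_X]
  ring

theorem GG_succ (hR : REC_Stmt) (t : ℤ) (q : Polynomial ℚ) (i : ℕ) :
    GG t (Polynomial.X * q) (i + 1) = Yf (2 * ((i : ℚ) + 1) + 1) * GG t q (i + 1) -
      X ^ 2 * b1 ((i : ℚ) + 1) * GG t q i := by
  have h := (hR fun j => E (2 * j * (j + 1) * t) * Polynomial.aeval (Yf (2 * j + 1)) q).2 i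
  unfold GG
  rw [← h]
  congr 1
  funext j
  rw [map_mul, Polynomial.aeval_X]
  ring

theorem Yf_eq (a : ℚ) : Yf a = X ^ 2 * c2 a := by
  rw [X_sq_mul_c2]
  rfl

theorem aeval_two (y : ℚ⟦X⟧) (p : Polynomial ℚ) :
    Polynomial.aeval (2 + y) p = Polynomial.aeval y (Polynomial.taylor 2 p) := by
  rw [Polynomial.taylor_apply, Polynomial.aeval_comp]
  congr 1
  rw [map_add, Polynomial.aeval_X, aeval_C', map_ofNat]
  ring

theorem vrl (hV : VRL_Stmt) (t : ℤ) (i : ℕ) :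
    E 1 * GG t (Polynomial.taylor 2 (uc (t + 1))) i - GG t (Polynomial.taylor 2 (uc t)) i =
      E (2 * i + 1) * (E 1 * GG t (Polynomial.taylor 2 (uc t)) i -
        GG t (Polynomial.taylor 2 (uc (t - 1))) i) := by
  have h := hV t i
  have key : ∀ p q : Polynomial ℚ,
      FF (fun j => E (2 * j * (j + 1) * t) * (E 1 * Polynomial.aeval (2 + Yf (2 * j + 1)) p -
        Polynomial.aeval (2 + Yf (2 * j + 1)) q)) i =
      E 1 * GG t (Polynomial.taylor 2 p) i - GG t (Polynomial.taylor 2 q) i := by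
    intro p q
    unfold GG
    rw [← FF_mul, ← FF_sub]
    congr 1
    funext j
    rw [aeval_two, aeval_two]
    ring
  rw [key, key] at h
  exact h

/-- the first claim of the induction -/
theorem dvd_GG (hR : REC_Stmt) (t : ℤ) (i : ℕ) (h0 : (X : ℚ⟦X⟧) ^ i ∣ FU t i)
    (h1 : ∀ l : ℕ, i = l + 1 → ∀ q : Polynomial ℚ, (X : ℚ⟦X⟧) ^ l ∣ GG t q l) :
    ∀ q : Polynomial ℚ, (X : ℚ⟦X⟧) ^ i ∣ GG t q i := by
  intro q
  induction q using Polynomial.induction_on with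
  | C a =>
    rw [GG_C]
    exact Dvd.dvd.mul_left h0 _
  | add p q hp hq =>
    rw [GG_add]
    exact dvd_add hp hq
  | monomial n a ih =>
    have h2 : (Polynomial.C a * Polynomial.X ^ (n + 1) : Polynomial ℚ) =
        Polynomial.X * (Polynomial.C a * Polynomial.X ^ n) := by ring
    rw [h2]
    cases i with
    | zero =>
      rw [pow_zero]
      exact one_dvd _
    | succ l =>
      rw [GG_succ hR]
      refine dvd_sub (Dvd.dvd.mul_left ih _) ?_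
      obtain ⟨r, hr⟩ := h1 l rfl (Polynomial.C a * Polynomial.X ^ n)
      rw [hr]
      exact ⟨X * b1 ((l : ℚ) + 1) * r, by ring⟩

/-- `GG t q i` up to a multiple of `FU t i` -/
theorem split_GG (hR : REC_Stmt) (t : ℤ) (i : ℕ)
    (h1 : ∀ q : Polynomial ℚ, (X : ℚ⟦X⟧) ^ i ∣ GG t q i) (q : Polynomial ℚ) :
    ∃ u v : ℚ⟦X⟧, GG t q (i + 1) = u * FU t (i + 1) + X ^ (i + 1) * v := by
  induction q using Polynomial.induction_on with
  | C a => exact ⟨C a, 0, by rw [GG_C]; ring⟩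
  | add p q hp hq =>
    obtain ⟨u, v, hp⟩ := hp
    obtain ⟨u', v', hq⟩ := hq
    exact ⟨u + u', v + v', by rw [GG_add, hp, hq]; ring⟩
  | monomial n a ih =>
    have h2 : (Polynomial.C a * Polynomial.X ^ (n + 1) : Polynomial ℚ) =
        Polynomial.X * (Polynomial.C a * Polynomial.X ^ n) := by ring
    obtain ⟨u, v, h⟩ := ih
    obtain ⟨r, hr⟩ := h1 (Polynomial.C a * Polynomial.X ^ n)
    refine ⟨Yf (2 * ((i : ℚ) + 1) + 1) * u, Yf (2 * ((i : ℚ) + 1) + 1) * v -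
      X * b1 ((i : ℚ) + 1) * r, ?_⟩
    rw [h2, GG_succ hR, h, hr]
    ring

theorem dvd_GG_X (hR : REC_Stmt) (t : ℤ) (i : ℕ)
    (h0 : ∀ q : Polynomial ℚ, (X : ℚ⟦X⟧) ^ i ∣ GG t q i)
    (h1 : ∀ l : ℕ, i = l + 1 → ∀ q : Polynomial ℚ, (X : ℚ⟦X⟧) ^ l ∣ GG t q l)
    (q : Polynomial ℚ) : (X : ℚ⟦X⟧) ^ (i + 1) ∣ GG t (Polynomial.X * q) i := by
  cases i with
  | zero =>
    rw [GG_zero hR, Yf_eq]
    exact ⟨X * c2 1 * GG t q 0, by ring⟩
  | succ l =>
    rw [GG_succ hR, Yf_eq]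
    obtain ⟨r, hr⟩ := h0 q
    obtain ⟨s, hs⟩ := h1 l rfl q
    rw [hr, hs]
    exact ⟨X * c2 (2 * ((l : ℚ) + 1) + 1) * r - b1 ((l : ℚ) + 1) * s, by ring⟩

theorem expand_GG (hR : REC_Stmt) (t : ℤ) (i : ℕ)
    (h0 : ∀ q : Polynomial ℚ, (X : ℚ⟦X⟧) ^ i ∣ GG t q i)
    (h1 : ∀ q : Polynomial ℚ, (X : ℚ⟦X⟧) ^ (i + 1) ∣ GG t (Polynomial.X * q) i)
    (q : Polynomial ℚ) :
    ∃ u v : ℚ⟦X⟧, GG t q (i + 1) = (C (q.coeff 0) + X ^ 2 * u) * FU t (i + 1) -
      C (q.coeff 1) * (X ^ 2 * b1 ((i : ℚ) + 1) * FU t i) + X ^ (i + 3) * v := by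
  set r : Polynomial ℚ := q.divX with hr
  set q2 : Polynomial ℚ := r.divX with hq2
  have e1 : q = Polynomial.C (q.coeff 0) + Polynomial.X * r := by
    conv_lhs => rw [← Polynomial.divX_mul_X_add q]
    rw [hr]
    ring
  have e2 : r = Polynomial.C (q.coeff 1) + Polynomial.X * q2 := by
    conv_lhs => rw [← Polynomial.divX_mul_X_add r]
    rw [hq2, hr, Polynomial.coeff_divX]
    ring
  have a1 : GG t q (i + 1) = C (q.coeff 0) * FU t (i + 1) + GG t (Polynomial.X * r) (i + 1) := by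
    conv_lhs => rw [e1]
    rw [GG_add, GG_C]
  have a2 : ∀ l : ℕ, GG t r l = C (q.coeff 1) * FU t l + GG t (Polynomial.X * q2) l := by
    intro l
    conv_lhs => rw [e2]
    rw [GG_add, GG_C]
  obtain ⟨u, v, h⟩ := split_GG hR t i h0 q2
  obtain ⟨w, hw⟩ := h0 q2
  obtain ⟨s, hs⟩ := h1 q2
  refine ⟨C (q.coeff 1) * c2 (2 * ((i : ℚ) + 1) + 1) + X ^ 2 * c2 (2 * ((i : ℚ) + 1) + 1) ^ 2 * u,
    X ^ 2 * c2 (2 * ((i : ℚ) + 1) + 1) ^ 2 * v -
      X * c2 (2 * ((i : ℚ) + 1) + 1) * (b1 ((i : ℚ) + 1) * w) - b1 ((i : ℚ) + 1) * s, ?_⟩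
  rw [a1, GG_succ hR, a2, a2, hs, GG_succ hR t q2 i, h, hw, Yf_eq]
  ring

theorem E_expand (a : ℚ) : ∃ e : ℚ⟦X⟧, E a = 1 + C a * X + X ^ 2 * e := by
  refine ⟨PowerSeries.mk fun n => a ^ (n + 2) / ((n + 2).factorial : ℚ), ?_⟩
  ext n
  rw [mul_comm (X ^ 2)]
  match n with
  | 0 => simp [E, coeff_mul_X_pow']
  | 1 => simp [E, coeff_mul_X_pow', coeff_one]
  | n + 2 =>
    rw [map_add, map_add, coeff_mul_X_pow, coeff_one, if_neg (by omega)]
    rw [show n + 2 = (n + 1) + 1 by ring, coeff_succ_mul_X, coeff_C, if_neg (by omega)]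
    simp [E]

theorem coeff_zero_uc (b : ℤ) : (Polynomial.taylor 2 (uc b)).coeff 0 = (b : ℚ) := by
  rw [Polynomial.taylor_coeff_zero, uc, Polynomial.Chebyshev.S_eval_two]
  push_cast
  ring

theorem coeff_one_uc (b : ℤ) : (Polynomial.taylor 2 (uc (b + 1))).coeff 1 =
    b + 2 * (Polynomial.taylor 2 (uc b)).coeff 1 - (Polynomial.taylor 2 (uc (b - 1))).coeff 1 := by
  have h : uc (b + 1) = Polynomial.X * uc b - uc (b - 1) := by
    unfold uc
    have h1 := Polynomial.Chebyshev.S_add_one ℚ (b - 1)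
    rw [show b - 1 + 1 = b by ring] at h1
    rw [show b + 1 - 1 = b by ring]
    exact h1
  have h2 := coeff_zero_uc b
  rw [Polynomial.taylor_coeff_zero] at h2
  rw [Polynomial.taylor_coeff_one, Polynomial.taylor_coeff_one, Polynomial.taylor_coeff_one, h]
  simp only [Polynomial.derivative_sub, Polynomial.derivative_mul, Polynomial.derivative_X,
    Polynomial.eval_sub, Polynomial.eval_add, Polynomial.eval_mul, Polynomial.eval_X, one_mul, h2]

theorem step (hR : REC_Stmt) (hV : VRL_Stmt) (t : ℤ) (i : ℕ)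
    (h0 : ∀ q : Polynomial ℚ, (X : ℚ⟦X⟧) ^ i ∣ GG t q i)
    (h1 : ∀ q : Polynomial ℚ, (X : ℚ⟦X⟧) ^ (i + 1) ∣ GG t (Polynomial.X * q) i)
    (A : ℚ⟦X⟧) (hA : FU t i = X ^ i * A) (hA0 : constantCoeff A = (-(t : ℚ)) ^ i) :
    ∃ B : ℚ⟦X⟧, FU t (i + 1) = X ^ (i + 1) * B ∧ constantCoeff B = (-(t : ℚ)) ^ (i + 1) := by
  obtain ⟨u1, v1, g1⟩ := expand_GG hR t i h0 h1 (Polynomial.taylor 2 (uc (t + 1)))
  obtain ⟨u2, v2, g2⟩ := expand_GG hR t i h0 h1 (Polynomial.taylor 2 (uc t))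
  obtain ⟨u3, v3, g3⟩ := expand_GG hR t i h0 h1 (Polynomial.taylor 2 (uc (t - 1)))
  have hv := vrl hV t (i + 1)
  rw [g1, g2, g3] at hv
  rw [coeff_zero_uc, coeff_zero_uc, coeff_zero_uc] at hv
  set c0 : ℚ := (Polynomial.taylor 2 (uc (t - 1))).coeff 1 with hc0
  set c1 : ℚ := (Polynomial.taylor 2 (uc t)).coeff 1 with hc1
  have hc : (Polynomial.taylor 2 (uc (t + 1))).coeff 1 = t + 2 * c1 - c0 := coeff_one_uc t
  rw [hc] at hv
  obtain ⟨e1, he1⟩ := E_expand 1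
  obtain ⟨e2, he2⟩ := E_expand (2 * ((i + 1 : ℕ) : ℚ) + 1)
  set E1 := E 1 with hE1
  set E2 := E (2 * ((i + 1 : ℕ) : ℚ) + 1) with hE2
  set T : ℚ⟦X⟧ := C (t : ℚ) with hT
  set I : ℚ⟦X⟧ := C (i : ℚ) with hI
  have k1 : (C (((t + 1 : ℤ)) : ℚ) : ℚ⟦X⟧) = T + 1 := by
    push_cast
    rw [map_add, map_one]
  have k2 : (C (((t - 1 : ℤ)) : ℚ) : ℚ⟦X⟧) = T - 1 := by
    push_cast
    rw [map_sub, map_one]
  have k3 : (C (2 * ((i + 1 : ℕ) : ℚ) + 1) : ℚ⟦X⟧) = 2 * I + 3 := by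
    push_cast
    rw [map_add, map_mul, map_add, map_one, map_ofNat]
    ring
  have k4 : (C ((t : ℚ) + 2 * c1 - c0) : ℚ⟦X⟧) = T + 2 * C c1 - C c0 := by
    rw [map_sub, map_add, map_mul, map_ofNat]
  rw [k1, k2, k4] at hv
  rw [k3] at he2
  rw [map_one, one_mul] at he1
  -- the left factor
  let al : ℚ⟦X⟧ := (T + 1) * e1 + u1 + X * u1 + X ^ 2 * e1 * u1
  let be : ℚ⟦X⟧ := T * e1 + u2 + X * u2 + X ^ 2 * e1 * u2
  let ga : ℚ⟦X⟧ := be - u3
  let W : ℚ⟦X⟧ := -2 * (I + 1) + X * (al - u2 - (ga + (2 * I + 3) * T + (2 * I + 3) * ga * X +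
    e2 * (1 + T * X + X ^ 2 * ga)))
  let K : ℚ⟦X⟧ := E1 * (T + 2 * C c1 - C c0) - C c1 - E2 * (E1 * C c1 - C c0)
  let V : ℚ⟦X⟧ := -(E1 * v1 - v2 - E2 * (E1 * v2 - v3))
  have hW : X * W = E1 * (T + 1 + X ^ 2 * u1) - (T + X ^ 2 * u2) -
      E2 * (E1 * (T + X ^ 2 * u2) - (T - 1 + X ^ 2 * u3)) := by
    rw [he1, he2]
    simp only [W, al, be, ga]
    ring
  have hmain : X * (W * FU t (i + 1)) = X * (X ^ (i + 1) * (K * b1 ((i : ℚ) + 1) * A + X * V)) := by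
    have h2 : X * W * FU t (i + 1) = K * (X ^ 2 * b1 ((i : ℚ) + 1) * FU t i) + X ^ (i + 3) * V := by
      rw [hW]
      simp only [K, V]
      linear_combination hv
    rw [← mul_assoc, h2, hA]
    ring
  have hmain2 := mul_left_cancel₀ (PowerSeries.X_ne_zero) hmain
  have hW0 : constantCoeff W = -2 * ((i : ℚ) + 1) := by
    simp only [W, map_add, map_mul, map_neg, map_ofNat, map_one, hI, constantCoeff_C,
      constantCoeff_X, zero_mul, add_zero]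
  have hW1 : constantCoeff W ≠ 0 := by
    rw [hW0]
    have : (0 : ℚ) < (i : ℚ) + 1 := by positivity
    intro h
    linarith
  have hE0 : ∀ a : ℚ, constantCoeff (E a) = 1 := by
    intro a
    rw [← coeff_zero_eq_constantCoeff_apply]
    simp [E]
  have hK0 : constantCoeff K = t := by
    simp only [K, hE1, hE2, hT, map_add, map_sub, map_mul, map_ofNat, constantCoeff_C, hE0]
    ring
  refine ⟨W⁻¹ * (K * b1 ((i : ℚ) + 1) * A + X * V), ?_, ?_⟩
  · have h3 : W⁻¹ * (W * FU t (i + 1)) = FU t (i + 1) := by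
      rw [← mul_assoc, PowerSeries.inv_mul_cancel _ hW1, one_mul]
    rw [← h3, hmain2]
    ring
  · rw [map_mul, map_add, map_mul, map_mul, map_mul, PowerSeries.constantCoeff_inv, hW0, hK0,
      constantCoeff_b1, hA0, constantCoeff_X, zero_mul, add_zero]
    have h4 : (-2 * ((i : ℚ) + 1)) ≠ 0 := by rw [← hW0]; exact hW1
    rw [inv_mul_eq_iff_eq_mul₀ h4]
    ring

theorem all (hS : SG0_Stmt) (hR : REC_Stmt) (hV : VRL_Stmt) (t : ℤ) (i : ℕ) :
    (∀ q : Polynomial ℚ, (X : ℚ⟦X⟧) ^ i ∣ GG t q i) ∧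
    (∀ q : Polynomial ℚ, (X : ℚ⟦X⟧) ^ (i + 1) ∣ GG t (Polynomial.X * q) i) ∧
    ∃ A : ℚ⟦X⟧, FU t i = X ^ i * A ∧ constantCoeff A = (-(t : ℚ)) ^ i := by
  induction i with
  | zero =>
    have h0 : ∀ q : Polynomial ℚ, (X : ℚ⟦X⟧) ^ 0 ∣ GG t q 0 := fun q => by
      rw [pow_zero]
      exact one_dvd _
    refine ⟨h0, dvd_GG_X hR t 0 h0 (fun l hl => by omega), 1, ?_, by simp⟩
    unfold FU FF
    simp [hS.1, E]
    ext n
    cases n with
    | zero => simp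
    | succ n => simp [coeff_one]
  | succ i ih =>
    obtain ⟨h0, h1, A, hA, hA0⟩ := ih
    obtain ⟨B, hB, hB0⟩ := step hR hV t i h0 h1 A hA hA0
    have h0' : ∀ q : Polynomial ℚ, (X : ℚ⟦X⟧) ^ (i + 1) ∣ GG t q (i + 1) :=
      dvd_GG hR t (i + 1) (hB ▸ Dvd.intro _ rfl) (fun l hl => by
        obtain rfl : i = l := by omega
        exact h0)
    refine ⟨h0', dvd_GG_X hR t (i + 1) h0' (fun l hl => by
        obtain rfl : i = l := by omega
        exact h0), B, hB, hB0⟩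

end Pool.Agent.WD3.FTA

namespace Pool.Agent.WD3

open Pool.Agent.WD2

/-- **FTA**: the leading term of the coefficients of `t` twists. -/
theorem t_FTA (hS : SG0_Stmt) (hR : REC_Stmt) (hV : VRL_Stmt) : FTA_Stmt :=
  fun t i => (FTA.all hS hR hV t i).2.2

end Pool.Agent.WD3
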