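import Pool.Agent.WD3.StH
import Pool.Agent.WD3.StI

/-!
# Generalised doubles: FTA from FUN
-/

set_option autoImplicit false

namespace Pool.Agent.WD3

open PowerSeries

/-- **FTA** from `FUN`. -/
theorem t_FTA2 (hF : FUN_Stmt) : FTA_Stmt := by
  intro t i
  obtain ⟨⟨A, hA⟩, h⟩ := hF t i
  refine ⟨A, hA, ?_⟩
  rw [hA, mul_comm] at h
  have h2 := coeff_mul_X_pow A i 0
  rw [zero_add] at h2
  rw [h2] at h
  rw [← coeff_zero_eq_constantCoeff_apply]
  exact h

end Pool.Agent.WD3
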