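import Pool.Agent.WD3.StI

/-!
# Generalised doubles: the first coefficients of `FU k 1`
-/

set_option autoImplicit false

namespace Pool.Agent.WD3

open Pool.Agent.LibH11 Pool.Agent.IT Pool.Agent.GK Pool.Agent.TwoBr Pool.Agent.WD Pool.Agent.WD2
open scoped BigOperators
open PowerSeries

namespace FU1

theorem E0 : E 0 = 1 := by
  ext n
  rw [E, coeff_mk, coeff_one]
  by_cases h : n = 0
  · subst h
    simp
  · rw [if_neg h, zero_pow h, zero_div]

theorem coE (t : ℚ) (n : ℕ) : coeff n (E t) = t ^ n / (n.factorial : ℚ) := by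
  rw [E, coeff_mk]

/-- the form of `FU k 1` -/
theorem form (hS : SG0_Stmt) (k : ℤ) : FU k 1 = gC 1 1 * (E (4 * k) - 1) := by
  have h1 := hS.2 1 le_rfl
  rw [Finset.sum_range_succ, Finset.sum_range_one] at h1
  rw [FU, FF, Finset.sum_range_succ, Finset.sum_range_one]
  have h2 : (2 * ((0 : ℕ) : ℚ) * (((0 : ℕ) : ℚ) + 1) * (k : ℚ)) = 0 := by simp
  have h3 : (2 * ((1 : ℕ) : ℚ) * (((1 : ℕ) : ℚ) + 1) * (k : ℚ)) = 4 * (k : ℚ) := by
    push_cast
    ring
  rw [h2, h3, E0]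
  have h4 : gC 1 0 = - gC 1 1 := eq_neg_of_add_eq_zero_left h1
  rw [h4]
  ring

theorem coM (f g : ℚ⟦X⟧) (n : ℕ) : coeff n (f * g) =
    ∑ i ∈ Finset.range (n + 1), coeff i f * coeff (n - i) g := by
  rw [coeff_mul, Finset.Nat.sum_antidiagonal_eq_sum_range_succ fun i j => coeff i f * coeff j g]

theorem coD (t : ℚ) : coeff 0 (E t - 1) = 0 ∧ coeff 1 (E t - 1) = t ∧
    coeff 2 (E t - 1) = t ^ 2 / 2 ∧ coeff 3 (E t - 1) = t ^ 3 / 6 := by
  refine ⟨?_, ?_, ?_, ?_⟩
  · rw [map_sub, coE, coeff_one]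
    simp
  · rw [map_sub, coE, coeff_one]
    simp
  · rw [map_sub, coE, coeff_one, if_neg (by norm_num)]
    norm_num [Nat.factorial]
  · rw [map_sub, coE, coeff_one, if_neg (by norm_num)]
    norm_num [Nat.factorial]

end FU1

open FU1 in
theorem t_FU1 (hS : SG0_Stmt) (hG : GCV_Stmt) : FU1_Stmt := by
  intro k
  obtain ⟨⟨g0, g1, g2⟩, -⟩ := hG
  obtain ⟨e0, e1, e2, e3⟩ := coD (4 * (k : ℚ))
  rw [form hS]
  refine ⟨?_, ?_, ?_, ?_⟩
  · rw [coM, Finset.sum_range_one, e0, mul_zero]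
  · rw [coM, Finset.sum_range_succ, Finset.sum_range_one, g0, g1]
    simp only [Nat.sub_zero, Nat.sub_self]
    rw [e1, e0]
    ring
  · rw [coM, Finset.sum_range_succ, Finset.sum_range_succ, Finset.sum_range_one, g0, g1, g2]
    simp only [Nat.sub_zero, Nat.sub_self, Nat.reduceSub]
    rw [e2, e1, e0]
    ring
  · rw [coM, Finset.sum_range_succ, Finset.sum_range_succ, Finset.sum_range_succ,
      Finset.sum_range_one, g0, g1, g2]
    simp only [Nat.sub_zero, Nat.sub_self, Nat.reduceSub]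
    rw [e3, e2, e1, e0]
    ring

end Pool.Agent.WD3
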