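import Pool.Agent.WD3.StI

/-!
# WI_FUN: the coefficients of `k` full twists
-/

set_option autoImplicit false

namespace Pool.Agent.WD3

open Pool.Agent.LibH11 Pool.Agent.IT Pool.Agent.GK Pool.Agent.TwoBr Pool.Agent.WD Pool.Agent.WD2
open scoped BigOperators
open PowerSeries

theorem t_FUN (hSJM : SJM_Stmt) (hDIV : DIV_Stmt) : FUN_Stmt := by
  intro k i
  have h1 := hSJM.2.1 (k : ℚ)
  obtain ⟨h2, h3⟩ := hDIV _ _ h1 i
  refine ⟨h2, ?_⟩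
  have h4 : coeff i (E (2 * (k : ℚ))) = (2 * (k : ℚ)) ^ i / (i.factorial : ℚ) := coeff_mk _ _
  have h5 : (i.factorial : ℚ) ≠ 0 := Nat.cast_ne_zero.mpr (Nat.factorial_ne_zero i)
  have h6 : coeff i (FU k i) = (-1 / 2) ^ i * (i.factorial : ℚ) * coeff i (E (2 * (k : ℚ))) := h3
  have h7 : (-1 / 2 : ℚ) ^ i * (i.factorial : ℚ) * ((2 * (k : ℚ)) ^ i / (i.factorial : ℚ)) =
      (-1 / 2 : ℚ) ^ i * (2 * (k : ℚ)) ^ i := by
    rw [mul_assoc, mul_div_cancel₀ _ h5]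
  rw [h6, h4, h7, ← mul_pow]
  congr 1
  ring

end Pool.Agent.WD3
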