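import Pool.Agent.WD3.StH
import Pool.Agent.IT.QEser
import Pool.Agent.IT.QEvb

/-!
# GRD: the leading term of a graph knot is the inverse of a polynomial
-/

set_option autoImplicit false

namespace Pool.Agent.WD3

open Pool.Agent.LibH11 Pool.Agent.IT Pool.Agent.GK Pool.Agent.TwoBr Pool.Agent.WD Pool.Agent.WD2
open scoped BigOperators
open PowerSeries

namespace GRD

/-- `E a - E (-a)` -/
noncomputable def sE (a : ℚ) : ℚ⟦X⟧ := E a - E (-a)

theorem sE_neg (a : ℚ) : sE (-a) = -sE a := by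
  unfold sE
  rw [neg_neg]
  ring

theorem sE_ne {a : ℚ} (ha : a ≠ 0) : sE a ≠ 0 := by
  intro h
  have h1 : coeff 1 (sE a) = 2 * a := by
    unfold sE
    rw [map_sub]
    simp [E]
    ring
  rw [h, map_zero] at h1
  exact ha (by linarith)

theorem u_eq : 2 + Yf 1 = E 1 + E (-1) := by
  unfold Yf
  ring

theorem prodE (a b : ℚ) : E a * E b = E (a + b) := (ESER.E_add a b).symm

/-- `uc` at `E 1 + E (-1)` -/
theorem uc_u (n : ℕ) : sE 1 * Polynomial.aeval (E 1 + E (-1)) (uc n) = sE n := by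
  induction n using Nat.twoStepInduction with
  | zero =>
    have h1 : uc ((0 : ℕ) : ℤ) = 0 := by
      unfold uc
      rw [Nat.cast_zero, zero_sub, Polynomial.Chebyshev.S_neg_one]
    rw [h1, map_zero, mul_zero]
    unfold sE
    rw [Nat.cast_zero, neg_zero, sub_self]
  | one =>
    have h1 : uc ((1 : ℕ) : ℤ) = 1 := by
      unfold uc
      rw [Nat.cast_one, sub_self, Polynomial.Chebyshev.S_zero]
    rw [h1, map_one, mul_one, Nat.cast_one]
  | more n ih1 ih2 =>
    have h1 : uc ((n + 2 : ℕ) : ℤ) = Polynomial.X * uc ((n + 1 : ℕ) : ℤ) - uc ((n : ℕ) : ℤ) := by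
      unfold uc
      have h2 := Polynomial.Chebyshev.S_add_two ℚ ((n : ℤ) - 1)
      have e1 : (((n + 2 : ℕ) : ℤ) - 1) = (n : ℤ) - 1 + 2 := by push_cast; ring
      have e2 : (((n + 1 : ℕ) : ℤ) - 1) = (n : ℤ) - 1 + 1 := by push_cast; ring
      rw [e1, e2]
      exact h2
    rw [h1, map_sub, map_mul, Polynomial.aeval_X, mul_sub, ih1]
    have h3 : sE 1 * ((E 1 + E (-1)) *
        (Polynomial.aeval (E 1 + E (-1))) (uc ((n + 1 : ℕ) : ℤ))) =
        (E 1 + E (-1)) * sE ((n + 1 : ℕ) : ℚ) := by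
      rw [← ih2]
      ring
    rw [h3]
    unfold sE
    have a1 : E 1 * E (((n + 1 : ℕ) : ℚ)) = E (((n + 2 : ℕ) : ℚ)) := by
      rw [prodE]
      congr 1
      push_cast
      ring
    have a2 : E (-1) * E (((n + 1 : ℕ) : ℚ)) = E (n : ℚ) := by
      rw [prodE]
      congr 1
      push_cast
      ring
    have a3 : E 1 * E (-((n + 1 : ℕ) : ℚ)) = E (-(n : ℚ)) := by
      rw [prodE]
      congr 1
      push_cast
      ring
    have a4 : E (-1) * E (-((n + 1 : ℕ) : ℚ)) = E (-((n + 2 : ℕ) : ℚ)) := by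
      rw [prodE]
      congr 1
      push_cast
      ring
    linear_combination a1 + a2 - a3 - a4

/-- `C n` at `E 1 + E (-1)` -/
theorem C_u (n : ℕ) :
    Polynomial.aeval (E 1 + E (-1)) (Polynomial.Chebyshev.C ℚ (n : ℤ)) = E n + E (-n) := by
  induction n using Nat.twoStepInduction with
  | zero =>
    rw [Nat.cast_zero, Polynomial.Chebyshev.C_zero, Nat.cast_zero, neg_zero, ESER.E_zero,
      map_ofNat]
    norm_num
  | one =>
    rw [Nat.cast_one, Polynomial.Chebyshev.C_one, Polynomial.aeval_X, Nat.cast_one]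
  | more n ih1 ih2 =>
    have e1 : (((n + 2 : ℕ) : ℤ)) = (n : ℤ) + 2 := by push_cast; ring
    have e2 : (((n + 1 : ℕ) : ℤ)) = (n : ℤ) + 1 := by push_cast; ring
    rw [e2] at ih2
    rw [e1, Polynomial.Chebyshev.C_add_two, map_sub, map_mul, Polynomial.aeval_X, ih1, ih2]
    have a1 : E 1 * E (((n + 1 : ℕ) : ℚ)) = E (((n + 2 : ℕ) : ℚ)) := by
      rw [prodE]
      congr 1
      push_cast
      ring
    have a2 : E (-1) * E (((n + 1 : ℕ) : ℚ)) = E (n : ℚ) := by
      rw [prodE]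
      congr 1
      push_cast
      ring
    have a3 : E 1 * E (-((n + 1 : ℕ) : ℚ)) = E (-(n : ℚ)) := by
      rw [prodE]
      congr 1
      push_cast
      ring
    have a4 : E (-1) * E (-((n + 1 : ℕ) : ℚ)) = E (-((n + 2 : ℕ) : ℚ)) := by
      rw [prodE]
      congr 1
      push_cast
      ring
    linear_combination a1 + a2 + a3 + a4

theorem C_neg_X (n : ℕ) : (Polynomial.Chebyshev.C ℚ (n : ℤ)).comp (-Polynomial.X) =
    (-1) ^ n * Polynomial.Chebyshev.C ℚ (n : ℤ) := by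
  induction n using Nat.twoStepInduction with
  | zero => simp
  | one => simp
  | more n ih1 ih2 =>
    have e1 : (((n + 2 : ℕ) : ℤ)) = (n : ℤ) + 2 := by push_cast; ring
    have e2 : (((n + 1 : ℕ) : ℤ)) = (n : ℤ) + 1 := by push_cast; ring
    rw [e2] at ih2
    rw [e1, Polynomial.Chebyshev.C_add_two, Polynomial.sub_comp, Polynomial.mul_comp,
      Polynomial.X_comp, ih1, ih2]
    ring

theorem comp_even (D : Polynomial ℚ) (hD : D.comp (-Polynomial.X) = D) (p : ℕ) :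
    (D.comp (Polynomial.Chebyshev.C ℚ (p : ℤ))).comp (-Polynomial.X) =
      D.comp (Polynomial.Chebyshev.C ℚ (p : ℤ)) := by
  rw [Polynomial.comp_assoc, C_neg_X]
  rcases Nat.even_or_odd p with h | h
  · rw [h.neg_one_pow, one_mul]
  · rw [h.neg_one_pow, neg_one_mul]
    conv_rhs => rw [← hD]
    rw [Polynomial.comp_assoc, Polynomial.neg_comp, Polynomial.X_comp]

/-- dilation of a polynomial in `E 1 + E (-1)` -/
theorem dl_aeval_u (p : ℕ) (D : Polynomial ℚ) :
    dl p (Polynomial.aeval (E 1 + E (-1)) D) =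
      Polynomial.aeval (E 1 + E (-1)) (D.comp (Polynomial.Chebyshev.C ℚ (p : ℤ))) := by
  rw [Polynomial.aeval_comp, C_u, ESER.dl_eq]
  have h := Polynomial.aeval_algHom_apply ((rescale (p : ℚ)).toRatAlgHom) (E 1 + E (-1)) D
  have h2 : ((rescale (p : ℚ)).toRatAlgHom) (E 1 + E (-1)) = E p + E (-p) := by
    change rescale (p : ℚ) (E 1 + E (-1)) = _
    rw [map_add, ← ESER.dl_eq, ← ESER.dl_eq, ESER.dl_E, ESER.dl_E, one_mul, neg_one_mul]
  rw [h2] at h
  exact h.symm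

theorem dl_sE (p : ℕ) : dl p (sE 1) = sE p := by
  unfold sE
  rw [ESER.dl_eq, map_sub, ← ESER.dl_eq, ← ESER.dl_eq, ESER.dl_E, ESER.dl_E, one_mul, neg_one_mul]

/-- the step for cables -/
theorem cable (hL : LEADEQ_Stmt) (hCH : CHD_Stmt) (p : ℕ) (q : ℤ) (hp : 1 ≤ p) (hq : q ≠ 0)
    (hg : Int.gcd p q = 1) (G G' : B) (hF : FunEq p q G G') (D : Polynomial ℚ)
    (hD : D.comp (-Polynomial.X) = D)
    (h : coeff 0 G * Polynomial.aeval (2 + Yf 1) D = E 1 - E (-1)) :
    ∃ D' : Polynomial ℚ, D'.comp (-Polynomial.X) = D' ∧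
      coeff 0 G' * Polynomial.aeval (2 + Yf 1) D' = E 1 - E (-1) := by
  have hn : 1 ≤ q.natAbs := by omega
  obtain ⟨Q, hQ, hQe, -⟩ := hCH p q.natAbs hp hn hg
  refine ⟨D.comp (Polynomial.Chebyshev.C ℚ (p : ℤ)) * Q, ?_, ?_⟩
  · rw [Polynomial.mul_comp, comp_even D hD, hQe]
  rw [u_eq] at h ⊢
  have hz := (hL p q G G' hF).zero
  change coeff 0 G * _ = sE 1 at h
  change _ = sE 1
  -- (2)
  have h2 : sE ((p : ℚ) * (q.natAbs : ℚ)) * coeff 0 G' = sE (q.natAbs : ℚ) * dl p (coeff 0 G) := by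
    change sE ((p : ℚ) * (q : ℚ)) * coeff 0 G' = sE (q : ℚ) * dl p (coeff 0 G) at hz
    rcases Int.natAbs_eq q with h3 | h3
    · have h4 : (q : ℚ) = (q.natAbs : ℚ) := by
        have h5 : ((q : ℤ) : ℚ) = (((q.natAbs : ℕ) : ℤ) : ℚ) := by rw [← h3]
        rw [h5, Int.cast_natCast]
      rw [h4] at hz
      exact hz
    · have h4 : (q : ℚ) = -(q.natAbs : ℚ) := by
        have h5 : ((q : ℤ) : ℚ) = ((-((q.natAbs : ℕ) : ℤ) : ℤ) : ℚ) := by rw [← h3]
        rw [h5, Int.cast_neg, Int.cast_natCast]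
      rw [h4, mul_neg, sE_neg, sE_neg, neg_mul, neg_mul] at hz
      exact neg_injective hz
  -- (3)
  have h3 : dl p (coeff 0 G) * Polynomial.aeval (E 1 + E (-1))
      (D.comp (Polynomial.Chebyshev.C ℚ (p : ℤ))) = sE p := by
    rw [← dl_aeval_u, ← EVB.dl_mul, h, dl_sE]
  -- (1)
  have h1 : sE ((p : ℚ) * (q.natAbs : ℚ)) * sE 1 =
      sE p * sE (q.natAbs : ℚ) * Polynomial.aeval (E 1 + E (-1)) Q := by
    have e : ((p : ℤ) * ((q.natAbs : ℕ) : ℤ)) = ((p * q.natAbs : ℕ) : ℤ) := by push_cast; ring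
    rw [e] at hQ
    have h5 := uc_u (p * q.natAbs)
    rw [hQ, map_mul, map_mul] at h5
    have e2 : ((p * q.natAbs : ℕ) : ℚ) = (p : ℚ) * (q.natAbs : ℚ) := by push_cast; ring
    rw [e2] at h5
    rw [← h5, ← uc_u p, ← uc_u q.natAbs]
    ring
  have hne : sE ((p : ℚ) * (q.natAbs : ℚ)) ≠ 0 := by
    apply sE_ne
    have a : (p : ℚ) ≠ 0 := by exact_mod_cast (by omega : p ≠ 0)
    have b : (q.natAbs : ℚ) ≠ 0 := by exact_mod_cast (by omega : q.natAbs ≠ 0)
    exact mul_ne_zero a b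
  apply mul_left_cancel₀ hne
  rw [map_mul]
  calc sE ((p : ℚ) * (q.natAbs : ℚ)) * (coeff 0 G' * (Polynomial.aeval (E 1 + E (-1))
        (D.comp (Polynomial.Chebyshev.C ℚ (p : ℤ))) * Polynomial.aeval (E 1 + E (-1)) Q))
      = (sE ((p : ℚ) * (q.natAbs : ℚ)) * coeff 0 G') * (Polynomial.aeval (E 1 + E (-1))
        (D.comp (Polynomial.Chebyshev.C ℚ (p : ℤ))) * Polynomial.aeval (E 1 + E (-1)) Q) := by ring
    _ = sE (q.natAbs : ℚ) * (dl p (coeff 0 G) * Polynomial.aeval (E 1 + E (-1))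
        (D.comp (Polynomial.Chebyshev.C ℚ (p : ℤ)))) * Polynomial.aeval (E 1 + E (-1)) Q := by
        rw [h2]
        ring
    _ = sE p * sE (q.natAbs : ℚ) * Polynomial.aeval (E 1 + E (-1)) Q := by
        rw [h3]
        ring
    _ = _ := h1.symm

end GRD

open GRD

theorem t_GRD (hCH : CHD_Stmt) (hU : SERU_Stmt) (hC : SERC_Stmt) (hS : SERS_Stmt)
    (hL : LEADEQ_Stmt) : GRD_Stmt := by
  intro M cb v hO hV K hK
  induction hK with
  | unknot =>
    refine ⟨fu, 1, hU M cb v hV, (hU M cb v hV).1, by simp, ?_⟩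
    rw [map_one, mul_one]
    unfold fu zB
    exact PowerSeries.coeff_zero_C _
  | cable n w h p q h' hb hp hg hK ih =>
    obtain ⟨G, D, hG, hGo, hD, hE⟩ := ih
    rw [← hO.cab n w h p q h' hb hp hg]
    by_cases hq : q = 0
    · subst hq
      have hp1 : p = 1 := by
        simpa using hg
      subst hp1
      rw [hO.cab_one]
      exact ⟨G, D, hG, hGo, hD, hE⟩
    · obtain ⟨G', hG', hF⟩ := hC M cb v hV _ G p q hG hp hq hg
      obtain ⟨D', hD', hE'⟩ := GRD.cable hL hCH p q hp hq hg G G' hF D hD hE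
      exact ⟨G', D', hG', hG'.1, hD', hE'⟩
  | sum n m u w hu hw h hbu hbw _ _ ih1 ih2 =>
    obtain ⟨G, D, hG, hGo, hD, hE⟩ := ih1
    obtain ⟨G', D', hG', hGo', hD', hE'⟩ := ih2
    rw [← hO.sum n m u w hu hw h hbu hbw]
    obtain ⟨G'', hG'', hF⟩ := hS M cb v hV _ _ G G' hG hG'
    refine ⟨G'', D * D', hG'', hG''.1, by rw [Polynomial.mul_comp, hD, hD'], ?_⟩
    have h1 : coeff 0 G'' * sE 1 = coeff 0 G * coeff 0 G' := by
      have h2 := congrArg (constantCoeff (R := ℚ⟦X⟧)) hF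
      rw [map_mul, map_mul] at h2
      simp only [← coeff_zero_eq_constantCoeff_apply] at h2
      have h3 : coeff 0 fu = sE 1 := by
        unfold fu zB
        exact PowerSeries.coeff_zero_C _
      rw [h3] at h2
      exact h2
    apply mul_right_cancel₀ (sE_ne (one_ne_zero))
    rw [map_mul]
    change _ = sE 1 * sE 1
    change _ = sE 1 at hE
    change _ = sE 1 at hE'
    calc coeff 0 G'' * (Polynomial.aeval (2 + Yf 1) D * Polynomial.aeval (2 + Yf 1) D') * sE 1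
        = (coeff 0 G'' * sE 1) * (Polynomial.aeval (2 + Yf 1) D *
          Polynomial.aeval (2 + Yf 1) D') := by ring
      _ = (coeff 0 G * Polynomial.aeval (2 + Yf 1) D) *
          (coeff 0 G' * Polynomial.aeval (2 + Yf 1) D') := by
          rw [h1]
          ring
      _ = _ := by rw [hE, hE']

end Pool.Agent.WD3
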