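import Pool.Agent.WD3.StH
import Pool.Agent.WD2.GCV

/-!
# KTE: the first two cyclotomic coefficients
-/

set_option autoImplicit false

namespace Pool.Agent.WD3

open Pool.Agent.LibH11 Pool.Agent.IT Pool.Agent.GK Pool.Agent.TwoBr Pool.Agent.WD Pool.Agent.WD2
open scoped BigOperators
open PowerSeries

namespace KTE

theorem E0 : E 0 = 1 := by
  ext n
  rw [E, coeff_mk, coeff_one]
  by_cases h : n = 0
  · subst h
    simp
  · rw [if_neg h, zero_pow h, zero_div]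

theorem coM (f g : ℚ⟦X⟧) (n : ℕ) : coeff n (f * g) =
    ∑ i ∈ Finset.range (n + 1), coeff i f * coeff (n - i) g := by
  rw [coeff_mul, Finset.Nat.sum_antidiagonal_eq_sum_range_succ fun i j => coeff i f * coeff j g]

theorem m3 (f g : ℚ⟦X⟧) : coeff 3 (f * g) = coeff 0 f * coeff 3 g + coeff 1 f * coeff 2 g +
    coeff 2 f * coeff 1 g + coeff 3 f * coeff 0 g := by
  rw [coM]
  simp [Finset.sum_range_succ]

theorem m5 (f g : ℚ⟦X⟧) (f0 : coeff 0 f = 0) (f1 : coeff 1 f = 0) (g0 : coeff 0 g = 0)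
    (g1 : coeff 1 g = 0) : coeff 5 (f * g) = coeff 2 f * coeff 3 g + coeff 3 f * coeff 2 g := by
  rw [coM]
  simp only [Finset.sum_range_succ, Finset.sum_range_zero, f0, f1, Nat.sub_zero, Nat.sub_self,
    Nat.reduceSub, g0, g1]
  ring

theorem coE (t : ℚ) (n : ℕ) : coeff n (E t) = t ^ n / (n.factorial : ℚ) := by
  rw [E, coeff_mk]

theorem q21 : coeff 2 (gC 2 1) = 17 / 96 := by
  obtain ⟨h0, h1⟩ := GCV.p21
  have e2 := congrArg (coeff 2) GCV.g21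
  rw [GCV.m2, GCV.m0, GCV.m1, GCV.m2, GCV.b0, GCV.b0, GCV.bb1, GCV.bb1, GCV.bb2, GCV.bb2,
    map_neg, GCV.one2, h0, h1] at e2
  linarith

theorem q22 : coeff 2 (gC 2 2) = -25 / 288 := by
  obtain ⟨h0, h1⟩ := GCV.p22
  have e2 := congrArg (coeff 2) GCV.g22
  rw [GCV.m2, GCV.m0, GCV.m1, GCV.m2, GCV.b0, GCV.b0, GCV.bb1, GCV.bb1, GCV.bb2, GCV.bb2,
    GCV.one2, h0, h1] at e2
  linarith

theorem F1 (hS : SG0_Stmt) (f : ℕ → ℚ⟦X⟧) (h0 : f 0 = 1) : FF f 1 = gC 1 1 * (f 1 - 1) := by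
  have h1 := hS.2 1 le_rfl
  rw [Finset.sum_range_succ, Finset.sum_range_one] at h1
  rw [FF, Finset.sum_range_succ, Finset.sum_range_one, h0]
  linear_combination h1

theorem F2 (hS : SG0_Stmt) (f : ℕ → ℚ⟦X⟧) (h0 : f 0 = 1) :
    FF f 2 = gC 2 1 * (f 1 - 1) + gC 2 2 * (f 2 - 1) := by
  have h1 := hS.2 2 (by norm_num)
  rw [Finset.sum_range_succ, Finset.sum_range_succ, Finset.sum_range_one] at h1
  rw [FF, Finset.sum_range_succ, Finset.sum_range_succ, Finset.sum_range_one, h0]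
  linear_combination h1

/-- the first coefficients are `1, p, q, r` -/
def Co (f : ℚ⟦X⟧) (p q r : ℚ) : Prop :=
  coeff 0 f = 1 ∧ coeff 1 f = p ∧ coeff 2 f = q ∧ coeff 3 f = r

theorem sub1 {f : ℚ⟦X⟧} {p q r : ℚ} (h : Co f p q r) : coeff 0 (f - 1) = 0 ∧
    coeff 1 (f - 1) = p ∧ coeff 2 (f - 1) = q ∧ coeff 3 (f - 1) = r := by
  obtain ⟨h0, h1, h2, h3⟩ := h
  refine ⟨?_, ?_, ?_, ?_⟩
  · rw [map_sub, coeff_one, h0]
    simp
  · rw [map_sub, coeff_one, h1]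
    simp
  · rw [map_sub, coeff_one, h2]
    simp
  · rw [map_sub, coeff_one, h3]
    simp

theorem coEJ (s A B : ℚ) {J : ℚ⟦X⟧} (h : Co J 0 A B) :
    Co (E s * J) s (s ^ 2 / 2 + A) (s ^ 3 / 6 + s * A + B) := by
  obtain ⟨h0, h1, h2, h3⟩ := h
  refine ⟨?_, ?_, ?_, ?_⟩
  · rw [GCV.m0, coE, h0]
    norm_num
  · rw [GCV.m1, coE, coE, h0, h1]
    norm_num
  · rw [GCV.m2, coE, coE, coE, h0, h1, h2]
    norm_num [Nat.factorial]
    ring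
  · rw [m3, coE, coE, coE, coE, h0, h1, h2, h3]
    norm_num [Nat.factorial]
    ring

theorem co1 {f : ℕ → ℚ⟦X⟧} (hS : SG0_Stmt) {p q r : ℚ} (h0 : f 0 = 1) (h : Co (f 1) p q r) :
    coeff 0 (FF f 1) = 0 ∧ coeff 1 (FF f 1) = -(p / 4) ∧ coeff 2 (FF f 1) = -(q / 4) := by
  obtain ⟨a0, a1, a2, -⟩ := sub1 h
  obtain ⟨g0, g1, g2⟩ := GCV.p11
  rw [F1 hS f h0]
  refine ⟨?_, ?_, ?_⟩
  · rw [GCV.m0, a0, mul_zero]
  · rw [GCV.m1, a0, a1, g0, g1]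
    ring
  · rw [GCV.m2, a0, a1, a2, g0, g1]
    ring

theorem co2 {f : ℕ → ℚ⟦X⟧} (hS : SG0_Stmt) {p q r p' q' r' : ℚ} (h0 : f 0 = 1)
    (h : Co (f 1) p q r) (h' : Co (f 2) p' q' r') :
    coeff 0 (FF f 2) = 0 ∧ coeff 1 (FF f 2) = -(p / 16) + p' / 48 ∧
    coeff 2 (FF f 2) = -(q / 16) + q' / 48 ∧
    coeff 3 (FF f 2) = -(r / 16) + 17 / 96 * p + r' / 48 - 25 / 288 * p' := by
  obtain ⟨a0, a1, a2, a3⟩ := sub1 h
  obtain ⟨b0, b1, b2, b3⟩ := sub1 h'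
  obtain ⟨g0, g1⟩ := GCV.p21
  obtain ⟨k0, k1⟩ := GCV.p22
  rw [F2 hS f h0]
  refine ⟨?_, ?_, ?_, ?_⟩
  · rw [map_add, GCV.m0, GCV.m0, a0, b0]
    ring
  · rw [map_add, GCV.m1, GCV.m1, a0, b0, a1, b1, g0, g1, k0, k1]
    ring
  · rw [map_add, GCV.m2, GCV.m2, a0, b0, a1, b1, a2, b2, g0, g1, k0, k1]
    ring
  · rw [map_add, m3, m3, a0, b0, a1, b1, a2, b2, a3, b3, g0, g1, k0, k1, q21, q22]
    ring

/-- the family `yt t J` -/
theorem yco {t : ℤ} {a b : ℚ} {J : ℕ → ℚ⟦X⟧} (h1 : J 1 = 1) (h3 : Ex3 a b 3 (J 3))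
    (h5 : Ex3 a b 5 (J 5)) : yt t J 0 = 1 ∧
    Co (yt t J 1) (4 * t) (8 * t ^ 2 + 8 * a) (32 / 3 * t ^ 3 + 32 * t * a + 8 * b) ∧
    Co (yt t J 2) (12 * t) (72 * t ^ 2 + 24 * a) (288 * t ^ 3 + 288 * t * a + 24 * b) := by
  refine ⟨?_, ?_, ?_⟩
  · unfold yt
    have h : (2 * ((0 : ℕ) : ℚ) * (((0 : ℕ) : ℚ) + 1) * (t : ℚ)) = 0 := by simp
    rw [h, E0, one_mul]
    exact h1
  · unfold yt
    have h : (2 * ((1 : ℕ) : ℚ) * (((1 : ℕ) : ℚ) + 1) * (t : ℚ)) = 4 * t := by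
      push_cast
      ring
    rw [h]
    have hc : Co (J (2 * 1 + 1)) 0 (8 * a) (8 * b) := by
      refine ⟨h3.c0, h3.c1, ?_, ?_⟩
      · rw [h3.c2]
        push_cast
        ring
      · rw [h3.c3]
        push_cast
        ring
    obtain ⟨e0, e1, e2, e3⟩ := coEJ (4 * t) _ _ hc
    refine ⟨e0, e1, ?_, ?_⟩
    · rw [e2]
      ring
    · rw [e3]
      ring
  · unfold yt
    have h : (2 * ((2 : ℕ) : ℚ) * (((2 : ℕ) : ℚ) + 1) * (t : ℚ)) = 12 * t := by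
      push_cast
      ring
    rw [h]
    have hc : Co (J (2 * 2 + 1)) 0 (24 * a) (24 * b) := by
      refine ⟨h5.c0, h5.c1, ?_, ?_⟩
      · rw [h5.c2]
        push_cast
        ring
      · rw [h5.c3]
        push_cast
        ring
    obtain ⟨e0, e1, e2, e3⟩ := coEJ (12 * t) _ _ hc
    refine ⟨e0, e1, ?_, ?_⟩
    · rw [e2]
      ring
    · rw [e3]
      ring

theorem ex1 (M : ℕ) : Ex3 0 0 M 1 := by
  refine ⟨?_, ?_, ?_, ?_⟩ <;> rw [coeff_one] <;> simp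

theorem fuK (k : ℤ) (i : ℕ) : FU k i = FF (yt k fun _ => 1) i := by
  unfold FU FF yt
  simp

/-- the coefficients for `i = 1` and `i = 2` -/
theorem all (hS : SG0_Stmt) {t : ℤ} {a b : ℚ} {J : ℕ → ℚ⟦X⟧} (h1 : J 1 = 1)
    (h3 : Ex3 a b 3 (J 3)) (h5 : Ex3 a b 5 (J 5)) :
    (coeff 0 (FF (yt t J) 1) = 0 ∧ coeff 1 (FF (yt t J) 1) = -(t : ℚ) ∧
      coeff 2 (FF (yt t J) 1) = -(2 * (t : ℚ) ^ 2 + 2 * a)) ∧
    coeff 0 (FF (yt t J) 2) = 0 ∧ coeff 1 (FF (yt t J) 2) = 0 ∧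
      coeff 2 (FF (yt t J) 2) = (t : ℚ) ^ 2 ∧
      coeff 3 (FF (yt t J) 2) = 16 / 3 * (t : ℚ) ^ 3 - t / 3 + 4 * t * a := by
  obtain ⟨y0, y1, y2⟩ := yco (t := t) h1 h3 h5
  obtain ⟨c0, c1, c2⟩ := co1 hS y0 y1
  obtain ⟨d0, d1, d2, d3⟩ := co2 hS y0 y1 y2
  refine ⟨⟨c0, ?_, ?_⟩, d0, ?_, ?_, ?_⟩
  · rw [c1]
    ring
  · rw [c2]
    ring
  · rw [d1]
    ring
  · rw [d2]
    ring
  · rw [d3]
    ring

end KTE

open KTE in
theorem t_KTE (hS : SG0_Stmt) : KTE_Stmt := by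
  intro k t k' t' a b a' b' J J' hk hk' h1 h1' h3 h5 h3' h5' h
  obtain ⟨⟨u0, u1, u2⟩, v0, v1, v2, v3⟩ := all (t := k) hS (J := fun _ => 1) rfl (ex1 3) (ex1 5)
  obtain ⟨⟨u0', u1', u2'⟩, v0', v1', v2', v3'⟩ :=
    all (t := k') hS (J := fun _ => 1) rfl (ex1 3) (ex1 5)
  obtain ⟨⟨p0, p1, p2⟩, r0, r1, r2, r3⟩ := all (t := t) hS h1 h3 h5
  obtain ⟨⟨p0', p1', p2'⟩, r0', r1', r2', r3'⟩ := all (t := t') hS h1' h3' h5'
  have H1 := h 1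
  have H2 := h 2
  rw [fuK, fuK] at H1 H2
  have e1 := congrArg (coeff 2) H1
  have e2 := congrArg (coeff 3) H1
  have e3 := congrArg (coeff 5) H2
  rw [GCV.m2, GCV.m2, u0, u1, u0', u1', p0, p1, p0', p1'] at e1
  rw [m3, m3, u0, u1, u2, u0', u1', u2', p0, p1, p2, p0', p1', p2'] at e2
  rw [m5 _ _ v0 v1 r0 r1, m5 _ _ v0' v1' r0' r1', v2, v3, v2', v3', r2, r3, r2', r3'] at e3
  have f1 : (k : ℚ) * t = k' * t' := by linarith
  have g1 : k * t = k' * t' := by exact_mod_cast f1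
  have hkq : (k : ℚ) ≠ 0 := by exact_mod_cast hk
  have hkq' : (k' : ℚ) ≠ 0 := by exact_mod_cast hk'
  have hz : t = 0 ↔ t' = 0 := by
    constructor
    · intro h0
      rw [h0, mul_zero] at g1
      exact (mul_eq_zero.mp g1.symm).resolve_left hk'
    · intro h0
      rw [h0, mul_zero] at g1
      exact (mul_eq_zero.mp g1).resolve_left hk
  refine ⟨hz, fun ht => ⟨g1, ?_⟩⟩
  have htq : (t : ℚ) ≠ 0 := by exact_mod_cast ht
  set c : ℚ := (k : ℚ) * t with hc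
  have hc0 : c ≠ 0 := mul_ne_zero hkq htq
  have c2 : (k' : ℚ) * t' = c := f1.symm
  have E2 : c * (k + t) + k * a = c * (k' + t') + k' * a' := by
    linear_combination e2 / 2 + (k + t : ℚ) * hc + ((k' + t' : ℚ)) * c2
  have E3 : c * (16 / 3 * c * (k + t) + 4 * k * a - (k + t) / 3) =
      c * (16 / 3 * c * (k' + t') + 4 * k' * a' - (k' + t') / 3) := by
    have L : c * (16 / 3 * c * (k + t) + 4 * k * a - (k + t) / 3) =
        (k : ℚ) ^ 2 * (16 / 3 * (t : ℚ) ^ 3 - t / 3 + 4 * t * a) +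
          (16 / 3 * (k : ℚ) ^ 3 - k / 3) * (t : ℚ) ^ 2 := by
      rw [hc]
      ring
    have R : c * (16 / 3 * c * (k' + t') + 4 * k' * a' - (k' + t') / 3) =
        (k' : ℚ) ^ 2 * (16 / 3 * (t' : ℚ) ^ 3 - t' / 3 + 4 * t' * a') +
          (16 / 3 * (k' : ℚ) ^ 3 - k' / 3) * (t' : ℚ) ^ 2 := by
      rw [← c2]
      ring
    rw [L, R]
    linear_combination e3
  have E4 := mul_left_cancel₀ hc0 E3
  have E5 : (4 * c - 1) * (k + t - (k' + t')) = 0 := by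
    linear_combination 3 * E4 - 12 * E2
  have hne : 4 * c - 1 ≠ 0 := by
    rw [hc]
    intro h0
    have h2 : (4 * (k * t) - 1 : ℤ) = 0 := by exact_mod_cast h0
    omega
  have E6 := (mul_eq_zero.mp E5).resolve_left hne
  have E7 : (k : ℚ) + t = k' + t' := by linarith
  exact_mod_cast E7

end Pool.Agent.WD3
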