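import Pool.Agent.WD3.StH

/-!
# Generalised doubles: the cyclotomic coefficients determine the family at odd numbers
-/

set_option autoImplicit false

namespace Pool.Agent.WD3

open Pool.Agent.LibH11 Pool.Agent.IT Pool.Agent.GK Pool.Agent.TwoBr Pool.Agent.WD Pool.Agent.WD2
open scoped BigOperators
open PowerSeries

namespace ODJ

theorem E_ne (a : ℚ) : E a ≠ 0 := by
  intro h
  have h1 : coeff 0 (E a) = 1 := by
    rw [E, coeff_mk]
    simp
  rw [h, map_zero] at h1
  exact zero_ne_one h1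

theorem gC_ne (i j : ℕ) : gC i j ≠ 0 := by
  intro h
  have h1 := gC_mul i j
  rw [h, zero_mul] at h1
  have h2 := congrArg (constantCoeff (R := ℚ)) h1
  rw [map_zero, map_mul, map_mul, constantCoeff_b1, map_pow, map_neg, map_one] at h2
  have h3 : ((-1 : ℚ)) ^ j ≠ 0 := pow_ne_zero _ (by norm_num)
  have h4 : (2 : ℚ) * (2 * (j : ℚ) + 1) ≠ 0 := by positivity
  exact mul_ne_zero h3 (mul_ne_zero (constantCoeff_uF_ne i) h4) h2.symm

theorem eqs {y y' : ℕ → ℚ⟦X⟧} (h : ∀ i, FF y i = FF y' i) : ∀ j, y j = y' j := by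
  intro j
  induction j using Nat.strong_induction_on with
  | _ j ih =>
    have h1 := h j
    rw [FF, FF, Finset.sum_range_succ, Finset.sum_range_succ] at h1
    have h2 : ∑ x ∈ Finset.range j, gC j x * y x = ∑ x ∈ Finset.range j, gC j x * y' x :=
      Finset.sum_congr rfl fun x hx => by rw [ih x (Finset.mem_range.1 hx)]
    rw [h2] at h1
    exact mul_left_cancel₀ (gC_ne j j) (add_left_cancel h1)

end ODJ

theorem t_ODJ : ODJ_Stmt := by
  intro t J J' h N hN
  obtain ⟨j, rfl⟩ := hN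
  have h1 := ODJ.eqs h j
  rw [yt, yt] at h1
  exact mul_left_cancel₀ (ODJ.E_ne _) h1

end Pool.Agent.WD3
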