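import Pool.Agent.WD3.StH

/-!
# Generalised doubles, module RE3: the first terms
-/

set_option autoImplicit false

namespace Pool.Agent.WD3

open Pool.Agent.LibH11 Pool.Agent.IT Pool.Agent.GK Pool.Agent.TwoBr Pool.Agent.WD Pool.Agent.WD2
open scoped BigOperators
open PowerSeries

namespace RE3

theorem Yf_eq (a : ℚ) : Yf a = X ^ 2 * c2 a := (X_sq_mul_c2 a).symm

theorem term (c : ℚ) (g : ℚ⟦X⟧) (r n m : ℕ) :
    coeff r (C c * X ^ n * (X ^ 2 * g) ^ m) =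
      if n + 2 * m ≤ r then c * coeff (r - (n + 2 * m)) (g ^ m) else 0 := by
  have h1 : C c * X ^ n * (X ^ 2 * g) ^ m = C c * (g ^ m * X ^ (n + 2 * m)) := by
    rw [mul_pow, ← pow_mul, pow_add]
    ring
  rw [h1, coeff_C_mul, coeff_mul_X_pow']
  split_ifs
  · rfl
  · rw [mul_zero]

theorem key {J : ℕ → ℚ⟦X⟧} {h : ℕ → ℕ → ℚ} (hR : Rep J h) {N : ℕ} (hN : 1 ≤ N) (r : ℕ)
    (hr : r < 5) : coeff r (J N) = ∑ n ∈ Finset.range 5, ∑ m ∈ Finset.range 5,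
      if n + 2 * m ≤ r then h n m * coeff (r - (n + 2 * m)) (c2 (N : ℚ) ^ m) else 0 := by
  have h1 := PowerSeries.X_pow_dvd_iff.1 (hR N 5 hN) r hr
  rw [map_sub, sub_eq_zero] at h1
  rw [h1, map_sum]
  refine Finset.sum_congr rfl fun n _ => ?_
  rw [map_sum]
  refine Finset.sum_congr rfl fun m _ => ?_
  rw [Yf_eq, term]

theorem c2_zero (a : ℚ) : constantCoeff (c2 a) = a ^ 2 := by
  rw [← coeff_zero_eq_constantCoeff_apply, c2, coeff_mk]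
  have : ((0 + 2).factorial : ℚ) = 2 := by norm_num [Nat.factorial]
  rw [this]
  ring

theorem c2_one (a : ℚ) : coeff 1 (c2 a) = 0 := by
  rw [c2, coeff_mk]
  have : (a ^ (1 + 2) + (-a) ^ (1 + 2) : ℚ) = 0 := by ring
  rw [this, zero_div]

theorem c2_two (a : ℚ) : coeff 2 (c2 a) = a ^ 4 / 12 := by
  rw [c2, coeff_mk]
  have : ((2 + 2).factorial : ℚ) = 24 := by norm_num [Nat.factorial]
  rw [this]
  ring

theorem coeffs {J : ℕ → ℚ⟦X⟧} {h : ℕ → ℕ → ℚ} (hR : Rep J h) {N : ℕ} (hN : 1 ≤ N) :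
    coeff 0 (J N) = h 0 0 ∧ coeff 1 (J N) = h 1 0 ∧
    coeff 2 (J N) = h 2 0 + h 0 1 * (N : ℚ) ^ 2 ∧ coeff 3 (J N) = h 3 0 + h 1 1 * (N : ℚ) ^ 2 ∧
    coeff 4 (J N) = h 4 0 + h 2 1 * (N : ℚ) ^ 2 + (h 0 2 + h 0 1 / 12) * (N : ℚ) ^ 4 := by
  refine ⟨?_, ?_, ?_, ?_, ?_⟩
  · rw [key hR hN 0 (by norm_num)]
    simp [Finset.sum_range_succ]
  · rw [key hR hN 1 (by norm_num)]
    simp [Finset.sum_range_succ, coeff_one]
  · rw [key hR hN 2 (by norm_num)]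
    simp [Finset.sum_range_succ, coeff_one, c2_zero]
    ring
  · rw [key hR hN 3 (by norm_num)]
    simp [Finset.sum_range_succ, coeff_one, c2_zero, c2_one]
    ring
  · rw [key hR hN 4 (by norm_num)]
    simp [Finset.sum_range_succ, coeff_one, c2_zero, c2_one, c2_two]
    ring

end RE3

open RE3 in
theorem t_RE3 : RE3_Stmt := by
  intro J h hR hJ
  obtain ⟨a0, a1, a2, a3, a4⟩ := coeffs hR (N := 1) le_rfl
  rw [hJ, coeff_one, if_pos rfl] at a0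
  rw [hJ, coeff_one, if_neg (by norm_num)] at a1 a2 a3 a4
  rw [Nat.cast_one] at a2 a3 a4
  have hc : ∀ N : ℕ, 1 ≤ N → coeff 0 (J N) = 1 ∧ coeff 1 (J N) = 0 ∧
      coeff 2 (J N) = h 0 1 * ((N : ℚ) ^ 2 - 1) ∧ coeff 3 (J N) = h 1 1 * ((N : ℚ) ^ 2 - 1) ∧
      coeff 4 (J N) = ((N : ℚ) ^ 2 - 1) *
        ((h 0 2 + h 0 1 / 12) * (N : ℚ) ^ 2 + (h 2 1 + (h 0 2 + h 0 1 / 12))) := by
    intro N hN
    obtain ⟨b0, b1, b2, b3, b4⟩ := coeffs hR hN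
    refine ⟨b0.trans a0.symm, b1.trans a1.symm, ?_, ?_, ?_⟩
    · rw [b2]
      linear_combination -a2
    · rw [b3]
      linear_combination -a3
    · rw [b4]
      linear_combination -a4
  refine ⟨fun N hN => ?_, a0.symm, h 2 1 + (h 0 2 + h 0 1 / 12), fun N hN => ?_⟩
  · obtain ⟨b0, b1, b2, b3, -⟩ := hc N hN
    exact ⟨b0, b1, b2, b3⟩
  · obtain ⟨b0, b1, b2, b3, b4⟩ := hc N hN
    rw [PowerSeries.X_pow_dvd_iff]
    intro r hr
    have hr5 : r < 5 := hr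
    rw [map_sub, map_add, map_add, map_add, coeff_C_mul_X_pow, coeff_C_mul_X_pow,
      coeff_C_mul_X_pow, coeff_one]
    interval_cases r
    · rw [b0]; norm_num
    · rw [b1]; norm_num
    · rw [b2]; norm_num
    · rw [b3]; norm_num
    · rw [b4]; norm_num

end Pool.Agent.WD3
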