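import Pool.Agent.WD3.StH

/-!
REC: the recursion in `i` for the coefficients of the cyclotomic form.
-/

set_option autoImplicit false

namespace Pool.Agent.WD3.REC

open Pool.Agent.LibH11 Pool.Agent.IT Pool.Agent.GK Pool.Agent.TwoBr Pool.Agent.WD
open Pool.Agent.WD2
open scoped BigOperators
open PowerSeries

theorem E_eq (a : ℚ) : E a = rescale a (exp ℚ) := by
  ext n
  simp [E, coeff_mk, coeff_rescale, coeff_exp, div_eq_mul_inv]

theorem E_add (a b : ℚ) : E (a + b) = E a * E b := by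
  rw [E_eq, E_eq, E_eq, exp_mul_exp_eq_exp_add]

/-- `{a} {b} = Y (a + b) - Y (b - a)` -/
theorem bb (a b : ℚ) : X ^ 2 * (b1 a * b1 b) = Yf (a + b) - Yf (b - a) := by
  have h : X ^ 2 * (b1 a * b1 b) = (X * b1 a) * (X * b1 b) := by ring
  rw [h, X_mul_b1, X_mul_b1]
  unfold Yf
  have e1 : E (a + b) = E a * E b := E_add a b
  have e2 : E (-(a + b)) = E (-a) * E (-b) := by rw [← E_add]; congr 1; ring
  have e3 : E (b - a) = E (-a) * E b := by rw [← E_add]; congr 1; ring
  have e4 : E (-(b - a)) = E a * E (-b) := by rw [← E_add]; congr 1; ring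
  rw [e1, e2, e3, e4]
  ring

/-- the recursion for the coefficients -/
theorem gC_rec (i j : ℕ) (hj : j ≤ i) :
    (Yf (2 * ((i : ℚ) + 1) + 1) - Yf (2 * j + 1)) * gC (i + 1) j =
      X ^ 2 * b1 ((i : ℚ) + 1) * gC i j := by
  have hU : uF (i + 1 - j) * uF (i + 1 + j + 1) ≠ 0 := by
    intro h
    have := uu_ne (i + 1) j
    rw [h, map_zero] at this
    exact this rfl
  apply mul_right_cancel₀ hU
  have h1 : uF (i + 1 - j) = uF (i - j) * b1 ((i : ℚ) + 1 - j) := by
    have e : i + 1 - j = (i - j) + 1 := by omega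
    rw [e, uF_succ]
    congr 2
    rw [Nat.cast_sub hj]
    ring
  have h2 : uF (i + 1 + j + 1) = uF (i + j + 1) * b1 ((i : ℚ) + j + 2) := by
    have e : i + 1 + j + 1 = (i + j + 1) + 1 := by omega
    rw [e, uF_succ]
    congr 2
    push_cast
    ring
  have h3 := gC_mul (i + 1) j
  have h4 := gC_mul i j
  have h5 : uF (i + 1) = uF i * b1 ((i : ℚ) + 1) := uF_succ i
  have h6 : X ^ 2 * (b1 ((i : ℚ) + 1 - j) * b1 ((i : ℚ) + j + 2)) =
      Yf (2 * ((i : ℚ) + 1) + 1) - Yf (2 * j + 1) := by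
    rw [bb]
    congr 2
    · ring
    · ring
  calc (Yf (2 * ((i : ℚ) + 1) + 1) - Yf (2 * j + 1)) * gC (i + 1) j *
        (uF (i + 1 - j) * uF (i + 1 + j + 1))
      = (Yf (2 * ((i : ℚ) + 1) + 1) - Yf (2 * j + 1)) *
        (gC (i + 1) j * (uF (i + 1 - j) * uF (i + 1 + j + 1))) := by ring
    _ = X ^ 2 * b1 ((i : ℚ) + 1) * (gC i j * (uF (i - j) * uF (i + j + 1))) *
        (b1 ((i : ℚ) + 1 - j) * b1 ((i : ℚ) + j + 2)) := by
        rw [h3, h4, h5, ← h6]
        ring
    _ = _ := by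
        rw [h1, h2]
        ring

end Pool.Agent.WD3.REC

namespace Pool.Agent.WD3

open Pool.Agent.LibH11 Pool.Agent.IT Pool.Agent.GK Pool.Agent.TwoBr Pool.Agent.WD
open Pool.Agent.WD2
open scoped BigOperators
open PowerSeries

theorem t_REC : REC_Stmt := by
  intro y
  constructor
  · simp only [FF, zero_add, Finset.sum_range_one, Nat.cast_zero, mul_zero]
    ring
  · intro i
    have key : ∑ j ∈ Finset.range (i + 1), gC (i + 1) j * (Yf (2 * j + 1) * y j) =
        Yf (2 * ((i : ℚ) + 1) + 1) * ∑ j ∈ Finset.range (i + 1), gC (i + 1) j * y j -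
          X ^ 2 * b1 ((i : ℚ) + 1) * ∑ j ∈ Finset.range (i + 1), gC i j * y j := by
      rw [Finset.mul_sum, Finset.mul_sum, ← Finset.sum_sub_distrib]
      refine Finset.sum_congr rfl fun j hj => ?_
      have h := REC.gC_rec i j (Nat.lt_succ_iff.mp (Finset.mem_range.mp hj))
      linear_combination (-(y j)) * h
    unfold FF
    rw [Finset.sum_range_succ _ (i + 1), Finset.sum_range_succ (fun j => gC (i + 1) j * y j) (i + 1),
      key]
    push_cast
    ring

end Pool.Agent.WD3
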