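import Pool.Agent.WD3.StH

/-!
# Generalised doubles: the leading term of the cyclotomic coefficients, framing zero
-/

set_option autoImplicit false

namespace Pool.Agent.WD3

open Pool.Agent.LibH11 Pool.Agent.IT Pool.Agent.GK Pool.Agent.TwoBr Pool.Agent.WD Pool.Agent.WD2
open scoped BigOperators
open PowerSeries

namespace RFF

theorem E0 : E 0 = 1 := by
  ext n
  rw [E, coeff_mk, coeff_one]
  rcases Nat.eq_zero_or_pos n with hn | hn
  · subst hn
    simp
  · rw [zero_pow hn.ne', zero_div, if_neg hn.ne']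

theorem yt_zero (J : ℕ → ℚ⟦X⟧) (j : ℕ) : yt 0 J j = J (2 * j + 1) := by
  unfold yt
  rw [Int.cast_zero, mul_zero, E0, one_mul]

theorem swap (i R : ℕ) (h : ℕ → ℕ → ℚ) :
    ∑ n ∈ Finset.range R, ∑ m ∈ Finset.range R,
      C (h n m) * (X : ℚ⟦X⟧) ^ n * FF (fun j => Yf (2 * j + 1) ^ m) i =
    ∑ j ∈ Finset.range (i + 1), gC i j * ∑ n ∈ Finset.range R, ∑ m ∈ Finset.range R,
      C (h n m) * (X : ℚ⟦X⟧) ^ n * Yf (2 * j + 1) ^ m := by
  unfold FF
  simp only [Finset.mul_sum]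
  rw [Finset.sum_congr rfl (fun n _ => Finset.sum_comm), Finset.sum_comm]
  refine Finset.sum_congr rfl fun j _ => Finset.sum_congr rfl fun n _ =>
    Finset.sum_congr rfl fun m _ => ?_
  ring

end RFF

theorem t_RFF (hY : YMO_Stmt) : RFF_Stmt := by
  intro J h hR i
  have h1 : (X : ℚ⟦X⟧) ^ (2 * i + 1) ∣ FF (yt 0 J) i - ∑ n ∈ Finset.range (2 * i + 1),
      ∑ m ∈ Finset.range (2 * i + 1),
        C (h n m) * (X : ℚ⟦X⟧) ^ n * FF (fun j => Yf (2 * j + 1) ^ m) i := by
    rw [RFF.swap]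
    unfold FF
    rw [← Finset.sum_sub_distrib]
    refine Finset.dvd_sum fun j _ => ?_
    rw [RFF.yt_zero, ← mul_sub]
    refine Dvd.dvd.mul_left ?_ _
    have h2 := hR (2 * j + 1) (2 * i + 1) (by omega)
    push_cast at h2
    exact h2
  have h3 : (X : ℚ⟦X⟧) ^ (2 * i + 1) ∣ ∑ n ∈ Finset.range (2 * i + 1),
      ∑ m ∈ Finset.range (2 * i + 1),
        C (h n m) * (X : ℚ⟦X⟧) ^ n * FF (fun j => Yf (2 * j + 1) ^ m) i -
      C (h 0 i) * (-1) ^ i * X ^ (2 * i) * uF i := by
    have e1 : C (h 0 i) * (-1) ^ i * X ^ (2 * i) * uF i =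
        ∑ n ∈ Finset.range (2 * i + 1), ∑ m ∈ Finset.range (2 * i + 1),
          (if n = 0 ∧ m = i then C (h 0 i) * (-1) ^ i * (X : ℚ⟦X⟧) ^ (2 * i) * uF i else 0) := by
      rw [Finset.sum_eq_single 0, Finset.sum_eq_single i, if_pos ⟨rfl, rfl⟩]
      · intro m _ hm
        rw [if_neg fun h => hm h.2]
      · intro hi
        exact absurd (Finset.mem_range.2 (by omega)) hi
      · intro n _ hn
        exact Finset.sum_eq_zero fun m _ => by rw [if_neg fun h => hn h.1]
      · intro h0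
        exact absurd (Finset.mem_range.2 (by omega)) h0
    rw [e1, ← Finset.sum_sub_distrib]
    refine Finset.dvd_sum fun n _ => ?_
    rw [← Finset.sum_sub_distrib]
    refine Finset.dvd_sum fun m _ => ?_
    obtain ⟨hd, hz, -⟩ := hY m i
    rcases lt_trichotomy m i with hm | hm | hm
    · rw [hz hm, if_neg fun h => by omega, mul_zero, sub_zero]
      exact dvd_zero _
    · subst hm
      obtain ⟨-, -, hl⟩ := hY m m
      rcases Nat.eq_zero_or_pos n with hn | hn
      · subst hn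
        rw [if_pos ⟨rfl, rfl⟩, hl, pow_zero]
        have e2 : C (h 0 m) * 1 * ((-1) ^ m * (X : ℚ⟦X⟧) ^ (2 * m) * uF m) -
            C (h 0 m) * (-1) ^ m * X ^ (2 * m) * uF m = 0 := by ring
        rw [e2]
        exact dvd_zero _
      · rw [if_neg fun h => by omega, sub_zero]
        obtain ⟨k, rfl⟩ : ∃ k, n = k + 1 := ⟨n - 1, by omega⟩
        obtain ⟨w, hw⟩ := hd
        rw [hw]
        exact ⟨C (h (k + 1) m) * X ^ k * w, by ring⟩
    · rw [if_neg fun h => by omega, sub_zero]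
      refine Dvd.dvd.mul_left (dvd_trans (pow_dvd_pow _ ?_) hd) _
      omega
  have h4 := dvd_add h1 h3
  rw [sub_add_sub_cancel] at h4
  exact h4

end Pool.Agent.WD3
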