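import Pool.Agent.WD3.StH

/-! Module WH_RHO: solutions of equations have polynomial coefficients. -/

set_option autoImplicit false

namespace Pool.Agent.WD3.RHO

open Pool.Agent.LibH11 Pool.Agent.IT Pool.Agent.GK Pool.Agent.TwoBr Pool.Agent.WD Pool.Agent.WD2
open scoped BigOperators
open PowerSeries

/-- the coefficients of index `r` are given by a polynomial of degree at most `r` -/
def Pl (r : ℕ) (a : ℕ → ℚ⟦X⟧) : Prop :=
  ∃ p : Polynomial ℚ, p.natDegree ≤ r ∧ ∀ i : ℕ, coeff r (a i) = p.eval (i : ℚ)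

/-- the same for all indices smaller than `n` -/
def Sn (n : ℕ) (a : ℕ → ℚ⟦X⟧) : Prop := ∀ r < n, Pl r a

lemma Sn.mono {n m : ℕ} {a : ℕ → ℚ⟦X⟧} (ha : Sn n a) (h : m ≤ n) : Sn m a :=
  fun r hr => ha r (hr.trans_le h)

lemma Sn.add {n : ℕ} {a b : ℕ → ℚ⟦X⟧} (ha : Sn n a) (hb : Sn n b) :
    Sn n (fun i => a i + b i) := by
  intro r hr
  obtain ⟨p, hp, hp'⟩ := ha r hr
  obtain ⟨q, hq, hq'⟩ := hb r hr
  exact ⟨p + q, (Polynomial.natDegree_add_le p q).trans (max_le hp hq), fun i => by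
    rw [map_add, hp', hq', Polynomial.eval_add]⟩

lemma Sn.neg {n : ℕ} {a : ℕ → ℚ⟦X⟧} (ha : Sn n a) : Sn n (fun i => -a i) := by
  intro r hr
  obtain ⟨p, hp, hp'⟩ := ha r hr
  exact ⟨-p, by rw [Polynomial.natDegree_neg]; exact hp, fun i => by
    rw [map_neg, hp', Polynomial.eval_neg]⟩

lemma Sn.const (n : ℕ) (c : ℚ⟦X⟧) : Sn n (fun _ => c) := fun r _ =>
  ⟨Polynomial.C (coeff r c), by simp, fun i => by simp⟩

lemma Sn.sum {n : ℕ} {ι : Type} (s : Finset ι) (a : ι → ℕ → ℚ⟦X⟧) (ha : ∀ m ∈ s, Sn n (a m)) :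
    Sn n (fun i => ∑ m ∈ s, a m i) := by
  classical
  induction s using Finset.induction_on with
  | empty => simpa using Sn.const n 0
  | insert x s hx ih =>
    have h1 := (ha x (Finset.mem_insert_self _ _)).add
      (ih fun m hm => ha m (Finset.mem_insert_of_mem hm))
    have e : (fun i => ∑ m ∈ insert x s, a m i) = fun i => a x i + ∑ m ∈ s, a m i := by
      funext i
      rw [Finset.sum_insert hx]
    rw [e]
    exact h1

lemma key {r : ℕ} (f g : ℕ → ℚ⟦X⟧)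
    (h : ∀ k l : ℕ, k + l = r → ∃ p : Polynomial ℚ, p.natDegree ≤ r ∧
      ∀ i : ℕ, coeff k (f i) * coeff l (g i) = p.eval (i : ℚ)) :
    Pl r (fun i => f i * g i) := by
  choose! P hP hP' using h
  refine ⟨∑ x ∈ Finset.HasAntidiagonal.antidiagonal r, P x.1 x.2, ?_, fun i => ?_⟩
  · refine Polynomial.natDegree_sum_le_of_forall_le _ _ fun x hx => ?_
    exact hP _ _ (Finset.HasAntidiagonal.mem_antidiagonal.1 hx)
  · rw [coeff_mul, Polynomial.eval_finsetSum]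
    exact Finset.sum_congr rfl fun x hx => hP' _ _ (Finset.HasAntidiagonal.mem_antidiagonal.1 hx) i

lemma pair {k l r : ℕ} {f g : ℕ → ℚ⟦X⟧} (h : k + l = r) (hf : Pl k f) (hg : Pl l g) :
    ∃ p : Polynomial ℚ, p.natDegree ≤ r ∧
      ∀ i : ℕ, coeff k (f i) * coeff l (g i) = p.eval (i : ℚ) := by
  obtain ⟨p, hp, hp'⟩ := hf
  obtain ⟨q, hq, hq'⟩ := hg
  refine ⟨p * q, Polynomial.natDegree_mul_le.trans (by omega), fun i => ?_⟩
  rw [hp', hq', Polynomial.eval_mul]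

lemma pair_shift {k l r : ℕ} {f g : ℕ → ℚ⟦X⟧} (h0 : f 0 = 0) (h : k + l = r) (hf : Pl k f)
    (hg : Pl l g) : ∃ p : Polynomial ℚ, p.natDegree ≤ r ∧
      ∀ i : ℕ, coeff k (f i) * coeff l (g (i - 1)) = p.eval (i : ℚ) := by
  obtain ⟨p, hp, hp'⟩ := hf
  obtain ⟨q, hq, hq'⟩ := hg
  refine ⟨p * q.comp (Polynomial.X - Polynomial.C 1), ?_, fun i => ?_⟩
  · refine Polynomial.natDegree_mul_le.trans ?_
    have h1 : (q.comp (Polynomial.X - Polynomial.C 1)).natDegree ≤ q.natDegree := by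
      refine Polynomial.natDegree_comp_le.trans ?_
      rw [Polynomial.natDegree_X_sub_C, mul_one]
    omega
  · rw [Polynomial.eval_mul, Polynomial.eval_comp]
    rcases Nat.eq_zero_or_pos i with rfl | hi
    · have h2 : p.eval (((0 : ℕ) : ℚ)) = 0 := by rw [← hp' 0, h0, map_zero]
      rw [h2, h0, map_zero, zero_mul, zero_mul]
    · obtain ⟨j, rfl⟩ : ∃ j, i = j + 1 := ⟨i - 1, by omega⟩
      rw [Nat.add_sub_cancel, hp', hq']
      congr 2
      simp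

lemma co0 {a : ℚ⟦X⟧} (h : (X : ℚ⟦X⟧) ∣ a) : coeff 0 a = 0 := by
  rw [coeff_zero_eq_constantCoeff_apply]
  exact X_dvd_iff.1 h

lemma Sn.mul {n : ℕ} {a b : ℕ → ℚ⟦X⟧} (ha : Sn n a) (hb : Sn n b) :
    Sn n (fun i => a i * b i) := fun r hr =>
  key a b fun k l h => pair h (ha k (by omega)) (hb l (by omega))

lemma Sn.shift {n : ℕ} {a b : ℕ → ℚ⟦X⟧} (h0 : a 0 = 0) (ha : Sn n a) (hb : Sn n b) :
    Sn n (fun i => a i * b (i - 1)) := fun r hr =>
  key a (fun i => b (i - 1)) fun k l h => pair_shift h0 h (ha k (by omega)) (hb l (by omega))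

lemma Sn.mul' {n : ℕ} {a b : ℕ → ℚ⟦X⟧} (ha0 : ∀ i, (X : ℚ⟦X⟧) ∣ a i)
    (hb0 : ∀ i, (X : ℚ⟦X⟧) ∣ b i) (ha : Sn n a) (hb : Sn n b) :
    Sn (n + 1) (fun i => a i * b i) := fun r hr => by
  refine key a b fun k l h => ?_
  rcases Nat.eq_zero_or_pos k with rfl | hk
  · exact ⟨0, by simp, fun i => by rw [co0 (ha0 i), zero_mul, Polynomial.eval_zero]⟩
  rcases Nat.eq_zero_or_pos l with rfl | hl
  · exact ⟨0, by simp, fun i => by rw [co0 (hb0 i), mul_zero, Polynomial.eval_zero]⟩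
  exact pair h (ha k (by omega)) (hb l (by omega))

lemma Sn.shift' {n : ℕ} {a b : ℕ → ℚ⟦X⟧} (h0 : a 0 = 0) (ha0 : ∀ i, (X : ℚ⟦X⟧) ∣ a i)
    (hb0 : ∀ i, (X : ℚ⟦X⟧) ∣ b i) (ha : Sn n a) (hb : Sn n b) :
    Sn (n + 1) (fun i => a i * b (i - 1)) := fun r hr => by
  refine key a (fun i => b (i - 1)) fun k l h => ?_
  rcases Nat.eq_zero_or_pos k with rfl | hk
  · exact ⟨0, by simp, fun i => by rw [co0 (ha0 i), zero_mul, Polynomial.eval_zero]⟩
  rcases Nat.eq_zero_or_pos l with rfl | hl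
  · exact ⟨0, by simp, fun i => by rw [co0 (hb0 _), mul_zero, Polynomial.eval_zero]⟩
  exact pair_shift h0 h (ha k (by omega)) (hb l (by omega))

lemma of_Sy {a : ℕ → ℚ⟦X⟧} {σ : ℚ⟦X⟧} (h : Sy a σ) (n : ℕ) : Sn n a := fun r _ => by
  obtain ⟨p, hp, -, hp'⟩ := h r
  exact ⟨p, hp, hp'⟩

lemma MM_dvd {a ρ : ℕ → ℚ⟦X⟧} (ha : ∀ i, (X : ℚ⟦X⟧) ∣ a i) (hρ : ∀ i, (X : ℚ⟦X⟧) ∣ ρ i)
    (m i : ℕ) : (X : ℚ⟦X⟧) ∣ MM a ρ (m + 1) i :=
  dvd_add ((ha i).mul_right _) ((hρ i).mul_right _)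

lemma MM_Sn {a ρ : ℕ → ℚ⟦X⟧} {n : ℕ} (ha : Sn n a) (hρ : Sn n ρ) (h0 : ρ 0 = 0) (m : ℕ) :
    Sn n (MM a ρ m) := by
  induction m with
  | zero => exact Sn.const n 1
  | succ m ih => exact (ha.mul ih).add (Sn.shift h0 hρ ih)

lemma MM_Sn' {a ρ : ℕ → ℚ⟦X⟧} {n : ℕ} (ha : Sn n a) (hρ : Sn n ρ) (h0 : ρ 0 = 0)
    (ha0 : ∀ i, (X : ℚ⟦X⟧) ∣ a i) (hρ0 : ∀ i, (X : ℚ⟦X⟧) ∣ ρ i) (m : ℕ) :
    Sn (n + 1) (MM a ρ (m + 2)) :=
  (Sn.mul' ha0 (MM_dvd ha0 hρ0 m) ha (MM_Sn ha hρ h0 (m + 1))).add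
    (Sn.shift' h0 hρ0 (MM_dvd ha0 hρ0 m) hρ (MM_Sn ha hρ h0 (m + 1)))

end Pool.Agent.WD3.RHO

namespace Pool.Agent.WD3

open Pool.Agent.LibH11 Pool.Agent.IT Pool.Agent.GK Pool.Agent.TwoBr Pool.Agent.WD Pool.Agent.WD2
open scoped BigOperators
open PowerSeries RHO

theorem t_RHO : RHO_Stmt := by
  intro M a α γ Γ ρ hM ha ha0 hγ hΓ hρ0 hρ00 heq
  obtain ⟨M, rfl⟩ : ∃ M', M = M' + 1 := ⟨M - 1, by omega⟩
  set g : ℚ := constantCoeff (Γ 1) with hg
  -- the constant coefficient of `γ 1`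
  have hg1 : ∀ i, constantCoeff (γ 1 i) = g := by
    intro i
    obtain ⟨p, hp, hp1, hp2⟩ := hγ 1 0
    rw [← coeff_zero_eq_constantCoeff_apply, hp2 i, hg, ← coeff_zero_eq_constantCoeff_apply, ← hp1]
    rw [Polynomial.eq_C_of_natDegree_le_zero hp]
    simp
  have hδ0 : ∀ i, (X : ℚ⟦X⟧) ∣ γ 1 i + -C g := by
    intro i
    rw [X_dvd_iff, map_add, map_neg, hg1, constantCoeff_C]
    ring
  have main : ∀ n : ℕ, Sn n ρ := by
    intro n
    induction n with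
    | zero => intro r hr; omega
    | succ n ih =>
      rcases Nat.eq_zero_or_pos n with rfl | hn
      · intro r hr
        obtain rfl : r = 0 := by omega
        exact ⟨0, by simp, fun i => by rw [co0 (hρ0 i), Polynomial.eval_zero]⟩
      · have hsn := of_Sy ha n
        have e1 : ∀ i, ρ i = C g⁻¹ * (-(γ 0 i + γ 1 i * a i +
            ∑ m ∈ Finset.range M, γ (m + 2) i * MM a ρ (m + 2) i) +
            -((γ 1 i + -C g) * ρ i)) := by
          intro i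
          have h1 := heq i
          rw [Finset.sum_range_succ', Finset.sum_range_succ'] at h1
          have h2 : MM a ρ (0 + 1) i = a i + ρ i := by
            show a i * MM a ρ 0 i + ρ i * MM a ρ 0 (i - 1) = _
            show a i * 1 + ρ i * 1 = _
            rw [mul_one, mul_one]
          have h3 : MM a ρ 0 i = 1 := rfl
          rw [h2, h3, mul_one] at h1
          have h4 : C g * ρ i = -(γ 0 i + γ 1 i * a i +
            ∑ m ∈ Finset.range M, γ (m + 2) i * MM a ρ (m + 2) i) +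
            -((γ 1 i + -C g) * ρ i) := by
            have h5 : (∑ k ∈ Finset.range M, γ (k + 1 + 1) i * MM a ρ (k + 1 + 1) i) =
              ∑ m ∈ Finset.range M, γ (m + 2) i * MM a ρ (m + 2) i := rfl
            rw [h5, zero_add] at h1
            linear_combination h1
          rw [← h4, ← mul_assoc, ← map_mul, inv_mul_cancel₀ hΓ, map_one, one_mul]
        have e2 : ρ = fun i => C g⁻¹ * (-(γ 0 i + γ 1 i * a i +
            ∑ m ∈ Finset.range M, γ (m + 2) i * MM a ρ (m + 2) i) +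
            -((γ 1 i + -C g) * ρ i)) := funext e1
        rw [e2]
        refine (Sn.const (n + 1) (C g⁻¹)).mul (Sn.add (Sn.neg (Sn.add (Sn.add
          (of_Sy (hγ 0) _) ((of_Sy (hγ 1) _).mul (of_Sy ha _))) (Sn.sum _ _ fun m _ =>
          (of_Sy (hγ (m + 2)) _).mul (MM_Sn' hsn ih hρ00 ha0 hρ0 m)))) (Sn.neg ?_))
        exact Sn.mul' hδ0 hρ0 ((of_Sy (hγ 1) n).add (Sn.const n (-C g))) ih
  have h : ∀ r : ℕ, Pl r ρ := fun r => main (r + 1) r (Nat.lt_succ_self r)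
  choose p hp hp' using h
  exact ⟨PowerSeries.mk fun r => (p r).coeff r, fun r => ⟨p r, hp r, by rw [coeff_mk], hp' r⟩⟩

end Pool.Agent.WD3
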