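import Pool.Agent.WD3.StH
import Pool.Agent.WD2.PLD

/-!
# Generalised doubles, module RPC: polynomiality
-/

set_option autoImplicit false

namespace Pool.Agent.WD3

open Pool.Agent.LibH11 Pool.Agent.IT Pool.Agent.GK Pool.Agent.TwoBr Pool.Agent.WD Pool.Agent.WD2
open scoped BigOperators
open PowerSeries

namespace RPC

theorem pE : PolyC (fun N => E (N : ℚ)) := by
  intro r
  refine ⟨Polynomial.C (1 / (r.factorial : ℚ)) * Polynomial.X ^ r, fun N _ => ?_⟩
  rw [Polynomial.eval_mul, Polynomial.eval_C, Polynomial.eval_pow, Polynomial.eval_X]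
  simp only [E, coeff_mk]
  ring

theorem pE' : PolyC (fun N => E (-(N : ℚ))) := by
  intro r
  refine ⟨Polynomial.C (1 / (r.factorial : ℚ)) * (-Polynomial.X) ^ r, fun N _ => ?_⟩
  rw [Polynomial.eval_mul, Polynomial.eval_C, Polynomial.eval_pow, Polynomial.eval_neg,
    Polynomial.eval_X]
  simp only [E, coeff_mk]
  ring

theorem add {F G : ℕ → ℚ⟦X⟧} (hF : PolyC F) (hG : PolyC G) : PolyC (fun N => F N + G N) := by
  intro r
  obtain ⟨p, hp⟩ := hF r
  obtain ⟨q, hq⟩ := hG r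
  exact ⟨p + q, fun N hN => by rw [map_add, hp N hN, hq N hN, Polynomial.eval_add]⟩

theorem pYf : PolyC (fun N => Yf (N : ℚ)) := PLD.sub (add pE pE') (PLD.const 2)

theorem pPow {F : ℕ → ℚ⟦X⟧} (hF : PolyC F) (m : ℕ) : PolyC (fun N => F N ^ m) := by
  induction m with
  | zero => simpa only [pow_zero] using PLD.const 1
  | succ m ih =>
    simp only [pow_succ]
    exact PLD.mul ih hF

end RPC

open RPC in
theorem t_RPC : RPC_Stmt := by
  intro J h hR r
  have h1 : PolyC (fun N => ∑ n ∈ Finset.range (r + 1), ∑ m ∈ Finset.range (r + 1),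
      C (h n m) * X ^ n * Yf (N : ℚ) ^ m) :=
    PLD.sum _ (fun n N => ∑ m ∈ Finset.range (r + 1), C (h n m) * X ^ n * Yf (N : ℚ) ^ m)
      fun n => PLD.sum _ (fun m N => C (h n m) * X ^ n * Yf (N : ℚ) ^ m) fun m =>
        PLD.mul (PLD.const _) (pPow pYf m)
  obtain ⟨p, hp⟩ := h1 r
  refine ⟨p, fun N hN => ?_⟩
  have h2 := hR N (r + 1) hN
  rw [X_pow_dvd_iff] at h2
  have h3 := h2 r (Nat.lt_succ_self r)
  rw [map_sub, sub_eq_zero] at h3
  rw [h3]
  exact hp N hN

end Pool.Agent.WD3
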