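import Pool.Agent.WD3.StH

set_option autoImplicit false

namespace Pool.Agent.WD3

open Pool.Agent.LibH11 Pool.Agent.IT Pool.Agent.GK Pool.Agent.TwoBr Pool.Agent.WD Pool.Agent.WD2
open scoped BigOperators
open PowerSeries

namespace RPD

theorem E_eq (a : ℚ) : E a = rescale a (PowerSeries.exp ℚ) := by
  ext n
  rw [E, coeff_mk, coeff_rescale, coeff_exp]
  simp [div_eq_mul_inv]

theorem E_add (a b : ℚ) : E (a + b) = E a * E b := by
  rw [E_eq, E_eq, E_eq, exp_mul_exp_eq_exp_add]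

theorem E_zero : E 0 = 1 := by
  ext n
  rw [E, coeff_mk, coeff_one]
  split_ifs with h
  · subst h; simp
  · simp [h]

theorem Yf_eq (a : ℚ) : Yf a = X ^ 2 * c2 a := by
  rw [X_sq_mul_c2]
  rfl

theorem X_dvd_Yf (a : ℚ) : (X : ℚ⟦X⟧) ∣ Yf a := by
  rw [Yf_eq]
  exact Dvd.intro (X * c2 a) (by ring)

theorem Yf_two (a : ℚ) : Yf (2 * a) = Yf a ^ 2 + 4 * Yf a := by
  have h1 : E (2 * a) = E a * E a := by rw [← E_add]; congr 1; ring
  have h2 : E (-(2 * a)) = E (-a) * E (-a) := by rw [← E_add]; congr 1; ring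
  have h3 : E a * E (-a) = 1 := by rw [← E_add, add_neg_cancel, E_zero]
  unfold Yf
  rw [h1, h2]
  linear_combination (-2) * h3

/-- the constants in the product -/
noncomputable def w (l : ℕ) : ℚ⟦X⟧ := Yf (2 * ((l : ℚ) + 1))

/-- the product as a polynomial in `Y` -/
noncomputable def g (i : ℕ) : Polynomial ℚ⟦X⟧ :=
  ∏ l ∈ Finset.range i, (Polynomial.X ^ 2 + 4 * Polynomial.X - Polynomial.C (w l))

theorem g_zero : g 0 = 1 := by simp [g]

theorem g_succ (i : ℕ) : g (i + 1) =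
    g i * (Polynomial.X ^ 2 + 4 * Polynomial.X - Polynomial.C (w i)) := by
  unfold g
  rw [Finset.prod_range_succ]

theorem g_eval (N i : ℕ) : (g i).eval (Yf N) = PT N i * X ^ (2 * i) := by
  induction i with
  | zero => simp [g_zero, PT_zero]
  | succ i ih =>
    have h1 : X ^ 2 * (c2 (2 * (N : ℚ)) - c2 (2 * ((i : ℚ) + 1))) =
        Yf N ^ 2 + 4 * Yf N - w i := by
      rw [mul_sub, ← Yf_eq, ← Yf_eq, Yf_two]
      rfl
    rw [g_succ, Polynomial.eval_mul, ih, PT_succ]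
    simp only [Polynomial.eval_sub, Polynomial.eval_add, Polynomial.eval_pow, Polynomial.eval_X,
      Polynomial.eval_mul, Polynomial.eval_C, Polynomial.eval_ofNat]
    rw [← h1]
    ring

theorem g_coeff_succ (i m : ℕ) : (g (i + 1)).coeff m =
    (if 2 ≤ m then (g i).coeff (m - 2) else 0) +
      4 * (if 1 ≤ m then (g i).coeff (m - 1) else 0) - w i * (g i).coeff m := by
  have h1 : g (i + 1) = g i * Polynomial.X ^ 2 + Polynomial.C 4 * (g i * Polynomial.X ^ 1) -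
      Polynomial.C (w i) * g i := by
    rw [g_succ]
    have : (Polynomial.C (4 : ℚ⟦X⟧)) = (4 : Polynomial ℚ⟦X⟧) := rfl
    rw [this]
    ring
  rw [h1, Polynomial.coeff_sub, Polynomial.coeff_add, Polynomial.coeff_C_mul,
    Polynomial.coeff_C_mul, Polynomial.coeff_mul_X_pow', Polynomial.coeff_mul_X_pow']

theorem g_coeff_dvd (i : ℕ) : ∀ m : ℕ, (X : ℚ⟦X⟧) ^ (i - m) ∣ (g i).coeff m := by
  induction i with
  | zero => intro m; simp
  | succ i ih =>
    intro m
    rw [g_coeff_succ]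
    refine dvd_sub (dvd_add ?_ (Dvd.dvd.mul_left ?_ _)) ?_
    · split_ifs with h
      · exact (pow_dvd_pow _ (by omega)).trans (ih (m - 2))
      · exact dvd_zero _
    · split_ifs with h
      · exact (pow_dvd_pow _ (by omega)).trans (ih (m - 1))
      · exact dvd_zero _
    · refine (pow_dvd_pow _ (show i + 1 - m ≤ 1 + (i - m) by omega)).trans ?_
      rw [pow_add, pow_one]
      exact mul_dvd_mul (X_dvd_Yf _) (ih m)

theorem g_const (i m : ℕ) : constantCoeff ((g i).coeff m) =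
    coeff m (((X : ℚ⟦X⟧) ^ 2 + 4 * X) ^ i) := by
  have h0 : ∀ l : ℕ, constantCoeff (w l) = 0 := by
    intro l
    have := X_dvd_Yf (2 * ((l : ℚ) + 1))
    rwa [X_dvd_iff] at this
  have h1 : (g i).map (constantCoeff (R := ℚ)) = (Polynomial.X ^ 2 + 4 * Polynomial.X) ^ i := by
    unfold g
    rw [Polynomial.map_prod, Finset.prod_congr rfl (g := fun _ =>
      (Polynomial.X ^ 2 + 4 * Polynomial.X : Polynomial ℚ))]
    · simp
    · intro l _
      simp [h0]
  have h2 : (((X : ℚ⟦X⟧) ^ 2 + 4 * X) ^ i) =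
      (((Polynomial.X ^ 2 + 4 * Polynomial.X) ^ i : Polynomial ℚ) : ℚ⟦X⟧) := by
    have h4 : ((4 : Polynomial ℚ) : ℚ⟦X⟧) = 4 := by
      have := Polynomial.coe_C (4 : ℚ)
      have e : (Polynomial.C (4 : ℚ)) = (4 : Polynomial ℚ) := rfl
      rw [e] at this
      rw [this]
      exact map_ofNat _ 4
    rw [Polynomial.coe_pow, Polynomial.coe_add, Polynomial.coe_mul, Polynomial.coe_pow,
      Polynomial.coe_X, h4]
  rw [h2, Polynomial.coeff_coe, ← h1, Polynomial.coeff_map]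

/-- the value of a polynomial modulo `X ^ R` -/
theorem eval_mod (p : Polynomial ℚ⟦X⟧) (y : ℚ⟦X⟧) (hy : (X : ℚ⟦X⟧) ∣ y) (R : ℕ) :
    (X : ℚ⟦X⟧) ^ R ∣ p.eval y - ∑ m ∈ Finset.range R, p.coeff m * y ^ m := by
  rw [Polynomial.eval_eq_sum_range' (show p.natDegree < R + (p.natDegree + 1) by omega),
    Finset.sum_range_add, add_sub_cancel_left]
  refine Finset.dvd_sum fun k _ => Dvd.dvd.mul_left ?_ _
  exact (pow_dvd_pow_of_dvd hy R).trans (pow_dvd_pow _ (Nat.le_add_right _ _))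

/-- a series modulo `X ^ R` -/
theorem series_mod (f : ℚ⟦X⟧) (R : ℕ) :
    (X : ℚ⟦X⟧) ^ R ∣ f - ∑ n ∈ Finset.range R, C (coeff n f) * X ^ n := by
  rw [X_pow_dvd_iff]
  intro m hm
  rw [map_sub, map_sum, Finset.sum_eq_single m]
  · rw [coeff_C_mul, coeff_X_pow_self, mul_one, sub_self]
  · intro n _ hn
    rw [coeff_C_mul, coeff_X_pow, if_neg (Ne.symm hn), mul_zero]
  · intro h
    exact absurd (Finset.mem_range.mpr hm) h

theorem both_mod (p : Polynomial ℚ⟦X⟧) (y : ℚ⟦X⟧) (hy : (X : ℚ⟦X⟧) ∣ y) (a : ℚ⟦X⟧) (R : ℕ) :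
    (X : ℚ⟦X⟧) ^ R ∣ a * p.eval y - ∑ n ∈ Finset.range R, ∑ m ∈ Finset.range R,
      C (coeff n (a * p.coeff m)) * X ^ n * y ^ m := by
  have h1 : (X : ℚ⟦X⟧) ^ R ∣ a * p.eval y - ∑ m ∈ Finset.range R, a * p.coeff m * y ^ m := by
    have := (eval_mod p y hy R).mul_left a
    rw [mul_sub, Finset.mul_sum] at this
    simpa only [mul_assoc] using this
  have h2 : (X : ℚ⟦X⟧) ^ R ∣ ∑ m ∈ Finset.range R, a * p.coeff m * y ^ m -
      ∑ n ∈ Finset.range R, ∑ m ∈ Finset.range R,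
      C (coeff n (a * p.coeff m)) * X ^ n * y ^ m := by
    rw [Finset.sum_comm, ← Finset.sum_sub_distrib]
    refine Finset.dvd_sum fun m _ => ?_
    rw [← Finset.sum_mul, ← sub_mul]
    exact (series_mod _ R).mul_right _
  have := dvd_add h1 h2
  rwa [sub_add_sub_cancel] at this

/-- the double series -/
noncomputable def h (c : ℕ → ℚ⟦X⟧) (n m : ℕ) : ℚ :=
  ∑ i ∈ Finset.range (n + m + 1), coeff n (c i * (g i).coeff m)

theorem h_eq (c : ℕ → ℚ⟦X⟧) (n m M : ℕ) (hM : n + m + 1 ≤ M) :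
    h c n m = ∑ i ∈ Finset.range M, coeff n (c i * (g i).coeff m) := by
  unfold h
  refine Finset.sum_subset (Finset.range_mono hM) fun i _ hi => ?_
  rw [Finset.mem_range, not_lt] at hi
  have h1 : (X : ℚ⟦X⟧) ^ (n + 1) ∣ c i * (g i).coeff m :=
    ((pow_dvd_pow _ (show n + 1 ≤ i - m by omega)).trans (g_coeff_dvd i m)).mul_left _
  rw [X_pow_dvd_iff] at h1
  exact h1 n (Nat.lt_succ_self n)

theorem rep (c J : ℕ → ℚ⟦X⟧)
    (hJ : ∀ N : ℕ, 1 ≤ N → J N = ∑ i ∈ Finset.range N, PT N i * X ^ (2 * i) * c i) :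
    Rep J (h c) := by
  intro N R hN
  set M := N + 2 * R with hM
  have e1 : J N = ∑ i ∈ Finset.range M, c i * (g i).eval (Yf N) := by
    rw [hJ N hN]
    have h1 : ∑ i ∈ Finset.range N, PT N i * X ^ (2 * i) * c i =
        ∑ i ∈ Finset.range M, PT N i * X ^ (2 * i) * c i := by
      refine Finset.sum_subset (Finset.range_mono (by omega)) fun i _ hi => ?_
      rw [Finset.mem_range, not_lt] at hi
      rw [PT_of_le hi hN, zero_mul, zero_mul]
    rw [h1]
    refine Finset.sum_congr rfl fun i _ => ?_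
    rw [g_eval]
    ring
  have e2 : ∑ n ∈ Finset.range R, ∑ m ∈ Finset.range R, C (h c n m) * X ^ n * Yf N ^ m =
      ∑ i ∈ Finset.range M, ∑ n ∈ Finset.range R, ∑ m ∈ Finset.range R,
        C (coeff n (c i * (g i).coeff m)) * X ^ n * Yf N ^ m := by
    symm
    rw [Finset.sum_comm]
    refine Finset.sum_congr rfl fun n hn => ?_
    rw [Finset.sum_comm]
    refine Finset.sum_congr rfl fun m hm => ?_
    rw [Finset.mem_range] at hn hm
    rw [h_eq c n m M (by omega), map_sum, Finset.sum_mul, Finset.sum_mul]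
  rw [e1, e2, ← Finset.sum_sub_distrib]
  exact Finset.dvd_sum fun i _ => both_mod (g i) (Yf N) (X_dvd_Yf _) (c i) R

theorem lead (c : ℕ → ℚ⟦X⟧) (R : ℕ) : (X : ℚ⟦X⟧) ^ R ∣ (PowerSeries.mk fun m => h c 0 m) -
      ∑ i ∈ Finset.range R, C (constantCoeff (c i)) * (X ^ 2 + 4 * X) ^ i := by
  rw [X_pow_dvd_iff]
  intro m hm
  rw [map_sub, coeff_mk, map_sum, h_eq c 0 m R (by omega), ← Finset.sum_sub_distrib]
  refine Finset.sum_eq_zero fun i _ => ?_
  rw [coeff_C_mul, ← g_const, coeff_zero_eq_constantCoeff_apply, map_mul, sub_self]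

end RPD

theorem t_RPD : RPD_Stmt := fun c J hJ => ⟨RPD.h c, RPD.rep c J hJ, RPD.lead c⟩

end Pool.Agent.WD3
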