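import Pool.Agent.WD3.StH

/-!
# Module RPG: the double series of a graph knot
-/

set_option autoImplicit false

namespace Pool.Agent.WD3

open Pool.Agent.LibH11 Pool.Agent.IT Pool.Agent.GK Pool.Agent.TwoBr Pool.Agent.WD Pool.Agent.WD2
open scoped BigOperators
open PowerSeries

namespace RPG

theorem rsE (a b : ℚ) : rescale a (E b) = E (a * b) := by
  ext n
  simp only [E, coeff_rescale, coeff_mk, mul_pow]
  ring

theorem rsY (N : ℚ) : rescale N (Yf 1) = Yf N := by
  unfold Yf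
  rw [map_sub, map_add, rsE, rsE, mul_one, mul_neg, mul_one, map_ofNat]

theorem rsC (a c : ℚ) : rescale a (C c : ℚ⟦X⟧) = C c := by
  ext n
  rw [coeff_rescale, coeff_C]
  rcases n with _ | n <;> simp

/-- even series -/
def Ev (f : ℚ⟦X⟧) : Prop := rescale (-1 : ℚ) f = f

theorem Yf_ev : Ev (Yf 1) := by
  unfold Ev
  rw [rsY]
  unfold Yf
  rw [neg_neg]
  ring

theorem Yf_eq (a : ℚ) : Yf a = X ^ 2 * c2 a := (X_sq_mul_c2 a).symm

theorem c2_one : constantCoeff (c2 1) = 1 := by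
  rw [← coeff_zero_eq_constantCoeff_apply]
  simp [c2]

theorem Yf_ne : Yf 1 ≠ 0 := by
  rw [Yf_eq]
  refine mul_ne_zero (pow_ne_zero _ X_ne_zero) fun h => ?_
  have := c2_one
  rw [h, map_zero] at this
  exact zero_ne_one this

/-- the quotient of `f - f 0` by `Yf 1` -/
noncomputable def T (f : ℚ⟦X⟧) : ℚ⟦X⟧ := PowerSeries.mk (fun n => coeff (n + 2) f) * (c2 1)⁻¹

theorem T_eq {f : ℚ⟦X⟧} (hf : Ev f) : f = C (constantCoeff f) + Yf 1 * T f := by
  have h1 : coeff 1 f = 0 := by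
    have := congrArg (coeff 1) hf
    rw [coeff_rescale] at this
    linarith
  have h2 : Yf 1 * T f = X ^ 2 * PowerSeries.mk (fun n => coeff (n + 2) f) := by
    rw [Yf_eq, T]
    have h3 : c2 1 * (c2 1)⁻¹ = 1 :=
      PowerSeries.mul_inv_cancel _ (by rw [c2_one]; exact one_ne_zero)
    calc X ^ 2 * c2 1 * (PowerSeries.mk (fun n => coeff (n + 2) f) * (c2 1)⁻¹)
        = X ^ 2 * PowerSeries.mk (fun n => coeff (n + 2) f) * (c2 1 * (c2 1)⁻¹) := by ring
      _ = _ := by rw [h3, mul_one]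
  rw [h2]
  ext n
  match n with
  | 0 => simp
  | 1 => simp [coeff_X_pow_mul', h1]
  | n + 2 => simp [coeff_X_pow_mul']

theorem T_ev {f : ℚ⟦X⟧} (hf : Ev f) : Ev (T f) := by
  have h := T_eq hf
  have h1 := congrArg (rescale (-1 : ℚ)) h
  rw [map_add, map_mul, hf, Yf_ev, rsC] at h1
  have h2 : Yf 1 * rescale (-1 : ℚ) (T f) = Yf 1 * T f := by
    have h3 := h.symm.trans h1
    exact (add_left_cancel h3).symm
  exact mul_left_cancel₀ Yf_ne h2

/-- the expansion of an even series -/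
theorem expand {f : ℚ⟦X⟧} (hf : Ev f) (R : ℕ) :
    f = ∑ m ∈ Finset.range R, C (constantCoeff (T^[m] f)) * Yf 1 ^ m + Yf 1 ^ R * T^[R] f ∧
      Ev (T^[R] f) := by
  induction R with
  | zero => simp [hf]
  | succ R ih =>
    obtain ⟨h1, h2⟩ := ih
    rw [Function.iterate_succ_apply', Finset.sum_range_succ]
    refine ⟨?_, T_ev h2⟩
    have h3 := T_eq h2
    calc f = ∑ m ∈ Finset.range R, C (constantCoeff (T^[m] f)) * Yf 1 ^ m +
          Yf 1 ^ R * T^[R] f := h1
      _ = ∑ m ∈ Finset.range R, C (constantCoeff (T^[m] f)) * Yf 1 ^ m +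
          Yf 1 ^ R * (C (constantCoeff (T^[R] f)) + Yf 1 * T (T^[R] f)) := by rw [← h3]
      _ = _ := by ring

theorem Yf_pow_dvd (a : ℚ) (R : ℕ) : (X : ℚ⟦X⟧) ^ R ∣ Yf a ^ R := by
  rw [Yf_eq]
  exact pow_dvd_pow_of_dvd (Dvd.intro_left _ (by rw [pow_two]; ring :
    (X * c2 a) * X = X ^ 2 * c2 a)) R

theorem b1_ne {a : ℚ} (ha : a ≠ 0) : constantCoeff (b1 a) ≠ 0 := by
  rw [constantCoeff_b1]
  exact mul_ne_zero two_ne_zero ha

theorem EE_ne : E 1 - E (-1) ≠ 0 := by
  rw [← X_mul_b1]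
  refine mul_ne_zero X_ne_zero fun h => b1_ne (a := 1) one_ne_zero ?_
  rw [h, map_zero]

/-- the quotient of an odd series by `E 1 - E (-1)` -/
noncomputable def Q (g : ℚ⟦X⟧) : ℚ⟦X⟧ := PowerSeries.mk (fun n => coeff (n + 1) g) * (b1 1)⁻¹

theorem Q_eq {g : ℚ⟦X⟧} (hg : ∀ m : ℕ, Even m → coeff m g = 0) :
    g = (E 1 - E (-1)) * Q g := by
  have h3 : b1 1 * (b1 1)⁻¹ = 1 := PowerSeries.mul_inv_cancel _ (b1_ne one_ne_zero)
  have h2 : (E 1 - E (-1)) * Q g = X * PowerSeries.mk (fun n => coeff (n + 1) g) := by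
    rw [← X_mul_b1, Q]
    calc X * b1 1 * (PowerSeries.mk (fun n => coeff (n + 1) g) * (b1 1)⁻¹)
        = X * PowerSeries.mk (fun n => coeff (n + 1) g) * (b1 1 * (b1 1)⁻¹) := by ring
      _ = _ := by rw [h3, mul_one]
  rw [h2]
  ext n
  cases n with
  | zero => simpa using hg 0 (by simp)
  | succ n => rw [coeff_succ_X_mul, coeff_mk]

theorem Q_ev {g : ℚ⟦X⟧} (hg : ∀ m : ℕ, Even m → coeff m g = 0) : Ev (Q g) := by
  have h1 : rescale (-1 : ℚ) g = -g := by
    ext n
    rw [coeff_rescale, map_neg]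
    rcases Nat.even_or_odd n with hn | hn
    · rw [hg n hn]
      simp
    · rw [hn.neg_one_pow]
      ring
  have h2 := congrArg (rescale (-1 : ℚ)) (Q_eq hg)
  rw [map_mul, h1, map_sub, rsE, rsE] at h2
  norm_num at h2
  have h3 : (E 1 - E (-1)) * rescale (-1 : ℚ) (Q g) = (E 1 - E (-1)) * Q g := by
    rw [← Q_eq hg]
    linear_combination h2
  exact mul_left_cancel₀ EE_ne h3

theorem evB_dvd (N : ℕ) (G : B) (R : ℕ) : (X : ℚ⟦X⟧) ^ R ∣ evB N G -
    ∑ k ∈ Finset.range R, X ^ k * rescale (N : ℚ) (coeff k G) := by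
  rw [X_pow_dvd_iff]
  intro m hm
  rw [map_sub, map_sum, evB, coeff_mk, sub_eq_zero]
  have h1 : ∀ k : ℕ, coeff m (X ^ k * rescale (N : ℚ) (coeff k G)) =
      if k ≤ m then coeff (m - k) (coeff k G) * (N : ℚ) ^ (m - k) else 0 := by
    intro k
    rw [coeff_X_pow_mul']
    split_ifs
    · rw [coeff_rescale, mul_comm]
    · rfl
  simp only [h1]
  rw [← Finset.sum_subset (Finset.range_mono (Nat.succ_le_of_lt hm)) (f := fun k =>
    if k ≤ m then coeff (m - k) (coeff k G) * (N : ℚ) ^ (m - k) else 0)]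
  · refine Finset.sum_congr rfl fun k hk => ?_
    rw [if_pos (by have := Finset.mem_range.mp hk; omega)]
  · intro k _ hk
    rw [if_neg (by intro h; exact hk (Finset.mem_range.mpr (by omega)))]

end RPG

open RPG in
theorem t_RPG (hCMB : CMB_Stmt) : RPG_Stmt := by
  intro G D J hG hD h0 hJ
  have hev : ∀ k, Ev (Q (coeff k G)) := fun k => Q_ev (hG k)
  refine ⟨fun k m => constantCoeff (T^[m] (Q (coeff k G))), ?_, hD, ?_⟩
  · intro N R hN
    have hN' : (N : ℚ) ≠ 0 := by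
      exact_mod_cast (by omega : N ≠ 0)
    -- the expansion of the dilated quotients
    have h1 : ∀ k, (X : ℚ⟦X⟧) ^ R ∣ rescale (N : ℚ) (Q (coeff k G)) -
        ∑ m ∈ Finset.range R, C (constantCoeff (T^[m] (Q (coeff k G)))) * Yf N ^ m := by
      intro k
      have h := congrArg (rescale (N : ℚ)) (expand (hev k) R).1
      rw [map_add, map_sum, map_mul, map_pow, rsY] at h
      simp only [map_mul, map_pow, rsY, rsC] at h
      rw [h, add_sub_cancel_left]
      exact Dvd.dvd.mul_right (Yf_pow_dvd _ _) _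
    -- the quotient of `evB N G`
    have h2 : (X : ℚ⟦X⟧) ^ R ∣ J N -
        ∑ k ∈ Finset.range (R + 1), X ^ k * rescale (N : ℚ) (Q (coeff k G)) := by
      have h3 := evB_dvd N G (R + 1)
      have h4 : evB N G - ∑ k ∈ Finset.range (R + 1), X ^ k * rescale (N : ℚ) (coeff k G) =
          X * (b1 N * (J N -
            ∑ k ∈ Finset.range (R + 1), X ^ k * rescale (N : ℚ) (Q (coeff k G)))) := by
        rw [← hJ N hN, ← mul_assoc, X_mul_b1, mul_sub, Finset.mul_sum]
        congr 1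
        refine Finset.sum_congr rfl fun k _ => ?_
        conv_lhs => rw [Q_eq (hG k)]
        rw [map_mul, map_sub, rsE, rsE, mul_one, mul_neg, mul_one]
        ring
      rw [h4, pow_succ'] at h3
      have h5 := (mul_dvd_mul_iff_left (X_ne_zero : (X : ℚ⟦X⟧) ≠ 0)).mp h3
      have h6 : IsUnit (b1 (N : ℚ)) := by
        rw [PowerSeries.isUnit_iff_constantCoeff]
        exact (b1_ne hN').isUnit
      exact h6.dvd_mul_left.mp h5
    have h7 : (X : ℚ⟦X⟧) ^ R ∣ J N -
        ∑ k ∈ Finset.range R, X ^ k * rescale (N : ℚ) (Q (coeff k G)) := by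
      rw [Finset.sum_range_succ, ← sub_sub] at h2
      exact (dvd_sub_left (Dvd.intro _ rfl)).mp h2
    have h8 : (X : ℚ⟦X⟧) ^ R ∣ ∑ k ∈ Finset.range R, X ^ k * (rescale (N : ℚ) (Q (coeff k G)) -
        ∑ m ∈ Finset.range R, C (constantCoeff (T^[m] (Q (coeff k G)))) * Yf N ^ m) :=
      Finset.dvd_sum fun k _ => Dvd.dvd.mul_left (h1 k) _
    have h9 := dvd_add h7 h8
    convert h9 using 1
    have h10 : ∀ k ∈ Finset.range R, X ^ k * (rescale (N : ℚ) (Q (coeff k G)) -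
        ∑ m ∈ Finset.range R, C (constantCoeff (T^[m] (Q (coeff k G)))) * Yf N ^ m) =
        X ^ k * rescale (N : ℚ) (Q (coeff k G)) -
          ∑ m ∈ Finset.range R, C (constantCoeff (T^[m] (Q (coeff k G)))) * X ^ k * Yf N ^ m := by
      intro k _
      rw [mul_sub, Finset.mul_sum]
      congr 1
      exact Finset.sum_congr rfl fun m _ => by ring
    rw [Finset.sum_congr rfl h10, Finset.sum_sub_distrib]
    ring
  · have hY0 : constantCoeff (Yf 1) = 0 := by
      rw [Yf_eq]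
      simp
    have hcm : Cm (PowerSeries.mk fun m => constantCoeff (T^[m] (Q (coeff 0 G)))) (Yf 1)
        (Q (coeff 0 G)) := by
      intro R
      simp only [coeff_mk]
      have h := (expand (hev 0) R).1
      have h' : Q (coeff 0 G) - ∑ m ∈ Finset.range R,
          C (constantCoeff (T^[m] (Q (coeff 0 G)))) * Yf 1 ^ m =
          Yf 1 ^ R * T^[R] (Q (coeff 0 G)) := by
        rw [sub_eq_iff_eq_add]
        rw [add_comm]
        exact h
      rw [h']
      exact Dvd.dvd.mul_right (Yf_pow_dvd _ _) _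
    refine (hCMB _ _ _ D hY0 Yf_ne hcm).mpr ?_
    refine mul_left_cancel₀ EE_ne ?_
    rw [← mul_assoc, ← Q_eq (hG 0), h0, mul_one]

end Pool.Agent.WD3
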