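import Pool.Agent.WD3.StH
import Pool.Agent.WD2.LDC

/-!
# The exchanged pair, companions with trivial leading term
-/

set_option autoImplicit false

namespace Pool.Agent.WD3

open Pool.Agent.LibH11 Pool.Agent.IT Pool.Agent.GK Pool.Agent.TwoBr Pool.Agent.WD Pool.Agent.WD2
open scoped BigOperators
open PowerSeries

namespace SWC

open Pool.Agent.WD2.LDC (cm0 cm1 cm2 cE0 cE1 cE2)

theorem cm3 (a b : ℚ⟦X⟧) : coeff 3 (a * b) = coeff 0 a * coeff 3 b + coeff 1 a * coeff 2 b +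
    coeff 2 a * coeff 1 b + coeff 3 a * coeff 0 b := by
  rw [coeff_mul]
  simp [Finset.Nat.antidiagonal_succ]
  ring

theorem Ez : E 0 = 1 := by
  ext n
  rcases n with _ | n
  · simp [E]
  · simp [E, coeff_one]

/-- `(E a - 1) / X` -/
noncomputable def e1 (a : ℚ) : ℚ⟦X⟧ :=
  PowerSeries.mk fun n => a ^ (n + 1) / ((n + 1).factorial : ℚ)

theorem X_mul_e1 (a : ℚ) : X * e1 a = E a - 1 := by
  ext n
  cases n with
  | zero => simp [E]
  | succ n =>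
    rw [mul_comm, coeff_succ_mul_X]
    simp [e1, E, coeff_one]

theorem c0 (a : ℚ) : coeff 0 (e1 a) = a := by simp [e1]

theorem c1 (a : ℚ) : coeff 1 (e1 a) = a ^ 2 / 2 := by
  simp [e1, Nat.factorial]
  norm_num

theorem c2' (a : ℚ) : coeff 2 (e1 a) = a ^ 3 / 6 := by
  simp [e1, Nat.factorial]
  norm_num

theorem co (a b c : ℚ) (T : ℚ⟦X⟧) : coeff 0 (C a + C b * X + C c * X ^ 2 + X ^ 3 * T) = a ∧
    coeff 1 (C a + C b * X + C c * X ^ 2 + X ^ 3 * T) = b ∧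
    coeff 2 (C a + C b * X + C c * X ^ 2 + X ^ 3 * T) = c := by
  refine ⟨?_, ?_, ?_⟩
  · simp
  · simp [coeff_X_pow_mul', coeff_C_mul, coeff_X_pow]
  · simp [coeff_X_pow_mul', coeff_C_mul, coeff_X_pow, coeff_X]

theorem exp_of {d : ℕ} {x z u v : ℚ} {J : ℕ → ℚ⟦X⟧} (h : LdE d x z u v J) (N : ℕ)
    (hN : 1 ≤ N) : ∃ W : ℚ⟦X⟧, J N = 1 + X ^ d * W ∧ coeff 0 W = x * ((N : ℚ) ^ 2 - 1) ∧
      coeff 1 W = z * ((N : ℚ) ^ 2 - 1) ∧
      coeff 2 W = ((N : ℚ) ^ 2 - 1) * (u * (N : ℚ) ^ 2 + v) := by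
  obtain ⟨T, hT⟩ := h N hN
  obtain ⟨h0, h1, h2⟩ := co (x * ((N : ℚ) ^ 2 - 1)) (z * ((N : ℚ) ^ 2 - 1))
    (((N : ℚ) ^ 2 - 1) * (u * (N : ℚ) ^ 2 + v)) T
  refine ⟨_, ?_, h0, h1, h2⟩
  linear_combination hT

theorem exp_both {d : ℕ} {x z u v : ℚ} {J : ℕ → ℚ⟦X⟧} (h : LdE d x z u v J) :
    ∃ W Z : ℚ⟦X⟧, J 3 = 1 + X ^ d * W ∧ J 5 = 1 + X ^ d * Z ∧
      (coeff 0 W = x * 8 ∧ coeff 1 W = z * 8 ∧ coeff 2 W = 8 * (u * 9 + v)) ∧
      coeff 0 Z = x * 24 ∧ coeff 1 Z = z * 24 ∧ coeff 2 Z = 24 * (u * 25 + v) := by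
  obtain ⟨W, hW, w0, w1, w2⟩ := exp_of h 3 (by norm_num)
  obtain ⟨Z, hZ, z0, z1, z2⟩ := exp_of h 5 (by norm_num)
  refine ⟨W, Z, hW, hZ, ⟨w0.trans ?_, w1.trans ?_, w2.trans ?_⟩, z0.trans ?_, z1.trans ?_,
    z2.trans ?_⟩ <;> (push_cast; ring)

theorem FF_one (hG0 : SG0_Stmt) (y : ℕ → ℚ⟦X⟧) (hy : y 0 = 1) :
    FF y 1 = gC 1 1 * (y 1 - 1) := by
  have h := hG0.2 1 (by norm_num)
  rw [Finset.sum_range_succ, Finset.sum_range_succ, Finset.sum_range_zero] at h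
  unfold FF
  rw [Finset.sum_range_succ, Finset.sum_range_succ, Finset.sum_range_zero, hy]
  linear_combination h

theorem FF_two (hG0 : SG0_Stmt) (y : ℕ → ℚ⟦X⟧) (hy : y 0 = 1) :
    FF y 2 = gC 2 1 * (y 1 - 1) + gC 2 2 * (y 2 - 1) := by
  have h := hG0.2 2 (by norm_num)
  rw [Finset.sum_range_succ, Finset.sum_range_succ, Finset.sum_range_succ,
    Finset.sum_range_zero] at h
  unfold FF
  rw [Finset.sum_range_succ, Finset.sum_range_succ, Finset.sum_range_succ,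
    Finset.sum_range_zero, hy]
  linear_combination h

theorem FU_one (hG0 : SG0_Stmt) (k : ℤ) : FU k 1 = gC 1 1 * (E (4 * k) - 1) := by
  unfold FU
  rw [FF_one hG0]
  · congr 3
    push_cast
    ring
  · simp only [Nat.cast_zero, mul_zero, zero_mul]
    exact Ez

theorem FU_two (hG0 : SG0_Stmt) (k : ℤ) :
    FU k 2 = gC 2 1 * (E (4 * k) - 1) + gC 2 2 * (E (12 * k) - 1) := by
  unfold FU
  rw [FF_two hG0]
  · congr 4
    · push_cast
      ring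
    · push_cast
      ring
  · simp only [Nat.cast_zero, mul_zero, zero_mul]
    exact Ez

theorem yt_zero (t : ℤ) (J : ℕ → ℚ⟦X⟧) (hJ : J 1 = 1) : yt t J 0 = 1 := by
  unfold yt
  simp only [Nat.cast_zero, mul_zero, zero_mul, zero_add, hJ, mul_one]
  exact Ez

theorem yt_one (t : ℤ) (J : ℕ → ℚ⟦X⟧) : yt t J 1 = E (4 * t) * J 3 := by
  unfold yt
  congr 2
  push_cast
  ring

theorem yt_two (t : ℤ) (J : ℕ → ℚ⟦X⟧) : yt t J 2 = E (12 * t) * J 5 := by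
  unfold yt
  congr 2
  push_cast
  ring

/-- the coefficients of `FU k 2 / X` -/
noncomputable def Pk (a : ℚ) : ℚ⟦X⟧ := gC 2 1 * e1 (4 * a) + gC 2 2 * e1 (12 * a)

theorem FU_two' (hG0 : SG0_Stmt) (k : ℤ) : FU k 2 = X * Pk k := by
  rw [FU_two hG0, ← X_mul_e1, ← X_mul_e1]
  unfold Pk
  ring

/-- the second coefficients of `gC 2 1` and `gC 2 2` -/
theorem g21 (h0 : coeff 0 (gC 2 1) = -1 / 16) (h1 : coeff 1 (gC 2 1) = 0) :
    coeff 2 (gC 2 1) = 17 / 96 := by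
  have h := gC_mul 2 1
  have e : gC 2 1 * (b1 1 * b1 4) = -1 := by
    have hu : uF 2 * b1 3 ≠ 0 := by
      intro h5
      have h6 := congrArg constantCoeff h5
      rw [map_mul, constantCoeff_uF, constantCoeff_b1, map_zero] at h6
      norm_num [Nat.factorial] at h6
    apply mul_right_cancel₀ hu
    have h7 : uF 4 = uF 2 * b1 3 * b1 4 := by
      rw [show (4 : ℕ) = 3 + 1 from rfl, uF_succ, show (3 : ℕ) = 2 + 1 from rfl, uF_succ]
      norm_num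
    have h8 : uF 1 = b1 1 := by
      rw [show (1 : ℕ) = 0 + 1 from rfl, uF_succ, uF_zero]
      norm_num
    norm_num at h
    rw [h7, h8] at h
    linear_combination h
  have e2 := congrArg (coeff 2) e
  have b0 : ∀ a : ℚ, coeff 0 (b1 a) = 2 * a := fun a => by
    simp [b1]
    ring
  have b1' : ∀ a : ℚ, coeff 1 (b1 a) = 0 := fun a => by
    simp [b1]
  have b2 : ∀ a : ℚ, coeff 2 (b1 a) = a ^ 3 / 3 := fun a => by
    simp [b1, Nat.factorial]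
    ring
  have e3 : coeff 2 (-1 : ℚ⟦X⟧) = 0 := by
    rw [map_neg, coeff_one, if_neg (by norm_num), neg_zero]
  rw [e3, cm2, cm2, cm1, cm0, h0, h1, b0, b0, b1', b1', b2, b2] at e2
  linarith

theorem g22 (h0 : coeff 0 (gC 2 2) = 1 / 48) (h1 : coeff 1 (gC 2 2) = 0) :
    coeff 2 (gC 2 2) = -25 / 288 := by
  have h := gC_mul 2 2
  have e : gC 2 2 * (b1 3 * b1 4) = 1 := by
    have hu : uF 2 * b1 5 ≠ 0 := by
      intro h5
      have h6 := congrArg constantCoeff h5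
      rw [map_mul, constantCoeff_uF, constantCoeff_b1, map_zero] at h6
      norm_num [Nat.factorial] at h6
    apply mul_right_cancel₀ hu
    have h7 : uF 5 = uF 2 * b1 3 * b1 4 * b1 5 := by
      rw [show (5 : ℕ) = 4 + 1 from rfl, uF_succ, show (4 : ℕ) = 3 + 1 from rfl, uF_succ,
        show (3 : ℕ) = 2 + 1 from rfl, uF_succ]
      norm_num
    norm_num at h
    rw [h7, uF_zero] at h
    linear_combination h
  have e2 := congrArg (coeff 2) e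
  have b0 : ∀ a : ℚ, coeff 0 (b1 a) = 2 * a := fun a => by
    simp [b1]
    ring
  have b1' : ∀ a : ℚ, coeff 1 (b1 a) = 0 := fun a => by
    simp [b1]
  have b2 : ∀ a : ℚ, coeff 2 (b1 a) = a ^ 3 / 3 := fun a => by
    simp [b1, Nat.factorial]
    ring
  have e3 : coeff 2 (1 : ℚ⟦X⟧) = 0 := by
    rw [coeff_one, if_neg (by norm_num)]
  rw [e3, cm2, cm2, cm1, cm0, h0, h1, b0, b0, b1', b1', b2, b2] at e2
  linarith

theorem Pk_coeff (hGV : GCV_Stmt) (a : ℚ) : coeff 0 (Pk a) = 0 ∧ coeff 1 (Pk a) = a ^ 2 ∧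
    coeff 2 (Pk a) = 16 / 3 * a ^ 3 - a / 3 := by
  obtain ⟨-, ⟨p0, p1⟩, ⟨q0, q1⟩, -⟩ := hGV
  have p2 := g21 p0 p1
  have q2 := g22 q0 q1
  unfold Pk
  refine ⟨?_, ?_, ?_⟩
  · rw [map_add, cm0, cm0, p0, q0, c0, c0]
    ring
  · rw [map_add, cm1, cm1, p0, q0, p1, q1, c0, c0, c1, c1]
    ring
  · rw [map_add, cm2, cm2, p0, q0, p1, q1, p2, q2, c0, c0, c1, c1, c2', c2']
    ring

theorem Q_coeff (hGV : GCV_Stmt) (t x z u v : ℚ) (W Z : ℚ⟦X⟧) (hu : u = x / 3)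
    (w0 : coeff 0 W = x * 8) (w1 : coeff 1 W = z * 8) (w2 : coeff 2 W = 8 * (u * 9 + v))
    (z0 : coeff 0 Z = x * 24) (z1 : coeff 1 Z = z * 24) (z2 : coeff 2 Z = 24 * (u * 25 + v)) :
    coeff 0 (gC 2 1 * E (4 * t) * W + gC 2 2 * E (12 * t) * Z) = 0 ∧
    coeff 1 (gC 2 1 * E (4 * t) * W + gC 2 2 * E (12 * t) * Z) = 4 * t * x ∧
    coeff 2 (gC 2 1 * E (4 * t) * W + gC 2 2 * E (12 * t) * Z) =
      4 * t * z + 32 * t ^ 2 * x + 2 * x := by
  obtain ⟨-, ⟨p0, p1⟩, ⟨q0, q1⟩, -⟩ := hGV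
  have p2 := g21 p0 p1
  have q2 := g22 q0 q1
  refine ⟨?_, ?_, ?_⟩
  · rw [map_add, cm0, cm0, cm0, cm0, p0, q0, cE0, cE0, w0, z0]
    ring
  · rw [map_add, cm1, cm1, cm1, cm1, cm0, cm0, p0, q0, p1, q1, cE0, cE0, cE1, cE1, w0, z0,
      w1, z1]
    ring
  · rw [map_add, cm2, cm2, cm2, cm2, cm1, cm1, cm0, cm0, p0, q0, p1, q1, p2, q2, cE0, cE0, cE1,
      cE1, cE2, cE2, w0, z0, w1, z1, w2, z2, hu]
    ring

theorem deg_eq {d d' : ℕ} {U U' : ℚ⟦X⟧} (h : X ^ d * U = X ^ d' * U') (h0 : coeff 0 U ≠ 0)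
    (h0' : coeff 0 U' ≠ 0) : d = d' := by
  rcases lt_trichotomy d d' with h1 | h1 | h1
  · exfalso
    have h2 := congrArg (coeff d) h
    rw [coeff_X_pow_mul', coeff_X_pow_mul', if_pos le_rfl, if_neg (by omega),
      Nat.sub_self] at h2
    exact h0 h2
  · exact h1
  · exfalso
    have h2 := congrArg (coeff d') h
    rw [coeff_X_pow_mul', coeff_X_pow_mul', if_neg (by omega), if_pos le_rfl,
      Nat.sub_self] at h2
    exact h0' h2.symm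

/-- the relation for `i = 1` -/
theorem R1 (hG0 : SG0_Stmt) (hGV : GCV_Stmt) {t k : ℤ} {J J' : ℕ → ℚ⟦X⟧} (hJ : J 1 = 1)
    (hJ' : J' 1 = 1) (h : ∀ i, FU k i * FF (yt t J) i = FU t i * FF (yt k J') i) :
    e1 (4 * k) * E (4 * t) * (J 3 - 1) = e1 (4 * t) * E (4 * k) * (J' 3 - 1) := by
  have h1 := h 1
  rw [FF_one hG0 _ (yt_zero t J hJ), FF_one hG0 _ (yt_zero k J' hJ'), FU_one hG0, FU_one hG0,
    yt_one, yt_one] at h1
  have hg : gC 1 1 ≠ 0 := by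
    intro h2
    have h3 := hGV.1.1
    rw [h2, map_zero] at h3
    norm_num at h3
  have h4 : (E (4 * k) - 1) * E (4 * t) * (J 3 - 1) =
      (E (4 * t) - 1) * E (4 * k) * (J' 3 - 1) := by
    apply mul_left_cancel₀ (mul_ne_zero hg hg)
    linear_combination h1
  rw [← X_mul_e1, ← X_mul_e1] at h4
  apply mul_left_cancel₀ (X_ne_zero (R := ℚ))
  linear_combination h4

/-- a trivial family has a trivial partner -/
theorem triv {t k : ℤ} (ht : t ≠ 0) {J J' : ℕ → ℚ⟦X⟧}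
    (h1 : e1 (4 * k) * E (4 * t) * (J 3 - 1) = e1 (4 * t) * E (4 * k) * (J' 3 - 1))
    (hT : Triv J)
    (hc : Triv J' ∨ ∃ (d : ℕ) (x z u v : ℚ), 3 ≤ d ∧ LdE d x z u v J' ∧ x ≠ 0 ∧ u = x / 3) :
    Triv J' := by
  rcases hc with hc | ⟨d, x, z, u, v, -, hL, hx, -⟩
  · exact hc
  · exfalso
    obtain ⟨W, hW, w0, -, -⟩ := exp_of hL 3 (by norm_num)
    rw [hT 3 (by norm_num), sub_self, mul_zero, hW] at h1
    have h2 : X ^ d * (e1 (4 * t) * E (4 * k) * W) = 0 := by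
      linear_combination -h1
    rcases mul_eq_zero.1 h2 with h3 | h3
    · exact pow_ne_zero d X_ne_zero h3
    · have h4 := congrArg (coeff 0) h3
      rw [cm0, cm0, c0, cE0, w0, map_zero] at h4
      have ht' : (t : ℚ) ≠ 0 := by exact_mod_cast ht
      have h5 : (t : ℚ) * x = 0 := by
        push_cast at h4
        linarith
      exact (mul_ne_zero ht' hx) h5

end SWC

open SWC LDC in
theorem t_SWC (hG0 : SG0_Stmt) (hGV : GCV_Stmt) : SWC_Stmt := by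
  intro t k J J' ht hk htk hJ hJ' hc hc' h
  have h1 := R1 hG0 hGV hJ hJ' h
  rcases hc with hc | ⟨d, x, z, u, v, hd, hL, hx, hu⟩
  · exact ⟨hc, triv ht h1 hc hc'⟩
  rcases hc' with hc' | ⟨d', x', z', u', v', hd', hL', hx', hu'⟩
  · exact ⟨triv hk h1.symm hc' (Or.inr ⟨d, x, z, u, v, hd, hL, hx, hu⟩), hc'⟩
  exfalso
  have ht' : (t : ℚ) ≠ 0 := by exact_mod_cast ht
  have hk' : (k : ℚ) ≠ 0 := by exact_mod_cast hk
  have htk' : (k : ℚ) - t ≠ 0 := sub_ne_zero.2 (by exact_mod_cast (Ne.symm htk))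
  obtain ⟨W, Z, hW, hZ, ⟨w0, w1, w2⟩, z0, z1, z2⟩ := exp_both hL
  obtain ⟨W', Z', hW', hZ', ⟨w0', w1', w2'⟩, z0', z1', z2'⟩ := exp_both hL'
  have h2 : X ^ d * (e1 (4 * k) * E (4 * t) * W) = X ^ d' * (e1 (4 * t) * E (4 * k) * W') := by
    rw [hW, hW'] at h1
    linear_combination h1
  have hdd : d = d' := by
    refine deg_eq h2 ?_ ?_
    · rw [cm0, cm0, c0, cE0, mul_one, w0]
      exact mul_ne_zero (mul_ne_zero (by norm_num) hk') (mul_ne_zero hx (by norm_num))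
    · rw [cm0, cm0, c0, cE0, mul_one, w0']
      exact mul_ne_zero (mul_ne_zero (by norm_num) ht') (mul_ne_zero hx' (by norm_num))
  subst hdd
  have h3 : e1 (4 * k) * E (4 * t) * W = e1 (4 * t) * E (4 * k) * W' :=
    mul_left_cancel₀ (pow_ne_zero d X_ne_zero) h2
  have a0 := congrArg (coeff 0) h3
  have a1 := congrArg (coeff 1) h3
  rw [cm0, cm0, cm0, cm0, c0, c0, cE0, cE0, w0, w0'] at a0
  rw [cm1, cm1, cm1, cm1, cm0, cm0, c0, c0, c1, c1, cE0, cE0, cE1, cE1, w0, w0', w1, w1'] at a1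
  -- the relation for `i = 2`
  have h4 := h 2
  rw [FF_two hG0 _ (yt_zero t J hJ), FF_two hG0 _ (yt_zero k J' hJ'), yt_one, yt_one, yt_two,
    yt_two] at h4
  obtain ⟨p0, p1, p2⟩ := Pk_coeff hGV (k : ℚ)
  obtain ⟨p0', p1', p2'⟩ := Pk_coeff hGV (t : ℚ)
  obtain ⟨q0, q1, q2⟩ := Q_coeff hGV (t : ℚ) x z u v W Z hu w0 w1 w2 z0 z1 z2
  obtain ⟨q0', q1', q2'⟩ := Q_coeff hGV (k : ℚ) x' z' u' v' W' Z' hu' w0' w1' w2' z0' z1' z2'
  generalize hQ : gC 2 1 * E (4 * (t : ℚ)) * W + gC 2 2 * E (12 * (t : ℚ)) * Z = Q at *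
  generalize hQ' : gC 2 1 * E (4 * (k : ℚ)) * W' + gC 2 2 * E (12 * (k : ℚ)) * Z' = Q' at *
  have h5 : gC 2 1 * (E (4 * t) * J 3 - 1) + gC 2 2 * (E (12 * t) * J 5 - 1) =
      FU t 2 + X ^ d * Q := by
    rw [FU_two hG0, hW, hZ, ← hQ]
    ring
  have h6 : gC 2 1 * (E (4 * k) * J' 3 - 1) + gC 2 2 * (E (12 * k) * J' 5 - 1) =
      FU k 2 + X ^ d * Q' := by
    rw [FU_two hG0, hW', hZ', ← hQ']
    ring
  rw [h5, h6, FU_two' hG0, FU_two' hG0] at h4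
  have h7 : Pk k * Q = Pk t * Q' := by
    apply mul_left_cancel₀ (pow_ne_zero (d + 1) (X_ne_zero (R := ℚ)))
    linear_combination h4
  have b3 := congrArg (coeff 3) h7
  rw [cm3, cm3, p0, p1, p2, p0', p1', p2', q0, q1, q2, q0', q1', q2'] at b3
  -- the arithmetic
  have e0 : (k : ℚ) * x = t * x' := by linarith
  have e1' : (k : ℚ) * z - t * z' = 2 * (k - t) * (k * x) := by
    linear_combination a1 / 32 + (-4 * (k : ℚ) - 2 * t) * e0
  have e2 : ((k : ℚ) - t) * (k * x) * (4 * (k * t) - 5) = 0 := by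
    linear_combination (-3 / 2) * b3 + (3 / 2) * (32 * (t : ℚ) * k ^ 2 + 2 * t +
      64 / 3 * t ^ 2 * k - 4 / 3 * k) * e0 + 6 * k * t * e1'
  have e3 : 4 * ((k : ℚ) * t) - 5 = 0 := by
    rcases mul_eq_zero.1 e2 with h8 | h8
    · rcases mul_eq_zero.1 h8 with h9 | h9
      · exact absurd h9 htk'
      · exact absurd h9 (mul_ne_zero hk' hx)
    · exact h8
  have e4 : 4 * (k * t) = 5 := by
    have h8 : (4 : ℚ) * ((k : ℚ) * t) = 5 := by linarith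
    exact_mod_cast h8
  omega

end Pool.Agent.WD3
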