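import Pool.Agent.WD3.StH

/-!
# Generalised doubles: the exchanged pair
-/

set_option autoImplicit false

namespace Pool.Agent.WD3

open Pool.Agent.LibH11 Pool.Agent.IT Pool.Agent.GK Pool.Agent.TwoBr Pool.Agent.WD Pool.Agent.WD2
open scoped BigOperators
open PowerSeries

namespace SWD

/-- the coefficients of `t` twists are not zero -/
theorem fu_ne (hFTA : FTA_Stmt) (t : ℤ) (ht : t ≠ 0) (i : ℕ) : FU t i ≠ 0 := by
  obtain ⟨A, hA, hA0⟩ := hFTA t i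
  have h1 : constantCoeff A ≠ 0 := by
    rw [hA0]
    exact pow_ne_zero _ (neg_ne_zero.2 (Int.cast_ne_zero.2 ht))
  have h2 : A ≠ 0 := by
    intro h
    rw [h, map_zero] at h1
    exact h1 rfl
  rw [hA]
  exact mul_ne_zero (pow_ne_zero _ X_ne_zero) h2

theorem ne_zero_of_coeff (y : ℚ⟦X⟧) (h : coeff 1 y ≠ 0) : y ≠ 0 := by
  intro h0
  rw [h0, map_zero] at h
  exact h rfl

end SWD

open SWD in
/-- SWD -/
theorem t_SWD (hSYR : SYR_Stmt) (hFTA : FTA_Stmt) (hSYA : SYA_Stmt) (hCMB : CMB_Stmt)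
    (hFIN : FIN_Stmt) : SWD_Stmt := by
  intro t k J J' h h' D D' ht hk hJ hJ' hD hD' hdeg heq
  obtain ⟨y, hy0, hy1, hyeq, hS⟩ := hSYR t ht
  obtain ⟨y', hy0', hy1', hyeq', hS'⟩ := hSYR k hk
  obtain ⟨Ψ, σ, h1, -, h3, h4⟩ := hS J h hJ
  obtain ⟨Ψ', σ', h1', -, h3', h4'⟩ := hS' J' h' hJ'
  have hΨ : Ψ = Ψ' := by
    funext i
    have h5 := heq i
    rw [h1 i, h1' i] at h5
    refine mul_left_cancel₀ (mul_ne_zero (fu_ne hFTA k hk i) (fu_ne hFTA t ht i)) ?_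
    linear_combination h5
  have hσ : σ = σ' := by
    rw [← hΨ] at h3'
    exact hSYA.2.2.2.2 Ψ σ σ' h3 h3'
  have h6 : σ * Polynomial.aeval (2 + y) D = 1 :=
    (hCMB _ y σ D hy0 (ne_zero_of_coeff y hy1) h4).1 hD.inv
  have h7 : σ' * Polynomial.aeval (2 + y') D' = 1 :=
    (hCMB _ y' σ' D' hy0' (ne_zero_of_coeff y' hy1') h4').1 hD'.inv
  rw [← hσ] at h7
  have hσ0 : σ ≠ 0 := left_ne_zero_of_mul_eq_one h6
  have h8 : Polynomial.aeval (2 + y) D = Polynomial.aeval (2 + y') D' :=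
    mul_left_cancel₀ hσ0 (h6.trans h7.symm)
  exact hFIN t k D D' y y' ht hk hD.even hD'.even hdeg hy0 hy1 hy0' hy1' hyeq hyeq' h8

end Pool.Agent.WD3
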