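import Pool.Agent.WD3.StH

/-!
# SYA: families of series with polynomial coefficients
-/

set_option autoImplicit false

namespace Pool.Agent.WD3

open Pool.Agent.LibH11 Pool.Agent.IT Pool.Agent.GK Pool.Agent.TwoBr Pool.Agent.WD Pool.Agent.WD2
open scoped BigOperators
open PowerSeries

namespace SYA

theorem const (c : ℚ⟦X⟧) : Sy (fun _ => c) (C (constantCoeff c)) := by
  intro r
  refine ⟨Polynomial.C (coeff r c), ?_, ?_, fun i => ?_⟩
  · rw [Polynomial.natDegree_C]
    exact Nat.zero_le r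
  · rw [Polynomial.coeff_C, PowerSeries.coeff_C]
    by_cases hr : r = 0
    · subst hr
      rw [if_pos rfl, if_pos rfl]
      exact coeff_zero_eq_constantCoeff_apply c
    · rw [if_neg hr, if_neg hr]
  · rw [Polynomial.eval_C]

theorem add {a b : ℕ → ℚ⟦X⟧} {σ τ : ℚ⟦X⟧} (ha : Sy a σ) (hb : Sy b τ) :
    Sy (fun i => a i + b i) (σ + τ) := by
  intro r
  obtain ⟨p, hp1, hp2, hp3⟩ := ha r
  obtain ⟨q, hq1, hq2, hq3⟩ := hb r
  refine ⟨p + q, Polynomial.natDegree_add_le_of_degree_le hp1 hq1, ?_, fun i => ?_⟩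
  · rw [Polynomial.coeff_add, hp2, hq2, map_add]
  · rw [map_add, hp3, hq3, Polynomial.eval_add]

theorem neg {b : ℕ → ℚ⟦X⟧} {τ : ℚ⟦X⟧} (hb : Sy b τ) : Sy (fun i => -b i) (-τ) := by
  intro r
  obtain ⟨q, hq1, hq2, hq3⟩ := hb r
  refine ⟨-q, by rwa [Polynomial.natDegree_neg], ?_, fun i => ?_⟩
  · rw [Polynomial.coeff_neg, hq2, map_neg]
  · rw [map_neg, hq3, Polynomial.eval_neg]

theorem mul {a b : ℕ → ℚ⟦X⟧} {σ τ : ℚ⟦X⟧} (ha : Sy a σ) (hb : Sy b τ) :
    Sy (fun i => a i * b i) (σ * τ) := by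
  intro r
  choose p hp1 hp2 hp3 using ha
  choose q hq1 hq2 hq3 using hb
  refine ⟨∑ x ∈ Finset.HasAntidiagonal.antidiagonal r, p x.1 * q x.2, ?_, ?_, fun i => ?_⟩
  · refine Polynomial.natDegree_sum_le_of_forall_le _ _ fun x hx => ?_
    have h := Finset.HasAntidiagonal.mem_antidiagonal.1 hx
    have h1 := Polynomial.natDegree_mul_le (p := p x.1) (q := q x.2)
    have h2 := hp1 x.1
    have h3 := hq1 x.2
    omega
  · rw [Polynomial.finsetSum_coeff, PowerSeries.coeff_mul]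
    refine Finset.sum_congr rfl fun x hx => ?_
    have h := Finset.HasAntidiagonal.mem_antidiagonal.1 hx
    rw [← hp2, ← hq2, ← Polynomial.coeff_mul_add_eq_of_natDegree_le (hp1 x.1) (hq1 x.2), h]
  · rw [PowerSeries.coeff_mul, Polynomial.eval_finsetSum]
    refine Finset.sum_congr rfl fun x _ => ?_
    rw [hp3, hq3, Polynomial.eval_mul]

theorem exp (α β : ℚ) : Sy (fun i => E (α * i + β)) (E α) := by
  intro r
  have hdeg : (Polynomial.C α * Polynomial.X + Polynomial.C β).natDegree ≤ 1 :=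
    Polynomial.natDegree_linear_le
  refine ⟨Polynomial.C ((r.factorial : ℚ)⁻¹) *
    (Polynomial.C α * Polynomial.X + Polynomial.C β) ^ r, ?_, ?_, fun i => ?_⟩
  · refine (Polynomial.natDegree_C_mul_le _ _).trans ?_
    refine Polynomial.natDegree_pow_le.trans ?_
    calc r * (Polynomial.C α * Polynomial.X + Polynomial.C β).natDegree ≤ r * 1 :=
          Nat.mul_le_mul_left r hdeg
      _ = r := mul_one r
  · have h := Polynomial.coeff_pow_of_natDegree_le (m := r) hdeg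
    rw [mul_one] at h
    rw [Polynomial.coeff_C_mul, h]
    simp only [E, PowerSeries.coeff_mk, Polynomial.coeff_add, Polynomial.coeff_C_mul,
      Polynomial.coeff_X_one, Polynomial.coeff_C_succ, mul_one, add_zero]
    rw [div_eq_mul_inv, mul_comm]
  · simp only [E, PowerSeries.coeff_mk, Polynomial.eval_mul, Polynomial.eval_C,
      Polynomial.eval_pow, Polynomial.eval_add, Polynomial.eval_X]
    rw [div_eq_mul_inv, mul_comm]

theorem xmul {a : ℕ → ℚ⟦X⟧} {σ : ℚ⟦X⟧} (ha : Sy a σ) : Sy (fun i => X * a i) 0 := by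
  intro r
  rcases r with _ | r
  · refine ⟨0, ?_, ?_, fun i => ?_⟩
    · simp
    · simp
    · rw [PowerSeries.coeff_zero_X_mul, Polynomial.eval_zero]
  · obtain ⟨p, hp1, hp2, hp3⟩ := ha r
    refine ⟨p, hp1.trans (Nat.le_succ r), ?_, fun i => ?_⟩
    · rw [map_zero]
      exact Polynomial.coeff_eq_zero_of_natDegree_lt (Nat.lt_succ_of_le hp1)
    · rw [PowerSeries.coeff_succ_X_mul, hp3]

theorem uniq {a : ℕ → ℚ⟦X⟧} {σ τ : ℚ⟦X⟧} (h : Sy a σ) (h' : Sy a τ) : σ = τ := by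
  ext r
  obtain ⟨p, hp1, hp2, hp3⟩ := h r
  obtain ⟨q, hq1, hq2, hq3⟩ := h' r
  have hpq : p = q := by
    refine Polynomial.eq_of_infinite_eval_eq p q
      (Set.infinite_of_injective_forall_mem (f := fun i : ℕ => (i : ℚ)) Nat.cast_injective
        fun i => ?_)
    show p.eval (i : ℚ) = q.eval (i : ℚ)
    rw [← hp3, ← hq3]
  rw [← hp2, ← hq2, hpq]

end SYA

theorem t_SYA : SYA_Stmt :=
  ⟨SYA.const, fun a b σ τ ha hb => ⟨SYA.add ha hb, by
    have h := SYA.add ha (SYA.neg hb)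
    simpa only [sub_eq_add_neg] using h, SYA.mul ha hb⟩, SYA.exp,
    fun a σ ha => SYA.xmul ha, fun a σ τ h h' => SYA.uniq h h'⟩

end Pool.Agent.WD3
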