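import Pool.Agent.WD3.StH

/-!
# Generalised doubles, module SYC: families with polynomial coefficients, shifts and limits
-/

set_option autoImplicit false

namespace Pool.Agent.WD3

open scoped BigOperators
open PowerSeries

namespace SYC

/-- the coefficient of the highest possible degree is not changed by a shift -/
theorem coeff_shift (q : Polynomial ℚ) (l : ℕ) (h : q.natDegree ≤ l) (c : ℚ) :
    (Polynomial.taylor c q).coeff l = q.coeff l := by
  rcases h.eq_or_lt with h1 | h1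
  · rw [← h1, Polynomial.coeff_taylor_natDegree]
    rfl
  · rw [Polynomial.coeff_eq_zero_of_natDegree_lt h1,
      Polynomial.coeff_eq_zero_of_natDegree_lt (by rwa [Polynomial.natDegree_taylor])]

theorem shift (a b : ℕ → ℚ⟦X⟧) (σ τ : ℚ⟦X⟧) (h0 : a 0 = 0) (ha : Sy a σ) (hb : Sy b τ) :
    Sy (fun i => a i * b (i - 1)) (σ * τ) := by
  choose p hp1 hp2 hp3 using ha
  choose q hq1 hq2 hq3 using hb
  intro r
  refine ⟨∑ x ∈ Finset.HasAntidiagonal.antidiagonal r, p x.1 * Polynomial.taylor (-1) (q x.2), ?_, ?_, ?_⟩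
  · refine Polynomial.natDegree_sum_le_of_forall_le _ _ fun x hx => ?_
    rw [Finset.HasAntidiagonal.mem_antidiagonal] at hx
    refine Polynomial.natDegree_mul_le.trans ?_
    rw [Polynomial.natDegree_taylor]
    have h1 := hp1 x.1
    have h2 := hq1 x.2
    omega
  · rw [Polynomial.finsetSum_coeff, PowerSeries.coeff_mul]
    refine Finset.sum_congr rfl fun x hx => ?_
    rw [Finset.HasAntidiagonal.mem_antidiagonal] at hx
    have h1 : (p x.1 * Polynomial.taylor (-1) (q x.2)).coeff (x.1 + x.2) =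
        (p x.1).coeff x.1 * (Polynomial.taylor (-1) (q x.2)).coeff x.2 :=
      Polynomial.coeff_mul_add_eq_of_natDegree_le (hp1 x.1)
        (by rw [Polynomial.natDegree_taylor]; exact hq1 x.2)
    rw [hx] at h1
    rw [h1, coeff_shift _ _ (hq1 x.2), hp2, hq2]
  · intro i
    rw [PowerSeries.coeff_mul, Polynomial.eval_finsetSum]
    refine Finset.sum_congr rfl fun x _ => ?_
    rw [Polynomial.eval_mul, Polynomial.taylor_eval, ← hp3 x.1 i]
    rcases i with _ | i
    · rw [h0, map_zero, zero_mul, zero_mul]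
    · rw [hq3, Nat.add_sub_cancel]
      congr 2
      push_cast
      ring

theorem limit (a : ℕ → ℚ⟦X⟧) (σ : ℚ⟦X⟧) (b : ℕ → ℕ → ℚ⟦X⟧) (τ : ℕ → ℚ⟦X⟧)
    (h1 : ∀ i R : ℕ, (X : ℚ⟦X⟧) ^ R ∣ a i - ∑ m ∈ Finset.range R, b m i)
    (h2 : ∀ R : ℕ, (X : ℚ⟦X⟧) ^ R ∣ σ - ∑ m ∈ Finset.range R, τ m)
    (h3 : ∀ m : ℕ, Sy (b m) (τ m)) : Sy a σ := by
  choose p hp1 hp2 hp3 using h3
  intro r
  refine ⟨∑ m ∈ Finset.range (r + 1), p m r, ?_, ?_, ?_⟩
  · exact Polynomial.natDegree_sum_le_of_forall_le _ _ fun m _ => hp1 m r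
  · have h4 := (PowerSeries.X_pow_dvd_iff.1 (h2 (r + 1))) r (Nat.lt_succ_self r)
    rw [map_sub, map_sum, sub_eq_zero] at h4
    rw [h4, Polynomial.finsetSum_coeff]
    exact Finset.sum_congr rfl fun m _ => hp2 m r
  · intro i
    have h4 := (PowerSeries.X_pow_dvd_iff.1 (h1 i (r + 1))) r (Nat.lt_succ_self r)
    rw [map_sub, map_sum, sub_eq_zero] at h4
    rw [h4, Polynomial.eval_finsetSum]
    exact Finset.sum_congr rfl fun m _ => hp3 m r i

end SYC

theorem t_SYC : SYC_Stmt :=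
  ⟨fun a b σ τ h0 ha hb => SYC.shift a b σ τ h0 ha hb,
    fun a σ b τ h1 h2 h3 => SYC.limit a σ b τ h1 h2 h3⟩

end Pool.Agent.WD3
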