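import Pool.Agent.WD3.StH

/-!
# Generalised doubles: the module SYR, the symbol of the cyclotomic coefficients
-/

set_option autoImplicit false

namespace Pool.Agent.WD3

open Pool.Agent.LibH11 Pool.Agent.IT Pool.Agent.GK Pool.Agent.TwoBr Pool.Agent.WD Pool.Agent.WD2
open scoped BigOperators
open PowerSeries

namespace SYR

/-- the limit of the partial sums -/
noncomputable def lim (b : ℕ → ℚ⟦X⟧) : ℚ⟦X⟧ :=
  PowerSeries.mk fun r => coeff r (∑ m ∈ Finset.range (r + 1), b m)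

lemma lim_spec (b : ℕ → ℚ⟦X⟧) (hb : ∀ r, (X : ℚ⟦X⟧) ^ r ∣ b r) (R : ℕ) :
    (X : ℚ⟦X⟧) ^ R ∣ lim b - ∑ m ∈ Finset.range R, b m := by
  rw [X_pow_dvd_iff]
  intro r hr
  rw [map_sub, lim, coeff_mk, sub_eq_zero, map_sum, map_sum]
  refine Finset.sum_subset (fun x hx => ?_) (fun x hx hx' => ?_)
  · rw [Finset.mem_range] at hx ⊢
    omega
  · rw [Finset.mem_range] at hx hx'
    exact X_pow_dvd_iff.1 (hb x) r (by omega)

/-- the square and the triangle -/
lemma square (g : ℕ → ℕ → ℚ⟦X⟧) (hg : ∀ n m, (X : ℚ⟦X⟧) ^ (n + m) ∣ g n m) (R : ℕ) :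
    (X : ℚ⟦X⟧) ^ R ∣ ∑ n ∈ Finset.range R, ∑ m ∈ Finset.range R, g n m -
      ∑ r ∈ Finset.range R, ∑ n ∈ Finset.range (r + 1), g n (r - n) := by
  rw [Finset.sum_range_diag_flip R g, ← Finset.sum_sub_distrib]
  refine Finset.dvd_sum fun n hn => ?_
  have h1 : Finset.range (R - n) ⊆ Finset.range R := by
    intro x hx
    rw [Finset.mem_range] at hx ⊢
    omega
  rw [← Finset.sum_sdiff h1, add_sub_cancel_right]
  refine Finset.dvd_sum fun m hm => ?_
  rw [Finset.mem_sdiff, Finset.mem_range, Finset.mem_range] at hm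
  exact (pow_dvd_pow _ (by omega)).trans (hg n m)

lemma eq_of_dvd {a b : ℚ⟦X⟧} (h : ∀ R : ℕ, (X : ℚ⟦X⟧) ^ R ∣ a - b) : a = b := by
  rw [← sub_eq_zero]
  ext r
  rw [X_pow_dvd_iff.1 (h (r + 1)) r (Nat.lt_succ_self r), map_zero]

lemma FF_sub (y z : ℕ → ℚ⟦X⟧) (i : ℕ) : FF y i - FF z i = FF (fun j => y j - z j) i := by
  unfold FF
  rw [← Finset.sum_sub_distrib]
  exact Finset.sum_congr rfl fun j _ => by ring

lemma FF_dvd (y : ℕ → ℚ⟦X⟧) (R : ℕ) (h : ∀ j, (X : ℚ⟦X⟧) ^ R ∣ y j) (i : ℕ) :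
    (X : ℚ⟦X⟧) ^ R ∣ FF y i := by
  unfold FF
  exact Finset.dvd_sum fun j _ => (h j).mul_left _

lemma FF_smul (c : ℚ⟦X⟧) (y : ℕ → ℚ⟦X⟧) (i : ℕ) : FF (fun j => c * y j) i = c * FF y i := by
  unfold FF
  rw [Finset.mul_sum]
  exact Finset.sum_congr rfl fun j _ => by ring

lemma FF_sum {ι : Type} (s : Finset ι) (y : ι → ℕ → ℚ⟦X⟧) (i : ℕ) :
    FF (fun j => ∑ k ∈ s, y k j) i = ∑ k ∈ s, FF (y k) i := by
  unfold FF
  rw [Finset.sum_comm]
  refine Finset.sum_congr rfl fun j _ => ?_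
  rw [Finset.mul_sum]

lemma Sy_sum (hSYA : SYA_Stmt) {ι : Type} (s : Finset ι) (f : ι → ℕ → ℚ⟦X⟧) (σ : ι → ℚ⟦X⟧)
    (h : ∀ k ∈ s, Sy (f k) (σ k)) : Sy (fun i => ∑ k ∈ s, f k i) (∑ k ∈ s, σ k) := by
  classical
  induction s using Finset.induction_on with
  | empty =>
    have h1 := hSYA.1 0
    rw [map_zero, map_zero] at h1
    simpa using h1
  | insert a s ha ih =>
    have h1 := (hSYA.2.1 (f a) (fun i => ∑ k ∈ s, f k i) (σ a) (∑ k ∈ s, σ k)
      (h a (Finset.mem_insert_self a s)) (ih fun k hk => h k (Finset.mem_insert_of_mem hk))).1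
    have h2 : (fun i => ∑ k ∈ insert a s, f k i) = fun i => f a i + ∑ k ∈ s, f k i := by
      funext i
      exact Finset.sum_insert ha
    rw [h2, Finset.sum_insert ha]
    exact h1

end SYR

open SYR in
theorem t_SYR (hSYT : SYT_Stmt) (_hFTA : FTA_Stmt) (hSYA : SYA_Stmt) (hSYC : SYC_Stmt) :
    SYR_Stmt := by
  intro t ht
  obtain ⟨y, hy0, hy1, heq, Φ, hΦ1, hΦ2, hΦ3⟩ := hSYT t ht
  refine ⟨y, hy0, hy1, heq, fun J h hJ => ?_⟩
  have hXy : (X : ℚ⟦X⟧) ∣ y := X_dvd_iff.2 hy0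
  obtain ⟨g, hg⟩ : ∃ g : ℕ → ℕ → ℕ → ℚ⟦X⟧, g = fun i n m => C (h n m) * X ^ n * Φ m i := ⟨_, rfl⟩
  have hgd : ∀ i n m, (X : ℚ⟦X⟧) ^ (n + m) ∣ g i n m := by
    intro i n m
    rw [hg, pow_add]
    exact mul_dvd_mul (dvd_mul_left _ _) (hΦ2 m i)
  obtain ⟨b, hb⟩ : ∃ b : ℕ → ℕ → ℚ⟦X⟧, b = fun r i => ∑ n ∈ Finset.range (r + 1), g i n (r - n) :=
    ⟨_, rfl⟩
  have hbd : ∀ r i, (X : ℚ⟦X⟧) ^ r ∣ b r i := by
    intro r i
    rw [hb]
    refine Finset.dvd_sum fun n hn => ?_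
    rw [Finset.mem_range] at hn
    have h1 := hgd i n (r - n)
    rwa [Nat.add_sub_cancel' (by omega)] at h1
  have hτd : ∀ m, (X : ℚ⟦X⟧) ^ m ∣ C (h 0 m) * y ^ m := fun m =>
    (pow_dvd_pow_of_dvd hXy m).mul_left _
  refine ⟨fun i => lim fun r => b r i, lim fun m => C (h 0 m) * y ^ m, ?_, ?_, ?_, ?_⟩
  · -- the factorisation
    intro i
    apply eq_of_dvd
    intro R
    have h1 : (X : ℚ⟦X⟧) ^ R ∣ FF (yt t J) i -
        FF (fun j => E (2 * j * (j + 1) * t) * ∑ n ∈ Finset.range R, ∑ m ∈ Finset.range R,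
          C (h n m) * X ^ n * Yf (2 * j + 1) ^ m) i := by
      rw [FF_sub]
      apply FF_dvd
      intro j
      have h2 := hJ (2 * j + 1) R (by omega)
      push_cast at h2
      unfold yt
      rw [← mul_sub]
      exact h2.mul_left _
    have h3 : FF (fun j => E (2 * j * (j + 1) * t) * ∑ n ∈ Finset.range R, ∑ m ∈ Finset.range R,
          C (h n m) * X ^ n * Yf (2 * j + 1) ^ m) i =
        FU t i * ∑ n ∈ Finset.range R, ∑ m ∈ Finset.range R, g i n m := by
      have h4 : (fun j : ℕ => E (2 * j * (j + 1) * t) * ∑ n ∈ Finset.range R,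
          ∑ m ∈ Finset.range R, C (h n m) * X ^ n * Yf (2 * j + 1) ^ m) =
          fun j : ℕ => ∑ n ∈ Finset.range R, ∑ m ∈ Finset.range R, (C (h n m) * X ^ n) *
            (E (2 * j * (j + 1) * t) * Yf (2 * j + 1) ^ m) := by
        funext j
        rw [Finset.mul_sum]
        refine Finset.sum_congr rfl fun n _ => ?_
        rw [Finset.mul_sum]
        exact Finset.sum_congr rfl fun m _ => by ring
      rw [h4, FF_sum, Finset.mul_sum]
      refine Finset.sum_congr rfl fun n _ => ?_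
      rw [FF_sum, Finset.mul_sum]
      refine Finset.sum_congr rfl fun m _ => ?_
      rw [FF_smul, hΦ1 m i, hg]
      ring
    have h5 := square (g i) (hgd i) R
    have h6 := lim_spec (fun r => b r i) (fun r => hbd r i) R
    have h7 : ∑ m ∈ Finset.range R, b m i =
        ∑ r ∈ Finset.range R, ∑ n ∈ Finset.range (r + 1), g i n (r - n) := by
      rw [hb]
    rw [h3] at h1
    rw [← h7] at h5
    have h8 : FF (yt t J) i - FU t i * (lim fun r => b r i) =
        (FF (yt t J) i - FU t i * ∑ n ∈ Finset.range R, ∑ m ∈ Finset.range R, g i n m) +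
          FU t i * (∑ n ∈ Finset.range R, ∑ m ∈ Finset.range R, g i n m -
            ∑ m ∈ Finset.range R, b m i) -
          FU t i * ((lim fun r => b r i) - ∑ m ∈ Finset.range R, b m i) := by ring
    rw [h8]
    exact dvd_sub (dvd_add h1 (h5.mul_left _)) (h6.mul_left _)
  · -- the constant coefficient
    intro i
    obtain ⟨p, hp1, hp2, hp3⟩ := hΦ3 0 0
    have h1 : coeff 0 (Φ 0 i) = 1 := by
      rw [hp3 i, Polynomial.eq_C_of_natDegree_le_zero hp1, Polynomial.eval_C, hp2]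
      simp
    show constantCoeff (lim fun r => b r i) = h 0 0
    rw [← coeff_zero_eq_constantCoeff_apply, lim, coeff_mk, hb, hg]
    simp only [zero_add, Finset.range_one, Finset.sum_singleton, Nat.sub_self, pow_zero, mul_one]
    rw [coeff_C_mul, h1, mul_one]
  · -- the symbol
    refine hSYC.2 (fun i => lim fun r => b r i) (lim fun m => C (h 0 m) * y ^ m) b
      (fun m => C (h 0 m) * y ^ m) (fun i R => lim_spec (fun r => b r i) (fun r => hbd r i) R)
      (fun R => lim_spec _ hτd R) (fun r => ?_)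
    have h1 : ∀ n ∈ Finset.range (r + 1), Sy (fun i => g i n (r - n))
        (if n = 0 then C (h 0 r) * y ^ r else 0) := by
      intro n _
      rcases Nat.eq_zero_or_pos n with h0 | h0
      · subst h0
        rw [if_pos rfl, Nat.sub_zero]
        have h2 := (hSYA.2.1 (fun _ => C (h 0 r) * X ^ 0) (Φ r) _ _
          (hSYA.1 (C (h 0 r) * X ^ 0)) (hΦ3 r)).2.2
        have h3 : constantCoeff (C (h 0 r) * X ^ 0 : ℚ⟦X⟧) = h 0 r := by simp
        rw [h3] at h2
        rw [hg]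
        exact h2
      · rw [if_neg (by omega)]
        obtain ⟨n', rfl⟩ : ∃ n', n = n' + 1 := ⟨n - 1, by omega⟩
        have h2 := (hSYA.2.1 (fun _ => C (h (n' + 1) (r - (n' + 1))) * X ^ n')
          (Φ (r - (n' + 1))) _ _ (hSYA.1 _) (hΦ3 (r - (n' + 1)))).2.2
        have h3 := hSYA.2.2.2.1 _ _ h2
        have h4 : (fun i => g i (n' + 1) (r - (n' + 1))) = fun i => X *
            (C (h (n' + 1) (r - (n' + 1))) * X ^ n' * Φ (r - (n' + 1)) i) := by
          funext i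
          rw [hg]
          ring
        rw [h4]
        exact h3
    have h2 := Sy_sum hSYA (Finset.range (r + 1)) (fun n i => g i n (r - n)) _ h1
    rw [Finset.sum_ite_eq' (Finset.range (r + 1)) 0, if_pos (Finset.mem_range.2 (Nat.succ_pos r))]
      at h2
    rw [hb]
    exact h2
  · -- composition
    intro R
    simp only [coeff_mk]
    exact lim_spec _ hτd R

end Pool.Agent.WD3
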