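import Pool.Agent.WD3.StH

/-!
# Generalised doubles: the symbol of the powers of `Yf`
-/

set_option autoImplicit false

namespace Pool.Agent.WD3

open Pool.Agent.LibH11 Pool.Agent.IT Pool.Agent.GK Pool.Agent.TwoBr Pool.Agent.WD Pool.Agent.WD2
open scoped BigOperators
open PowerSeries

namespace SYT

/-- the Taylor coefficients at `2` -/
noncomputable def co (p : Polynomial ℚ) (m : ℕ) : ℚ := (Polynomial.taylor 2 p).coeff m

theorem aeval_two_add (p : Polynomial ℚ) (y : ℚ⟦X⟧) {M : ℕ} (hM : p.natDegree < M) :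
    Polynomial.aeval (2 + y) p = ∑ m ∈ Finset.range M, C (co p m) * y ^ m := by
  have h1 : Polynomial.aeval (2 + y) p = Polynomial.aeval y (Polynomial.taylor 2 p) := by
    rw [Polynomial.taylor_apply, Polynomial.aeval_comp]
    have h2 : Polynomial.aeval y (Polynomial.X + Polynomial.C 2 : Polynomial ℚ) = 2 + y := by
      rw [map_add, Polynomial.aeval_X, Polynomial.aeval_C, map_ofNat, add_comm]
    rw [h2]
  rw [h1, Polynomial.aeval_eq_sum_range' (by rwa [Polynomial.natDegree_taylor])]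
  refine Finset.sum_congr rfl fun m _ => ?_
  rw [PowerSeries.smul_eq_C_mul]
  rfl

theorem co_one (b : ℤ) :
    co (uc (b + 1)) 1 - co (uc b) 1 - (co (uc b) 1 - co (uc (b - 1)) 1) = b := by
  have h1 : uc (b + 1) = Polynomial.X * uc b - uc (b - 1) := by
    unfold uc
    rw [show b + 1 - 1 = (b - 1) + 1 by ring, Polynomial.Chebyshev.S_add_one]
  have h2 : (uc b).eval 2 = b := by
    unfold uc
    rw [Polynomial.Chebyshev.S_eval_two]
    push_cast
    ring
  have h3 : co (uc (b + 1)) 1 = (uc b).eval 2 + 2 * co (uc b) 1 - co (uc (b - 1)) 1 := by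
    unfold co
    rw [Polynomial.taylor_coeff_one, Polynomial.taylor_coeff_one, Polynomial.taylor_coeff_one, h1,
      Polynomial.derivative_sub, Polynomial.derivative_mul, Polynomial.derivative_X, one_mul,
      Polynomial.eval_sub, Polynomial.eval_add, Polynomial.eval_mul, Polynomial.eval_X]
  rw [h3, h2]
  ring

/-- `vc b` at `2` -/
theorem vc_eval (b : ℤ) : (vc b).eval 2 = 1 := by
  unfold vc uc
  rw [Polynomial.eval_sub, Polynomial.Chebyshev.S_eval_two, Polynomial.Chebyshev.S_eval_two]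
  push_cast
  ring

theorem X_dvd_Yf (a : ℚ) : (X : ℚ⟦X⟧) ∣ Yf a :=
  ⟨X * c2 a, by unfold Yf; rw [← X_sq_mul_c2]; ring⟩

/-- linearity of `FF` -/
theorem FF_sum (s : Finset ℕ) (f : ℕ → ℚ⟦X⟧) (g : ℕ → ℕ → ℚ⟦X⟧) (i : ℕ) :
    FF (fun j => ∑ m ∈ s, f m * g m j) i = ∑ m ∈ s, f m * FF (g m) i := by
  unfold FF
  simp only [Finset.mul_sum]
  rw [Finset.sum_comm]
  refine Finset.sum_congr rfl fun m _ => Finset.sum_congr rfl fun j _ => ?_
  ring

theorem FF_sub (f g : ℕ → ℚ⟦X⟧) (i : ℕ) : FF (fun j => f j - g j) i = FF f i - FF g i := by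
  unfold FF
  rw [← Finset.sum_sub_distrib]
  exact Finset.sum_congr rfl fun j _ => mul_sub _ _ _

theorem FF_mul (c : ℚ⟦X⟧) (f : ℕ → ℚ⟦X⟧) (i : ℕ) : FF (fun j => c * f j) i = c * FF f i := by
  unfold FF
  rw [Finset.mul_sum]
  refine Finset.sum_congr rfl fun j _ => ?_
  ring

/-- `MM` is divisible by powers of `X` -/
theorem MM_dvd {a ρ : ℕ → ℚ⟦X⟧} (ha : ∀ i, (X : ℚ⟦X⟧) ∣ a i) (hρ : ∀ i, (X : ℚ⟦X⟧) ∣ ρ i) :
    ∀ m i : ℕ, (X : ℚ⟦X⟧) ^ m ∣ MM a ρ m i := by
  intro m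
  induction m with
  | zero => intro i; rw [pow_zero]; exact one_dvd _
  | succ m ih =>
    intro i
    show X ^ (m + 1) ∣ a i * MM a ρ m i + ρ i * MM a ρ m (i - 1)
    rw [pow_succ']
    exact dvd_add (mul_dvd_mul (ha i) (ih i)) (mul_dvd_mul (hρ i) (ih (i - 1)))

/-- sums of families with polynomial coefficients -/
theorem Sy_sum (h : SYA_Stmt) (s : Finset ℕ) (a : ℕ → ℕ → ℚ⟦X⟧) (σ : ℕ → ℚ⟦X⟧)
    (ha : ∀ m, Sy (a m) (σ m)) : Sy (fun i => ∑ m ∈ s, a m i) (∑ m ∈ s, σ m) := by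
  classical
  induction s using Finset.induction_on with
  | empty =>
    have h1 := h.1 0
    rw [map_zero, map_zero] at h1
    simpa using h1
  | insert m s hm ih =>
    have h1 := (h.2.1 _ _ _ _ (ha m) ih).1
    rw [Finset.sum_insert hm]
    simp only [Finset.sum_insert hm]
    exact h1

/-- powers -/
theorem Sy_MM (hA : SYA_Stmt) (hC : SYC_Stmt) {a ρ : ℕ → ℚ⟦X⟧} {α ρ' : ℚ⟦X⟧} (ha : Sy a α)
    (hρ : Sy ρ ρ') (h0 : ρ 0 = 0) (m : ℕ) : Sy (MM a ρ m) ((α + ρ') ^ m) := by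
  induction m with
  | zero =>
    have h1 := hA.1 1
    rw [map_one, map_one] at h1
    rw [pow_zero]
    exact h1
  | succ m ih =>
    have h1 := (hA.2.1 _ _ _ _ ha ih).2.2
    have h2 := hC.1 _ _ _ _ h0 hρ ih
    have h3 := (hA.2.1 _ _ _ _ h1 h2).1
    have e : (α + ρ') ^ (m + 1) = α * (α + ρ') ^ m + ρ' * (α + ρ') ^ m := by ring
    rw [e]
    exact h3

theorem constantCoeff_E (a : ℚ) : constantCoeff (E a) = 1 := by
  rw [← coeff_zero_eq_constantCoeff_apply]
  simp [E]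

/-- the coefficient of `X` of a polynomial in `2 + y` vanishes if that of `y` does -/
theorem coeff_one_aeval (p : Polynomial ℚ) {y : ℚ⟦X⟧} (h0 : constantCoeff y = 0)
    (h1 : coeff 1 y = 0) : coeff 1 (Polynomial.aeval (2 + y) p) = 0 ∧
      coeff 0 (Polynomial.aeval (2 + y) p) = p.eval 2 := by
  have hd : (X : ℚ⟦X⟧) ^ 2 ∣ y := by
    rw [X_pow_dvd_iff]
    intro m hm
    have : m = 0 ∨ m = 1 := by omega
    rcases this with rfl | rfl
    · rw [coeff_zero_eq_constantCoeff_apply]; exact h0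
    · exact h1
  have h2 : (X : ℚ⟦X⟧) ^ 2 ∣ Polynomial.aeval (2 + y) p - C (p.eval 2) := by
    have h3 : Polynomial.aeval (2 : ℚ⟦X⟧) p = C (p.eval 2) := by
      have h4 : (2 : ℚ⟦X⟧) = algebraMap ℚ ℚ⟦X⟧ 2 := (map_ofNat _ 2).symm
      rw [h4, Polynomial.aeval_algebraMap_apply, Polynomial.coe_aeval_eq_eval]
      rfl
    rw [← h3]
    have h5 := Polynomial.sub_dvd_eval_sub (2 + y) 2 (p.map (algebraMap ℚ ℚ⟦X⟧))
    rw [Polynomial.eval_map_algebraMap, Polynomial.eval_map_algebraMap, add_sub_cancel_left] at h5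
    exact hd.trans h5
  rw [X_pow_dvd_iff] at h2
  have h3 := h2 1 (by norm_num)
  have h4 := h2 0 (by norm_num)
  rw [map_sub, coeff_C, if_neg (by norm_num), sub_zero] at h3
  rw [map_sub, coeff_C, if_pos rfl, sub_eq_zero] at h4
  exact ⟨h3, h4⟩

end SYT

open SYT in
/-- SYT -/
theorem t_SYT (hFTA : FTA_Stmt) (hREC : REC_Stmt) (hVRL : VRL_Stmt) (hRHO : RHO_Stmt)
    (hSYA : SYA_Stmt) (hSYC : SYC_Stmt) : SYT_Stmt := by
  intro t ht
  have htQ : (t : ℚ) ≠ 0 := by exact_mod_cast ht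
  choose A hA hA0 using fun i => hFTA t i
  have hAne : ∀ i, constantCoeff (A i) ≠ 0 := fun i => by
    rw [hA0]
    exact pow_ne_zero _ (neg_ne_zero.2 htQ)
  have hFUne : ∀ i, FU t i ≠ 0 := by
    intro i h
    rw [hA i] at h
    rcases mul_eq_zero.1 h with h1 | h1
    · exact pow_ne_zero i X_ne_zero h1
    · exact hAne i (by rw [h1, map_zero])
  set a : ℕ → ℚ⟦X⟧ := fun i => Yf (2 * i + 1) with ha
  set ρ : ℕ → ℚ⟦X⟧ := fun i => match i with
    | 0 => 0
    | i + 1 => -(X * b1 ((i : ℚ) + 1) * A i * (A (i + 1))⁻¹) with hρ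
  have hρ0 : ρ 0 = 0 := rfl
  have hρs : ∀ i, ρ (i + 1) = -(X * b1 ((i : ℚ) + 1) * A i * (A (i + 1))⁻¹) := fun i => rfl
  have hXa : ∀ i, (X : ℚ⟦X⟧) ∣ a i := fun i => X_dvd_Yf _
  have hXρ : ∀ i, (X : ℚ⟦X⟧) ∣ ρ i := by
    intro i
    cases i with
    | zero => rw [hρ0]; exact dvd_zero _
    | succ i =>
      rw [hρs]
      exact ⟨-(b1 ((i : ℚ) + 1) * A i * (A (i + 1))⁻¹), by ring⟩
  have hFρ : ∀ i, FU t (i + 1) * ρ (i + 1) = -(X ^ 2 * b1 ((i : ℚ) + 1) * FU t i) := by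
    intro i
    rw [hρs, hA (i + 1), hA i]
    have h1 : A (i + 1) * (A (i + 1))⁻¹ = 1 := PowerSeries.mul_inv_cancel _ (hAne _)
    calc X ^ (i + 1) * A (i + 1) * -(X * b1 ((i : ℚ) + 1) * A i * (A (i + 1))⁻¹)
        = -(X ^ 2 * b1 ((i : ℚ) + 1) * (X ^ i * A i)) * (A (i + 1) * (A (i + 1))⁻¹) := by ring
      _ = _ := by rw [h1, mul_one]
  -- the first claim
  set f : ℕ → ℚ⟦X⟧ := fun j => E (2 * j * (j + 1) * t) with hf
  have hΦ : ∀ m i, FF (fun j => f j * Yf (2 * j + 1) ^ m) i = FU t i * MM a ρ m i := by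
    intro m
    induction m with
    | zero =>
      intro i
      show _ = FU t i * 1
      rw [mul_one]
      unfold FU
      congr 1
      funext j
      rw [pow_zero, mul_one]
    | succ m ih =>
      intro i
      have e1 : (fun j : ℕ => f j * Yf (2 * j + 1) ^ (m + 1)) =
          fun j : ℕ => Yf (2 * j + 1) * (f j * Yf (2 * j + 1) ^ m) := by
        funext j
        ring
      rw [e1]
      cases i with
      | zero =>
        rw [(hREC _).1, ih 0]
        show _ = FU t 0 * (a 0 * MM a ρ m 0 + ρ 0 * MM a ρ m (0 - 1))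
        rw [hρ0, zero_mul, add_zero]
        have e2 : a 0 = Yf 1 := by
          rw [ha]
          simp
        rw [e2]
        ring
      | succ i =>
        rw [(hREC _).2 i, ih (i + 1), ih i]
        show _ = FU t (i + 1) * (a (i + 1) * MM a ρ m (i + 1) + ρ (i + 1) * MM a ρ m i)
        have e2 : a (i + 1) = Yf (2 * ((i : ℚ) + 1) + 1) := by
          rw [ha]
          push_cast
          rfl
        rw [e2]
        linear_combination (-(MM a ρ m i)) * hFρ i
  -- polynomials in `2 + Yf`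
  set M : ℕ := (uc (t + 1)).natDegree + (uc t).natDegree + (uc (t - 1)).natDegree + 1 with hM
  have hpoly : ∀ p : Polynomial ℚ, p.natDegree < M + 1 → ∀ i,
      FF (fun j => f j * Polynomial.aeval (2 + Yf (2 * j + 1)) p) i =
        FU t i * ∑ m ∈ Finset.range (M + 1), C (co p m) * MM a ρ m i := by
    intro p hp i
    have e1 : (fun j : ℕ => f j * Polynomial.aeval (2 + Yf (2 * j + 1)) p) =
        fun j : ℕ => ∑ m ∈ Finset.range (M + 1), C (co p m) * (f j * Yf (2 * j + 1) ^ m) := by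
      funext j
      rw [aeval_two_add p _ hp, Finset.mul_sum]
      refine Finset.sum_congr rfl fun m _ => ?_
      ring
    rw [e1, FF_sum, Finset.mul_sum]
    refine Finset.sum_congr rfl fun m _ => ?_
    rw [hΦ m i]
    ring
  set γ : ℕ → ℕ → ℚ⟦X⟧ := fun m i => (E 1 * C (co (uc (t + 1)) m) - C (co (uc t) m)) -
    E (2 * i + 1) * (E 1 * C (co (uc t) m) - C (co (uc (t - 1)) m)) with hγ
  set Γ : ℕ → ℚ⟦X⟧ := fun m => C (co (uc (t + 1)) m - co (uc t) m) -
    E 2 * C (co (uc t) m - co (uc (t - 1)) m) with hΓ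
  have hd1 : (uc (t + 1)).natDegree < M + 1 := by omega
  have hd2 : (uc t).natDegree < M + 1 := by omega
  have hd3 : (uc (t - 1)).natDegree < M + 1 := by omega
  have hrel : ∀ i, ∑ m ∈ Finset.range (M + 1), γ m i * MM a ρ m i = 0 := by
    intro i
    have h1 := hVRL t i
    have e1 : (fun j : ℕ => E (2 * j * (j + 1) * t) *
        (E 1 * Polynomial.aeval (2 + Yf (2 * j + 1)) (uc (t + 1)) -
          Polynomial.aeval (2 + Yf (2 * j + 1)) (uc t))) =
        fun j : ℕ => E 1 * (f j * Polynomial.aeval (2 + Yf (2 * j + 1)) (uc (t + 1))) -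
          f j * Polynomial.aeval (2 + Yf (2 * j + 1)) (uc t) := by
      funext j
      rw [hf]
      ring
    have e2 : (fun j : ℕ => E (2 * j * (j + 1) * t) *
        (E 1 * Polynomial.aeval (2 + Yf (2 * j + 1)) (uc t) -
          Polynomial.aeval (2 + Yf (2 * j + 1)) (uc (t - 1)))) =
        fun j : ℕ => E 1 * (f j * Polynomial.aeval (2 + Yf (2 * j + 1)) (uc t)) -
          f j * Polynomial.aeval (2 + Yf (2 * j + 1)) (uc (t - 1)) := by
      funext j
      rw [hf]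
      ring
    rw [e1, e2, FF_sub, FF_sub, FF_mul, FF_mul, hpoly _ hd1, hpoly _ hd2, hpoly _ hd3] at h1
    have h2 : FU t i * ∑ m ∈ Finset.range (M + 1), γ m i * MM a ρ m i = 0 := by
      have e3 : ∑ m ∈ Finset.range (M + 1), γ m i * MM a ρ m i =
          (E 1 * ∑ m ∈ Finset.range (M + 1), C (co (uc (t + 1)) m) * MM a ρ m i) -
          (∑ m ∈ Finset.range (M + 1), C (co (uc t) m) * MM a ρ m i) -
          E (2 * i + 1) * ((E 1 * ∑ m ∈ Finset.range (M + 1), C (co (uc t) m) * MM a ρ m i) -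
            ∑ m ∈ Finset.range (M + 1), C (co (uc (t - 1)) m) * MM a ρ m i) := by
        simp only [Finset.mul_sum, ← Finset.sum_sub_distrib]
        refine Finset.sum_congr rfl fun m _ => ?_
        rw [hγ]
        ring
      rw [e3]
      linear_combination h1
    rcases mul_eq_zero.1 h2 with h3 | h3
    · exact absurd h3 (hFUne i)
    · exact h3
  -- symbols
  have hSa : Sy a (E 2 + E (-2) - 2) := by
    have h1 := hSYA.2.2.1 2 1
    have h2 := hSYA.2.2.1 (-2) (-1)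
    have h3 := hSYA.1 2
    have h4 := (hSYA.2.1 _ _ _ _ h1 h2).1
    have h5 := (hSYA.2.1 _ _ _ _ h4 h3).2.1
    have e1 : (C (constantCoeff (2 : ℚ⟦X⟧)) : ℚ⟦X⟧) = 2 := by
      rw [map_ofNat, map_ofNat]
    rw [e1] at h5
    have e2 : a = fun i : ℕ => E (2 * i + 1) + E (-2 * i + -1) - 2 := by
      funext i
      rw [ha]
      show Yf (2 * i + 1) = _
      unfold Yf
      congr 2
      congr 1
      ring
    rw [e2]
    exact h5
  have hSγ : ∀ m, Sy (γ m) (Γ m) := by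
    intro m
    have c1 := hSYA.1 (E 1 * C (co (uc (t + 1)) m) - C (co (uc t) m))
    have c2 := hSYA.1 (E 1 * C (co (uc t) m) - C (co (uc (t - 1)) m))
    have c3 := hSYA.2.2.1 2 1
    have c4 := (hSYA.2.1 _ _ _ _ c3 c2).2.2
    have c5 := (hSYA.2.1 _ _ _ _ c1 c4).2.1
    simp only [map_sub, map_mul, constantCoeff_E, one_mul, constantCoeff_C] at c5
    rw [hΓ]
    simp only [map_sub]
    exact c5
  have hΓ1 : constantCoeff (Γ 1) ≠ 0 := by
    rw [hΓ]
    simp only [map_sub, map_mul, constantCoeff_E, one_mul, constantCoeff_C]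
    rw [co_one]
    exact htQ
  obtain ⟨ρ', hSρ⟩ := hRHO M a (E 2 + E (-2) - 2) γ Γ ρ (by omega) hSa hXa hSγ hΓ1 hXρ hρ0 hrel
  set y : ℚ⟦X⟧ := E 2 + E (-2) - 2 + ρ' with hy
  have hSΦ : ∀ m, Sy (MM a ρ m) (y ^ m) := Sy_MM hSYA hSYC hSa hSρ hρ0
  have hy0 : constantCoeff y = 0 := by
    obtain ⟨p, hp1, hp2, hp3⟩ := hSΦ 1 0
    rw [pow_one, coeff_zero_eq_constantCoeff_apply] at hp2
    have h1 := hp3 0
    have h2 : coeff 0 (MM a ρ 1 0) = 0 := by
      have h3 := MM_dvd hXa hXρ 1 0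
      rw [X_pow_dvd_iff] at h3
      exact h3 0 (by norm_num)
    rw [h2, Nat.cast_zero, ← Polynomial.coeff_zero_eq_eval_zero, hp2] at h1
    exact h1.symm
  -- the equation
  have hsum : ∑ m ∈ Finset.range (M + 1), Γ m * y ^ m = 0 := by
    have h1 := Sy_sum hSYA (Finset.range (M + 1)) (fun m i => γ m i * MM a ρ m i)
      (fun m => Γ m * y ^ m) (fun m => (hSYA.2.1 _ _ _ _ (hSγ m) (hSΦ m)).2.2)
    have h2 := hSYA.1 0
    rw [map_zero, map_zero] at h2
    have e1 : (fun i => ∑ m ∈ Finset.range (M + 1), γ m i * MM a ρ m i) = fun _ : ℕ => 0 :=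
      funext hrel
    rw [e1] at h1
    exact hSYA.2.2.2.2 _ _ _ h1 h2
  have heq : Polynomial.aeval (2 + y) (vc t) = E 2 * Polynomial.aeval (2 + y) (vc (t - 1)) := by
    have e3 : ∑ m ∈ Finset.range (M + 1), Γ m * y ^ m =
        (∑ m ∈ Finset.range (M + 1), C (co (uc (t + 1)) m) * y ^ m) -
        (∑ m ∈ Finset.range (M + 1), C (co (uc t) m) * y ^ m) -
        E 2 * ((∑ m ∈ Finset.range (M + 1), C (co (uc t) m) * y ^ m) -
          ∑ m ∈ Finset.range (M + 1), C (co (uc (t - 1)) m) * y ^ m) := by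
      simp only [Finset.mul_sum, ← Finset.sum_sub_distrib]
      refine Finset.sum_congr rfl fun m _ => ?_
      rw [hΓ]
      simp only [map_sub]
      ring
    rw [e3, ← aeval_two_add _ _ hd1, ← aeval_two_add _ _ hd2, ← aeval_two_add _ _ hd3] at hsum
    unfold vc
    rw [sub_add_cancel, map_sub, map_sub]
    linear_combination hsum
  refine ⟨y, hy0, ?_, heq, MM a ρ, hΦ, MM_dvd hXa hXρ, hSΦ⟩
  intro hy1
  obtain ⟨a1, a0⟩ := coeff_one_aeval (vc t) hy0 hy1
  obtain ⟨b1', b0'⟩ := coeff_one_aeval (vc (t - 1)) hy0 hy1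
  rw [vc_eval] at b0'
  have h1 := congrArg (coeff 1) heq
  rw [a1, coeff_mul, Finset.Nat.sum_antidiagonal_eq_sum_range_succ_mk, Finset.sum_range_succ,
    Finset.sum_range_one] at h1
  simp only [Nat.sub_self, Nat.sub_zero, b1', b0', mul_zero, zero_add, mul_one] at h1
  simp [E] at h1

end Pool.Agent.WD3
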