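import Pool.Agent.WD3.StH
import Pool.Agent.WD2.GCV

/-!
# Module T0C: framing zero, companions with trivial leading term
-/

set_option autoImplicit false

namespace Pool.Agent.WD3

open Pool.Agent.LibH11 Pool.Agent.IT Pool.Agent.GK Pool.Agent.TwoBr Pool.Agent.WD Pool.Agent.WD2
open scoped BigOperators
open PowerSeries

namespace T0Cx

open Pool.Agent.WD2.GCV (m0 m1 m2 b0 bb1 bb2 one0 one1 one2 g21 g22)

/-- `(E a - 1) / X` -/
noncomputable def Pe (a : ℚ) : ℚ⟦X⟧ := PowerSeries.mk fun n => a ^ (n + 1) / ((n + 1).factorial : ℚ)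

theorem X_mul_Pe (a : ℚ) : E a - 1 = X * Pe a := by
  ext n
  cases n with
  | zero => simp [E]
  | succ n =>
    rw [mul_comm, coeff_succ_mul_X]
    simp only [Pe, E, coeff_mk, map_sub, coeff_one]
    simp

theorem coeff_Pe0 (a : ℚ) : coeff 0 (Pe a) = a := by simp [Pe]

theorem coeff_Pe1 (a : ℚ) : coeff 1 (Pe a) = a ^ 2 / 2 := by
  simp [Pe, Nat.factorial]
  norm_num

theorem E_zero' : E 0 = 1 := by
  have h := X_mul_Pe 0
  have h1 : Pe 0 = 0 := by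
    ext n
    simp [Pe]
  rw [h1, mul_zero, sub_eq_zero] at h
  exact h

/-- two zero coefficients -/
theorem fac2 {A : ℚ⟦X⟧} (h0 : coeff 0 A = 0) (h1 : coeff 1 A = 0) :
    ∃ B : ℚ⟦X⟧, A = X ^ 2 * B ∧ coeff 0 B = coeff 2 A := by
  have h : (X : ℚ⟦X⟧) ^ 2 ∣ A := by
    rw [X_pow_dvd_iff]
    intro m hm
    match m, hm with
    | 0, _ => exact h0
    | 1, _ => exact h1
  obtain ⟨B, rfl⟩ := h
  refine ⟨B, rfl, ?_⟩
  have := coeff_X_pow_mul B 2 0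
  simpa using this.symm

/-- one zero coefficient -/
theorem fac1 {A : ℚ⟦X⟧} (h0 : coeff 0 A = 0) :
    ∃ B : ℚ⟦X⟧, A = X * B ∧ coeff 0 B = coeff 1 A := by
  have h : (X : ℚ⟦X⟧) ∣ A := by
    rw [X_dvd_iff]
    rwa [coeff_zero_eq_constantCoeff_apply] at h0
  obtain ⟨B, rfl⟩ := h
  exact ⟨B, rfl, (coeff_succ_X_mul 0 B).symm⟩

theorem uniq {m n : ℕ} {A B : ℚ⟦X⟧} (h : X ^ m * A = X ^ n * B) (hA : coeff 0 A ≠ 0)
    (hB : coeff 0 B ≠ 0) : m = n ∧ A = B := by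
  have key : ∀ (m n : ℕ) (A B : ℚ⟦X⟧), X ^ m * A = X ^ n * B → coeff 0 A ≠ 0 → ¬ m < n := by
    intro m n A B h hA hlt
    have h1 : coeff m (X ^ m * A) = coeff 0 A := by
      have := coeff_X_pow_mul A m 0
      simpa using this
    have h2 : coeff m (X ^ n * B) = 0 := by
      rw [coeff_X_pow_mul', if_neg (by omega)]
    rw [h, h2] at h1
    exact hA h1.symm
  have hmn : m = n := by
    rcases lt_trichotomy m n with h3 | h3 | h3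
    · exact absurd h3 (key m n A B h hA)
    · exact h3
    · exact absurd h3 (key n m B A h.symm hB)
  subst hmn
  exact ⟨rfl, mul_left_cancel₀ (pow_ne_zero m X_ne_zero) h⟩

/-- The leading terms of a family. -/
theorem ldE_fac {d : ℕ} {x z u v : ℚ} {J : ℕ → ℚ⟦X⟧} (h : LdE d x z u v J) (N : ℕ) (hN : 1 ≤ N) :
    ∃ Q : ℚ⟦X⟧, J N - 1 = X ^ d * Q ∧ coeff 0 Q = x * ((N : ℚ) ^ 2 - 1) ∧
      coeff 1 Q = z * ((N : ℚ) ^ 2 - 1) ∧
      coeff 2 Q = ((N : ℚ) ^ 2 - 1) * (u * (N : ℚ) ^ 2 + v) := by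
  obtain ⟨W, hW⟩ := h N hN
  refine ⟨C (x * ((N : ℚ) ^ 2 - 1)) + C (z * ((N : ℚ) ^ 2 - 1)) * X +
    C (((N : ℚ) ^ 2 - 1) * (u * (N : ℚ) ^ 2 + v)) * X ^ 2 + X ^ 3 * W, ?_, ?_, ?_, ?_⟩
  · rw [pow_add] at hW
    linear_combination hW
  · simp
  · rw [map_add, map_add, map_add, coeff_C_mul, coeff_C_mul, coeff_X_pow, coeff_X_pow_mul',
      coeff_C, coeff_X]
    norm_num
  · rw [map_add, map_add, map_add, coeff_C_mul, coeff_C_mul, coeff_X_pow, coeff_X_pow_mul',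
      coeff_C, coeff_X]
    norm_num

theorem FF_one (hS : SG0_Stmt) {y : ℕ → ℚ⟦X⟧} (hy : y 0 = 1) :
    FF y 1 = gC 1 1 * (y 1 - 1) := by
  have h := hS.2 1 le_rfl
  unfold FF
  rw [Finset.sum_range_succ, Finset.sum_range_one] at h ⊢
  rw [hy]
  linear_combination h

theorem FF_two (hS : SG0_Stmt) {y : ℕ → ℚ⟦X⟧} (hy : y 0 = 1) :
    FF y 2 = gC 2 1 * (y 1 - 1) + gC 2 2 * (y 2 - 1) := by
  have h := hS.2 2 (by norm_num)
  unfold FF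
  rw [Finset.sum_range_succ, Finset.sum_range_succ, Finset.sum_range_one] at h ⊢
  rw [hy]
  linear_combination h

theorem yt_zero (J : ℕ → ℚ⟦X⟧) (j : ℕ) : yt 0 J j = J (2 * j + 1) := by
  unfold yt
  rw [Int.cast_zero, mul_zero, E_zero', one_mul]

theorem FU_one (hS : SG0_Stmt) (k : ℤ) : FU k 1 = gC 1 1 * (X * Pe (4 * k)) := by
  unfold FU
  rw [FF_one hS (by rw [Nat.cast_zero, mul_zero, zero_mul, zero_mul, E_zero']), ← X_mul_Pe]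
  congr 3
  push_cast
  ring

theorem FU_two (hS : SG0_Stmt) (k : ℤ) :
    FU k 2 = X * (gC 2 1 * Pe (4 * k) + gC 2 2 * Pe (12 * k)) := by
  unfold FU
  rw [FF_two hS (by rw [Nat.cast_zero, mul_zero, zero_mul, zero_mul, E_zero'])]
  have e1 : (2 * ((1 : ℕ) : ℚ) * (((1 : ℕ) : ℚ) + 1) * (k : ℚ)) = 4 * k := by
    push_cast
    ring
  have e2 : (2 * ((2 : ℕ) : ℚ) * (((2 : ℕ) : ℚ) + 1) * (k : ℚ)) = 12 * k := by
    push_cast
    ring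
  rw [e1, e2, X_mul_Pe, X_mul_Pe]
  ring

/-- The second coefficient of `k` full twists. -/
theorem FU_two_fac (hS : SG0_Stmt) (hG : GCV_Stmt) (k : ℤ) :
    ∃ R : ℚ⟦X⟧, FU k 2 = X ^ 2 * R ∧ coeff 0 R = (k : ℚ) ^ 2 := by
  obtain ⟨-, ⟨h1, h2⟩, ⟨h3, h4⟩, -⟩ := hG
  have h0 : coeff 0 (gC 2 1 * Pe (4 * k) + gC 2 2 * Pe (12 * k)) = 0 := by
    rw [map_add, m0, m0, h1, h3, coeff_Pe0, coeff_Pe0]
    ring
  obtain ⟨R, hR, hR0⟩ := fac1 h0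
  refine ⟨R, ?_, ?_⟩
  · rw [FU_two hS, hR]
    ring
  · rw [hR0, map_add, m1, m1, h1, h2, h3, h4, coeff_Pe0, coeff_Pe0, coeff_Pe1, coeff_Pe1]
    ring

/-- The third coefficients. -/
theorem g2_two (hG : GCV_Stmt) : 8 * coeff 2 (gC 2 1) + 24 * coeff 2 (gC 2 2) = -2 / 3 := by
  obtain ⟨-, ⟨h1, h2⟩, ⟨h3, h4⟩, -⟩ := hG
  have e1 := congrArg (coeff 2) g21
  have e2 := congrArg (coeff 2) g22
  rw [m2, m0, m1, m2, b0, b0, bb1, bb1, bb2, bb2, h1, h2, map_neg, one2] at e1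
  rw [m2, m0, m1, m2, b0, b0, bb1, bb1, bb2, bb2, h3, h4, one2] at e2
  linarith

/-- The second coefficient of a companion with trivial leading term. -/
theorem FF_two_fac (hS : SG0_Stmt) (hG : GCV_Stmt) {d : ℕ} {x z u v : ℚ} {J : ℕ → ℚ⟦X⟧}
    (hJ : J 1 = 1) (h : LdE d x z u v J) (hu : u = x / 3) :
    ∃ R : ℚ⟦X⟧, FF (yt 0 J) 2 = X ^ (d + 2) * R ∧ coeff 0 R = 2 * x := by
  obtain ⟨Q3, hQ3, c0, c1, c2⟩ := ldE_fac h 3 (by norm_num)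
  obtain ⟨Q5, hQ5, d0, d1, d2⟩ := ldE_fac h 5 (by norm_num)
  have hg := g2_two hG
  obtain ⟨-, ⟨h1, h2⟩, ⟨h3, h4⟩, -⟩ := hG
  have h0 : coeff 0 (gC 2 1 * Q3 + gC 2 2 * Q5) = 0 := by
    rw [map_add, m0, m0, h1, h3, c0, d0]
    push_cast
    ring
  have h5 : coeff 1 (gC 2 1 * Q3 + gC 2 2 * Q5) = 0 := by
    rw [map_add, m1, m1, h1, h3, h2, h4, c1, d1]
    push_cast
    ring
  obtain ⟨R, hR, hR0⟩ := fac2 h0 h5
  refine ⟨R, ?_, ?_⟩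
  · rw [FF_two hS (by rw [yt_zero]; exact hJ), yt_zero, yt_zero]
    show gC 2 1 * (J 3 - 1) + gC 2 2 * (J 5 - 1) = _
    rw [hQ3, hQ5, pow_add]
    linear_combination X ^ d * hR
  · rw [hR0, map_add, m2, m2, h1, h3, h2, h4, c0, c1, c2, d0, d1, d2, hu]
    push_cast
    linear_combination x * hg

theorem gC11_ne (hG : GCV_Stmt) : gC 1 1 ≠ 0 := by
  intro h
  have h1 := hG.1.1
  rw [h, map_zero] at h1
  norm_num at h1

theorem Pe_ne {a : ℚ} (ha : a ≠ 0) : Pe a ≠ 0 := by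
  intro h
  have h1 := coeff_Pe0 a
  rw [h, map_zero] at h1
  exact ha h1.symm

theorem rel1 (hS : SG0_Stmt) (hG : GCV_Stmt) {k k' : ℤ} {J J' : ℕ → ℚ⟦X⟧} (hJ : J 1 = 1)
    (hJ' : J' 1 = 1) (h : FU k 1 * FF (yt 0 J) 1 = FU k' 1 * FF (yt 0 J') 1) :
    Pe (4 * k) * (J 3 - 1) = Pe (4 * k') * (J' 3 - 1) := by
  rw [FU_one hS, FU_one hS, FF_one hS (by rw [yt_zero]; exact hJ),
    FF_one hS (by rw [yt_zero]; exact hJ'), yt_zero, yt_zero] at h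
  have hne : gC 1 1 * X * gC 1 1 ≠ 0 :=
    mul_ne_zero (mul_ne_zero (gC11_ne hG) X_ne_zero) (gC11_ne hG)
  apply mul_left_cancel₀ hne
  have h' : gC 1 1 * (X * Pe (4 * k)) * (gC 1 1 * (J 3 - 1)) =
      gC 1 1 * (X * Pe (4 * k')) * (gC 1 1 * (J' 3 - 1)) := h
  linear_combination h'

/-- If one family is trivial then so is the other. -/
theorem triv_of (hS : SG0_Stmt) (hG : GCV_Stmt) {k k' : ℤ} {J J' : ℕ → ℚ⟦X⟧} (hk' : k' ≠ 0)
    (hJ : J 1 = 1) (hJ' : J' 1 = 1) (hT : Triv J)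
    (hL : Triv J' ∨ ∃ (d : ℕ) (x z u v : ℚ), 3 ≤ d ∧ LdE d x z u v J' ∧ x ≠ 0 ∧ u = x / 3)
    (h : FU k 1 * FF (yt 0 J) 1 = FU k' 1 * FF (yt 0 J') 1) : Triv J' := by
  rcases hL with hL | ⟨d, x, z, u, v, -, hL, hx, -⟩
  · exact hL
  · exfalso
    have h1 := rel1 hS hG hJ hJ' h
    rw [hT 3 (by norm_num), sub_self, mul_zero] at h1
    have hk4 : (4 * (k' : ℚ)) ≠ 0 := mul_ne_zero (by norm_num) (by exact_mod_cast hk')
    rcases mul_eq_zero.1 h1.symm with h2 | h2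
    · exact Pe_ne hk4 h2
    · obtain ⟨Q, hQ, c0, -, -⟩ := ldE_fac hL 3 (by norm_num)
      rw [hQ] at h2
      have h3 : Q = 0 := by
        rcases mul_eq_zero.1 h2 with h4 | h4
        · exact absurd h4 (pow_ne_zero d X_ne_zero)
        · exact h4
      rw [h3, map_zero] at c0
      have h5 : x * (((3 : ℕ) : ℚ) ^ 2 - 1) = 0 := c0.symm
      push_cast at h5
      apply hx
      linarith

end T0Cx

open T0Cx in
/-- module T0C -/
theorem t_T0C (hS : SG0_Stmt) (hG : GCV_Stmt) : T0C_Stmt := by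
  intro k k' J J' hk hk' hJ hJ' hL hL' hrel
  rcases hL with hT | ⟨d, x, z, u, v, hd, hL, hx, hu⟩
  · exact Or.inr ⟨hT, triv_of hS hG hk' hJ hJ' hT hL' (hrel 1)⟩
  rcases hL' with hT' | ⟨d', x', z', u', v', hd', hL', hx', hu'⟩
  · exact Or.inr ⟨triv_of hS hG hk hJ' hJ hT' (Or.inr ⟨d, x, z, u, v, hd, hL, hx, hu⟩)
      (hrel 1).symm, hT'⟩
  left
  have hkq : (k : ℚ) ≠ 0 := by exact_mod_cast hk
  have hkq' : (k' : ℚ) ≠ 0 := by exact_mod_cast hk'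
  -- `i = 1`
  have h1 := rel1 hS hG hJ hJ' (hrel 1)
  obtain ⟨Q, hQ, c0, -, -⟩ := ldE_fac hL 3 (by norm_num)
  obtain ⟨Q', hQ', c0', -, -⟩ := ldE_fac hL' 3 (by norm_num)
  have e3 : (((3 : ℕ) : ℚ) ^ 2 - 1) = 8 := by norm_num
  rw [e3] at c0 c0'
  have h2 : X ^ d * (Pe (4 * (k : ℚ)) * Q) = X ^ d' * (Pe (4 * (k' : ℚ)) * Q') := by
    rw [hQ, hQ'] at h1
    linear_combination h1
  have n1 : coeff 0 (Pe (4 * (k : ℚ)) * Q) ≠ 0 := by
    rw [WD2.GCV.m0, coeff_Pe0, c0]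
    exact mul_ne_zero (mul_ne_zero (by norm_num) hkq) (mul_ne_zero hx (by norm_num))
  have n2 : coeff 0 (Pe (4 * (k' : ℚ)) * Q') ≠ 0 := by
    rw [WD2.GCV.m0, coeff_Pe0, c0']
    exact mul_ne_zero (mul_ne_zero (by norm_num) hkq') (mul_ne_zero hx' (by norm_num))
  obtain ⟨-, h3⟩ := uniq h2 n1 n2
  have h4 := congrArg (coeff 0) h3
  rw [WD2.GCV.m0, WD2.GCV.m0, coeff_Pe0, coeff_Pe0, c0, c0'] at h4
  -- `i = 2`
  obtain ⟨R, hR, hR0⟩ := FU_two_fac hS hG k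
  obtain ⟨R', hR', hR0'⟩ := FU_two_fac hS hG k'
  obtain ⟨T, hT, hT0⟩ := FF_two_fac hS hG hJ hL hu
  obtain ⟨T', hT', hT0'⟩ := FF_two_fac hS hG hJ' hL' hu'
  have h5 := hrel 2
  rw [hR, hR', hT, hT'] at h5
  have h6 : X ^ (d + 4) * (R * T) = X ^ (d' + 4) * (R' * T') := by
    have e1 : (X : ℚ⟦X⟧) ^ (d + 4) = X ^ 2 * X ^ (d + 2) := by rw [← pow_add]; congr 1; omega
    have e2 : (X : ℚ⟦X⟧) ^ (d' + 4) = X ^ 2 * X ^ (d' + 2) := by rw [← pow_add]; congr 1; omega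
    rw [e1, e2]
    linear_combination h5
  have n3 : coeff 0 (R * T) ≠ 0 := by
    rw [WD2.GCV.m0, hR0, hT0]
    exact mul_ne_zero (pow_ne_zero 2 hkq) (mul_ne_zero (by norm_num) hx)
  have n4 : coeff 0 (R' * T') ≠ 0 := by
    rw [WD2.GCV.m0, hR0', hT0']
    exact mul_ne_zero (pow_ne_zero 2 hkq') (mul_ne_zero (by norm_num) hx')
  obtain ⟨-, h7⟩ := uniq h6 n3 n4
  have h8 := congrArg (coeff 0) h7
  rw [WD2.GCV.m0, WD2.GCV.m0, hR0, hR0', hT0, hT0'] at h8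
  have h9 : (k : ℚ) * x = k' * x' := by linarith
  have h10 : (k' : ℚ) * x' * ((k : ℚ) - k') = 0 := by
    linear_combination h8 / 2 - k * h9
  have h11 : (k : ℚ) - k' = 0 := by
    rcases mul_eq_zero.1 h10 with h12 | h12
    · exact absurd h12 (mul_ne_zero hkq' hx')
    · exact h12
  have h12 : (k : ℚ) = k' := by linarith
  exact_mod_cast h12

end Pool.Agent.WD3
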