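import Pool.Agent.WD3.StH

/-!
# Generalised doubles: module TTA (framing zero, leading terms)
-/

set_option autoImplicit false

namespace Pool.Agent.WD3

open Pool.Agent.LibH11 Pool.Agent.IT Pool.Agent.GK Pool.Agent.TwoBr Pool.Agent.WD Pool.Agent.WD2
open scoped BigOperators
open PowerSeries

namespace TTA

theorem lead (hFTA : FTA_Stmt) (hRFF : RFF_Stmt) (k : ℤ) (J : ℕ → ℚ⟦X⟧) (h : ℕ → ℕ → ℚ)
    (hr : Rep J h) (i : ℕ) : ∃ B : ℚ⟦X⟧, FU k i * FF (yt 0 J) i = X ^ (3 * i) * B ∧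
      constantCoeff B = (-(k : ℚ)) ^ i * (h 0 i * (-1) ^ i * constantCoeff (uF i)) := by
  obtain ⟨A, hA, hA0⟩ := hFTA k i
  obtain ⟨G, hG⟩ := hRFF J h hr i
  refine ⟨A * (C (h 0 i) * (-1) ^ i * uF i + X * G), ?_, ?_⟩
  · have h1 : FF (yt 0 J) i = C (h 0 i) * (-1) ^ i * X ^ (2 * i) * uF i + X ^ (2 * i + 1) * G := by
      rw [← hG]
      ring
    rw [h1, hA]
    ring
  · rw [map_mul, hA0, map_add, map_mul, map_mul, map_mul, map_pow, map_neg, map_one]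
    simp

end TTA

theorem t_TTA (hFTA : FTA_Stmt) (hRFF : RFF_Stmt) : TTA_Stmt := by
  intro k k' J J' h h' hr hr' heq i
  obtain ⟨B, hB, hB0⟩ := TTA.lead hFTA hRFF k J h hr i
  obtain ⟨B', hB', hB0'⟩ := TTA.lead hFTA hRFF k' J' h' hr' i
  have h1 : (X : ℚ⟦X⟧) ^ (3 * i) * B = X ^ (3 * i) * B' := by rw [← hB, ← hB', heq i]
  have h2 : B = B' := mul_left_cancel₀ (pow_ne_zero _ X_ne_zero) h1
  have h3 : (-(k : ℚ)) ^ i * (h 0 i * (-1) ^ i * constantCoeff (uF i)) =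
      (-(k' : ℚ)) ^ i * (h' 0 i * (-1) ^ i * constantCoeff (uF i)) := by
    rw [← hB0, ← hB0', h2]
  have h4 : constantCoeff (uF i) ≠ 0 := by
    rw [constantCoeff_uF]
    positivity
  have h5 : ((-1 : ℚ)) ^ i * (-1) ^ i = 1 := by
    rw [← mul_pow]
    norm_num
  have h6 : ((k : ℚ) ^ i * h 0 i) * constantCoeff (uF i) =
      ((k' : ℚ) ^ i * h' 0 i) * constantCoeff (uF i) := by
    have e1 : ∀ (x y : ℚ), (-x) ^ i * (y * (-1) ^ i * constantCoeff (uF i)) =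
        (x ^ i * y) * constantCoeff (uF i) := by
      intro x y
      rw [neg_pow x i]
      calc (-1 : ℚ) ^ i * x ^ i * (y * (-1) ^ i * constantCoeff (uF i))
          = ((-1 : ℚ) ^ i * (-1) ^ i) * ((x ^ i * y) * constantCoeff (uF i)) := by ring
        _ = _ := by rw [h5, one_mul]
    rw [e1, e1] at h3
    exact h3
  exact mul_right_cancel₀ h4 h6

end Pool.Agent.WD3
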