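import Pool.Agent.WD3.FIN

/-!
Framing zero, a companion with nontrivial leading term, from `ZER_Stmt` (`WD3/StZ.lean`).
-/

set_option autoImplicit false

namespace Pool.Agent.WD3

open Pool.Agent.LibH11 Pool.Agent.IT Pool.Agent.GK Pool.Agent.TwoBr Pool.Agent.WD Pool.Agent.WD2
open scoped BigOperators
open PowerSeries

namespace TTB

theorem rescale_coe (a : ℚ) (P : Polynomial ℚ) :
    PowerSeries.rescale a ((P : Polynomial ℚ) : ℚ⟦X⟧) =
      ((P.comp (Polynomial.C a * Polynomial.X) : Polynomial ℚ) : ℚ⟦X⟧) := by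
  ext n
  rw [PowerSeries.coeff_rescale, Polynomial.coeff_coe, Polynomial.coeff_coe,
    Polynomial.comp_C_mul_X_coeff]
  ring

theorem comp_lem (g : Polynomial ℚ) (k : ℚ) :
    ((g.comp (Polynomial.X ^ 2 - 4)).comp (Polynomial.X + 2)).comp
      (Polynomial.C k * Polynomial.X) =
    g.comp (Polynomial.C k * Polynomial.X * (Polynomial.C k * Polynomial.X + 4)) := by
  have e2 : (2 : Polynomial ℚ) = Polynomial.C 2 := (map_ofNat Polynomial.C 2).symm
  have e4 : (4 : Polynomial ℚ) = Polynomial.C 4 := (map_ofNat Polynomial.C 4).symm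
  rw [Polynomial.comp_assoc, Polynomial.comp_assoc]
  congr 1
  rw [e2, e4]
  simp only [Polynomial.add_comp, Polynomial.sub_comp, Polynomial.pow_comp, Polynomial.X_comp,
    Polynomial.C_comp]
  rw [← e2, ← e4]
  ring

end TTB

open TTB in
theorem t_TTB (hZ : ZER_Stmt) : TTB_Stmt := by
  intro k k' h h' D D' hk hk' hL hL' hh hdeg
  obtain ⟨g, hg⟩ := FIN.even_poly D hL.even
  obtain ⟨g', hg'⟩ := FIN.even_poly D' hL'.even
  have hres : PowerSeries.rescale (k : ℚ) (PowerSeries.mk fun m => h 0 m) =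
      PowerSeries.rescale (k' : ℚ) (PowerSeries.mk fun m => h' 0 m) := by
    ext n
    rw [PowerSeries.coeff_rescale, PowerSeries.coeff_rescale, coeff_mk, coeff_mk]
    exact hh n
  have h1 := congrArg (PowerSeries.rescale (k : ℚ)) hL.inv
  have h2 := congrArg (PowerSeries.rescale (k' : ℚ)) hL'.inv
  rw [map_mul, map_one, rescale_coe] at h1 h2
  rw [← hres] at h2
  have h3 : (((D.comp (Polynomial.X + 2)).comp (Polynomial.C (k : ℚ) * Polynomial.X) :
      Polynomial ℚ) : ℚ⟦X⟧) =
      (((D'.comp (Polynomial.X + 2)).comp (Polynomial.C (k' : ℚ) * Polynomial.X) :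
        Polynomial ℚ) : ℚ⟦X⟧) := by
    have hne : PowerSeries.rescale (k : ℚ) (PowerSeries.mk fun m => h 0 m) ≠ 0 := by
      intro h0
      rw [h0, zero_mul] at h1
      exact zero_ne_one h1
    exact mul_left_cancel₀ hne (h1.trans h2.symm)
  have h4 := Polynomial.coe_injective ℚ h3
  rw [hg, hg', comp_lem, comp_lem] at h4
  have hd : D.natDegree = g.natDegree * 2 := by
    rw [hg, Polynomial.natDegree_comp, FIN.natDegree_sq]
  have hd' : D'.natDegree = g'.natDegree * 2 := by
    rw [hg', Polynomial.natDegree_comp, FIN.natDegree_sq]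
  rcases hdeg with hn | hn
  · exact hZ g g' k k' hk hk' (by omega) h4
  · exact (hZ g' g k' k hk' hk (by omega) h4.symm).symm

end Pool.Agent.WD3
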