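import Pool.Agent.WD3.StH

/-!
# Generalised doubles: the exact relation
-/

set_option autoImplicit false

namespace Pool.Agent.WD3

open Pool.Agent.LibH11 Pool.Agent.IT Pool.Agent.GK Pool.Agent.TwoBr Pool.Agent.WD Pool.Agent.WD2
open scoped BigOperators
open PowerSeries

namespace VRL

theorem E_eq (a : ℚ) : E a = rescale a (exp ℚ) := by
  ext n
  simp [E, coeff_rescale, coeff_exp, div_eq_mul_inv]

theorem E_add (a b : ℚ) : E (a + b) = E a * E b := by
  rw [E_eq, E_eq, E_eq, exp_mul_exp_eq_exp_add]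

theorem E_zero : E 0 = 1 := by
  ext n
  rw [E, coeff_mk, coeff_one]
  rcases n with _ | n <;> simp

/-- `{c}` -/
noncomputable def D (c : ℚ) : ℚ⟦X⟧ := E c - E (-c)

theorem D_zero : D 0 = 0 := by rw [D, neg_zero, sub_self]

theorem s_mul_D (a c : ℚ) : (E a + E (-a)) * D c = D (c + a) + D (c - a) := by
  unfold D
  have h1 : E (c + a) = E c * E a := E_add _ _
  have h2 : E (c - a) = E c * E (-a) := by rw [sub_eq_add_neg, E_add]
  have h3 : E (-(c + a)) = E (-c) * E (-a) := by rw [neg_add, E_add]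
  have h4 : E (-(c - a)) = E (-c) * E a := by rw [← E_add]; congr 1; ring
  rw [h1, h2, h3, h4]
  ring

/-- the Chebyshev polynomials -/
theorem D_mul_S (a : ℚ) (n : ℤ) :
    D a * Polynomial.aeval (E a + E (-a)) (Polynomial.Chebyshev.S ℚ n) = D (a * ((n : ℚ) + 1)) := by
  induction n using Polynomial.Chebyshev.induct with
  | zero => simp
  | one =>
    rw [Polynomial.Chebyshev.S_one, Polynomial.aeval_X, mul_comm, s_mul_D, sub_self, D_zero,
      add_zero]
    congr 1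
    push_cast
    ring
  | add_two n h1 h2 =>
    rw [Polynomial.Chebyshev.S_add_two, map_sub, map_mul, Polynomial.aeval_X, mul_sub, h2,
      mul_left_comm, h1, s_mul_D]
    have e1 : a * ((((n : ℤ) + 1 : ℤ) : ℚ) + 1) + a = a * ((((n : ℤ) + 2 : ℤ) : ℚ) + 1) := by
      push_cast; ring
    have e2 : a * ((((n : ℤ) + 1 : ℤ) : ℚ) + 1) - a = a * (((n : ℤ) : ℚ) + 1) := by
      push_cast; ring
    rw [e1, e2]
    ring
  | neg_add_one n h1 h2 =>
    rw [Polynomial.Chebyshev.S_sub_one, map_sub, map_mul, Polynomial.aeval_X, mul_sub, h2,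
      mul_left_comm, h1, s_mul_D]
    have e1 : a * (((-(n : ℤ) : ℤ) : ℚ) + 1) + a = a * (((-(n : ℤ) + 1 : ℤ) : ℚ) + 1) := by
      push_cast; ring
    have e2 : a * (((-(n : ℤ) : ℤ) : ℚ) + 1) - a = a * (((-(n : ℤ) - 1 : ℤ) : ℚ) + 1) := by
      push_cast; ring
    rw [e1, e2]
    ring

theorem D_mul_uc (a : ℚ) (b : ℤ) :
    D a * Polynomial.aeval (2 + Yf a) (uc b) = D ((b : ℚ) * a) := by
  have h1 : (2 : ℚ⟦X⟧) + Yf a = E a + E (-a) := by rw [Yf]; ring
  rw [h1, uc, D_mul_S]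
  congr 1
  push_cast
  ring

/-! ### The sums over `n = j + i + 1` -/

/-- the weight -/
noncomputable def W (i n : ℕ) : ℚ⟦X⟧ := (-1) ^ n * (uF (2 * i + 1 - n) * uF n)⁻¹

theorem W_mul (i n : ℕ) : W i n * (uF (2 * i + 1 - n) * uF n) = (-1) ^ n := by
  unfold W
  rw [mul_assoc, PowerSeries.inv_mul_cancel _ (by
    rw [map_mul]; exact mul_ne_zero (constantCoeff_uF_ne _) (constantCoeff_uF_ne _)), mul_one]

theorem uF_ne (n : ℕ) : uF n ≠ 0 := fun h => by
  have := constantCoeff_uF_ne n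
  rw [h, map_zero] at this
  exact this rfl

theorem W_refl (i n : ℕ) (h : n ≤ 2 * i + 1) : W i (2 * i + 1 - n) = -W i n := by
  have h1 : 2 * i + 1 - (2 * i + 1 - n) = n := by omega
  unfold W
  rw [h1, mul_comm (uF n)]
  have h2 : ((-1 : ℚ⟦X⟧)) ^ (2 * i + 1 - n) = -(-1) ^ n := by
    have h3 : ((-1 : ℚ⟦X⟧)) ^ (2 * i + 1 - n) * (-1) ^ n = -1 := by
      rw [← pow_add, Nat.sub_add_cancel h, pow_succ, pow_mul]
      simp
    have h4 : ((-1 : ℚ⟦X⟧)) ^ n * (-1) ^ n = 1 := by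
      rw [← mul_pow]; simp
    calc ((-1 : ℚ⟦X⟧)) ^ (2 * i + 1 - n) = (-1) ^ (2 * i + 1 - n) * ((-1) ^ n * (-1) ^ n) := by
          rw [h4, mul_one]
      _ = ((-1) ^ (2 * i + 1 - n) * (-1) ^ n) * (-1) ^ n := by ring
      _ = -(-1) ^ n := by rw [h3]; ring
  rw [h2]
  ring

theorem W_step (i n : ℕ) (h : n ≤ 2 * i) :
    W i (n + 1) * b1 ((n : ℚ) + 1) = -(W i n * b1 (2 * (i : ℚ) + 1 - n)) := by
  obtain ⟨m, hm⟩ : ∃ m, 2 * i = n + m := ⟨2 * i - n, by omega⟩
  have e1 : 2 * i + 1 - (n + 1) = m := by omega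
  have e2 : 2 * i + 1 - n = m + 1 := by omega
  have h1 := W_mul i (n + 1)
  have h2 := W_mul i n
  rw [e1, uF_succ] at h1
  rw [e2, uF_succ] at h2
  have hq : 2 * (i : ℚ) + 1 - n = (m : ℚ) + 1 := by
    have : (2 : ℚ) * i = n + m := by exact_mod_cast hm
    linarith
  rw [hq]
  have h3 : uF m * uF n ≠ 0 := mul_ne_zero (uF_ne _) (uF_ne _)
  refine mul_right_cancel₀ h3 ?_
  rw [pow_succ] at h1
  linear_combination h1 + h2

/-- the sum shifted by one -/
theorem shift (i : ℕ) (h : ℕ → ℚ⟦X⟧) :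
    ∑ n ∈ Finset.range (2 * i + 2), W i n * D n * h n =
      -∑ n ∈ Finset.range (2 * i + 2), W i n * D (2 * (i : ℚ) + 1 - n) * h (n + 1) := by
  rw [Finset.sum_range_succ', Finset.sum_range_succ
    (fun n : ℕ => W i n * D (2 * (i : ℚ) + 1 - n) * h (n + 1)) (2 * i + 1)]
  have h0 : W i 0 * D ((0 : ℕ) : ℚ) * h 0 = 0 := by rw [Nat.cast_zero, D_zero]; ring
  have h1 : W i (2 * i + 1) * D (2 * (i : ℚ) + 1 - ((2 * i + 1 : ℕ) : ℚ)) * h (2 * i + 1 + 1) =
      0 := by
    have : 2 * (i : ℚ) + 1 - ((2 * i + 1 : ℕ) : ℚ) = 0 := by push_cast; ring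
    rw [this, D_zero]; ring
  rw [h0, h1, add_zero, add_zero, ← Finset.sum_neg_distrib]
  refine Finset.sum_congr rfl fun n hn => ?_
  rw [Finset.mem_range] at hn
  have h2 := W_step i n (by omega)
  have h3 : D (((n + 1 : ℕ) : ℚ)) = X * b1 ((n : ℚ) + 1) := by rw [X_mul_b1, D]; push_cast; rfl
  have h4 : D (2 * (i : ℚ) + 1 - n) = X * b1 (2 * (i : ℚ) + 1 - n) := by rw [X_mul_b1, D]
  rw [h3, h4]
  linear_combination X * h (n + 1) * h2

/-- the twist factor -/
noncomputable def f (t : ℤ) (i n : ℕ) : ℚ⟦X⟧ :=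
  E (2 * ((n : ℚ) - i - 1) * ((n : ℚ) - i) * t)

/-- the exponent -/
noncomputable def av (i n : ℕ) : ℚ := 2 * (n : ℚ) - 2 * i - 1

/-- the sum -/
noncomputable def g (t : ℤ) (i : ℕ) (b : ℚ) : ℚ⟦X⟧ :=
  ∑ n ∈ Finset.range (2 * i + 2), W i n * f t i n * E (b * av i n)

theorem refl_sum (i : ℕ) (h : ℕ → ℚ⟦X⟧) :
    ∑ n ∈ Finset.range (2 * i + 2), h n = ∑ n ∈ Finset.range (2 * i + 2), h (2 * i + 1 - n) := by
  rw [← Finset.sum_range_reflect]
  refine Finset.sum_congr rfl fun n _ => ?_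
  congr 1

theorem f_refl (t : ℤ) (i n : ℕ) (h : n ≤ 2 * i + 1) : f t i (2 * i + 1 - n) = f t i n := by
  unfold f
  congr 1
  push_cast [Nat.cast_sub h]
  ring

theorem av_refl (i n : ℕ) (h : n ≤ 2 * i + 1) : av i (2 * i + 1 - n) = -av i n := by
  unfold av
  push_cast [Nat.cast_sub h]
  ring

theorem g_neg (t : ℤ) (i : ℕ) (b : ℚ) : g t i (-b) = -g t i b := by
  unfold g
  rw [refl_sum, ← Finset.sum_neg_distrib]
  refine Finset.sum_congr rfl fun n hn => ?_
  have hn' : n ≤ 2 * i + 1 := by rw [Finset.mem_range] at hn; omega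
  rw [W_refl i n hn', f_refl t i n hn', av_refl i n hn', neg_mul_neg]
  ring

/-- the basic relation -/
theorem rel (t : ℤ) (i : ℕ) :
    E (2 * i + 1) * g t i (1 - t) - g t i (-t) =
      -(E 1 * (E (2 * i + 1) * g t i t - g t i (1 + t))) := by
  have h := shift i fun n => f t i n * E ((1 / 2 - t) * av i n)
  have e1 : E ((i : ℚ) + 1 / 2) * ∑ n ∈ Finset.range (2 * i + 2),
      W i n * D n * (f t i n * E ((1 / 2 - t) * av i n)) =
      E (2 * i + 1) * g t i (1 - t) - g t i (-t) := by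
    unfold g
    rw [Finset.mul_sum, Finset.mul_sum, ← Finset.sum_sub_distrib]
    refine Finset.sum_congr rfl fun n _ => ?_
    have a1 : E ((i : ℚ) + 1 / 2) * (D n * E ((1 / 2 - t) * av i n)) =
        E (2 * i + 1) * E ((1 - t) * av i n) - E (-t * av i n) := by
      unfold D
      rw [sub_mul, mul_sub, ← E_add, ← E_add, ← E_add, ← E_add, ← E_add]
      unfold av
      congr 2 <;> ring
    linear_combination (W i n * f t i n) * a1
  have e2 : E ((i : ℚ) + 1 / 2) * ∑ n ∈ Finset.range (2 * i + 2),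
      W i n * D (2 * (i : ℚ) + 1 - n) * (f t i (n + 1) * E ((1 / 2 - t) * av i (n + 1))) =
      E 1 * (E (2 * i + 1) * g t i t - g t i (1 + t)) := by
    unfold g
    rw [Finset.mul_sum, Finset.mul_sum, ← Finset.sum_sub_distrib, Finset.mul_sum]
    refine Finset.sum_congr rfl fun n _ => ?_
    have a2 : f t i (n + 1) = f t i n * E (2 * t * (av i n + 1)) := by
      unfold f av
      rw [← E_add]
      congr 1
      push_cast
      ring
    have a1 : E ((i : ℚ) + 1 / 2) * (D (2 * (i : ℚ) + 1 - n) *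
        (E (2 * t * (av i n + 1)) * E ((1 / 2 - t) * av i (n + 1)))) =
        E 1 * (E (2 * i + 1) * E (t * av i n) - E ((1 + t) * av i n)) := by
      unfold D
      rw [sub_mul, mul_sub, mul_sub, ← E_add, ← E_add, ← E_add, ← E_add, ← E_add, ← E_add, ← E_add,
        ← E_add]
      unfold av
      push_cast
      congr 2 <;> ring
    rw [a2]
    linear_combination (W i n * f t i n) * a1
  rw [← e1, ← e2, h]
  ring

/-- the relation of the sums `g` -/
theorem rel' (t : ℤ) (i : ℕ) :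
    E 1 * g t i ((t : ℚ) + 1) - g t i t =
      E (2 * i + 1) * (E 1 * g t i t - g t i ((t : ℚ) - 1)) := by
  have h := rel t i
  have h1 : g t i (1 - t) = -g t i ((t : ℚ) - 1) := by rw [← g_neg]; congr 1; ring
  have h2 : g t i (-(t : ℚ)) = -g t i t := g_neg t i t
  have h3 : (1 : ℚ) + t = t + 1 := add_comm _ _
  rw [h1, h2, h3] at h
  linear_combination -h

/-- half of the sum -/
theorem g_half (t : ℤ) (i : ℕ) (b : ℚ) :
    g t i b = ∑ j ∈ Finset.range (i + 1),
      W i (j + i + 1) * E (2 * j * (j + 1) * t) * D (b * (2 * j + 1)) := by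
  have h0 : 2 * i + 2 = (i + 1) + (i + 1) := by ring
  unfold g
  rw [h0, Finset.sum_range_add, ← Finset.sum_range_reflect, ← Finset.sum_add_distrib]
  refine Finset.sum_congr rfl fun j hj => ?_
  rw [Finset.mem_range] at hj
  have h1 : i + 1 - 1 - j = 2 * i + 1 - (i + 1 + j) := by omega
  have h2 : i + 1 + j = j + i + 1 := by ring
  rw [h1, W_refl i _ (by omega), f_refl t i _ (by omega), av_refl i _ (by omega), h2]
  have h3 : f t i (j + i + 1) = E (2 * j * (j + 1) * t) := by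
    unfold f
    congr 1
    push_cast
    ring
  have h4 : av i (j + i + 1) = 2 * j + 1 := by
    unfold av
    push_cast
    ring
  rw [h3, h4, D, mul_neg]
  ring

/-- the sums of the statement -/
theorem F_eq (t : ℤ) (i : ℕ) (b : ℤ) :
    X * FF (fun j => E (2 * j * (j + 1) * t) * Polynomial.aeval (2 + Yf (2 * j + 1)) (uc b)) i =
      (-1) ^ (i + 1) * uF i * g t i b := by
  rw [g_half, FF, Finset.mul_sum, Finset.mul_sum]
  refine Finset.sum_congr rfl fun j hj => ?_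
  rw [Finset.mem_range] at hj
  have h1 : W i (j + i + 1) = (-1) ^ (j + i + 1) * (uF (i - j) * uF (i + j + 1))⁻¹ := by
    unfold W
    have e1 : 2 * i + 1 - (j + i + 1) = i - j := by omega
    have e2 : j + i + 1 = i + j + 1 := by ring
    rw [e1, e2]
  have h2 : X * b1 (2 * (j : ℚ) + 1) = D (2 * j + 1) := X_mul_b1 _
  have h3 := D_mul_uc (2 * (j : ℚ) + 1) b
  have h4 : ((-1 : ℚ⟦X⟧)) ^ (i + 1) * (-1) ^ (j + i + 1) = (-1) ^ j := by
    rw [← pow_add]
    have : i + 1 + (j + i + 1) = j + 2 * (i + 1) := by ring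
    rw [this, pow_add, pow_mul]
    simp
  rw [h1, gC, ← h3, ← h2, ← h4]
  ring

theorem FF_add (y z : ℕ → ℚ⟦X⟧) (c : ℚ⟦X⟧) (i : ℕ) :
    FF (fun j => c * y j - z j) i = c * FF y i - FF z i := by
  unfold FF
  rw [Finset.mul_sum, ← Finset.sum_sub_distrib]
  exact Finset.sum_congr rfl fun j _ => by ring

end VRL

theorem t_VRL : VRL_Stmt := by
  intro t i
  have hX : (X : ℚ⟦X⟧) ≠ 0 := X_ne_zero
  have e1 : (fun j : ℕ => E (2 * j * (j + 1) * t) *
      (E 1 * Polynomial.aeval (2 + Yf (2 * j + 1)) (uc (t + 1)) -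
        Polynomial.aeval (2 + Yf (2 * j + 1)) (uc t))) =
      fun j : ℕ => E 1 * (E (2 * j * (j + 1) * t) *
        Polynomial.aeval (2 + Yf (2 * j + 1)) (uc (t + 1))) -
        E (2 * j * (j + 1) * t) * Polynomial.aeval (2 + Yf (2 * j + 1)) (uc t) := by
    funext j
    ring
  have e2 : (fun j : ℕ => E (2 * j * (j + 1) * t) *
      (E 1 * Polynomial.aeval (2 + Yf (2 * j + 1)) (uc t) -
        Polynomial.aeval (2 + Yf (2 * j + 1)) (uc (t - 1)))) =
      fun j : ℕ => E 1 * (E (2 * j * (j + 1) * t) *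
        Polynomial.aeval (2 + Yf (2 * j + 1)) (uc t)) -
        E (2 * j * (j + 1) * t) * Polynomial.aeval (2 + Yf (2 * j + 1)) (uc (t - 1)) := by
    funext j
    ring
  rw [e1, e2, VRL.FF_add, VRL.FF_add]
  refine mul_left_cancel₀ hX ?_
  have h1 := VRL.F_eq t i (t + 1)
  have h2 := VRL.F_eq t i t
  have h3 := VRL.F_eq t i (t - 1)
  have h4 := VRL.rel' t i
  have c1 : (((t + 1 : ℤ)) : ℚ) = (t : ℚ) + 1 := by push_cast; ring
  have c2 : (((t - 1 : ℤ)) : ℚ) = (t : ℚ) - 1 := by push_cast; ring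
  rw [c1] at h1
  rw [c2] at h3
  linear_combination E 1 * h1 - h2 - E (2 * i + 1) * E 1 * h2 + E (2 * i + 1) * h3 +
    ((-1) ^ (i + 1) * uF i) * h4

end Pool.Agent.WD3
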