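import Pool.Agent.WD3.StH

/-!
# The powers of `Yf` (module WH_YMO, helper56)
-/

set_option autoImplicit false

namespace Pool.Agent.WD3

open Pool.Agent.LibH11 Pool.Agent.IT Pool.Agent.GK Pool.Agent.TwoBr Pool.Agent.WD Pool.Agent.WD2
open scoped BigOperators
open PowerSeries

namespace YMO

lemma X_sq_dvd (a : ℚ) : (X : ℚ⟦X⟧) ^ 2 ∣ Yf a := ⟨c2 a, (X_sq_mul_c2 a).symm⟩

/-- the powers -/
noncomputable def P (m i : ℕ) : ℚ⟦X⟧ := FF (fun j => Yf (2 * j + 1) ^ m) i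

lemma P_zero_zero (hSG : SG0_Stmt) : P 0 0 = 1 := by
  unfold P FF
  simp [hSG.1]

lemma P_zero_pos (hSG : SG0_Stmt) (i : ℕ) (hi : 0 < i) : P 0 i = 0 := by
  unfold P FF
  simp only [pow_zero, mul_one]
  exact hSG.2 i hi

lemma P_succ_zero (hREC : REC_Stmt) (m : ℕ) : P (m + 1) 0 = Yf 1 * P m 0 := by
  unfold P
  rw [← (hREC fun j => Yf (2 * j + 1) ^ m).1]
  simp only [pow_succ']

lemma P_succ_succ (hREC : REC_Stmt) (m i : ℕ) : P (m + 1) (i + 1) =
    Yf (2 * ((i : ℚ) + 1) + 1) * P m (i + 1) - X ^ 2 * b1 ((i : ℚ) + 1) * P m i := by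
  unfold P
  rw [← (hREC fun j => Yf (2 * j + 1) ^ m).2 i]
  simp only [pow_succ']

lemma dvd (hREC : REC_Stmt) (m : ℕ) : ∀ i : ℕ, (X : ℚ⟦X⟧) ^ (2 * m) ∣ P m i := by
  induction m with
  | zero =>
    intro i
    rw [mul_zero, pow_zero]
    exact one_dvd _
  | succ m ih =>
    have e : (X : ℚ⟦X⟧) ^ (2 * (m + 1)) = X ^ 2 * X ^ (2 * m) := by
      rw [← pow_add]
      congr 1
      ring
    intro i
    cases i with
    | zero =>
      rw [P_succ_zero hREC, e]
      exact mul_dvd_mul (X_sq_dvd _) (ih 0)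
    | succ i =>
      rw [P_succ_succ hREC, e]
      refine dvd_sub (mul_dvd_mul (X_sq_dvd _) (ih (i + 1))) ?_
      exact mul_dvd_mul (Dvd.intro _ rfl) (ih i)

lemma zero (hREC : REC_Stmt) (hSG : SG0_Stmt) (m : ℕ) : ∀ i : ℕ, m < i → P m i = 0 := by
  induction m with
  | zero => exact fun i hi => P_zero_pos hSG i hi
  | succ m ih =>
    intro i hi
    cases i with
    | zero => omega
    | succ i =>
      rw [P_succ_succ hREC, ih (i + 1) (by omega), ih i (by omega), mul_zero, mul_zero, sub_self]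

lemma diag (hREC : REC_Stmt) (hSG : SG0_Stmt) (i : ℕ) :
    P i i = (-1) ^ i * X ^ (2 * i) * uF i := by
  induction i with
  | zero =>
    rw [P_zero_zero hSG, uF_zero]
    simp
  | succ i ih =>
    rw [P_succ_succ hREC, zero hREC hSG i (i + 1) (by omega), ih, uF_succ]
    ring

end YMO

/-- YMO: the powers of `Yf`. -/
theorem t_YMO (hREC : REC_Stmt) (hSG : SG0_Stmt) : YMO_Stmt := fun m i =>
  ⟨YMO.dvd hREC m i, YMO.zero hREC hSG m i, YMO.diag hREC hSG i⟩

end Pool.Agent.WD3
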