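import Pool.Agent.WD3.StZ

set_option autoImplicit false

namespace Pool.Agent.WD3

namespace ZER

/-- The polynomial `k w (k w + 4)`. -/
theorem deg_q (k : ℤ) (hk : k ≠ 0) :
    (Polynomial.C (k : ℚ) * Polynomial.X * (Polynomial.C (k : ℚ) * Polynomial.X + 4)).natDegree
      = 2 := by
  have hk' : (k : ℚ) ≠ 0 := by exact_mod_cast hk
  have h1 : (Polynomial.C (k : ℚ) * Polynomial.X * (Polynomial.C (k : ℚ) * Polynomial.X + 4)) =
      Polynomial.C ((k : ℚ) ^ 2) * Polynomial.X ^ 2 + Polynomial.C (4 * (k : ℚ)) * Polynomial.X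
        + Polynomial.C 0 := by
    simp only [map_pow, map_mul, map_zero, add_zero]
    have : (Polynomial.C (4 : ℚ)) = (4 : Polynomial ℚ) := rfl
    rw [this]
    ring
  rw [h1]
  exact Polynomial.natDegree_quadratic (pow_ne_zero 2 hk')

theorem refl (g : Polynomial ℚ) (k : ℤ) (hk : k ≠ 0) (w : ℚ) :
    (g.comp (Polynomial.C (k : ℚ) * Polynomial.X *
      (Polynomial.C (k : ℚ) * Polynomial.X + 4))).eval (-4 / (k : ℚ) - w) =
    (g.comp (Polynomial.C (k : ℚ) * Polynomial.X *
      (Polynomial.C (k : ℚ) * Polynomial.X + 4))).eval w := by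
  have hk' : (k : ℚ) ≠ 0 := by exact_mod_cast hk
  rw [Polynomial.eval_comp, Polynomial.eval_comp]
  congr 1
  simp only [Polynomial.eval_mul, Polynomial.eval_C, Polynomial.eval_X, Polynomial.eval_add,
    Polynomial.eval_ofNat]
  field_simp
  ring

theorem main (g g' : Polynomial ℚ) (k k' : ℤ) (hk : k ≠ 0) (hk' : k' ≠ 0) (hg : 1 ≤ g.natDegree)
    (h : g.comp (Polynomial.C (k : ℚ) * Polynomial.X *
      (Polynomial.C (k : ℚ) * Polynomial.X + 4)) =
    g'.comp (Polynomial.C (k' : ℚ) * Polynomial.X *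
      (Polynomial.C (k' : ℚ) * Polynomial.X + 4))) : k = k' := by
  by_contra hne
  have hkq : (k : ℚ) ≠ 0 := by exact_mod_cast hk
  have hkq' : (k' : ℚ) ≠ 0 := by exact_mod_cast hk'
  set f : Polynomial ℚ := g.comp (Polynomial.C (k : ℚ) * Polynomial.X *
      (Polynomial.C (k : ℚ) * Polynomial.X + 4)) with hf
  set d : ℚ := 4 / k - 4 / k' with hd
  have hd0 : d ≠ 0 := by
    intro h0
    apply hne
    rw [hd, sub_eq_zero, div_eq_div_iff hkq hkq'] at h0
    have : (k' : ℚ) = k := by linarith
    exact_mod_cast this.symm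
  have hper : ∀ w : ℚ, f.eval (w + d) = f.eval w := by
    intro w
    have h1 := refl g k hk w
    have h2 := refl g' k' hk' (-4 / (k : ℚ) - w)
    rw [← hf] at h1
    rw [← h] at h2
    have h3 : w + d = -4 / (k' : ℚ) - (-4 / (k : ℚ) - w) := by rw [hd]; ring
    rw [h3, h2, h1]
  have hn : ∀ n : ℕ, f.eval (n * d) = f.eval 0 := by
    intro n
    induction n with
    | zero => simp
    | succ n ih =>
      have : ((n + 1 : ℕ) : ℚ) * d = n * d + d := by push_cast; ring
      rw [this, hper, ih]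
  have hconst : f = Polynomial.C (f.eval 0) := by
    apply Polynomial.eq_of_infinite_eval_eq
    apply Set.Infinite.mono (s := Set.range (fun n : ℕ => (n : ℚ) * d))
    · rintro x ⟨n, rfl⟩
      show f.eval ((n : ℚ) * d) = (Polynomial.C (f.eval 0)).eval ((n : ℚ) * d)
      rw [Polynomial.eval_C]
      exact hn n
    · apply Set.infinite_range_of_injective
      intro a b hab
      have := mul_right_cancel₀ hd0 hab
      exact_mod_cast this
  have hdeg : f.natDegree = g.natDegree * 2 := by
    rw [hf, Polynomial.natDegree_comp, deg_q k hk]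
  rw [hconst, Polynomial.natDegree_C] at hdeg
  omega

end ZER

theorem t_ZER : ZER_Stmt := fun g g' k k' hk hk' hg h => ZER.main g g' k k' hk hk' hg h

end Pool.Agent.WD3
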