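import Pool.Agent.WD3.QAll
import Pool.Agent.WD3.CHD
import Pool.Agent.WD3.CMB
import Pool.Agent.WD3.REC
import Pool.Agent.WD3.RE3
import Pool.Agent.WD3.ODJ
import Pool.Agent.WD3.RPC
import Pool.Agent.WD3.RPD
import Pool.Agent.WD3.RPG
import Pool.Agent.WD3.SYA
import Pool.Agent.WD3.SYC
import Pool.Agent.WD3.VRL
import Pool.Agent.WD3.RHO
import Pool.Agent.WD3.KTE
import Pool.Agent.WD3.GRD
import Pool.Agent.WD3.YMO
import Pool.Agent.WD3.RFF
import Pool.Agent.WD3.FTA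
import Pool.Agent.WD3.FFT
import Pool.Agent.WD3.SYT
import Pool.Agent.WD3.SYR
import Pool.Agent.WD3.TTA
import Pool.Agent.WD3.ENP
import Pool.Agent.WD3.ENA
import Pool.Agent.WD3.ENB
import Pool.Agent.WD3.ENM
import Pool.Agent.WD3.END
import Pool.Agent.WD3.ZER
import Pool.Agent.WD3.FIN
import Pool.Agent.WD3.TTB
import Pool.Agent.WD3.SWD
import Pool.Agent.WD3.SWC
import Pool.Agent.WD3.T0C
import Pool.Agent.WD3.CQK
import Pool.Agent.WD3.CID
import Pool.Agent.WD3.CIG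
import Pool.Agent.WD3.DD3

/-!
The modules of the project on iterated generalised doubles, second part (comparison of two
doubles), assembled.
-/

set_option autoImplicit false

namespace Pool.Agent.WD3

open Pool.Agent.IT.Fin Pool.Agent.GK.Fin Pool.Agent.WD Pool.Agent.WD2 Pool.Agent.WD.QA

theorem hFTA : FTA_Stmt := t_FTA wSG0 t_REC t_VRL
theorem hRFF : RFF_Stmt := t_RFF (t_YMO t_REC wSG0)
theorem hSYR : SYR_Stmt := t_SYR (t_SYT hFTA t_REC t_VRL t_RHO t_SYA t_SYC) hFTA t_SYA t_SYC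
theorem hFFT : FFT_Stmt := t_FFT hSYR hFTA t_RE3 hRFF wSG0
theorem hFIN : FIN_Stmt := t_FIN (t_END t_ENP t_ENA t_ENB t_ENM)
theorem hSWD : SWD_Stmt := t_SWD hSYR hFTA t_SYA t_CMB hFIN
theorem hT0C : T0C_Stmt := t_T0C wSG0 t_GCV
theorem hGRD : GRD_Stmt := t_GRD t_CHD gSERU gSERC gSERS fLEADEQ
theorem hDD3 : DD3_Stmt :=
  t_DD3 t_CQK t_RE3 (t_KTE wSG0) hFTA t_ODJ hSWD (t_SWC wSG0 t_GCV) (t_TTA hFTA hRFF) (t_TTB t_ZER) hT0C
theorem hCID : CID_Stmt := t_CID hFTA hFFT t_RPD t_RE3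
theorem hCIG : CIG_Stmt := t_CIG hGRD (t_RPG t_CMB) t_RE3 wGRI

end Pool.Agent.WD3
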