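import Pool.Agent.WD3.Main
import Pool.Agent.WD3.QH
import Pool.Agent.WD2.AAll

/-!
Finite type invariants separate all graph knots and all their iterated generalised doubles: all
modules together.
-/

set_option autoImplicit false

namespace Pool.Agent.WD3

open Pool.Agent.LibH11 Pool.Agent.IT Pool.Agent.GK Pool.Agent.TwoBr Pool.Agent.WD Pool.Agent.WD2

theorem mods_all : Asm.Mods where
  plx := wPLX
  gvd := wGVD
  mrk := mrk_all
  lkc := t_LKC

/-- Finite type invariants with values in any nontrivial abelian group separate all graph knots and
all their iterated generalised twisted doubles. -/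
theorem main_thm (A : Type*) [AddCommGroup A] [Nontrivial A] (K K' : SKnot)
    (hK : IsIterated K) (hK' : IsIterated K')
    (h : ∀ v : SKnot → A, Sliced.IsFiniteType v → v K = v K') : K = K' :=
  main_int GK.Fin.gOPS xJXK wGRI wGGO xADK alx_all hDD3 xLDF hCID wSG0 t_RPC hCIG mods_all
    K K' hK hK' (same0_of A h)

end Pool.Agent.WD3
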