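import Pool.Agent.WD3.StG
import Pool.Agent.WD2.GMF

/-!
# Generalised doubles: the coefficients of the turned twists
-/

set_option autoImplicit false

namespace Pool.Agent.WD3

open Pool.Agent.LibH11 Pool.Agent.IT Pool.Agent.GK Pool.Agent.TwoBr Pool.Agent.WD Pool.Agent.WD2
open scoped BigOperators

namespace GMK

variable {K : Type} [Field K] (s : K) (N : ℕ)

/-- the weights of the summands -/
def cd (j : ℕ) : K := (-1) ^ (N - 1 + j) * br s (2 * j + 1) * bf s (N - 1) ^ 2 /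
  (bf s (N - 1 - j) * bf s (N + j))

variable {s}

theorem cd_ne (hs : IT.Gen s) (j : ℕ) : cd s N j ≠ 0 := by
  unfold cd
  refine div_ne_zero (mul_ne_zero (mul_ne_zero ?_ (br_ne hs (by omega)))
    (pow_ne_zero _ (bf_ne hs _))) (mul_ne_zero (bf_ne hs _) (bf_ne hs _))
  exact pow_ne_zero _ (neg_ne_zero.mpr one_ne_zero)

theorem chn_one (j : ℕ) (hj : j < N) :
    chn s N (1 : Matrix (Fin 2 → Fin N) (Fin 2 → Fin N) K) j = 1 :=
  GMF.wtr_diff s N j hj

/-- the diagonal entries of the full twists -/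
theorem diag (hENT : ENT_Stmt) (hDIA : DIA_Stmt) (hTWS : TWS_Stmt) (hINV : INV_Stmt)
    (hMNR : MNR_Stmt) (hs : IT.Gen s) (hN : 1 ≤ N) (k : ℤ)
    (hT : Mor (fpow s (V s N) 2) (fpow s (V s N) 2) (tw (RD s (V s N)) k)) (a : ℕ) (ha : a < N) :
    tw (RD s (V s N)) k ![⟨0, hN⟩, ⟨a, ha⟩] ![⟨0, hN⟩, ⟨a, ha⟩] =
      s ^ (-(2 * k * ((N : ℤ) ^ 2 - 1))) * ∑ r ∈ Finset.range N, ph s k r *
        (s ^ (-(2 * ((r : ℤ) * a))) * (bf s (N - 1) * bf s (N - 1 - a + r) /
          (bf s (N - 1 - a) * bf s (N - 1 - r)))) := by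
  have h0 := hs.1
  obtain ⟨y, hy⟩ : ∃ y : Fin 2 → Fin N, y = ![⟨0, hN⟩, ⟨N - 1, by omega⟩] := ⟨_, rfl⟩
  have hy0 : (y 0 : ℕ) = 0 := by rw [hy]; rfl
  have hy1 : (y 1 : ℕ) = N - 1 := by rw [hy]; rfl
  have hyy : (y 0 : ℕ) + y 1 + 1 = N := by omega
  obtain ⟨ρ, hρ⟩ := hENT K s hs N hN y y hyy hyy
  have hm : ∀ n < N, ∑ j ∈ Finset.range N, ρ j * pp s n j =
      s ^ (-(2 * ((n : ℤ) * ((N : ℤ) - 1)))) * (bf s n * bf s (N - 1) / bf s (N - 1 - n)) := by
    intro n hn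
    obtain ⟨z, hz⟩ : ∃ z : Fin 2 → Fin N, z = ![⟨0, hN⟩, ⟨N - 1 - n, by omega⟩] := ⟨_, rfl⟩
    have hz0 : (z 0 : ℕ) = 0 := by rw [hz]; rfl
    have hz1 : (z 1 : ℕ) = N - 1 - n := by rw [hz]; rfl
    have h1 := hρ 1 (GMF.mor_one N _) n
    rw [hDIA K s hs N hN 1 (GMF.mor_one N _) y z n hy0 (by omega) hz0 (by omega),
      Matrix.one_apply_eq, mul_one, hz1] at h1
    rw [h1]
    refine Finset.sum_congr rfl fun j hj => ?_
    rw [GMF.wtr_diff s N j (Finset.mem_range.mp hj), mul_one]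
  obtain ⟨z, hz⟩ : ∃ z : Fin 2 → Fin N, z = ![⟨0, hN⟩, ⟨a, ha⟩] := ⟨_, rfl⟩
  have hz0 : (z 0 : ℕ) = 0 := by rw [hz]; rfl
  have hz1 : (z 1 : ℕ) = a := by rw [hz]; rfl
  rw [← hz]
  obtain ⟨n, hn⟩ : ∃ n : ℕ, n = N - 1 - a := ⟨_, rfl⟩
  rw [← hn]
  have hnN : n < N := by omega
  have hna : N - 1 - n = a := by omega
  have hcast : (n : ℤ) = (N : ℤ) - 1 - a := by omega
  have h2 := hρ _ hT n
  rw [hDIA K s hs N hN _ hT y z n hy0 (by omega) hz0 (by omega), hz1] at h2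
  have h3 : ∑ j ∈ Finset.range N, ρ j * pp s n j *
      (wtr (fpow s (V s N) 2) (2 * (j : ℤ)) (tw (RD s (V s N)) k) -
        wtr (fpow s (V s N) 2) (2 * (j : ℤ) + 2) (tw (RD s (V s N)) k)) =
      s ^ (-(2 * k * ((N : ℤ) ^ 2 - 1))) * ∑ r ∈ Finset.range N, ph s k r *
        (s ^ (2 * ((n : ℤ) * r - ((n : ℤ) + r) * ((N : ℤ) - 1))) *
          (bf s (N - 1) ^ 2 * bf s (n + r) / (bf s (N - 1 - n) * bf s (N - 1 - r)))) := by
    have e1 : ∀ j ∈ Finset.range N, ρ j * pp s n j *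
        (wtr (fpow s (V s N) 2) (2 * (j : ℤ)) (tw (RD s (V s N)) k) -
          wtr (fpow s (V s N) 2) (2 * (j : ℤ) + 2) (tw (RD s (V s N)) k)) =
        ∑ r ∈ Finset.range N, s ^ (-(2 * k * ((N : ℤ) ^ 2 - 1))) *
          (ph s k r * (ρ j * pp s n j * pp s r j)) := by
      intro j hj
      have hjN := Finset.mem_range.mp hj
      have e2 : wtr (fpow s (V s N) 2) (2 * (j : ℤ)) (tw (RD s (V s N)) k) -
          wtr (fpow s (V s N) 2) (2 * (j : ℤ) + 2) (tw (RD s (V s N)) k) =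
          s ^ (-(2 * k * ((N : ℤ) ^ 2 - 1))) *
            ∑ r ∈ Finset.range N, ph s k r * pp s r j := by
        have e3 := hTWS K s hs N hN k j hjN
        unfold chn at e3
        rw [e3, hINV K s hs k N j hjN, ← zpow_add₀ h0]
        congr 1
        ring
      rw [e2, Finset.mul_sum, Finset.mul_sum]
      refine Finset.sum_congr rfl fun r _ => ?_
      ring
    rw [Finset.sum_congr rfl e1, Finset.sum_comm, Finset.mul_sum]
    refine Finset.sum_congr rfl fun r hr => ?_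
    rw [← hMNR K s hs N ρ hN hm n hnN r (Finset.mem_range.mp hr), ← Finset.mul_sum,
      ← Finset.mul_sum]
  rw [h3] at h2
  have hα : s ^ (-(2 * ((n : ℤ) * ((N : ℤ) - 1)))) * (bf s n * bf s (N - 1) / bf s a) ≠ 0 :=
    mul_ne_zero (zpow_ne_zero _ h0)
      (div_ne_zero (mul_ne_zero (bf_ne hs _) (bf_ne hs _)) (bf_ne hs _))
  refine mul_left_cancel₀ hα (h2.trans ?_)
  rw [Finset.mul_sum, Finset.mul_sum, Finset.mul_sum]
  refine Finset.sum_congr rfl fun r _ => ?_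
  have e4 : s ^ (2 * ((n : ℤ) * r - ((n : ℤ) + r) * ((N : ℤ) - 1))) =
      s ^ (-(2 * ((n : ℤ) * ((N : ℤ) - 1)))) * s ^ (-(2 * ((r : ℤ) * a))) := by
    rw [← zpow_add₀ h0]
    congr 1
    rw [hcast]
    ring
  rw [e4, hna]
  have b1 := bf_ne hs n
  have b2 := bf_ne hs a
  have b3 := bf_ne hs (N - 1)
  have b4 := bf_ne hs (N - 1 - r)
  field_simp

end GMK

open GMK in
/-- GMK: the coefficients of the turned twists -/
theorem t_GMK (hENT : ENT_Stmt) (hBIV : BIV_Stmt) (hCND : CND_Stmt) (hUNQ : UNQ_Stmt)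
    (hCLK : CLK_Stmt) (hTWS : TWS_Stmt) (hDIA : DIA_Stmt) (hMOM : MOM_Stmt) (hMNR : MNR_Stmt)
    (hSID : SID_Stmt) (hINV : INV_Stmt) (hCNK : CNK_Stmt) (hMOP : MOP_Stmt)
    (hVOK : VOK_Stmt) : GMK_Stmt := by
  intro K _ s hs N hN k j hj
  have h0 := hs.1
  have hV : IT.Ok s (V s N) := (hVOK K s hs).1 N
  have hT : Mor (fpow s (V s N) 2) (fpow s (V s N) 2) (tw (RD s (V s N)) k) :=
    hMOP K s hs (Fin N) (V s N) hV 1 _
  obtain ⟨x, hx⟩ : ∃ x : Fin 2 → Fin N, x = ![⟨N - 1, by omega⟩, ⟨0, hN⟩] := ⟨_, rfl⟩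
  have hx0 : (x 0 : ℕ) = N - 1 := by rw [hx]; rfl
  have hx1 : (x 1 : ℕ) = 0 := by rw [hx]; rfl
  obtain ⟨y, hy⟩ : ∃ y : Fin 2 → Fin N, y = ![⟨0, hN⟩, ⟨N - 1, by omega⟩] := ⟨_, rfl⟩
  have hy0 : (y 0 : ℕ) = 0 := by rw [hy]; rfl
  have hy1 : (y 1 : ℕ) = N - 1 := by rw [hy]; rfl
  obtain ⟨ρ, hρ⟩ := hENT K s hs N hN x y (by omega) (by omega)
  -- the weights
  have h1 : ∀ i < N, ∑ j ∈ Finset.range N, pp s i j * ρ j =
      if i + 1 = N then bf s (N - 1) ^ 2 else 0 := by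
    intro i hi
    have ha := hρ 1 (GMF.mor_one N _) i
    rw [Matrix.one_mul, (hBIV K s hs N hN true x y (by simpa using hx0) (by simpa using hx1)
      (by simpa using hy0) (by simpa using hy1) i hi).2] at ha
    rw [ha]
    refine Finset.sum_congr rfl fun j hj => ?_
    rw [GMF.wtr_diff s N j (Finset.mem_range.mp hj)]
    ring
  have h3 : ∀ j < N, ρ j = cd s N j := by
    intro j hj
    have := hUNQ K s hs N (fun j => ρ j - cd s N j) (fun i hi => by
      have hc := (hCND K s hs N hN i hi).1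
      have h1i := h1 i hi
      rw [← hc] at h1i
      have : ∑ j ∈ Finset.range N, pp s i j * (ρ j - cd s N j) =
          ∑ j ∈ Finset.range N, pp s i j * ρ j - ∑ j ∈ Finset.range N, pp s i j * cd s N j := by
        rw [← Finset.sum_sub_distrib]
        exact Finset.sum_congr rfl fun j _ => by ring
      rw [this, h1i]
      unfold cd
      rw [sub_self]) j hj
    exact sub_eq_zero.mp this
  -- the moments of the turned twists
  have h5 : ∀ i < N, br s 1 ^ (2 * i) * (rtw s N k *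
      ((fpow s (V s N) 2).F ^ i * (fpow s (V s N) 2).E ^ i)) x y =
      bf s (N - 1) * bf s i / bf s (N - 1 - i) *
        ∑ r ∈ Finset.Ico i N, (s ^ (-(2 * k * ((N : ℤ) ^ 2 - 1))) * ph s k r) *
          (bf s r * bf s (N - 1 + r - i) / (bf s (N - 1 - r) * bf s (r - i))) := by
    intro i hi
    have e1 := hMOM K s hs N hN (tw (RD s (V s N)) k) x y (by omega) hx1 hy0 (by omega) i hi
    have e0 : rtw s N k = rot (MV s N) (tw (RD s (V s N)) k) := rfl
    rw [e0, e1]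
    have e2 : ∑ a ∈ Finset.range (i + 1), (-1) ^ a * s ^ (2 * (((i : ℤ) - 1) * a)) *
        (bf s i / (bf s a * bf s (i - a))) *
        (if h : a < N then tw (RD s (V s N)) k ![⟨0, hN⟩, ⟨a, h⟩] ![⟨0, hN⟩, ⟨a, h⟩] else 0) =
        ∑ r ∈ Finset.range N, s ^ (-(2 * k * ((N : ℤ) ^ 2 - 1))) * ph s k r *
          (bf s (N - 1) / bf s (N - 1 - r)) * (if i ≤ r then s ^ (2 * ((i : ℤ) * (N - 1 : ℕ))) *
            (bf s r * bf s (N - 1 + r - i) / (bf s (r - i) * bf s (N - 1))) else 0) := by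
      have e3 : ∀ a ∈ Finset.range (i + 1), (-1) ^ a * s ^ (2 * (((i : ℤ) - 1) * a)) *
          (bf s i / (bf s a * bf s (i - a))) *
          (if h : a < N then tw (RD s (V s N)) k ![⟨0, hN⟩, ⟨a, h⟩] ![⟨0, hN⟩, ⟨a, h⟩]
            else 0) =
          ∑ r ∈ Finset.range N, s ^ (-(2 * k * ((N : ℤ) ^ 2 - 1))) * ph s k r *
            (bf s (N - 1) / bf s (N - 1 - r)) *
            ((-1) ^ a * s ^ (2 * (((i : ℤ) - 1 - r) * a)) *
              (bf s i / (bf s a * bf s (i - a))) *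
              (bf s (N - 1 - a + r) / bf s (N - 1 - a))) := by
        intro a ha
        have haN : a < N := by
          have := Finset.mem_range.mp ha
          omega
        rw [dif_pos haN, diag N hENT hDIA hTWS hINV hMNR hs hN k hT a haN, Finset.mul_sum,
          Finset.mul_sum]
        refine Finset.sum_congr rfl fun r _ => ?_
        have e4 : s ^ (2 * (((i : ℤ) - 1 - r) * a)) =
            s ^ (2 * (((i : ℤ) - 1) * a)) * s ^ (-(2 * ((r : ℤ) * a))) := by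
          rw [← zpow_add₀ h0]
          congr 1
          ring
        rw [e4]
        have b1 := bf_ne hs (N - 1 - a)
        have b2 := bf_ne hs a
        have b3 := bf_ne hs (i - a)
        have b4 := bf_ne hs (N - 1 - r)
        field_simp
      rw [Finset.sum_congr rfl e3, Finset.sum_comm]
      refine Finset.sum_congr rfl fun r _ => ?_
      rw [← Finset.mul_sum, hSID K s hs r i (N - 1) (by omega)]
    rw [e2, Finset.mul_sum, Finset.mul_sum]
    have e5 : Finset.Ico i N = (Finset.range N).filter fun r => i ≤ r := by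
      ext r
      rw [Finset.mem_Ico, Finset.mem_filter, Finset.mem_range]
      omega
    rw [e5, Finset.sum_filter]
    refine Finset.sum_congr rfl fun r _ => ?_
    by_cases hir : i ≤ r
    · rw [if_pos hir, if_pos hir]
      have e6 : s ^ (-(2 * ((i : ℤ) * ((N : ℤ) - 1)))) * s ^ (2 * ((i : ℤ) * (N - 1 : ℕ))) = 1 := by
        rw [← zpow_add₀ h0]
        have : -(2 * ((i : ℤ) * ((N : ℤ) - 1))) + 2 * ((i : ℤ) * (N - 1 : ℕ)) = 0 := by
          rw [Nat.cast_sub hN]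
          push_cast
          ring
        rw [this, zpow_zero]
      have b1 := bf_ne hs (N - 1)
      have b2 := bf_ne hs (N - 1 - r)
      have b3 := bf_ne hs (r - i)
      have b4 := bf_ne hs (N - 1 - i)
      have e7 : bf s (N - 1) * bf s i / bf s (N - 1 - i) *
          s ^ (-(2 * ((i : ℤ) * ((N : ℤ) - 1)))) *
          (s ^ (-(2 * k * ((N : ℤ) ^ 2 - 1))) * ph s k r * (bf s (N - 1) / bf s (N - 1 - r)) *
            (s ^ (2 * ((i : ℤ) * (N - 1 : ℕ))) *
              (bf s r * bf s (N - 1 + r - i) / (bf s (r - i) * bf s (N - 1))))) =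
          (s ^ (-(2 * ((i : ℤ) * ((N : ℤ) - 1)))) * s ^ (2 * ((i : ℤ) * (N - 1 : ℕ)))) *
          (bf s (N - 1) * bf s i / bf s (N - 1 - i) *
            (s ^ (-(2 * k * ((N : ℤ) ^ 2 - 1))) * ph s k r * (bf s (N - 1) / bf s (N - 1 - r)) *
              (bf s r * bf s (N - 1 + r - i) / (bf s (r - i) * bf s (N - 1))))) := by ring
      rw [e7, e6, one_mul]
      field_simp
    · rw [if_neg hir, if_neg hir]
      ring
  -- comparison with the candidate
  have h6 : ∀ j < N, ρ j * chn s N (rtw s N k) j = cd s N j * ((-1) ^ (N - 1 + j) *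
      ∑ r ∈ Finset.Ico j N, (s ^ (-(2 * k * ((N : ℤ) ^ 2 - 1))) * ph s k r) *
        (bf s r ^ 2 * (bf s (N + r) / bf s (N - 1 - r)) /
          (bf s (r - j) * bf s (r + j + 1)))) := by
    intro j hj
    have := hUNQ K s hs N (fun j => ρ j * chn s N (rtw s N k) j - cd s N j * ((-1) ^ (N - 1 + j) *
      ∑ r ∈ Finset.Ico j N, (s ^ (-(2 * k * ((N : ℤ) ^ 2 - 1))) * ph s k r) *
        (bf s r ^ 2 * (bf s (N + r) / bf s (N - 1 - r)) /
          (bf s (r - j) * bf s (r + j + 1))))) (fun i hi => by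
      have hc := hCNK K s hs N hN
        (fun r => s ^ (-(2 * k * ((N : ℤ) ^ 2 - 1))) * ph s k r) i hi
      have ha := hρ _ (hCLK K s hs N hN k) i
      rw [h5 i hi, ← hc] at ha
      have hb : ∑ j ∈ Finset.range N, pp s i j * (ρ j * chn s N (rtw s N k) j) =
          ∑ j ∈ Finset.range N, ρ j * pp s i j *
            (wtr (fpow s (V s N) 2) (2 * (j : ℤ)) (rtw s N k) -
              wtr (fpow s (V s N) 2) (2 * (j : ℤ) + 2) (rtw s N k)) := by
        refine Finset.sum_congr rfl fun j _ => ?_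
        unfold chn
        ring
      rw [← ha] at hb
      rw [← sub_eq_zero.mpr hb, ← Finset.sum_sub_distrib]
      refine Finset.sum_congr rfl fun j _ => ?_
      unfold cd
      ring) j hj
    exact sub_eq_zero.mp this
  have h7 := h6 j hj
  rw [h3 j hj] at h7
  have h8 := mul_left_cancel₀ (cd_ne N hs j) h7
  rw [h8, Finset.mul_sum, Finset.mul_sum]
  refine Finset.sum_congr rfl fun r _ => ?_
  ring

end Pool.Agent.WD3
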