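import Pool.Agent.WD3.StG
import Pool.Agent.WD.GSUM

/-!
# Generalised doubles: the closure with twists and any endomorphism (module GSY)
-/

set_option autoImplicit false

namespace Pool.Agent.WD3

open Pool.Agent.LibH11 Pool.Agent.IT Pool.Agent.GK Pool.Agent.TwoBr Pool.Agent.WD Pool.Agent.WD2
open scoped BigOperators

open GSUMM in
/-- GSY -/
theorem t_GSY (hBLKD : BLKD_Stmt)
    (hCABSUM : CABSUM_Stmt) (hMULT : MULT_Stmt) (hDBL : DBL_Stmt) (hMOP : MOP_Stmt)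
    (hFPOWOK : FPOWOK_Stmt) (hVOK : VOK_Stmt) (hRINV : RINV_Stmt) : GSY_Stmt := by
  intro K _ s hs N hN Y hC
  have hV : IT.Ok s (V s N) := (hVOK K s hs).1 N
  have hW : IT.Ok s (fpow s (V s N) 2) := hFPOWOK K s hs (Fin N) (V s N) hV 2
  intro m n w hk
  have hB : blkD (RD s (V s N)) 1 = RD s (fpow s (V s N) 2) :=
    hBLKD K s hs (Fin N) (V s N) hV 1
  have hTm : Mor (fpow s (V s N) 2) (fpow s (V s N) 2) (tw (RD s (V s N)) m) :=
    hMOP K s hs (Fin N) (V s N) hV 1 _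
  have hX : Mor (fpow s (V s N) 2) (fpow s (V s N) 2)
      (tw (RD s (V s N)) m * Y) := by
    refine ⟨?_, ?_, ?_⟩
    · intro b a hab
      rw [Matrix.mul_apply] at hab
      obtain ⟨c, -, hc⟩ := Finset.exists_ne_zero_of_sum_ne_zero hab
      rw [hTm.wt b c (left_ne_zero_of_mul hc), hC.wt c a (right_ne_zero_of_mul hc)]
    · rw [← Matrix.mul_assoc, hTm.E, Matrix.mul_assoc, hC.E, Matrix.mul_assoc]
    · rw [← Matrix.mul_assoc, hTm.F, Matrix.mul_assoc, hC.F, Matrix.mul_assoc]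
  rw [hB, hCABSUM K s hs (Fin 2 → Fin N) (fpow s (V s N) 2) hW _ hX n w hk (2 * N - 1)]
  · rw [sum_even _ _ N hN]
    · refine Finset.sum_congr rfl fun j _ => ?_
      congr 1
      obtain ⟨r, P, Q, hQP, hEP, hwP, hQ⟩ :=
        hMULT K s hs (Fin 2 → Fin N) (fpow s (V s N) 2) hW (2 * j)
      have hT := tw_act hDBL hRINV hVOK hs ((2 * j : ℕ) : ℤ) P hEP hwP m
      have h1 := trace_act Y (tw (RD s (V s N)) m) P Q hQP
        (hQ _ hC).1 _ hT
      rw [(hQ _ hX).2, (hQ _ hC).2] at h1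
      have hc : ((2 * j : ℕ) : ℤ) = 2 * (j : ℤ) := by push_cast; ring
      rw [hc] at h1
      rw [hc, h1, mul_comm]
      unfold chn
      congr 1
      rw [mul_comm m, zpow_mul]
      congr 2
      ring
    · intro k
      have hc : ((2 * k + 1 : ℕ) : ℤ) = 2 * (k : ℤ) + 1 := by push_cast; ring
      have hc2 : ((2 * k + 1 : ℕ) : ℤ) + 2 = 2 * ((k : ℤ) + 1) + 1 := by push_cast; ring
      rw [hc2, hc, wtr_odd, wtr_odd, sub_zero, zero_mul]
  · intro a
    rw [wt_val]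
    have h0 : 0 ≤ (((a 0 : Fin N) : ℕ) : ℤ) := Int.natCast_nonneg _
    have h1 : 0 ≤ (((a 1 : Fin N) : ℕ) : ℤ) := Int.natCast_nonneg _
    omega

end Pool.Agent.WD3
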