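import Pool.Agent.WD3.StG

/-!
# WG_INV (helper90): the powers of the twist in terms of the polynomials `pp`
-/

set_option autoImplicit false

namespace Pool.Agent.WD3

open Pool.Agent.LibH11 Pool.Agent.IT Pool.Agent.GK Pool.Agent.TwoBr Pool.Agent.WD Pool.Agent.WD2
open scoped BigOperators
open PowerSeries

namespace INV

variable {K : Type} [Field K]

/-- the coefficients of the inverse matrix -/
noncomputable def cf (s : K) (r l : ℕ) : K :=
  if l ≤ r then (-1) ^ (r + l) * br s (2 * l + 1) / (bf s (r - l) * bf s (r + l + 1)) else 0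

theorem sum_cf (s : K) {r M : ℕ} (hr : r < M) (f : ℕ → K) :
    ∑ l ∈ Finset.range M, cf s r l * f l =
      ∑ l ∈ Finset.range (r + 1), (-1) ^ (r + l) * br s (2 * l + 1) * f l /
        (bf s (r - l) * bf s (r + l + 1)) := by
  have h1 : ∑ l ∈ Finset.range (r + 1), cf s r l * f l = ∑ l ∈ Finset.range M, cf s r l * f l := by
    refine Finset.sum_subset (Finset.range_subset_range.2 (by omega)) fun l _ hl => ?_
    rw [Finset.mem_range] at hl
    rw [cf, if_neg (by omega), zero_mul]
  rw [← h1]
  refine Finset.sum_congr rfl fun l hl => ?_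
  rw [Finset.mem_range] at hl
  rw [cf, if_pos (by omega)]
  ring

/-- the matrix of the coefficients -/
noncomputable def mA (s : K) (M : ℕ) : Matrix (Fin M) (Fin M) K := fun r l => cf s r l

/-- the matrix of the polynomials -/
noncomputable def mP (s : K) (M : ℕ) : Matrix (Fin M) (Fin M) K := fun l i => pp s i l

theorem mul_one_left (h0 : D0_Stmt) {s : K} (hs : IT.Gen s) (M : ℕ) : mA s M * mP s M = 1 := by
  refine Matrix.ext fun m i => ?_
  rw [Matrix.mul_apply, Matrix.one_apply]
  have h1 : ∑ l : Fin M, mA s M m l * mP s M l i =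
      ∑ l ∈ Finset.range M, cf s m l * pp s i l := by
    rw [Finset.sum_range]
    rfl
  rw [h1, sum_cf s m.2 fun l => pp s i l]
  by_cases h : (i : ℕ) ≤ m
  · rw [h0 K s hs i m h]
    by_cases h2 : m = i
    · rw [if_pos h2, if_pos (by rw [h2])]
    · rw [if_neg h2, if_neg fun h3 => h2 (Fin.ext h3.symm)]
  · rw [if_neg (fun h3 => h (by rw [h3]))]
    refine Finset.sum_eq_zero fun l hl => ?_
    rw [Finset.mem_range] at hl
    show _ * pp s i l / _ = 0
    rw [pp_of_lt (by omega), mul_zero, zero_div]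

end INV

open INV in
theorem t_INV (h0 : D0_Stmt) : INV_Stmt := by
  intro K _ s hs k M j hj
  have h1 : mP s M * mA s M = 1 := mul_eq_one_comm.1 (mul_one_left h0 hs M)
  have h2 : ∀ l < M, ∑ r ∈ Finset.range M, pp s r j * cf s r l = if j = l then 1 else 0 := by
    intro l hl
    have h3 := congrFun (congrFun h1 ⟨j, hj⟩) ⟨l, hl⟩
    rw [Matrix.mul_apply, Matrix.one_apply] at h3
    rw [Finset.sum_range]
    refine Eq.trans ?_ (h3.trans ?_)
    · rfl
    · by_cases h4 : j = l
      · subst h4
        rw [if_pos rfl, if_pos rfl]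
      · rw [if_neg h4, if_neg fun h5 => h4 (congrArg Fin.val h5)]
  have h3 : ∀ r ∈ Finset.range M, ph s k r * pp s r j =
      ∑ l ∈ Finset.range M, s ^ (4 * ((l : ℤ) * (l + 1)) * k) * (pp s r j * cf s r l) := by
    intro r hr
    rw [Finset.mem_range] at hr
    have h4 : ph s k r = ∑ l ∈ Finset.range M, cf s r l * s ^ (4 * ((l : ℤ) * (l + 1)) * k) :=
      (sum_cf s hr fun l => s ^ (4 * ((l : ℤ) * (l + 1)) * k)).symm
    rw [h4, Finset.sum_mul]
    refine Finset.sum_congr rfl fun l _ => ?_
    ring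
  rw [Finset.sum_congr rfl h3, Finset.sum_comm]
  have h4 : ∀ l ∈ Finset.range M,
      ∑ r ∈ Finset.range M, s ^ (4 * ((l : ℤ) * (l + 1)) * k) * (pp s r j * cf s r l) =
        if j = l then s ^ (4 * ((j : ℤ) * (j + 1)) * k) else 0 := by
    intro l hl
    rw [Finset.mem_range] at hl
    rw [← Finset.mul_sum, h2 l hl]
    by_cases h5 : j = l
    · subst h5
      rw [if_pos rfl, if_pos rfl, mul_one]
    · rw [if_neg h5, if_neg h5, mul_zero]
  rw [Finset.sum_congr rfl h4, Finset.sum_ite_eq, if_pos (Finset.mem_range.2 hj)]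

end Pool.Agent.WD3
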