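import Pool.Agent.WD3.StG
import Pool.Agent.WD.JFD

/-!
# JFK: the values of the invariants of the integral model on generalised doubles (helper59)
-/

set_option autoImplicit false

namespace Pool.Agent.WD3

open Pool.Agent.LibH11 Pool.Agent.IT Pool.Agent.GK Pool.Agent.TwoBr Pool.Agent.WD Pool.Agent.WD2
open Pool.Agent.LibH11.Sliced (Diag Kind cnt IsLongKnot ofDiag braidWord)
open scoped BigOperators
open PowerSeries

namespace JFK

theorem th_pow (N : ℕ) (m : ℤ) : th sQ N (!(decide (0 < m))) ^ (2 * m.natAbs) =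
    sQ ^ (2 * m * ((N : ℤ) ^ 2 - 1)) := by
  rw [JFD.th_sq]
  congr 1
  by_cases hm : 0 < m
  · have h5 : (m.natAbs : ℤ) = m := Int.natAbs_of_nonneg hm.le
    rw [h5]
    simp [hm]
  · have h5 : (m.natAbs : ℤ) = -m := Int.ofNat_natAbs_of_nonpos (not_lt.1 hm)
    rw [h5]
    simp only [hm, decide_false, Bool.not_false, if_true]
    ring

end JFK

theorem t_JFK (hMPM : MPM_Stmt) (hGAU : GAU_Stmt) (hNRK : NRK_Stmt) (hSCK : SCK_Stmt)
    (hCUPM : CUPM_Stmt) (hESER : ESER_Stmt) : JFK_Stmt := by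
  intro φ _ N hN Z g g' hg hg1 hZ F hF n w hw hk k m
  have hG : IT.Gen sQ := hESER.2.2.2.2.1
  have hs : (sQ : KQ) ≠ 0 := hG.1
  obtain ⟨-, hZig, -, hPiv, -, -⟩ := hCUPM KQ sQ hG N hN
  have key := JFD.val_eq hMPM hGAU φ N hN Z g g' hg hg1 _ hZ F hF
  rw [key, hNRK KQ (Fin N) (MV sQ N) _ _ (th sQ N) hPiv hZig (JFD.th_mul sQ hs N) k m n w hw hk]
  obtain ⟨c, hc, hc'⟩ := hSCK KQ sQ hG N hN k m n w hw
  rw [hc, JFD.map_F, mul_one, mul_assoc, hc', JFK.th_pow, JFK.th_pow, add_mul, zpow_add₀ hs]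
  ring

end Pool.Agent.WD3
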