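import Pool.Agent.WD3.StG
import Pool.Agent.WD.JSX

/-!
# Generalised doubles: the coloured Jones polynomials of long knots exist (module JXK)
-/

set_option autoImplicit false

namespace Pool.Agent.WD3

open Pool.Agent.LibH11 Pool.Agent.IT Pool.Agent.GK Pool.Agent.TwoBr Pool.Agent.WD Pool.Agent.WD2
open Pool.Agent.LibH11.Sliced (Diag Kind cnt IsLongKnot ofDiag braidWord)
open scoped BigOperators
open PowerSeries LaurentPolynomial
open Pool.Agent.WD.Jsx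

theorem t_JXK (hjfk : JFK_Stmt) (hgsy : GSY_Stmt) (hclk : CLK_Stmt) (hev : EVT_Stmt) (hint : INT_Stmt) (hmpm : MPM_Stmt) (hokf : OKF_Stmt)
    (hgau : GAU_Stmt) (hftz : FTZ_Stmt) (hjfd : JFD_Stmt) (hcjf : CJF_Stmt) (hgs : GS2_Stmt)
    (hpar : PAR_Stmt) (hjm : JMAP_Stmt) (he : ESER_Stmt) : JXK_Stmt := by
  intro M cb ops
  obtain ⟨T, θ, v, hv, hT, hθ, hf⟩ := hcjf M cb ops
  obtain ⟨φ, hφ, hinj⟩ := hev
  have hG : IT.Gen sQ := he.2.2.2.2.1
  have h0 := sQ_ne he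
  have hφK : Function.Injective (toK.comp φ) := by
    rw [RingHom.coe_comp]
    exact toK_injective.comp hinj
  have H := fun (N : ℕ) (hN : 1 ≤ N) => hint φ hφ N hN
  choose Z g g' h1 h2 h3 h4 using H
  have hZ : ∀ (N : ℕ) (hN : 1 ≤ N), (Z N hN).Ok := by
    intro N hN
    refine (hmpm _ _ _ (toK.comp φ) (Z N hN)).2 hφK ?_
    rw [h3 N hN]
    exact (hgau _ _ _ _ _ (h1 N hN)).1 (hokf KQ sQ hG N hN).nrm
  let F : (N : ℕ) → (hN : 1 ≤ N) → List (Bool × Fin N) → ℤ[T;T⁻¹] :=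
    fun N hN l => if l = [(true, ⟨0, hN⟩)] then 1 else 0
  let JS : ℕ → SKnot → ℚ⟦X⟧ := fun N K =>
    if hN : 1 ≤ N then φ ((Z N hN).inv (hZ N hN) (F N hN) (true, ⟨0, hN⟩) K) else 0
  have hJS : ∀ (N : ℕ) (hN : 1 ≤ N) (D : Diag) (hD : IsLongKnot D),
      JS N (ofDiag D hD) = φ ((Z N hN).val D (F N hN) [(true, ⟨0, hN⟩)]) := by
    intro N hN D hD
    simp only [JS, dif_pos hN]
    rfl
  -- closed braids
  have hcl : ∀ (N : ℕ) (_ : 1 ≤ N) (n : ℕ) (w : Word) (_ : LibH11.IsKnot (ev n w))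
      (hl : IsLongKnot (cl n w)), Bd n w →
      toK (JS N (ofDiag (cl n w) hl)) * qn sQ N =
        sQ ^ (-(((N : ℤ) ^ 2 - 1) * wr w)) * Jfr (RD sQ (V sQ N)) n w := by
    intro N hN n w h hl hb
    have e1 := (hjfd φ hφ N hN (Z N hN) (g N hN) (g' N hN) (h1 N hN) (h2 N hN) (h3 N hN)
      (F N hN) (fun l => rfl) n w hb h).1
    have e2 : ((-1 : KQ) ^ (N - 1)) ^ n * ((-1) ^ (N - 1)) ^ w.length = 1 := by
      rw [← pow_add, ← pow_mul]
      exact Even.neg_one_pow ((hpar n w hb h).mul_left _)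
    rw [e2, mul_one] at e1
    rw [hJS N hN, ← brk_eq he N]
    exact e1
  have hdbl : DblG JS := by
    intro e N hN
    obtain ⟨-, hg⟩ := hgs KQ sQ hG N hN e
    unfold Cfg
    intro m n w hl hd hb h
    have e1 := (hjfd φ hφ N hN (Z N hN) (g N hN) (g' N hN) (h1 N hN) (h2 N hN) (h3 N hN)
      (F N hN) (fun l => rfl) n w hb h).2 e m
    rw [hg m n w h] at e1
    have e2 : (∑ i, (RD sQ (V sQ N)).κ i) = qn sQ N := brk_eq he N
    rw [e2] at e1
    rw [← hJS N hN _ hd] at e1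
    have hq := qn_ne he hN
    apply mul_right_cancel₀ hq
    rw [e1, Finset.mul_sum, Finset.sum_mul]
    refine Finset.sum_congr rfl fun j _ => ?_
    have hM : 1 ≤ 2 * j + 1 := by omega
    have e3 := hcl (2 * j + 1) hM n w h hl hb
    have e4 : Jfr (RD sQ (V sQ (2 * j + 1))) n w =
        sQ ^ ((((2 * j + 1 : ℕ) : ℤ) ^ 2 - 1) * wr w) *
          (toK (JS (2 * j + 1) (ofDiag (cl n w) hl)) * qn sQ (2 * j + 1 : ℕ)) := by
      rw [e3, ← mul_assoc, ← zpow_add₀ h0, add_neg_cancel, zpow_zero, one_mul]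
    have e5 : toK (E (2 * j * (j + 1) * (m + wr w))) =
        sQ ^ ((((2 * j + 1 : ℕ) : ℤ) ^ 2 - 1) * (m + wr w)) :=
      toK_E he _ _ (by push_cast; ring)
    rw [e4, map_mul, e5]
    have e6 : sQ ^ ((2 * m + (if e then 2 else -2)) * ((N : ℤ) ^ 2 - 1)) *
        sQ ^ (m * ((2 * (j : ℤ) + 1) ^ 2 - 1 - 2 * ((N : ℤ) ^ 2 - 1))) *
        sQ ^ ((((2 * j + 1 : ℕ) : ℤ) ^ 2 - 1) * wr w) =
        sQ ^ (if e then 2 * ((N : ℤ) ^ 2 - 1) else -(2 * ((N : ℤ) ^ 2 - 1))) *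
          sQ ^ ((((2 * j + 1 : ℕ) : ℤ) ^ 2 - 1) * (m + wr w)) := by
      rw [← zpow_add₀ h0, ← zpow_add₀ h0, ← zpow_add₀ h0]
      congr 1
      cases e
      · simp only [Bool.false_eq_true, if_false]
        push_cast
        ring
      · simp only [if_true]
        push_cast
        ring
    have e7 : qn sQ ((2 * j + 1 : ℕ) : ℤ) = qn sQ (2 * (j : ℤ) + 1) := by push_cast; rfl
    rw [e7]
    have e8 : ∀ x y : KQ, x / qn sQ N * y * qn sQ N = x * y := by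
      intro x y
      field_simp
    rw [e8]
    linear_combination ((-1 : KQ) ^ (N - 1) * gam sQ N e j *
      toK (JS (2 * j + 1) (ofDiag (cl n w) hl)) * qn sQ (2 * (j : ℤ) + 1)) * e6
  have hdblk : DblK JS := by
    intro k N hN m n w hl hd hb h
    have e1 := hjfk φ hφ N hN (Z N hN) (g N hN) (g' N hN) (h1 N hN) (h2 N hN) (h3 N hN)
      (F N hN) (fun l => rfl) n w hb h k m
    rw [hgsy KQ sQ hG N hN _ (hclk KQ sQ hG N hN k) m n w h] at e1
    have e2 : (∑ i, (RD sQ (V sQ N)).κ i) = qn sQ N := brk_eq he N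
    rw [e2] at e1
    rw [← hJS N hN _ hd] at e1
    have hq := qn_ne he hN
    apply mul_right_cancel₀ hq
    rw [e1, Finset.mul_sum, Finset.sum_mul]
    refine Finset.sum_congr rfl fun j _ => ?_
    have hM : 1 ≤ 2 * j + 1 := by omega
    have e3 := hcl (2 * j + 1) hM n w h hl hb
    have e4 : Jfr (RD sQ (V sQ (2 * j + 1))) n w =
        sQ ^ ((((2 * j + 1 : ℕ) : ℤ) ^ 2 - 1) * wr w) *
          (toK (JS (2 * j + 1) (ofDiag (cl n w) hl)) * qn sQ (2 * j + 1 : ℕ)) := by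
      rw [e3, ← mul_assoc, ← zpow_add₀ h0, add_neg_cancel, zpow_zero, one_mul]
    have e5 : toK (E (2 * j * (j + 1) * (m + wr w))) =
        sQ ^ ((((2 * j + 1 : ℕ) : ℤ) ^ 2 - 1) * (m + wr w)) :=
      toK_E he _ _ (by push_cast; ring)
    rw [e4, map_mul, e5]
    have e6 : sQ ^ ((2 * m + 2 * k) * ((N : ℤ) ^ 2 - 1)) *
        sQ ^ (m * ((2 * (j : ℤ) + 1) ^ 2 - 1 - 2 * ((N : ℤ) ^ 2 - 1))) *
        sQ ^ ((((2 * j + 1 : ℕ) : ℤ) ^ 2 - 1) * wr w) =
        sQ ^ (2 * k * ((N : ℤ) ^ 2 - 1)) *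
          sQ ^ ((((2 * j + 1 : ℕ) : ℤ) ^ 2 - 1) * (m + wr w)) := by
      rw [← zpow_add₀ h0, ← zpow_add₀ h0, ← zpow_add₀ h0]
      congr 1
      push_cast
      ring
    have e7 : qn sQ ((2 * j + 1 : ℕ) : ℤ) = qn sQ (2 * (j : ℤ) + 1) := by push_cast; rfl
    rw [e7]
    unfold Ck
    have e8 : ∀ x y : KQ, x / qn sQ N * y * qn sQ N = x * y := by
      intro x y
      field_simp
    rw [e8]
    linear_combination ((-1 : KQ) ^ (N - 1) * chn sQ N (rtw sQ N k) j *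
      toK (JS (2 * j + 1) (ofDiag (cl n w) hl)) * qn sQ (2 * (j : ℤ) + 1)) * e6
  refine ⟨v, JS, hv, ⟨?_, ?_, ?_⟩, ?_⟩
  · intro N hN K K' hu
    simp only [JS, dif_pos hN]
    rw [hftz _ (Z N hN) (hZ N hN) (h4 N hN) (F N hN) (true, ⟨0, hN⟩) K K' hu]
  · intro N hN n w h hl hb
    apply toK_injective
    have e1 := hcl N hN n w h hl hb
    rw [← toK_J hjm he (hT N) (hθ N) n w, ← hf N n w h hb] at e1
    rw [map_mul, map_mul, ← e1, ← qn_mul he N]
    ring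
  · intro e N hN
    refine ⟨Cfg N e, ?_, fun m n w hl hd hb h => hdbl e N hN m n w hl hd hb h⟩
    have hγ := (hgs KQ sQ hG N hN e).1
    have e1 : (2 * ((N - 1 : ℕ) : ℤ) + 1) = 2 * N - 1 := by
      push_cast [Nat.cast_sub hN]
      ring
    simp only [Cfg, cftop, hγ]
    rw [e1]
  · exact hdblk

end Pool.Agent.WD3
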