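import Pool.Agent.WD3.StI
import Pool.Agent.WD2.LDD

/-!
# The leading terms of a generalised double (module WI_LDF, helper56)
-/

set_option autoImplicit false

namespace Pool.Agent.WD3

open Pool.Agent.LibH11 Pool.Agent.IT Pool.Agent.GK Pool.Agent.TwoBr Pool.Agent.WD Pool.Agent.WD2
open scoped BigOperators
open PowerSeries

namespace LDF

lemma E_zero : E (0 : ℚ) = 1 := by
  ext n
  cases n with
  | zero => simp [E]
  | succ n => simp [E, coeff_one]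

lemma FU_zero (hSG : SG0_Stmt) (k : ℤ) : FU k 0 = 1 := by
  unfold FU FF
  simp [hSG.1, E_zero]

lemma yt_zero_framing (J : ℕ → ℚ⟦X⟧) (j : ℕ) : yt 0 J j = J (2 * j + 1) := by
  unfold yt
  rw [Int.cast_zero, mul_zero, E_zero, one_mul]

lemma yt_zero (t : ℤ) (J : ℕ → ℚ⟦X⟧) (hJ1 : J 1 = 1) : yt t J 0 = 1 := by
  unfold yt
  simp [E_zero, hJ1]

lemma triv (hSG : SG0_Stmt) {k : ℤ} {J J' : ℕ → ℚ⟦X⟧}
    (hJ' : ∀ N : ℕ, 1 ≤ N → J' N = cyk k N (yt 0 J)) (h : Triv J) : Triv J' := by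
  intro N hN
  have hy1 : yt 0 J = fun _ => 1 := by
    funext j
    rw [yt_zero_framing, h _ (by omega)]
  rw [hJ' N hN, hy1]
  unfold cyk
  rw [Finset.sum_eq_single 0]
  · rw [FU_zero hSG]
    unfold FF
    simp [PT_zero, hSG.1]
  · intro i _ hi
    have h1 : FF (fun _ => 1) i = 0 := by
      unfold FF
      simp only [mul_one]
      exact hSG.2 i (by omega)
    rw [h1, mul_zero, mul_zero]
  · intro h
    exact absurd (Finset.mem_range.2 (by omega)) h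

lemma step (hLDK : LDK_Stmt) {k : ℤ} {J J' : ℕ → ℚ⟦X⟧} (hJ1 : J 1 = 1)
    (hJ' : ∀ N : ℕ, 1 ≤ N → J' N = cyk k N (yt 0 J)) (d : ℕ) (x z u v : ℚ)
    (hL : LdE d x z u v J) :
    ∃ z' v' : ℚ, LdE (d + 1) (-(8 * (k : ℚ) * x)) z' (-(8 * (k : ℚ) * x) / 3) v' J' := by
  obtain ⟨z', v', h⟩ := hLDK k d (8 * x) (8 * z) (8 * (9 * u + v)) (24 * z) (yt 0 J) J' hJ'
    (yt_zero 0 J hJ1) (by
      intro j
      obtain ⟨f, hf⟩ := hL (2 * j + 1) (by omega)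
      rw [yt_zero_framing]
      refine ⟨X ^ 3 * f + C (x * (((2 * j + 1 : ℕ) : ℚ) ^ 2 - 1)) +
        C (z * (((2 * j + 1 : ℕ) : ℚ) ^ 2 - 1)) * X +
        C ((((2 * j + 1 : ℕ) : ℚ) ^ 2 - 1) * (u * ((2 * j + 1 : ℕ) : ℚ) ^ 2 + v)) * X ^ 2, ?_⟩
      linear_combination hf) (by
      have h1 := hL 3 (by norm_num)
      rw [yt_zero_framing]
      have e1 : x * (((3 : ℕ) : ℚ) ^ 2 - 1) = 8 * x := by push_cast; ring
      have e2 : z * (((3 : ℕ) : ℚ) ^ 2 - 1) = 8 * z := by push_cast; ring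
      have e3 : (((3 : ℕ) : ℚ) ^ 2 - 1) * (u * ((3 : ℕ) : ℚ) ^ 2 + v) = 8 * (9 * u + v) := by
        push_cast; ring
      rw [e1, e2, e3] at h1
      exact h1) (by
      obtain ⟨f, hf⟩ := hL 5 (by norm_num)
      rw [yt_zero_framing]
      have e1 : x * (((5 : ℕ) : ℚ) ^ 2 - 1) = 3 * (8 * x) := by push_cast; ring
      have e2 : z * (((5 : ℕ) : ℚ) ^ 2 - 1) = 24 * z := by push_cast; ring
      rw [e1, e2] at hf
      refine ⟨X * f + C ((((5 : ℕ) : ℚ) ^ 2 - 1) * (u * ((5 : ℕ) : ℚ) ^ 2 + v)), ?_⟩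
      linear_combination hf) (by
      obtain ⟨f, hf⟩ := hL 7 (by norm_num)
      rw [yt_zero_framing]
      have e1 : x * (((7 : ℕ) : ℚ) ^ 2 - 1) = 6 * (8 * x) := by push_cast; ring
      rw [e1] at hf
      refine ⟨X ^ 2 * f + C (z * (((7 : ℕ) : ℚ) ^ 2 - 1)) +
        C ((((7 : ℕ) : ℚ) ^ 2 - 1) * (u * ((7 : ℕ) : ℚ) ^ 2 + v)) * X, ?_⟩
      linear_combination hf)
  have e1 : -((k : ℚ) * (8 * x)) = -(8 * (k : ℚ) * x) := by ring
  have e2 : -((k : ℚ) * (8 * x)) / 3 + (k : ℚ) ^ 2 * (24 * z - 3 * (8 * z)) / 3 =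
      -(8 * (k : ℚ) * x) / 3 := by ring
  rw [e2, e1] at h
  exact ⟨z', v', h⟩

lemma framed (hLDK : LDK_Stmt) {k t : ℤ} {J J' : ℕ → ℚ⟦X⟧} (hJ1 : J 1 = 1) (hI : Inf J)
    (hJ' : ∀ N : ℕ, 1 ≤ N → J' N = cyk k N (yt t J)) :
    ∃ z u v : ℚ, LdE 2 (-(4 * (k : ℚ) * t)) z u v J' ∧
      u = -(4 * (k : ℚ) * t) / 3 + (-(4 * (k : ℚ) * t)) ^ 2 := by
  obtain ⟨a, b, hab⟩ := Pool.Agent.WD2.LDD.terms hI
  obtain ⟨z', v', h⟩ := hLDK k 1 (4 * t) (8 * (t : ℚ) ^ 2 + 8 * a)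
    (32 * (t : ℚ) ^ 3 / 3 + 32 * t * a + 8 * b) (72 * (t : ℚ) ^ 2 + 24 * a)
    (yt t J) J' hJ' (yt_zero t J hJ1) (by
      intro j
      have h1 := Pool.Agent.WD2.LDD.mulE (c := 2 * j * (j + 1) * t) (hab (2 * j + 1) (by omega))
        rfl rfl rfl
      exact Pool.Agent.WD2.LDD.dvd_sub_one rfl h1) (by
      exact Pool.Agent.WD2.LDD.mulE (hab 3 (by norm_num)) (by push_cast; ring) (by push_cast; ring)
        (by push_cast; ring)) (by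
      obtain ⟨f, hf⟩ := Pool.Agent.WD2.LDD.mulE (c := 2 * (2 : ℕ) * ((2 : ℕ) + 1) * t)
        (α := 3 * (4 * t))
        (β := 72 * (t : ℚ) ^ 2 + 24 * a) (hab 5 (by norm_num)) (by push_cast; ring)
        (by push_cast; ring) rfl
      refine ⟨X * f + C ((2 * (2 : ℕ) * ((2 : ℕ) + 1) * t) ^ 3 / 6 +
        b * (((5 : ℕ) : ℚ) ^ 2 - 1) + (2 * (2 : ℕ) * ((2 : ℕ) + 1) * t) *
          (a * (((5 : ℕ) : ℚ) ^ 2 - 1))), ?_⟩
      unfold yt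
      simp only [Nat.reduceMul, Nat.reduceAdd]
      linear_combination hf) (by
      obtain ⟨f, hf⟩ := Pool.Agent.WD2.LDD.mulE (c := 2 * (3 : ℕ) * ((3 : ℕ) + 1) * t)
        (α := 6 * (4 * t))
        (hab 7 (by norm_num)) (by push_cast; ring) rfl rfl
      refine ⟨X ^ 2 * f + C ((2 * (3 : ℕ) * ((3 : ℕ) + 1) * t) ^ 2 / 2 +
        a * (((7 : ℕ) : ℚ) ^ 2 - 1)) + C ((2 * (3 : ℕ) * ((3 : ℕ) + 1) * t) ^ 3 / 6 +
        b * (((7 : ℕ) : ℚ) ^ 2 - 1) + (2 * (3 : ℕ) * ((3 : ℕ) + 1) * t) *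
          (a * (((7 : ℕ) : ℚ) ^ 2 - 1))) * X, ?_⟩
      unfold yt
      simp only [Nat.reduceMul, Nat.reduceAdd]
      linear_combination hf)
  have e1 : -((k : ℚ) * (4 * t)) = -(4 * (k : ℚ) * t) := by ring
  rw [e1] at h
  refine ⟨z', _, v', h, ?_⟩
  ring

end LDF

open LDF in
/-- LDF: the leading terms of a generalised double. -/
theorem t_LDF (hSG : SG0_Stmt) (hLDK : LDK_Stmt) : LDF_Stmt := by
  intro k t hk J J' hJ1 hI hJ'
  have hk0 : (k : ℚ) ≠ 0 := Int.cast_ne_zero.2 hk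
  refine ⟨?_, fun _ => ?_, ?_, ?_⟩
  · by_cases ht : t = 0
    · subst ht
      rcases hI with h | ⟨d, x, z, u, v, hL, hx, hd⟩
      · exact Or.inl (triv hSG hJ' h)
      · right
        have hd2 : 2 ≤ d := by
          rcases hd with ⟨h, _⟩ | ⟨h, _⟩ | ⟨h, _⟩ <;> omega
        obtain ⟨z', v', h⟩ := step hLDK hJ1 hJ' d x z u v hL
        refine ⟨d + 1, _, _, _, _, h, ?_, Or.inr ⟨by omega, rfl⟩⟩
        exact neg_ne_zero.2 (mul_ne_zero (mul_ne_zero (by norm_num) hk0) hx)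
    · right
      obtain ⟨z, u, v, h, hu⟩ := framed hLDK hJ1 hI hJ'
      refine ⟨2, _, _, _, _, h, ?_, Or.inl ⟨rfl, hu⟩⟩
      exact neg_ne_zero.2 (mul_ne_zero (mul_ne_zero (by norm_num) hk0) (Int.cast_ne_zero.2 ht))
  · obtain ⟨z, u, v, h, _⟩ := framed hLDK hJ1 hI hJ'
    exact ⟨z, u, v, h⟩
  · intro ht h
    subst ht
    exact triv hSG hJ' h
  · intro ht d x z u v hL _
    subst ht
    exact step hLDK hJ1 hJ' d x z u v hL

end Pool.Agent.WD3
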