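import Pool.Agent.WD3.StI
import Pool.Agent.WD2.LDC

/-! # Generalised doubles, module LDK: the expansion of the cyclotomic form -/

set_option autoImplicit false

namespace Pool.Agent.WD3

open Pool.Agent.LibH11 Pool.Agent.IT Pool.Agent.GK Pool.Agent.TwoBr Pool.Agent.WD Pool.Agent.WD2
open scoped BigOperators
open PowerSeries

namespace LDK

theorem E_zero : E 0 = 1 := by
  ext n
  rcases n with _ | n
  · simp [E]
  · simp [E, coeff_one]

/-- the sum can be extended -/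
theorem cyk_eq (k : ℤ) {N M : ℕ} (hN : 1 ≤ N) (h : N ≤ M) (y : ℕ → ℚ⟦X⟧) : cyk k N y =
    ∑ i ∈ Finset.range M, (-1) ^ i * PT N i * (FU k i * FF y i) := by
  unfold cyk
  refine Finset.sum_subset (Finset.range_mono h) fun i _ hi => ?_
  rw [Finset.mem_range, not_lt] at hi
  rw [PT_of_le hi hN]
  ring

theorem coeff_of_eq {f g : ℚ⟦X⟧} {i : ℕ} (h : f = X ^ i * g) (m : ℕ) :
    coeff (m + i) f = coeff m g := by
  rw [h, coeff_X_pow_mul]

end LDK

open WD2.LDC LDK in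
theorem t_LDK (hG0 : SG0_Stmt) (hGV : GCV_Stmt) (hFN : FUN_Stmt) (hF1 : FU1_Stmt) :
    LDK_Stmt := by
  intro k δ α β γ β₂ y J hJ hy0 hd h1 h2 h3
  obtain ⟨g00, gsum⟩ := hG0
  obtain ⟨⟨a0, a1, a2⟩, ⟨b0, b1'⟩, ⟨c0, c1⟩, d1, d2, d3, hP⟩ := hGV
  choose W hW using hd
  have hy : ∀ j, y j = 1 + X ^ δ * W j := fun j => by rw [← hW j]; ring
  have hW0 : W 0 = 0 := by
    have h := hW 0
    rw [hy0, sub_self] at h
    rcases mul_eq_zero.1 h.symm with h4 | h4
    · exact absurd h4 (pow_ne_zero δ X_ne_zero)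
    · exact h4
  -- the coefficients of `W`
  have k1 : X ^ 3 ∣ W 1 - (C α + C β * X + C γ * X ^ 2) := by
    apply cancel (δ := δ)
    rw [hy 1] at h1
    convert h1 using 1
    ring
  have k2 : X ^ 2 ∣ W 2 - (C (3 * α) + C β₂ * X) := by
    apply cancel (δ := δ)
    rw [hy 2] at h2
    convert h2 using 1
    ring
  have k3 : X ^ 1 ∣ W 3 - C (6 * α) := by
    apply cancel (δ := δ)
    rw [hy 3] at h3
    convert h3 using 1
    ring
  rw [dvd3] at k1
  rw [dvd2] at k2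
  rw [X_pow_dvd_iff] at k3
  have k3' := k3 0 (by norm_num)
  simp only [map_sub, map_add, cm0, cm1, cm2, pow_two, cC0, cC1, cC2, cX0, cX1, cX2] at k1 k2 k3'
  obtain ⟨u0, u1, u2⟩ := k1
  obtain ⟨w0, w1⟩ := k2
  have u0' : coeff 0 (W 1) = α := by linarith
  have u1' : coeff 1 (W 1) = β := by linarith
  have u2' : coeff 2 (W 1) = γ := by linarith
  have w0' : coeff 0 (W 2) = 3 * α := by linarith
  have w1' : coeff 1 (W 2) = β₂ := by linarith
  have z0' : coeff 0 (W 3) = 6 * α := by linarith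
  -- the coefficients of the twists
  choose U hU using fun i => (hFN k i).1
  obtain ⟨-, f1, f2, f3⟩ := hF1 k
  obtain ⟨s, hs⟩ : ∃ s : ℚ, (k : ℚ) = s := ⟨_, rfl⟩
  have v10 : coeff 0 (U 1) = -s := by
    rw [← coeff_of_eq (hU 1) 0, ← hs]
    exact f1
  have v11 : coeff 1 (U 1) = -(2 * s ^ 2) := by
    rw [← coeff_of_eq (hU 1) 1, ← hs]
    exact f2
  have v12 : coeff 2 (U 1) = 2 / 3 * s - 8 / 3 * s ^ 3 := by
    rw [← coeff_of_eq (hU 1) 2, ← hs]
    exact f3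
  have v20 : coeff 0 (U 2) = s ^ 2 := by
    rw [← coeff_of_eq (hU 2) 0, ← hs]
    have h := (hFN k 2).2
    rw [h]
    ring
  rw [hs]
  refine ⟨-s * (β + 2 * s * α),
    -s * (γ + 2 * s * β + (8 / 3 * s ^ 2 - 1) * α) - 4 * s ^ 2 * (β₂ - 3 * β) / 3,
    fun N hN => ?_⟩
  let F : ℕ → ℚ⟦X⟧ := fun i => (-1) ^ i * PT N i * (U i *
    ∑ j ∈ Finset.range (i + 1), gC i j * W j)
  have hterm : ∀ i : ℕ, 1 ≤ i → (-1) ^ i * PT N i * (FU k i * FF y i) =
      X ^ δ * (X ^ i * F i) := by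
    intro i hi
    have h4 : FF y i = X ^ δ * ∑ j ∈ Finset.range (i + 1), gC i j * W j := by
      unfold FF
      rw [Finset.mul_sum]
      have h5 : ∀ j, gC i j * y j = gC i j + X ^ δ * (gC i j * W j) := fun j => by
        rw [hy j]
        ring
      rw [Finset.sum_congr rfl fun j _ => h5 j, Finset.sum_add_distrib, gsum i hi, zero_add]
    rw [h4, hU i]
    simp only [F]
    ring
  have h0 : (-1) ^ 0 * PT N 0 * (FU k 0 * FF y 0) = 1 := by
    simp [PT_zero, FU, FF, g00, hy0, E_zero]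
  have hsum : ∃ R : ℚ⟦X⟧, J N = 1 + X ^ δ * (X * F 1 + X ^ 2 * F 2 + X ^ 3 * F 3 + X ^ 4 * R) := by
    refine ⟨∑ i ∈ Finset.range N, X ^ i * F (4 + i), ?_⟩
    rw [hJ N hN, cyk_eq k hN (show N ≤ 4 + N by omega), Finset.sum_range_add]
    rw [Finset.sum_congr rfl fun i _ => hterm (4 + i) (by omega)]
    rw [Finset.sum_range_succ, Finset.sum_range_succ, Finset.sum_range_succ,
      Finset.sum_range_succ, Finset.sum_range_zero, h0, hterm 1 (by omega), hterm 2 (by omega),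
      hterm 3 (by omega), ← Finset.mul_sum]
    have h6 : ∑ i ∈ Finset.range N, X ^ (4 + i) * F (4 + i) =
        X ^ 4 * ∑ i ∈ Finset.range N, X ^ i * F (4 + i) := by
      rw [Finset.mul_sum]
      refine Finset.sum_congr rfl fun i _ => ?_
      rw [pow_add]
      ring
    rw [h6]
    ring
  obtain ⟨R, hR⟩ := hsum
  -- the coefficients
  obtain ⟨⟨p0, p1, p2⟩, q0, q1⟩ := hP N
  have F1 : F 1 = -(PT N 1 * (U 1 * (gC 1 1 * W 1))) := by
    simp only [F, pow_one]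
    rw [Finset.sum_range_succ, Finset.sum_range_succ, Finset.sum_range_zero, hW0]
    ring
  have F2 : F 2 = PT N 2 * (U 2 * (gC 2 1 * W 1 + gC 2 2 * W 2)) := by
    simp only [F]
    rw [Finset.sum_range_succ, Finset.sum_range_succ, Finset.sum_range_succ,
      Finset.sum_range_zero, hW0]
    ring
  have F3 : coeff 0 (F 3) = 0 := by
    simp only [F]
    rw [Finset.sum_range_succ, Finset.sum_range_succ, Finset.sum_range_succ,
      Finset.sum_range_succ, Finset.sum_range_zero, hW0, cm0, cm0 (U 3) _]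
    simp only [map_add, map_zero, cm0, mul_zero, u0', w0', z0', d1, d2, d3]
    ring
  have key : X ^ 3 ∣ F 1 + X * F 2 + X ^ 2 * F 3 -
      (C (-(s * α) * ((N : ℚ) ^ 2 - 1)) + C (-s * (β + 2 * s * α) * ((N : ℚ) ^ 2 - 1)) * X +
        C (((N : ℚ) ^ 2 - 1) * ((-(s * α) / 3 + s ^ 2 * (β₂ - 3 * β) / 3) * (N : ℚ) ^ 2 +
          (-s * (γ + 2 * s * β + (8 / 3 * s ^ 2 - 1) * α) -
            4 * s ^ 2 * (β₂ - 3 * β) / 3))) * X ^ 2) := by
    rw [dvd3, F1, F2]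
    simp only [map_sub, map_add, map_neg, cm0, cm1, cm2, pow_two, cC0, cC1, cC2, cX0, cX1, cX2,
      F3, u0', u1', u2', w0', w1', a0, a1, a2, b0, b1', c0, c1, p0, p1, p2, q0, q1, v10, v11,
      v12, v20]
    refine ⟨?_, ?_, ?_⟩
    · ring
    · ring
    · ring
  obtain ⟨T, hT⟩ := key
  refine ⟨T + R, ?_⟩
  rw [hR]
  have h7 : F 1 + X * F 2 + X ^ 2 * F 3 = X ^ 3 * T +
      (C (-(s * α) * ((N : ℚ) ^ 2 - 1)) + C (-s * (β + 2 * s * α) * ((N : ℚ) ^ 2 - 1)) * X +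
        C (((N : ℚ) ^ 2 - 1) * ((-(s * α) / 3 + s ^ 2 * (β₂ - 3 * β) / 3) * (N : ℚ) ^ 2 +
          (-s * (γ + 2 * s * β + (8 / 3 * s ^ 2 - 1) * α) -
            4 * s ^ 2 * (β₂ - 3 * β) / 3))) * X ^ 2) := by
    rw [← hT]
    ring
  have h8 : X * F 1 + X ^ 2 * F 2 + X ^ 3 * F 3 + X ^ 4 * R =
      X * (F 1 + X * F 2 + X ^ 2 * F 3) + X ^ 4 * R := by ring
  rw [h8, h7]
  ring

end Pool.Agent.WD3
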