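import Pool.Agent.WD3.StG

/-!
# WG_MNR: products of the polynomials `pp`
-/

set_option autoImplicit false

namespace Pool.Agent.WD3

open Pool.Agent.LibH11 Pool.Agent.IT Pool.Agent.GK Pool.Agent.TwoBr Pool.Agent.WD Pool.Agent.WD2
open scoped BigOperators

namespace MNR

variable {K : Type} [Field K] {s : K}

/-- The right side. -/
def Mf (s : K) (N n r : ℕ) : K :=
  s ^ (2 * ((n : ℤ) * r - ((n : ℤ) + r) * ((N : ℤ) - 1))) *
    (bf s (N - 1) ^ 2 * bf s (n + r) / (bf s (N - 1 - n) * bf s (N - 1 - r)))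

theorem Mf_comm (N n r : ℕ) : Mf s N n r = Mf s N r n := by
  unfold Mf
  have e : 2 * ((n : ℤ) * r - ((n : ℤ) + r) * ((N : ℤ) - 1)) =
      2 * ((r : ℤ) * n - ((r : ℤ) + n) * ((N : ℤ) - 1)) := by ring
  rw [e, Nat.add_comm n r, mul_comm (bf s (N - 1 - n))]

theorem Mf_succ (hs : IT.Gen s) {N n r : ℕ} (hr : r + 1 < N) :
    Mf s N n (r + 1) = Mf s N n r * (s ^ (2 * ((n : ℤ) - ((N : ℤ) - 1))) *
      br s ((n : ℤ) + r + 1) * br s ((N : ℤ) - 1 - r)) := by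
  obtain ⟨t, ht⟩ : ∃ t, N - 1 - r = t + 1 := ⟨N - 2 - r, by omega⟩
  have ht' : N - 1 - (r + 1) = t := by omega
  have hbt : ((t : ℤ) + 1) = (N : ℤ) - 1 - r := by omega
  have e : s ^ (2 * ((n : ℤ) * ((r + 1 : ℕ) : ℤ) -
      ((n : ℤ) + ((r + 1 : ℕ) : ℤ)) * ((N : ℤ) - 1))) =
      s ^ (2 * ((n : ℤ) * r - ((n : ℤ) + r) * ((N : ℤ) - 1))) *
        s ^ (2 * ((n : ℤ) - ((N : ℤ) - 1))) := by
    rw [← zpow_add₀ hs.1]
    congr 1
    push_cast
    ring
  have h1 := bf_ne hs t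
  have h2 : br s ((N : ℤ) - 1 - r) ≠ 0 := br_ne hs (by omega)
  have h3 := bf_ne hs (N - 1 - n)
  unfold Mf
  rw [e, ht, ht', bf_succ t, ← Nat.add_assoc n r 1, bf_succ (n + r), hbt, Nat.cast_add]
  field_simp

theorem Mf_zero (hs : IT.Gen s) (N n : ℕ) : Mf s N n 0 =
    s ^ (-(2 * ((n : ℤ) * ((N : ℤ) - 1)))) *
      (bf s n * bf s (N - 1) / bf s (N - 1 - n)) := by
  unfold Mf
  have e : 2 * ((n : ℤ) * ((0 : ℕ) : ℤ) - ((n : ℤ) + ((0 : ℕ) : ℤ)) * ((N : ℤ) - 1)) =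
      -(2 * ((n : ℤ) * ((N : ℤ) - 1))) := by
    push_cast
    ring
  have h1 := bf_ne hs (N - 1)
  have h3 := bf_ne hs (N - 1 - n)
  rw [e, Nat.add_zero, Nat.sub_zero]
  field_simp

theorem ident (h0 : s ≠ 0) (n r M : ℤ) :
    s ^ (2 * (n - M)) * br s (M - r) = s ^ (2 * (r - M)) * br s (M - n) + br s (n - r) := by
  unfold br
  rw [mul_sub (s ^ (2 * (n - M))), mul_sub (s ^ (2 * (r - M))), ← zpow_add₀ h0, ← zpow_add₀ h0,
    ← zpow_add₀ h0, ← zpow_add₀ h0]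
  have e1 : 2 * (n - M) + 2 * (M - r) = 2 * (n - r) := by ring
  have e2 : 2 * (n - M) + -(2 * (M - r)) = 2 * (r - M) + -(2 * (M - n)) := by ring
  have e3 : 2 * (r - M) + 2 * (M - n) = -(2 * (n - r)) := by ring
  rw [e1, e2, e3]
  ring

end MNR

open MNR in
theorem t_MNR : MNR_Stmt := by
  intro K _ s hs N ρ _ hρ n hn r
  change r < N → ∑ j ∈ Finset.range N, ρ j * pp s n j * pp s r j = Mf s N n r
  induction r generalizing n with
  | zero =>
    intro _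
    rw [Mf_zero hs, ← hρ n hn]
    exact Finset.sum_congr rfl fun j _ => by rw [pp_zero, mul_one]
  | succ r ih =>
    intro hr
    have h1 : ∑ j ∈ Finset.range N, ρ j * pp s n j * pp s (r + 1) j =
        ∑ j ∈ Finset.range N, ρ j * pp s (n + 1) j * pp s r j +
          (om s n - om s r) * ∑ j ∈ Finset.range N, ρ j * pp s n j * pp s r j := by
      rw [Finset.mul_sum, ← Finset.sum_add_distrib]
      refine Finset.sum_congr rfl fun j _ => ?_
      rw [pp_succ, pp_succ]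
      ring
    have h2 : ∑ j ∈ Finset.range N, ρ j * pp s (n + 1) j * pp s r j =
        Mf s N n r * (s ^ (2 * ((r : ℤ) - ((N : ℤ) - 1))) * br s ((n : ℤ) + r + 1) *
          br s ((N : ℤ) - 1 - n)) := by
      by_cases hn1 : n + 1 < N
      · rw [ih (n + 1) hn1 (by omega), Mf_comm N (n + 1) r, Mf_succ hs hn1, Mf_comm N r n,
          add_comm (r : ℤ) (n : ℤ)]
      · have e : (N : ℤ) - 1 - n = 0 := by omega
        rw [e, br_zero, mul_zero, mul_zero]
        refine Finset.sum_eq_zero fun j hj => ?_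
        have hj := Finset.mem_range.mp hj
        rw [pp_of_lt (by omega : j < n + 1), mul_zero, zero_mul]
    rw [h1, h2, ih n hn (by omega), Mf_succ hs hr, om_sub hs.1]
    have h3 := ident hs.1 (n : ℤ) (r : ℤ) ((N : ℤ) - 1)
    have h4 : Mf s N n r * (s ^ (2 * ((n : ℤ) - ((N : ℤ) - 1))) *
        br s ((n : ℤ) + r + 1) * br s ((N : ℤ) - 1 - r)) = Mf s N n r *
        br s ((n : ℤ) + r + 1) * (s ^ (2 * ((n : ℤ) - ((N : ℤ) - 1))) *
          br s ((N : ℤ) - 1 - r)) := by ring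
    rw [h4, h3]
    ring

end Pool.Agent.WD3
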