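import Pool.Agent.WD3.StG
import Pool.Agent.WD2.BIV
import Pool.Agent.WD2.FEN

/-!
# Generalised doubles, module MOM (helper1): the moments of a turned endomorphism
-/

set_option autoImplicit false

namespace Pool.Agent.WD3

open Pool.Agent.LibH11 Pool.Agent.IT Pool.Agent.GK Pool.Agent.TwoBr Pool.Agent.WD Pool.Agent.WD2
open scoped BigOperators

namespace MOM

variable {K : Type} [Field K] {s : K}

/-! ### Weights -/

theorem E_wt {N : ℕ} {x y : Fin 2 → Fin N} (h : (fpow s (V s N) 2).E x y ≠ 0) :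
    (x 0 : ℕ) + x 1 + 1 = y 0 + y 1 := by
  rw [FEN.E_apply] at h
  by_contra hne
  apply h
  have h1 : (if x 1 = y 1 then (V s N).E (x 0) (y 0) * s ^ (2 * (V s N).wt (y 1)) else 0) = 0 := by
    by_cases e : x 1 = y 1
    · rw [if_pos e]
      have h2 : (V s N).E (x 0) (y 0) = 0 := by
        change (if (x 0 : ℕ) + 1 = (y 0 : ℕ) then qn s ((N : ℤ) - (y 0 : ℕ)) else 0) = 0
        rw [if_neg]
        intro e2
        have := congrArg Fin.val e
        omega
      rw [h2, zero_mul]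
    · rw [if_neg e]
  have h3 : (if x 0 = y 0 then (V s N).E (x 1) (y 1) else 0) = 0 := by
    by_cases e : x 0 = y 0
    · rw [if_pos e]
      change (if (x 1 : ℕ) + 1 = (y 1 : ℕ) then qn s ((N : ℤ) - (y 1 : ℕ)) else 0) = 0
      rw [if_neg]
      intro e2
      have := congrArg Fin.val e
      omega
    · rw [if_neg e]
  rw [h1, h3, add_zero]

theorem F_wt {N : ℕ} {x y : Fin 2 → Fin N} (h : (fpow s (V s N) 2).F x y ≠ 0) :
    (x 0 : ℕ) + x 1 = y 0 + y 1 + 1 := by
  rw [FEN.F_apply] at h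
  by_contra hne
  apply h
  have h1 : (if x 1 = y 1 then (V s N).F (x 0) (y 0) else 0) = 0 := by
    by_cases e : x 1 = y 1
    · rw [if_pos e]
      change (if (x 0 : ℕ) = (y 0 : ℕ) + 1 then qn s ((x 0 : ℕ) : ℤ) else 0) = 0
      rw [if_neg]
      intro e2
      have := congrArg Fin.val e
      omega
    · rw [if_neg e]
  have h3 : (if x 0 = y 0 then s ^ (-(2 * (V s N).wt (y 0))) * (V s N).F (x 1) (y 1) else 0) =
      0 := by
    by_cases e : x 0 = y 0
    · rw [if_pos e]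
      have h2 : (V s N).F (x 1) (y 1) = 0 := by
        change (if (x 1 : ℕ) = (y 1 : ℕ) + 1 then qn s ((x 1 : ℕ) : ℤ) else 0) = 0
        rw [if_neg]
        intro e2
        have := congrArg Fin.val e
        omega
      rw [h2, mul_zero]
    · rw [if_neg e]
  rw [h1, h3, add_zero]

theorem E_pow_wt {N : ℕ} (n : ℕ) : ∀ {x y : Fin 2 → Fin N},
    ((fpow s (V s N) 2).E ^ n) x y ≠ 0 → (x 0 : ℕ) + x 1 + n = y 0 + y 1 := by
  induction n with
  | zero =>
    intro x y h
    rw [pow_zero, Matrix.one_apply] at h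
    by_cases e : x = y
    · rw [e, Nat.add_zero]
    · rw [if_neg e] at h
      exact absurd rfl h
  | succ n ih =>
    intro x y h
    rw [pow_succ, Matrix.mul_apply] at h
    obtain ⟨z, -, hz⟩ := Finset.exists_ne_zero_of_sum_ne_zero h
    have h1 := ih (left_ne_zero_of_mul hz)
    have h2 := E_wt (right_ne_zero_of_mul hz)
    omega

theorem F_pow_wt {N : ℕ} (n : ℕ) : ∀ {x y : Fin 2 → Fin N},
    ((fpow s (V s N) 2).F ^ n) x y ≠ 0 → (x 0 : ℕ) + x 1 = y 0 + y 1 + n := by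
  induction n with
  | zero =>
    intro x y h
    rw [pow_zero, Matrix.one_apply] at h
    by_cases e : x = y
    · rw [e, Nat.add_zero]
    · rw [if_neg e] at h
      exact absurd rfl h
  | succ n ih =>
    intro x y h
    rw [pow_succ, Matrix.mul_apply] at h
    obtain ⟨z, -, hz⟩ := Finset.exists_ne_zero_of_sum_ne_zero h
    have h1 := ih (left_ne_zero_of_mul hz)
    have h2 := F_wt (right_ne_zero_of_mul hz)
    omega

theorem FE_wt {N : ℕ} (n : ℕ) {x y : Fin 2 → Fin N}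
    (h : ((fpow s (V s N) 2).F ^ n * (fpow s (V s N) 2).E ^ n) x y ≠ 0) :
    (x 0 : ℕ) + x 1 = y 0 + y 1 := by
  rw [Matrix.mul_apply] at h
  obtain ⟨z, -, hz⟩ := Finset.exists_ne_zero_of_sum_ne_zero h
  have h1 := F_pow_wt n (left_ne_zero_of_mul hz)
  have h2 := E_pow_wt n (right_ne_zero_of_mul hz)
  omega

/-! ### The turned endomorphism -/

/-- The row `(N-1, 0)` of a turned endomorphism, at a label of weight zero. -/
theorem rot_eq (hs : IT.Gen s) {n : ℕ} (hN : 1 ≤ n + 1)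
    (Z : Matrix (Fin 2 → Fin (n + 1)) (Fin 2 → Fin (n + 1)) K) (x t : Fin 2 → Fin (n + 1))
    (hx0 : (x 0 : ℕ) = n) (hx1 : (x 1 : ℕ) = 0) (ht : (t 0 : ℕ) + t 1 = n) :
    rot (MV s (n + 1)) Z x t = vcup s (n + 1) (t 0) (t 1) *
      Z ![⟨0, hN⟩, t 0] ![⟨0, hN⟩, t 0] := by
  have hx1' : x 1 = ⟨0, hN⟩ := Fin.ext hx1
  change (∑ c, ∑ z, vcup s (n + 1) c (t 1) * Z ![x 1, c] ![z, t 0] * vcap s (n + 1) (x 0) z) = _
  rw [Finset.sum_eq_single (t 0), Finset.sum_eq_single (⟨0, hN⟩ : Fin (n + 1)), hx1']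
  · have hcap : vcap s (n + 1) (x 0) ⟨0, hN⟩ = 1 := by
      have q1 := BIV.qfac_ne hs n
      unfold vcap vcup
      rw [if_pos (by simp only []; omega), if_pos (by simp only []; omega), hx0]
      simp only [Nat.add_sub_cancel, BIV.qfac_zero]
      simp [q1]
    rw [hcap, mul_one]
  · intro z _ hz
    have h1 : vcap s (n + 1) (x 0) z = 0 := by
      unfold vcap
      rw [if_neg]
      intro h
      apply hz
      apply Fin.ext
      change (z : ℕ) = 0
      omega
    rw [h1, mul_zero]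
  · intro h
    exact absurd (Finset.mem_univ _) h
  · intro c _ hc
    refine Finset.sum_eq_zero fun z _ => ?_
    have h1 : vcup s (n + 1) c (t 1) = 0 := by
      unfold vcup
      rw [if_neg]
      intro h
      apply hc
      apply Fin.ext
      omega
    rw [h1, zero_mul, zero_mul]
  · intro h
    exact absurd (Finset.mem_univ _) h

end MOM

open MOM in
/-- MOM: the moments of a turned endomorphism. -/
theorem t_MOM (hF : FEN_Stmt) : MOM_Stmt := by
  intro K _ s hs N hN Z x y hx0 hx1 hy0 hy1 i hi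
  have h0 := hs.1
  obtain ⟨n, rfl⟩ : ∃ n, N = n + 1 := ⟨N - 1, by omega⟩
  simp only [Nat.add_sub_cancel]
  have hx0' : (x 0 : ℕ) = n := by omega
  obtain ⟨zc, hzc⟩ : ∃ zc : ℕ → K, ∀ a, zc a =
      if h : a < n + 1 then Z ![⟨0, hN⟩, ⟨a, h⟩] ![⟨0, hN⟩, ⟨a, h⟩] else 0 := ⟨_, fun _ => rfl⟩
  let g : ℕ → K := fun m => if m ≤ i then
    ((-1) ^ m * s ^ (2 * (m : ℤ) * ((m : ℤ) - (n + 1 : ℕ))) *
      (qfac s n / (qfac s m * qfac s (n - m))) * zc m) *
    (qfac s i * s ^ (2 * (((i : ℤ) - (m : ℕ)) * ((m : ℕ) - ((n + 1 : ℕ) : ℤ) + 1))) *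
          (qfac s i / qfac s (i - m)) * (qfac s (n - m) / qfac s (n - i))) else 0
  rw [Matrix.mul_apply, BIV.sum0 (g := g), BIV.sum_cut hi (g := g), Finset.mul_sum, Finset.mul_sum]
  · refine Finset.sum_congr rfl fun m hm => ?_
    rw [Finset.mem_range] at hm
    have hmi : m ≤ i := by omega
    rw [← hzc]
    have e2 : s ^ (2 * (((i : ℤ) - 1) * m - (i : ℤ) * n)) =
        s ^ (2 * (m : ℤ) * ((m : ℤ) - (n + 1 : ℕ))) *
        s ^ (2 * (((i : ℤ) - (m : ℕ)) * ((m : ℕ) - ((n + 1 : ℕ) : ℤ) + 1))) := by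
      rw [← zpow_add₀ h0]
      congr 1
      push_cast
      ring
    have e4 : s ^ (2 * (((i : ℤ) - 1) * m - (i : ℤ) * n)) =
        s ^ (-(2 * ((i : ℤ) * (((n + 1 : ℕ) : ℤ) - 1)))) * s ^ (2 * (((i : ℤ) - 1) * m)) := by
      rw [← zpow_add₀ h0]
      congr 1
      push_cast
      ring
    have e3 := BIV.fac hs (by omega : i ≤ n) hmi _ ((-1) ^ m * zc m)
      (s ^ (2 * (((i : ℤ) - 1) * m - (i : ℤ) * n))) rfl
    calc br s 1 ^ (2 * i) * g m = br s 1 ^ (2 * i) * (((-1) ^ m * zc m) * qfac s (n - m) *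
          s ^ (2 * (((i : ℤ) - 1) * m - (i : ℤ) * n)) * (qfac s n / (qfac s m * qfac s (n - m))) *
          (qfac s i * (qfac s i / qfac s (i - m)) * (1 / qfac s (n - i)))) := by
            simp only [g, if_pos hmi]
            rw [e2]
            ring
      _ = _ := e3
      _ = _ := by
            rw [e4]
            ring
  · intro m hm
    simp only [g]
    rw [if_neg (by omega)]
  · intro z hz
    by_cases h : ((fpow s (V s (n + 1)) 2).F ^ i * (fpow s (V s (n + 1)) 2).E ^ i) z y = 0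
    · rw [h, mul_zero]
    · have h1 := FE_wt i h
      omega
  · intro z hz
    have hz' : (z 0 : ℕ) + z 1 = n := by omega
    rw [rot_eq hs hN Z x z hx0' hx1 hz', (hF K s hs (n + 1) hN z y hz i hi).1 hy0 hy1]
    have hz1 : (z 1 : ℕ) = n - z 0 := by omega
    have hzz : zc (z 0) = Z ![⟨0, hN⟩, z 0] ![⟨0, hN⟩, z 0] := by
      rw [hzc, dif_pos (z 0).isLt]
    simp only [g]
    unfold vcup
    rw [if_pos hz, hz1, hzz]
    simp only [Nat.add_sub_cancel]
    by_cases hzi : (z 0 : ℕ) ≤ i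
    · rw [if_pos hzi, if_pos hzi]
    · rw [if_neg hzi, if_neg hzi, mul_zero]

end Pool.Agent.WD3
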