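import Pool.Agent.WD3.BaseH

/-!
# Generalised doubles: comparison of two doubles, statements

The module `WH_XXX` is the file `Pool/Agent/WD3/XXX.lean` with `theorem t_XXX : XXX_Stmt` (other
statements that are used are explicit hypotheses) in the namespace `Pool.Agent.WD3`, helper lemmas in
the namespace `Pool.Agent.WD3.XXX`.

Definitions: `WD3/BaseI.lean` (`FF y i = ∑ j ≤ i, gC i j * y j`, `FU k i`, `yt t J`, `cyk`),
`WD3/BaseH.lean` (`Yf`, `uc`, `vc`, `Rep`, `Cm`, `Sy`, `MM`, `Lead0`, `CI`), `WD2/BaseF.lean` (`b1`, `c2`,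
`uF`, `PT`, `gC`, `LdE`, `Triv`, …, with the basic lemmas `X_mul_b1`, `X_sq_mul_c2`, `constantCoeff_b1`,
`gC_mul`, `PT_of_le`), `Ex3`, `OddB`: `WD/StA.lean`, `IT/Defs.lean`.

Overview. `J'` is the family of the coloured Jones polynomials of the double `(k, t)` of a knot with the
family `J`: `J' N = cyk k N (yt t J)`. For `t ≠ 0` put `Φ i = FF (yt t J) i / FU t i`. The coefficients of
`Φ i` are polynomials in `i` (`Sy`), and the series of the top coefficients (the symbol) is the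
leading term `H` of `J` at `ŷ`, where `ŷ` is determined by `vc t (2 + ŷ) = E 2 * vc (t - 1) (2 + ŷ)`.
The leading term of `J` is the inverse of a polynomial `D` (the Alexander polynomial). Checked by
computer for `t = 1, 2, 3, -2, -3`: `VRL`, `REC`, `FTA`, the existence of `ŷ` and its equation.
-/

set_option autoImplicit false

namespace Pool.Agent.WD3

open Pool.Agent.LibH11 Pool.Agent.IT Pool.Agent.GK Pool.Agent.TwoBr Pool.Agent.WD Pool.Agent.WD2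
open Pool.Agent.LibH11.Sliced (Diag Kind cnt IsLongKnot ofDiag braidWord)
open scoped BigOperators
open PowerSeries

/-! ## The cyclotomic coefficients -/

/-- CQK: the cyclotomic coefficients are determined.

Proof: the cyclotomic form is `∑_{i < N} PT N i * a i` with `a i = (-1) ^ i * (FU k i * FF y i)`.
Induction on `i` with `N = i + 1`: all terms except the last agree, and `PT N i ≠ 0` for `i < N`, since
the factors `c2 (2 N) - c2 (2 (l + 1))`, `l + 1 < N`, have the constant coefficient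
`4 N² - 4 (l + 1)² ≠ 0` (`coeff 0 (c2 a) = a²`). -/
def CQK_Stmt : Prop :=
  ∀ (k k' : ℤ) (y y' : ℕ → ℚ⟦X⟧), (∀ N : ℕ, 1 ≤ N → cyk k N y = cyk k' N y') →
    ∀ i : ℕ, FU k i * FF y i = FU k' i * FF y' i

/-- REC: the recursion in `i`.

Proof: `gC 0 0 = 1` is not needed. For `j ≤ i`: `(Yf (2 (i+1) + 1) - Yf (2 j + 1)) * gC (i+1) j =
X ^ 2 * b1 (i + 1) * gC i j`: by `gC_mul` (multiply by `uF (i + 1 - j) * uF (i + j + 2)`, which is not
zero; `uF (n + 1) = uF n * b1 (n + 1)`) this is `Yf (2 i + 3) - Yf (2 j + 1) =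
X ^ 2 * b1 (i + 1 - j) * b1 (i + j + 2)`, and `X * b1 a = E a - E (-a)`,
`(E a - E (-a)) (E b - E (-b)) = E (a + b) + E (-(a + b)) - E (a - b) - E (-(a - b))`. The term `j = i + 1`
of `FF y' (i+1)` is the same as that of `Yf … * FF y (i+1)`. -/
def REC_Stmt : Prop :=
  ∀ y : ℕ → ℚ⟦X⟧, FF (fun j => Yf (2 * j + 1) * y j) 0 = Yf 1 * FF y 0 ∧
    ∀ i : ℕ, FF (fun j => Yf (2 * j + 1) * y j) (i + 1) =
      Yf (2 * ((i : ℚ) + 1) + 1) * FF y (i + 1) - X ^ 2 * b1 ((i : ℚ) + 1) * FF y i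

/-- YMO: the powers of `Yf`.

Proof: induction on `m` with `REC`. `FF 1 i = 0` for `1 ≤ i` and `FF 1 0 = 1` (`SG0` of `WD2`); `X ^ 2`
divides `Yf a` (`X_sq_mul_c2`), `Yf 1 * FF y 0`. For the last claim: `FF (Yf ^ (i + 1)) (i + 1) =
Yf … * FF (Yf ^ i) (i + 1) - X ^ 2 * b1 (i + 1) * FF (Yf ^ i) i` and `FF (Yf ^ i) (i + 1) = 0`. -/
def YMO_Stmt : Prop :=
  ∀ m i : ℕ, (X : ℚ⟦X⟧) ^ (2 * m) ∣ FF (fun j => Yf (2 * j + 1) ^ m) i ∧
    (m < i → FF (fun j => Yf (2 * j + 1) ^ m) i = 0) ∧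
    FF (fun j => Yf (2 * j + 1) ^ i) i = (-1) ^ i * X ^ (2 * i) * uF i

/-- RFF: the leading term of the cyclotomic coefficients, framing zero.

Proof: `yt 0 J j = J (2 j + 1)` (`E 0 = 1`). `Rep` with `R = 2 i + 1` and linearity: modulo `X ^ (2 i + 1)`
the value is `∑_{n, m < R} C (h n m) X ^ n FF (Yf ^ m) i`; by `YMO` the terms with `m < i` vanish, those
with `m > i` or `m = i`, `n ≥ 1` are divisible by `X ^ (2 i + 1)`. -/
def RFF_Stmt : Prop :=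
  ∀ (J : ℕ → ℚ⟦X⟧) (h : ℕ → ℕ → ℚ), Rep J h → ∀ i : ℕ,
    (X : ℚ⟦X⟧) ^ (2 * i + 1) ∣ FF (yt 0 J) i - C (h 0 i) * (-1) ^ i * X ^ (2 * i) * uF i

/-- VRL: the exact relation.

Proof. Let `z j = E (2 j + 1)`, so `2 + Yf (2 j + 1) = z j + (z j)⁻¹` (`E a * E b = E (a + b)`), and
`(E a - E (-a)) * aeval (E a + E (-a)) (uc b) = E (a b) - E (-(a b))` (induction on `b` in both directions,
`Polynomial.Chebyshev.S_add_one`). By `gC_mul`, `gC i j = (-1)^j X^(i+1) {i}! b1 (2 j + 1) / ({i-j}! {i+j+1}!)`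
with `{n}! = X ^ n * uF n`, so up to the factor `uF i` both sides are, with
`w j = (-1)^j / ({i - j}! {i + j + 1}!)` and `f j = E (2 j (j + 1) t)`,
`∑_{j = 0}^{i} w j f j (q (z^(t+1) - z^(-t-1)) - (z^t - z^(-t)))` and
`q^(2 i + 1) ∑_{j = 0}^{i} w j f j (q (z^t - z^(-t)) - (z^(t-1) - z^(1-t)))`, `q = E 1` (work in `KQ`). Extend the
sums to `-i - 1 ≤ j ≤ i`: `w (-1 - j) = - w j`, `f (-1 - j) = f j`, `z (-1 - j) = (z j)⁻¹`, so with
`g b = ∑_{j = -i-1}^{i} w j f j z^b` one has `g (-b) = - g b`, and the claim is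
`q g (t + 1) - g t = q^(2 i + 1) (q g t - g (t - 1))`. Now `w (j + 1) {i + j + 2} = - w j {i - j}` for
all integers `j` (`w j = 0` outside), so for every `h`
`∑_j w j {i + j + 1} h j = ∑_j w (j + 1) {i + j + 2} h (j + 1) = - ∑_j w j {i - j} h (j + 1)`. Take
`h j = f j q^((1/2 - t) (2 j + 1))`: `h (j + 1) = h j q^(4 (j + 1) t) q^(1 - 2 t) = h j z^(2 t) q`, and
`{i + j + 1} h j = f j (q^(i + 1/2) z^(1 - t) - q^(-i - 1/2) z^(-t))`,
`{i - j} h (j + 1) = q f j (q^(i + 1/2) z^t - q^(-i - 1/2) z^(t + 1))`. Hence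
`q^(i+1/2) g (1 - t) - q^(-i-1/2) g (-t) = - q (q^(i+1/2) g t - q^(-i-1/2) g (t + 1))`; multiply by
`q^(i + 1/2)` and use `g (-b) = - g b`. (For the sum over `j` use `n = j + i + 1 ∈ range (2 i + 2)`.) -/
def VRL_Stmt : Prop :=
  ∀ (t : ℤ) (i : ℕ),
    FF (fun j => E (2 * j * (j + 1) * t) * (E 1 * Polynomial.aeval (2 + Yf (2 * j + 1)) (uc (t + 1)) -
      Polynomial.aeval (2 + Yf (2 * j + 1)) (uc t))) i =
    E (2 * i + 1) * FF (fun j => E (2 * j * (j + 1) * t) *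
      (E 1 * Polynomial.aeval (2 + Yf (2 * j + 1)) (uc t) -
        Polynomial.aeval (2 + Yf (2 * j + 1)) (uc (t - 1)))) i

/-- FTA: the leading term of the coefficients of `t` twists.

Proof. `t = 0`: `FU 0 i = FF 1 i` (`SG0`). Let `P m i = FF (fun j => E (2 j (j+1) t) Yf^m) i`, `P 0 i = FU t i`.
By `REC` `P (m+1) i = Yf (2 i + 1) P m i - X² b1 i P m (i - 1)` for `1 ≤ i`. Induction on `i`: suppose
`FU t l = X ^ l A l` for `l < i`, `A l` with constant coefficient `(-t)^l`, and `X ^ (l + m) ∣ P m l`. Then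
`P m i = Yf (2 i + 1)^m FU t i + R m` with `X ^ (i + m) ∣ R m`, `R 1 = - X ^ (i + 1) b1 i A (i-1)`. Write
`uc b = ∑ c b m (X - 2)^m` (Taylor); `VRL` is `∑_m γ m P m i = 0`,
`γ m = E 1 (c (t+1) m) - c t m - E (2 i + 1) (E 1 (c t m) - c (t-1) m)`, so
`(∑ γ m Yf (2 i + 1)^m) FU t i = - ∑_{m ≥ 1} γ m R m`. Here `c b 0 = b` (`S_eval_two`), so
`γ 0 = -2 i X + O(X²)`, and `c (b+1) 1 + c (b-1) 1 = 2 c b 1 + b` (derivative of the recursion at 2), so `γ 1`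
has the constant coefficient `t`. So `(-2 i X + O(X²)) FU t i = t X ^ (i+1) b1 i A (i-1) + O(X ^ (i+2))`, and
`b1 i = 2 i + O(X)`: `FU t i = X ^ i A i`, `A i (0) = -t A (i-1) (0)`. -/
def FTA_Stmt : Prop :=
  ∀ (t : ℤ) (i : ℕ), ∃ A : ℚ⟦X⟧, FU t i = X ^ i * A ∧ constantCoeff A = (-(t : ℚ)) ^ i

/-! ## Families with polynomial coefficients -/

/-- SYA: constants, sums, products, exponentials, uniqueness.

Proof: the witnesses are the constant polynomials `coeff r c` (for `r ≥ 1` the coefficient of `i^r` of a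
constant is `0`); sums; `∑_{k + l = r} p k * q l`; `(α i + β)^r / r!`; for `X * a` the polynomial of `a` for
`r - 1`, of degree `< r`; two polynomials that agree at all natural numbers are equal. -/
def SYA_Stmt : Prop :=
  (∀ c : ℚ⟦X⟧, Sy (fun _ => c) (C (constantCoeff c))) ∧
  (∀ (a b : ℕ → ℚ⟦X⟧) (σ τ : ℚ⟦X⟧), Sy a σ → Sy b τ → Sy (fun i => a i + b i) (σ + τ) ∧
    Sy (fun i => a i - b i) (σ - τ) ∧ Sy (fun i => a i * b i) (σ * τ)) ∧
  (∀ α β : ℚ, Sy (fun i => E (α * i + β)) (E α)) ∧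
  (∀ (a : ℕ → ℚ⟦X⟧) (σ : ℚ⟦X⟧), Sy a σ → Sy (fun i => X * a i) 0) ∧
  (∀ (a : ℕ → ℚ⟦X⟧) (σ τ : ℚ⟦X⟧), Sy a σ → Sy a τ → σ = τ)

/-- SYC: shifts and limits.

Proof. Shift: the polynomial is `∑_{k + l = r} p k (i) * q l (i - 1)`, the top coefficient is not changed
by the shift; for `i = 0` both sides are zero, since `p k (0) = coeff k (a 0) = 0`. Limit: the coefficient
of `X ^ r` of `a i` is that of `∑_{m < r + 1} b m i`, and `coeff r σ = ∑_{m < r + 1} coeff r (τ m)`. -/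
def SYC_Stmt : Prop :=
  (∀ (a b : ℕ → ℚ⟦X⟧) (σ τ : ℚ⟦X⟧), a 0 = 0 → Sy a σ → Sy b τ →
    Sy (fun i => a i * b (i - 1)) (σ * τ)) ∧
  ∀ (a : ℕ → ℚ⟦X⟧) (σ : ℚ⟦X⟧) (b : ℕ → ℕ → ℚ⟦X⟧) (τ : ℕ → ℚ⟦X⟧),
    (∀ i R : ℕ, (X : ℚ⟦X⟧) ^ R ∣ a i - ∑ m ∈ Finset.range R, b m i) →
    (∀ R : ℕ, (X : ℚ⟦X⟧) ^ R ∣ σ - ∑ m ∈ Finset.range R, τ m) →
    (∀ m : ℕ, Sy (b m) (τ m)) → Sy a σ

/-- RHO: solutions of equations have polynomial coefficients.

Proof. Show by induction on `n`: for all `r < n` the coefficient of `X ^ r` in `ρ i` is a polynomial in `i`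
of degree at most `r` (call this `Sy_n`); then `ρ̂` is the series of the coefficients of `i ^ r`. `n = 1`: the
constant coefficient is `0`. Step: let `ρ` be `Sy_n`. `MM 1 i = a i + ρ i` is divisible by `X` and `Sy_n`;
`MM m` for `m ≥ 1` is divisible by `X` (even by `X ^ m`), and for `m ≥ 2`, `MM m` is `Sy_(n+1)`: in
`a i * MM (m-1) i` and `ρ i * MM (m-1) (i-1)` both factors are divisible by `X`, so the coefficient of
`X ^ n` only uses coefficients of index `1, …, n - 1` of the factors (which are `Sy_n`; at `i = 0` the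
second product and its polynomial vanish, since `ρ 0 = 0`). The equation gives
`γ 1 i * ρ i = -(γ 0 i + γ 1 i * a i + ∑_{m = 2}^{M} γ m i * MM m i)`; compare the coefficients of `X ^ n`:
the constant coefficient of `γ 1 i` is the number `coeff 0 (Γ 1) ≠ 0` (a polynomial of degree `0`), the
other terms are polynomials in `i` of degree at most `n`. -/
def RHO_Stmt : Prop :=
  ∀ (M : ℕ) (a : ℕ → ℚ⟦X⟧) (α : ℚ⟦X⟧) (γ : ℕ → ℕ → ℚ⟦X⟧) (Γ : ℕ → ℚ⟦X⟧) (ρ : ℕ → ℚ⟦X⟧), 1 ≤ M →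
    Sy a α → (∀ i, (X : ℚ⟦X⟧) ∣ a i) → (∀ m, Sy (γ m) (Γ m)) → constantCoeff (Γ 1) ≠ 0 →
    (∀ i, (X : ℚ⟦X⟧) ∣ ρ i) → ρ 0 = 0 →
    (∀ i, ∑ m ∈ Finset.range (M + 1), γ m i * MM a ρ m i = 0) → ∃ ρ' : ℚ⟦X⟧, Sy ρ ρ'

/-- SYT: the symbol of the powers of `Yf`.

Proof. `FTA`: `FU t i = X ^ i * A i`, `A i` invertible. Put `a i = Yf (2 i + 1)`, `ρ 0 = 0`,
`ρ (i + 1) = -(X * b1 (i + 1) * A i * (A (i + 1))⁻¹)`, `Φ m i = MM a ρ m i`. By `REC` (for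
`y j = E (2 j (j+1) t) * Yf^m`) and `FU t (i+1) * ρ (i+1) = - X² b1 (i+1) FU t i` the first claim follows by
induction on `m`; `X ∣ a i`, `X ∣ ρ i` give `X ^ m ∣ Φ m i`. With `uc b = ∑_m c b m (X - 2)^m` (Taylor;
`m ≤ M` for large `M`), `VRL` divided by `FU t i ≠ 0` is `∑_m γ m i * Φ m i = 0` with
`γ m i = E 1 (c (t+1) m) - c t m - E (2 i + 1) (E 1 (c t m) - c (t-1) m)`, and `Sy (γ m) (Γ m)`,
`Γ m = C (c (t+1) m - c t m) - E 2 * C (c t m - c (t-1) m)` (`SYA`). The constant coefficient of `Γ 1` is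
`c (t+1) 1 - 2 c t 1 + c (t-1) 1 = t ≠ 0` (see `FTA`). `RHO` gives `Sy ρ ρ'`. Put
`ŷ = E 2 + E (-2) - 2 + ρ'`; `Sy (Φ m) (ŷ ^ m)` by induction (`SYA`, `SYC`), so `∑ Γ m ŷ^m = 0` by uniqueness
(`Sy 0 0`), which is the equation. `X ∣ Φ 1 i` gives constant coefficient `0` of `ŷ`; `vc b (2) = 1`, and the
coefficient of `X` in the equation is `(vc t)'(2) ŷ₁ = 2 + (vc (t-1))'(2) ŷ₁`, i.e. `t ŷ₁ = 2`. -/
def SYT_Stmt : Prop :=
  ∀ t : ℤ, t ≠ 0 → ∃ y : ℚ⟦X⟧, constantCoeff y = 0 ∧ coeff 1 y ≠ 0 ∧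
    Polynomial.aeval (2 + y) (vc t) = E 2 * Polynomial.aeval (2 + y) (vc (t - 1)) ∧
    ∃ Φ : ℕ → ℕ → ℚ⟦X⟧,
      (∀ m i, FF (fun j => E (2 * j * (j + 1) * t) * Yf (2 * j + 1) ^ m) i = FU t i * Φ m i) ∧
      (∀ m i, (X : ℚ⟦X⟧) ^ m ∣ Φ m i) ∧ ∀ m, Sy (Φ m) (y ^ m)

/-- SYR: the symbol of the cyclotomic coefficients.

Proof. From `SYT`. `Ψ i` is the series whose coefficient of `X ^ r` is that of
`∑_{n, m ≤ r} C (h n m) * X ^ n * Φ m i` (the summand is divisible by `X ^ (n + m)`). By `Rep`, for all `R`,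
`FF (yt t J) i` is `∑_{n, m < R} C (h n m) X^n FU t i Φ m i` modulo `X ^ R` (`FF` is linear), so
`FF (yt t J) i - FU t i * Ψ i` is divisible by all `X ^ R`. `Sy Ψ σ` by `SYC` (limit) with
`b r i = ∑_{n + m = r} C (h n m) X^n Φ m i`, `τ r = C (h 0 r) * y ^ r` (the summands with `n ≥ 1` have the
symbol `0` by `SYA`), `σ` the series whose coefficient of `X ^ r` is that of `∑_{m ≤ r} τ m`. -/
def SYR_Stmt : Prop :=
  ∀ t : ℤ, t ≠ 0 → ∃ y : ℚ⟦X⟧, constantCoeff y = 0 ∧ coeff 1 y ≠ 0 ∧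
    Polynomial.aeval (2 + y) (vc t) = E 2 * Polynomial.aeval (2 + y) (vc (t - 1)) ∧
    ∀ (J : ℕ → ℚ⟦X⟧) (h : ℕ → ℕ → ℚ), Rep J h → ∃ (Ψ : ℕ → ℚ⟦X⟧) (σ : ℚ⟦X⟧),
      (∀ i, FF (yt t J) i = FU t i * Ψ i) ∧ (∀ i, constantCoeff (Ψ i) = h 0 0) ∧ Sy Ψ σ ∧
      Cm (PowerSeries.mk fun m => h 0 m) y σ

/-- CMB: composition.

Proof. Put `P = D.comp (X + 2)`, so `aeval y P = aeval (2 + y) D`. If `Cm f y g` then
`Cm (f * P) y (g * aeval y P)`: product of two finite sums modulo `X ^ R` (`X ^ m ∣ y ^ m`). If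
`f * P = 1` then `g * aeval y P - 1` is divisible by all `X ^ R`. Conversely `F = f * P - 1` satisfies
`Cm F y 0`; if `F ≠ 0`, let `r` be its order; then `∑_{m < R} C (coeff m F) y^m`, `R` large, has the order
`r * order y < R`, a contradiction. -/
def CMB_Stmt : Prop :=
  ∀ (f y g : ℚ⟦X⟧) (D : Polynomial ℚ), constantCoeff y = 0 → y ≠ 0 → Cm f y g →
    (f * ((D.comp (Polynomial.X + 2) : Polynomial ℚ) : ℚ⟦X⟧) = 1 ↔
      g * Polynomial.aeval (2 + y) D = 1)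

/-! ## The equation of symbols -/

/-- FNA: common zeros.

Proof. `u` is transcendental over `ℚ`: for `p ≠ 0` write `p = ∑ c m (X - u₀)^m`, `u₀` the constant
coefficient; the first `c m ≠ 0` gives the order of `aeval u p`. So `aeval u : ℚ[X] → ℚ⟦X⟧` is injective; it
makes `ℚ⟦X⟧` an algebra over `A = ℚ[X]`, and `w` is integral over `A`: it is a root of
`P = D'.map C - C D : A[X]`, with leading coefficient a nonzero constant and positive degree. Let `G` be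
the minimal polynomial of `w` over `A`; `A` is integrally closed, so `G` divides `P` and
`Q = C A₀ * B'.map C - B.map C * C A'` (`A₀` is the polynomial `A` of the statement)
(`minpoly.isIntegrallyClosed_dvd`). The image of `G` in `ℂ[X]` under the evaluation of `A` at `z` is monic
of positive degree, so it has a root `ω`; `P` and `Q` vanish there. -/
def FNA_Stmt : Prop :=
  ∀ (D D' A A' B B' : Polynomial ℚ) (u w : ℚ⟦X⟧), (∀ c : ℚ, u ≠ C c) → 0 < D'.natDegree →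
    Polynomial.aeval u D = Polynomial.aeval w D' →
    Polynomial.aeval u A * Polynomial.aeval w B' = Polynomial.aeval w B * Polynomial.aeval u A' →
    ∀ z : ℂ, ∃ ω : ℂ, Polynomial.aeval z D = Polynomial.aeval ω D' ∧
      Polynomial.aeval z A * Polynomial.aeval ω B' = Polynomial.aeval ω B * Polynomial.aeval z A'

/-- FNS: the asymptotic argument, same sign.

Proof. `vc b` at `x + 1/x` is `(x^(2 b + 1) + 1) / (x^b (x + 1))` (`x ≠ 0, -1`; multiply out, from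
`(x - 1/x) uc b (x + 1/x) = x^b - x^(-b)`). Let `z → +∞` (real), `ω = ω(z)`. `|D z| → ∞`, so `|ω| → ∞` (`D'` is
bounded on bounded sets). Let `Z > 1` be real with `Z + 1/Z = z`, `Ω` complex with `Ω + 1/Ω = ω`,
`|Ω| ≥ 1`; `α = 1/Z → 0`, `β = 1/Ω → 0`. The second relation multiplied out is
`(Z^(2a+1) + 1) (Ω^(2b-1) + 1) Ω = (Ω^(2b+1) + 1) (Z^(2a-1) + 1) Z`, i.e. with `r = β / α = Z / Ω`
`r = (1 + β^(2b+1)) (1 + α^(2a-1)) / ((1 + α^(2a+1)) (1 + β^(2b-1)))`, so `r → 1`, and since `2 b - 1 ≥ 2 a + 1`,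
`r = 1 + α^(2a-1) + o(α^(2a-1))` (`(1 + α^(2a-1))` times `1 + o(α^(2a-1))`). As `D` is even, `D z = Z^n R(α²)`
with `n = natDegree D`, `R` a polynomial, `R(0) ≠ 0` the leading coefficient; `D' ω = Ω^n' R'(β²)`. So
`r^n' α^(n' - n) R(α²) = R'(β²)`, both `R(0), R'(0) ≠ 0` (`n' > 0`, since `D'` is unbounded), hence
`n' = n` and `r^n R(α²) = R'(α² r²)`. Now `r^n = 1 + n α^(2a-1) + o(α^(2a-1))`,
`R'(α² r²) = R'(α²) + o(α^(2a-1))`, so `(R' - R)(α²) = n R(0) α^(2a-1) + o(α^(2a-1))`. If `R' = R` this gives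
`n R(0) = 0`. Otherwise `(R' - R)(α²) / α^(2 j) → c ≠ 0` for some `j`, and `α^(2 j - (2 a - 1))` would have a
finite nonzero limit, which is impossible for an odd exponent. -/
def FNS_Stmt : Prop :=
  ∀ (a b : ℕ) (D D' : Polynomial ℚ), 1 ≤ a → a < b → D.comp (-Polynomial.X) = D →
    D'.comp (-Polynomial.X) = D' → 0 < D.natDegree →
    (∀ z : ℝ, ∃ ω : ℂ, Polynomial.aeval (z : ℂ) D = Polynomial.aeval ω D' ∧
      Polynomial.aeval (z : ℂ) (vc a) * Polynomial.aeval ω (vc ((b : ℤ) - 1)) =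
        Polynomial.aeval ω (vc b) * Polynomial.aeval (z : ℂ) (vc ((a : ℤ) - 1))) → False

/-- FNO: the asymptotic argument, opposite signs.

Proof. As `z → +∞`, `|D z| → ∞`, so `|ω| → ∞`. `vc n` has degree `n` (`n ≥ 0`), so `vc a (z) / vc (a-1) (z)` and
`vc b (ω) / vc (b-1) (ω)` tend to infinity in absolute value, and the denominators are not zero for large
`z`; the relation says that their product is `1`. -/
def FNO_Stmt : Prop :=
  ∀ (a b : ℕ) (D D' : Polynomial ℚ), 1 ≤ a → 1 ≤ b → 0 < D.natDegree →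
    (∀ z : ℝ, ∃ ω : ℂ, Polynomial.aeval (z : ℂ) D = Polynomial.aeval ω D' ∧
      Polynomial.aeval (z : ℂ) (vc a) * Polynomial.aeval ω (vc b) =
        Polynomial.aeval ω (vc ((b : ℤ) - 1)) * Polynomial.aeval (z : ℂ) (vc ((a : ℤ) - 1))) → False

/-- FIN: the equation of symbols.

Proof. Put `u = 2 + y`, `w = 2 + y'`; not constant. From the two equations for `vc`, multiplied
crosswise, `vc t (u) * vc (k-1) (w) = vc k (w) * vc (t-1) (u)`. If one of `D`, `D'` is not constant, so is the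
other (`u`, `w` are transcendental, see `FNA`). `vc (-b) = vc (b - 1)` (`uc (-b) = - uc b`, `S_neg`). `0 < t, k`:
if `t < k`, `FNA` and `FNS` (`a = t`, `b = k`); if `k < t` the same with `(t, D, y)` and `(k, D', y')` exchanged.
`t, k < 0`: `t = -a`, `k = -b`: the relation becomes `vc (a-1) (u) vc b (w) = vc (b-1) (w) vc a (u)`, the same as
before. `t = a > 0 > k = -b`: `vc a (u) vc b (w) = vc (b-1) (w) vc (a-1) (u)`, `FNO`; `t < 0 < k` in the same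
way with the roles exchanged. -/
def FIN_Stmt : Prop :=
  ∀ (t k : ℤ) (D D' : Polynomial ℚ) (y y' : ℚ⟦X⟧), t ≠ 0 → k ≠ 0 →
    D.comp (-Polynomial.X) = D → D'.comp (-Polynomial.X) = D' →
    (0 < D.natDegree ∨ 0 < D'.natDegree) → constantCoeff y = 0 → coeff 1 y ≠ 0 →
    constantCoeff y' = 0 → coeff 1 y' ≠ 0 →
    Polynomial.aeval (2 + y) (vc t) = E 2 * Polynomial.aeval (2 + y) (vc (t - 1)) →
    Polynomial.aeval (2 + y') (vc k) = E 2 * Polynomial.aeval (2 + y') (vc (k - 1)) →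
    Polynomial.aeval (2 + y) D = Polynomial.aeval (2 + y') D' → t = k

/-- SWD: the exchanged pair, a companion with nontrivial leading term.

Proof. `SYR` for `t`, `J` and for `k`, `J'`: `FU k i * (FU t i * Ψ i) = FU t i * (FU k i * Ψ' i)`, and
`FU k i, FU t i ≠ 0` (`FTA`), so `Ψ = Ψ'` and `σ = σ'` (`SYA`). By `CMB` and `Lead0.inv`
`σ * D (2 + y) = 1 = σ' * D' (2 + y')`, so `D (2 + y) = D' (2 + y')`; `FIN`. -/
def SWD_Stmt : Prop :=
  ∀ (t k : ℤ) (J J' : ℕ → ℚ⟦X⟧) (h h' : ℕ → ℕ → ℚ) (D D' : Polynomial ℚ), t ≠ 0 → k ≠ 0 →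
    Rep J h → Rep J' h' → Lead0 h D → Lead0 h' D' → (0 < D.natDegree ∨ 0 < D'.natDegree) →
    (∀ i, FU k i * FF (yt t J) i = FU t i * FF (yt k J') i) → t = k

/-! ## Leading terms -/

/-- RE3: the first terms.

Proof: `Yf N = N² X² + N⁴ X⁴ / 12 + O(X⁶)`, so by `Rep` (`R = 5`) the coefficients of `J N` are `h 0 0`,
`h 1 0`, `h 2 0 + h 0 1 N²`, `h 3 0 + h 1 1 N²`, `h 4 0 + h 2 1 N² + h 0 1 N⁴ / 12 + h 0 2 N⁴`. For `N = 1` they
are `1, 0, 0, 0, 0`. -/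
def RE3_Stmt : Prop :=
  ∀ (J : ℕ → ℚ⟦X⟧) (h : ℕ → ℕ → ℚ), Rep J h → J 1 = 1 →
    (∀ N : ℕ, 1 ≤ N → Ex3 (h 0 1) (h 1 1) N (J N)) ∧ h 0 0 = 1 ∧
    ∃ v : ℚ, LdE 2 (h 0 1) (h 1 1) (h 0 2 + h 0 1 / 12) v J

/-- RPC: polynomiality.

Proof: by `Rep` with `R = r + 1` the coefficient of `X ^ r` is `∑_{n, m ≤ r} h n m * coeff (r - n) (Yf N ^ m)`
(`n ≤ r`), and the coefficients of `Yf N` are `(N^k + (-N)^k) / k!` (`k ≥ 1`), those of its powers are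
polynomials in `N`. -/
def RPC_Stmt : Prop := ∀ (J : ℕ → ℚ⟦X⟧) (h : ℕ → ℕ → ℚ), Rep J h → PolyC J

/-- KTE: the first two cyclotomic coefficients.

Proof. `gC 1 1 = -1/4 + X²/6 + …`, `gC 2 1 = -1/16 + (17/96) X² + …`, `gC 2 2 = 1/48 - (25/288) X² + …`, odd
coefficients zero (`b1 1 * b1 4 * gC 2 1 = -1`, `b1 3 * b1 4 * gC 2 2 = 1`, see `GCV` in `WD2/StF.lean`), and
`∑_j gC i j = 0` (`SG0`), so `FU k 1 = gC 1 1 (E (4 k) - 1)`, `FF (yt t J) 1 = gC 1 1 (E (4 t) J 3 - 1)`,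
`FU k 2 = gC 2 1 (E (4 k) - 1) + gC 2 2 (E (12 k) - 1) = k² X² + (16 k³ / 3 - k / 3) X³ + …`,
`FF (yt t J) 2 = gC 2 1 (E (4 t) J 3 - 1) + gC 2 2 (E (12 t) J 5 - 1) =
t² X² + (16 t³ / 3 - t / 3 + 4 t a) X³ + …`. `i = 1`: `(E (4 k) - 1) (E (4 t) J 3 - 1) = (…)'`: coefficient of
`X²`: `16 k t = 16 k' t'`; of `X³`: `32 (k t² + k a + k² t)` are equal. `i = 2`: coefficient of `X⁵`. For `t ≠ 0`
put `c = k t = k' t' ≠ 0`: `(k + t) + a/t = (k' + t') + a'/t'`,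
`(16/3) (k + t) - (k + t) / (3 c) + 4 a / t = (…)'`; subtract: `(k + t) (4/3 - 1 / (3 c))` are equal and
`4 c ≠ 1`. -/
def KTE_Stmt : Prop :=
  ∀ (k t k' t' : ℤ) (a b a' b' : ℚ) (J J' : ℕ → ℚ⟦X⟧), k ≠ 0 → k' ≠ 0 → J 1 = 1 → J' 1 = 1 →
    Ex3 a b 3 (J 3) → Ex3 a b 5 (J 5) → Ex3 a' b' 3 (J' 3) → Ex3 a' b' 5 (J' 5) →
    (∀ i, FU k i * FF (yt t J) i = FU k' i * FF (yt t' J') i) →
    (t = 0 ↔ t' = 0) ∧ (t ≠ 0 → k * t = k' * t' ∧ k + t = k' + t')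

/-- ODJ: the cyclotomic coefficients determine the family at odd numbers.

Proof: strong induction on `j`, `N = 2 j + 1`; `gC j j ≠ 0` (`gC_mul`), `E a ≠ 0`. -/
def ODJ_Stmt : Prop :=
  ∀ (t : ℤ) (J J' : ℕ → ℚ⟦X⟧), (∀ i, FF (yt t J) i = FF (yt t J') i) →
    ∀ N : ℕ, Odd N → J N = J' N

/-- TTA: framing zero, leading terms.

Proof: `FTA` and `RFF`: the coefficient of `X ^ (3 i)` of the left side is
`(-k)^i * h 0 i * (-1)^i * 2^i i!` (`constantCoeff_uF`). -/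
def TTA_Stmt : Prop :=
  ∀ (k k' : ℤ) (J J' : ℕ → ℚ⟦X⟧) (h h' : ℕ → ℕ → ℚ), Rep J h → Rep J' h' →
    (∀ i, FU k i * FF (yt 0 J) i = FU k' i * FF (yt 0 J') i) →
    ∀ i : ℕ, (k : ℚ) ^ i * h 0 i = (k' : ℚ) ^ i * h' 0 i

/-- TTB: framing zero, a companion with nontrivial leading term.

Proof. The hypothesis says `rescale k (mk (h 0)) = rescale k' (mk (h' 0))`; with `Lead0.inv` (`rescale` is
a ring homomorphism) `p := D (2 + k X) = D' (2 + k' X)` as polynomials. As `D` is even,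
`p (-4/k - X) = D (-2 - k X) = p (X)`, and in the same way `p (-4/k' - X) = p (X)`. So
`p (X + c) = p (X)` with `c = 4/k - 4/k'`. `p` is not constant, so `c = 0` (otherwise `p - p (0)` has the roots
`n c`, `n ∈ ℕ`). -/
def TTB_Stmt : Prop :=
  ∀ (k k' : ℤ) (h h' : ℕ → ℕ → ℚ) (D D' : Polynomial ℚ), k ≠ 0 → k' ≠ 0 → Lead0 h D →
    Lead0 h' D' → (∀ i : ℕ, (k : ℚ) ^ i * h 0 i = (k' : ℚ) ^ i * h' 0 i) →
    (0 < D.natDegree ∨ 0 < D'.natDegree) → k = k'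

/-- SWC: the exchanged pair, companions with trivial leading term.

Proof. As in `KTE` the relation for `i = 1` is, with `j = J 3 - 1`, `j' = J' 3 - 1`,
`(E (4 k) - 1) E (4 t) j = (E (4 t) - 1) E (4 k) j'`. So if one family is trivial, `j = 0` or `j' = 0` gives that
the other is not of the second kind (`j = 8 x X^d + …`, `x ≠ 0`), hence trivial. Suppose
`LdE d x z u v J`, `LdE d' x' z' u' v' J'`, `u = x/3`, `u' = x'/3`. `j = 8 x X^d + 8 z X^(d+1) + 8 (9 u + v) X^(d+2)`,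
`J 5 - 1 = 24 x X^d + 24 z X^(d+1) + 24 (25 u + v) X^(d+2)`. `i = 1`: `d = d'`, `k x = t x' =: y`,
`k z - t z' = 2 (k - t) y`. `i = 2`: with `FU k 2 = k² X² + (16 k³ / 3 - k / 3) X³ + …` the relation is
`FU k 2 * G = FU t 2 * G'`, `G = gC 2 1 E (4 t) j + gC 2 2 E (12 t) (J 5 - 1) =
4 t x X^(d+1) + (4 t z + 32 t² x + 8 u - 2 x / 3) X^(d+2) + …`, `8 u - 2 x / 3 = 2 x`. Coefficient of
`X^(d+4)`: `k² (4 t z + 32 t² x + 2 x) + (16 k³ / 3 - k / 3) 4 t x = (…)'`, i.e.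
`4 k t (k z - t z') + 32 k t y (t - k) + 2 y (k - t) + (64/3) k t y (k - t) + (4/3) y (k - t) = 0`; divide by
`y (k - t)`: `8 k t - 32 k t + 2 + (64/3) k t + 4/3 = 0`, so `4 k t = 5`, which is impossible. -/
def SWC_Stmt : Prop :=
  ∀ (t k : ℤ) (J J' : ℕ → ℚ⟦X⟧), t ≠ 0 → k ≠ 0 → t ≠ k → J 1 = 1 → J' 1 = 1 →
    (Triv J ∨ ∃ (d : ℕ) (x z u v : ℚ), 3 ≤ d ∧ LdE d x z u v J ∧ x ≠ 0 ∧ u = x / 3) →
    (Triv J' ∨ ∃ (d : ℕ) (x z u v : ℚ), 3 ≤ d ∧ LdE d x z u v J' ∧ x ≠ 0 ∧ u = x / 3) →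
    (∀ i, FU k i * FF (yt t J) i = FU t i * FF (yt k J') i) → Triv J ∧ Triv J'

/-- T0C: framing zero, companions with trivial leading term.

Proof. As `SWC`: `i = 1`: `(E (4 k) - 1) (J 3 - 1) = (E (4 k') - 1) (J' 3 - 1)`: if one family is trivial, so is
the other; otherwise `d = d'`, `k x = k' x'`. `i = 2`: `FF (yt 0 J) 2 = gC 2 1 (J 3 - 1) + gC 2 2 (J 5 - 1) =
(8 u - 2 x / 3) X^(d+2) + … = 2 x X^(d+2) + …`, so `2 k² x = 2 k'² x'`. Hence `k = k'`. -/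
def T0C_Stmt : Prop :=
  ∀ (k k' : ℤ) (J J' : ℕ → ℚ⟦X⟧), k ≠ 0 → k' ≠ 0 → J 1 = 1 → J' 1 = 1 →
    (Triv J ∨ ∃ (d : ℕ) (x z u v : ℚ), 3 ≤ d ∧ LdE d x z u v J ∧ x ≠ 0 ∧ u = x / 3) →
    (Triv J' ∨ ∃ (d : ℕ) (x z u v : ℚ), 3 ≤ d ∧ LdE d x z u v J' ∧ x ≠ 0 ∧ u = x / 3) →
    (∀ i, FU k i * FF (yt 0 J) i = FU k' i * FF (yt 0 J') i) → k = k' ∨ (Triv J ∧ Triv J')

/-- DD3: comparison of two doubles.

Proof. `CQK`: `FU k i * FF (yt t J) i = FU k' i * FF (yt t' J') i` for all `i`. `RE3`, `KTE`: `t = 0 ↔ t' = 0`.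
`t ≠ 0`: `k t = k' t'`, `k + t = k' + t'`, so `(k' - k) (k' - t) = 0`. If `k' = k`, `t' = t`: cancel `FU k i ≠ 0`
(`FTA`), `ODJ`. If `k' = t`, `t' = k ≠ t`: if `D` or `D'` is not constant, `SWD` gives `t = k`; otherwise `SWC`.
`t = t' = 0`: if `D` or `D'` is not constant, `TTA` and `TTB` give `k = k'`; otherwise `T0C`; if `k = k'`
cancel, `ODJ`. -/
def DD3_Stmt : Prop :=
  ∀ (k t k' t' : ℤ) (J J' : ℕ → ℚ⟦X⟧), k ≠ 0 → k' ≠ 0 → J 1 = 1 → J' 1 = 1 → CI J → CI J' →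
    (∀ N : ℕ, 1 ≤ N → cyk k N (yt t J) = cyk k' N (yt t' J')) →
    (k = k' ∧ t = t' ∧ ∀ N : ℕ, Odd N → J N = J' N) ∨
    (k' = t ∧ t' = k ∧ t ≠ 0 ∧ Triv J ∧ Triv J') ∨ (t = 0 ∧ t' = 0 ∧ Triv J ∧ Triv J')

/-! ## The property `CI` -/

/-- FFT: the leading term of the cyclotomic coefficients.

Proof: `t ≠ 0`: `SYR` and `FTA`, `h 0 0 = 1` (`RE3`). `t = 0`: `RFF` (for `i ≥ 1`, `2 i > i`; for `i = 0`,
`FF (yt 0 J) 0 = J 1 = 1`, `gC 0 0 = 1` by `SG0`). -/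
def FFT_Stmt : Prop :=
  ∀ (t : ℤ) (J : ℕ → ℚ⟦X⟧) (h : ℕ → ℕ → ℚ), Rep J h → J 1 = 1 → ∀ i : ℕ,
    ∃ B : ℚ⟦X⟧, FF (yt t J) i = X ^ i * B ∧ constantCoeff B = (-(t : ℚ)) ^ i

/-- RPD: the double series of a double.

Proof. `X ^ 2 * (c2 (2 a) - c2 (2 b)) = Yf (2 a) - Yf (2 b)`, `Yf (2 a) = Yf a ^ 2 + 4 Yf a`. So
`PT N i * X ^ (2 i) = g i (Yf N)`, `g i = ∏_{l < i} (Y² + 4 Y - w l)` a polynomial in `Y` over `ℚ⟦X⟧`,
`w l = Yf (l+1)^2 + 4 Yf (l+1)` divisible by `X²`. Put `h n m = ∑_{i ≤ n + m} coeff n (c i * (g i).coeff m)`.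
The coefficient of `X^n Y^m` in `g i` is zero for `i > n + m`. Modulo `X ^ R` only the `i < R` contribute
(`PT N i = 0` for `N ≤ i`, `PT_of_le`, so the sum may be extended), and
`c i * g i (Yf N) = ∑_m (c i * (g i).coeff m) Yf N ^ m` is
`∑_{n, m < R} C (coeff n (c i * (g i).coeff m)) X^n Yf N ^ m` modulo `X ^ R` (`X ∣ Yf N`); the terms with
`n + m ≥ R` are divisible by `X ^ R`. `w l` has constant coefficient `0`, so
`h 0 m = ∑_{i ≤ m} constantCoeff (c i) * coeff m ((X² + 4 X)^i)`. -/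
def RPD_Stmt : Prop :=
  ∀ (c J : ℕ → ℚ⟦X⟧), (∀ N : ℕ, 1 ≤ N → J N = ∑ i ∈ Finset.range N, PT N i * X ^ (2 * i) * c i) →
    ∃ h : ℕ → ℕ → ℚ, Rep J h ∧ ∀ R : ℕ, (X : ℚ⟦X⟧) ^ R ∣ (PowerSeries.mk fun m => h 0 m) -
      ∑ i ∈ Finset.range R, C (constantCoeff (c i)) * (X ^ 2 + 4 * X) ^ i

/-- CID: doubles have the property `CI`.

Proof. `FTA`, `FFT`: `FU k i = X^i A`, `FF (yt t J) i = X^i B`, so `RPD` applies with `c i = (-1)^i A B`,
`constantCoeff (c i) = (-(k t))^i`. Hence `mk (h 0) * (1 + k t (X² + 4 X)) = 1`: `Lead0 h D` with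
`D = 1 + C (k t) * (X ^ 2 - 4)`. If `t ≠ 0`, `D` has degree 2 and `h 0 1 = -4 k t ≠ 0`. If `t = 0`, `D = 1`, so
`h 0 m = 0` for `m ≥ 1`; in `InfD` the case `d = 2` is impossible, since its `x` would be `h 0 1 = 0` (`RE3`:
compare the coefficient of `X²` for `N = 2`; `J' 1 = cyk k 1 (yt t J) = 1`). -/
def CID_Stmt : Prop :=
  ∀ (k t : ℤ) (J J' : ℕ → ℚ⟦X⟧), k ≠ 0 → J 1 = 1 → CI J →
    (∀ N : ℕ, 1 ≤ N → J' N = cyk k N (yt t J)) → InfD J' → CI J'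

/-- CHD: divisibility of Chebyshev polynomials.

Proof. `uc (a + b) = uc (a + 1) * uc b - uc a * uc (b - 1)` (induction on `b`), `uc (a+1)^2 - uc a * uc (a+2) = 1`
(`S_sq_add_S_sq`), so `uc a`, `uc (a + 1)` are coprime, `uc a ∣ uc (a b)` (induction on `b`), and by Euclid's
algorithm `uc p`, `uc q` are coprime if `p`, `q` are (`uc 0 = 0`, `uc 1 = 1`: `IsCoprime (uc a) (uc b)` iff
`IsCoprime (uc a) (uc (a + b))`). So `uc p * uc q ∣ uc (p q)` (`IsCoprime.mul_dvd`). Evaluate at `2`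
(`uc n (2) = n`). `uc n (-x) = (-1)^(n-1) uc n (x)`, so `Q (-x) = (-1)^((p-1) (q-1)) Q (x)`, and `(p-1) (q-1)` is
even, since one of `p`, `q` is odd. -/
def CHD_Stmt : Prop :=
  ∀ p q : ℕ, 1 ≤ p → 1 ≤ q → Nat.Coprime p q → ∃ Q : Polynomial ℚ,
    uc ((p : ℤ) * q) = uc p * uc q * Q ∧ Q.comp (-Polynomial.X) = Q ∧ Q.eval 2 = 1

/-- GRD: the leading term of a graph knot is the inverse of a polynomial.

Proof. Induction over `GraphKnot`, as `t_GAB` (`WD/GAB.lean`), for the leading coefficient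
`f = coeff 0 G`. Unknot: `f = E 1 - E (-1)`, `D = 1`. Cable: `LEADEQ` (`Lead1.zero`):
`(E (p q) - E (-(p q))) f' = (E q - E (-q)) (dl p f)`; `dl p` is a ring homomorphism, `dl p (E a) = E (p a)`.
`D' = D.comp (Chebyshev.C p) * Q`, `Q` of `CHD` for `p`, `|q|`: `C p` at `E 1 + E (-1)` is `E p + E (-p)`, so
`dl p f * D.comp (C p) (E 1 + E (-1)) = E p - E (-p)`, and
`(E (pq) - E (-pq)) (E 1 - E (-1)) = (E p - E (-p)) (E q - E (-q)) Q (E 1 + E (-1))` (both sides odd in `q`); multiply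
`f' * D' (E 1 + E (-1))` by `(E p - E (-p)) (E q - E (-q)) ≠ 0`. `C p (-x) = (-1)^p C p (x)` and `D` is even, so
`D'` is even. Sum: `f'' (E 1 - E (-1)) = f f'`, `D'' = D D'`. -/
def GRD_Stmt : Prop :=
  ∀ (M : CommMonoid Knot) (cb : ℕ → ℤ → Knot → Knot) (v : ℕ → Knot → ℚ⟦X⟧), Ops M cb →
    VOk M cb v → ∀ K : Knot, GraphKnot K → ∃ (G : B) (D : Polynomial ℚ), Ser v K G ∧ OddB G ∧
      D.comp (-Polynomial.X) = D ∧
      coeff 0 G * Polynomial.aeval (2 + Yf 1) D = E 1 - E (-1)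

/-- RPG: the double series of a graph knot.

Proof. Every even series `f` (odd coefficients zero) is a series in `Yf 1 = X² + X⁴/12 + …`: there is
`c : ℕ → ℚ` with `Cm (mk c) (Yf 1) f` (`f - f (0) = Yf 1 * f₁`, `f₁` even; `c m = f_m (0)`). Each
`coeff k G` is odd, so it is `(E 1 - E (-1)) * f k`, `f k` even (`E 1 - E (-1) = X * b1 1`, `b1 1` even and
invertible); let `h k` belong to `f k`. Dilation by `N` (`dl N`, a ring homomorphism):
`dl N (coeff k G) = (E N - E (-N)) * dl N (f k)`, `dl N (f k) = ∑_{m < R} h k m Yf N ^ m` modulo `X ^ R`. As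
`evB N G = ∑_k X^k dl N (coeff k G)`, `(E N - E (-N)) (J N - ∑_{n, m < R} …)` is divisible by `X ^ (R + 1)`
(take the sums up to `R + 1` first), and `E N - E (-N)` is `X` times a unit. Leading term:
`f 0 * D (2 + Yf 1) = 1` and `Cm (mk (h 0)) (Yf 1) (f 0)`, so `CMB` gives `Lead0.inv`. -/
def RPG_Stmt : Prop :=
  ∀ (G : B) (D : Polynomial ℚ) (J : ℕ → ℚ⟦X⟧), OddB G → D.comp (-Polynomial.X) = D →
    coeff 0 G * Polynomial.aeval (2 + Yf 1) D = E 1 - E (-1) →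
    (∀ N : ℕ, 1 ≤ N → (E N - E (-N)) * J N = evB N G) → ∃ h : ℕ → ℕ → ℚ, Rep J h ∧ Lead0 h D

/-- CIG: graph knots have the property `CI`.

Proof. `GRD`, `RPG` (`Ser` and `br` give `(E N - E (-N)) JS N = evB N G`, as in `WD2/GRI.lean`): `h`, `D`. By `GRI`
(`WD2/StF.lean`) the family is trivial, or `LdE 2 x z u v` with `x ≠ 0`; then `h 0 1 = x ≠ 0` (`RE3`; compare the
coefficient of `X²` for `N = 2`), and `D` is not constant, since otherwise `mk (h 0)` were constant. -/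
def CIG_Stmt : Prop :=
  ∀ (M : CommMonoid Knot) (cb : ℕ → ℤ → Knot → Knot) (v : ℕ → Knot → ℚ⟦X⟧)
    (JS : ℕ → SKnot → ℚ⟦X⟧), Ops M cb → VOk M cb v → JOk v JS →
    ∀ (n : ℕ) (w : Word) (h : LibH11.IsKnot (ev n w)) (hl : IsLongKnot (cl n w)), Bd n w →
    GraphKnot (closure (ev n w) h) → CI (fun N => JS N (ofDiag (cl n w) hl))

end Pool.Agent.WD3
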