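import Pool.Agent.WD3.Asm
import Pool.Agent.WD3.StH

/-!
# Iterated generalised doubles: from the statements of the modules to the theorem
-/

set_option autoImplicit false

namespace Pool.Agent.WD3

open Pool.Agent.LibH11 Pool.Agent.IT Pool.Agent.GK Pool.Agent.TwoBr Pool.Agent.WD Pool.Agent.WD2
open Pool.Agent.LibH11.Sliced (Diag Kind cnt IsLongKnot ofDiag braidWord)
open scoped BigOperators
open PowerSeries

namespace Asm

/-- The property of the coloured Jones polynomials of the knots of the class. -/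
def P0 (J : ℕ → ℚ⟦X⟧) : Prop := J 1 = 1 ∧ Inf J ∧ CI J

theorem cmp_of (hD : DD3_Stmt) : CmpP P0 := by
  intro k k' t t' J J' hk hk' hJ hJ' he
  rcases hD k t k' t' J J' hk hk' hJ.1 hJ'.1 hJ.2.2 hJ'.2.2 he with h | ⟨h1, h2, -, h3, h4⟩ |
    ⟨h1, h2, h3, h4⟩
  · exact Or.inl h
  · exact Or.inr ⟨fun N hN => h3 N hN.pos, fun N hN => h4 N hN.pos, Or.inr ⟨h1, h2⟩⟩
  · exact Or.inr ⟨fun N hN => h3 N hN.pos, fun N hN => h4 N hN.pos, Or.inl ⟨h1, h2⟩⟩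

theorem E_zero : (E 0 : ℚ⟦X⟧) = 1 := by
  ext n
  cases n with
  | zero => simp [E]
  | succ n => simp [E]

theorem cyk_one (hS : SG0_Stmt) (k t : ℤ) (J : ℕ → ℚ⟦X⟧) (hJ : J 1 = 1) :
    cyk k 1 (yt t J) = 1 := by
  unfold cyk FU FF yt
  simp [PT_zero, hS.1, E_zero, hJ]

theorem dbl_of (hL : LDF_Stmt) (hC : CID_Stmt) (hS : SG0_Stmt) : DblP P0 := by
  intro k t J J' hk hJ he
  have h1 : InfD J' := (hL k t hk J J' hJ.1 hJ.2.1 he).1
  have h2 : J' 1 = 1 := by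
    rw [he 1 le_rfl]
    exact cyk_one hS k t J hJ.1
  exact ⟨⟨h2, WD2.Asm.inf_of h1, hC k t J J' hk hJ.1 hJ.2.2 he h1⟩, h1⟩

theorem pol_of (hR : RPC_Stmt) (J : ℕ → ℚ⟦X⟧) (hJ : P0 J) : PolyC J := by
  obtain ⟨h, D, h1, -⟩ := hJ.2.2
  exact hR J h h1

/-- The coloured Jones polynomials exist and have the properties used. -/
theorem ctx_all (hO : OPS_Stmt) (hJ : JXK_Stmt) (hG : GRI_Stmt) (hGG : GGO_Stmt) (hA : ADK_Stmt)
    (hX : ALX_Stmt) (hD : DD3_Stmt) (hL : LDF_Stmt) (hC : CID_Stmt) (hS : SG0_Stmt)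
    (hR : RPC_Stmt) (hI : CIG_Stmt) : ∃ JS : ℕ → SKnot → ℚ⟦X⟧, Ctx P0 JS ∧
    ∀ N : ℕ, 1 ≤ N → ∀ K K' : SKnot, Same0 K K' → JS N K = JS N K' := by
  obtain ⟨M, cb, hops⟩ := hO
  obtain ⟨v, JS, hv, hj, hd⟩ := hJ M cb hops
  obtain ⟨h1, hadk, hadn⟩ := hA M cb v JS hops hv hj hd hX fun w w' h hw => Top.dbk h hw
  have hgri := hG M cb v JS hops hv hj
  have hgrp : ∀ (n : ℕ) (w : Word) (h : LibH11.IsKnot (ev n w)) (hl : IsLongKnot (cl n w)),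
      Bd n w → GraphKnot (closure (ev n w) h) → P0 (fun N => JS N (ofDiag (cl n w) hl)) := by
    intro n w h hl hw hg
    refine ⟨h1 _, ?_, hI M cb v JS hops hv hj n w h hl hw hg⟩
    obtain ⟨-, hc⟩ := hgri n w h hl hw hg
    rcases hc with ⟨-, ht⟩ | ⟨-, x, z, u, v', hl', hx, hu⟩ | ⟨x, z, u, v', hl', hx, hu⟩
    · exact Or.inl ht
    · exact Or.inr ⟨2, x, z, u, v', hl', hx, Or.inl ⟨rfl, hu⟩⟩
    · exact Or.inr ⟨2, x, z, u, v', hl', hx.ne, Or.inr (Or.inr ⟨rfl, hx, hu⟩)⟩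
  refine ⟨JS, ⟨cmp_of hD, dbl_of hL hC hS, pol_of hR, hadk, hadn, hgrp, hgri, ?_,
    hGG M cb v JS hops hv hj⟩, hj.ft⟩
  intro h0 N hN
  have h2 := hj.br N hN 0 [] (isKnot_zero 1) h0 (bd_nil 0)
  have h3 := hv.unit N
  have h4 : (E N - E (-N)) * JS N (ofDiag [] h0) = (E 1 - E (-1)) * v N unknot := h2
  apply mul_left_cancel₀ (WD2.Asm.den_ne hN)
  rw [mul_one]
  exact h4.trans h3

end Asm

/-- **Main theorem**, for invariants with integer values. -/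
theorem main_int (hO : OPS_Stmt) (hJ : JXK_Stmt) (hG : GRI_Stmt) (hGG : GGO_Stmt) (hA : ADK_Stmt)
    (hX : ALX_Stmt) (hD : DD3_Stmt) (hL : LDF_Stmt) (hC : CID_Stmt) (hS : SG0_Stmt)
    (hR : RPC_Stmt) (hI : CIG_Stmt) (M : Asm.Mods) (K K' : SKnot) (hK : IsIterated K)
    (hK' : IsIterated K') (hs : Same0 K K') : K = K' := by
  obtain ⟨JS, c, hft⟩ := Asm.ctx_all hO hJ hG hGG hA hX hD hL hC hS hR hI
  exact main_of c M hft K K' hK hK' hs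

end Pool.Agent.WD3
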