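import Pool.Agent.WD3.StG
import Pool.Agent.WD.NRD

/-!
# WD3, module NRK: the framing factor of a generalised double
-/

set_option autoImplicit false

namespace Pool.Agent.WD3

open Pool.Agent.LibH11 Pool.Agent.IT Pool.Agent.GK Pool.Agent.TwoBr Pool.Agent.WD Pool.Agent.WD2
open Pool.Agent.LibH11.Sliced (Diag Kind cnt IsLongKnot ofDiag braidWord)
open scoped BigOperators

namespace NRK

open Pool.Agent.WD.NRD

section

variable {A ι : Type} [CommRing A] [Fintype ι] [DecidableEq ι]

/-! ### The turned twists -/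

theorem tw_ne (M : Mats A ι) (κ : ι → A) (θ : Bool → A) (k : ℤ) {p q r t : Bool × ι}
    (h : r.1 ≠ p.1 ∨ t.1 ≠ q.1) :
    tw (rdM (M.nrm θ) fun x : Bool × ι => κ x.2) k ![p, q] ![r, t] = 0 := by
  obtain ⟨p1, p2⟩ := p
  obtain ⟨q1, q2⟩ := q
  obtain ⟨r1, r2⟩ := r
  obtain ⟨t1, t2⟩ := t
  rw [vec_lft p1 q1, vec_lft r1 t1]
  refine tw_zero M _ θ k ?_ _ _
  intro h1
  have h2 := congrFun h1 0
  have h3 := congrFun h1 1
  simp only [Matrix.cons_val_zero, Matrix.cons_val_one] at h2 h3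
  rcases h with h | h
  · exact h h2
  · exact h h3

theorem cup_eq (M : Mats A ι) (θ : Bool → A) {p q : Bool × ι} (h : p.1 = q.1) :
    (M.nrm θ).cup p q = 0 := if_pos h

theorem cap_eq (M : Mats A ι) (θ : Bool → A) {p q : Bool × ι} (h : p.1 = q.1) :
    (M.nrm θ).cap p q = 0 := if_pos h

/-- the turned twists of the model with orientations -/
noncomputable abbrev rt (M : Mats A ι) (κ : ι → A) (θ : Bool → A) (k : ℤ) :
    Matrix (Fin 2 → Bool × ι) (Fin 2 → Bool × ι) A :=
  rot (M.nrm θ) (tw (rdM (M.nrm θ) fun x : Bool × ι => κ x.2) k)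

theorem rot_zero (M : Mats A ι) (κ : ι → A) (θ : Bool → A) (k : ℤ) (x y : Fin 2 → Bool × ι)
    (h : (x 0).1 = (x 1).1) : rt M κ θ k x y = 0 := by
  unfold rt rot
  refine Finset.sum_eq_zero fun c _ => Finset.sum_eq_zero fun z _ => ?_
  by_cases hz : (x 0).1 = z.1
  · have h1 : (M.nrm θ).cap (x 0) z = 0 := if_pos hz
    rw [h1, mul_zero]
  · rw [tw_ne M κ θ k (Or.inl fun h1 => hz (by rw [h1, h])), mul_zero, zero_mul]

theorem rot_zero' (M : Mats A ι) (κ : ι → A) (θ : Bool → A) (k : ℤ) (x y : Fin 2 → Bool × ι)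
    (h : (y 0).1 = (y 1).1) : rt M κ θ k x y = 0 := by
  unfold rt rot
  refine Finset.sum_eq_zero fun c _ => Finset.sum_eq_zero fun z _ => ?_
  by_cases hz : c.1 = (y 1).1
  · have h1 : (M.nrm θ).cup c (y 1) = 0 := if_pos hz
    rw [h1, zero_mul, zero_mul]
  · rw [tw_ne M κ θ k (Or.inr fun h1 => hz (by rw [← h1, h])), mul_zero, zero_mul]

theorem rot_tf (M : Mats A ι) (κ : ι → A) (θ : Bool → A) (k : ℤ) (s t : Fin 2 → ι) :
    rt M κ θ k (lft ![true, false] s) (lft ![true, false] t) =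
      θ (!(decide (0 < k))) ^ (2 * k.natAbs) * rot M (tw (rdM M κ) k) s t := by
  have hne : (![false, true] : Fin 2 → Bool) 0 ≠ (![false, true] : Fin 2 → Bool) 1 := by decide
  have e : ∀ c z : ι, tw (rdM (M.nrm θ) fun x : Bool × ι => κ x.2) k
      ![(false, s 1), (true, c)] ![(false, z), (true, t 0)] =
      θ (!(decide (0 < k))) ^ (2 * k.natAbs) * tw (rdM M κ) k ![s 1, c] ![z, t 0] := by
    intro c z
    rw [vec_lft false true (s 1) c, vec_lft false true z (t 0), tw_lft M κ _ θ k hne]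
  unfold rt rot
  change ∑ c : Bool × ι, ∑ z : Bool × ι, (M.nrm θ).cup c (false, t 1) *
      tw (rdM (M.nrm θ) fun x : Bool × ι => κ x.2) k ![(false, s 1), c] ![z, (true, t 0)] *
      (M.nrm θ).cap (true, s 0) z = _
  rw [Fintype.sum_prod_type, Fintype.sum_bool]
  have e1 : ∑ c : ι, ∑ z : Bool × ι, (M.nrm θ).cup (false, c) (false, t 1) *
      tw (rdM (M.nrm θ) fun x : Bool × ι => κ x.2) k ![(false, s 1), (false, c)]
        ![z, (true, t 0)] * (M.nrm θ).cap (true, s 0) z = 0 := by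
    refine Finset.sum_eq_zero fun c _ => Finset.sum_eq_zero fun z _ => ?_
    have h1 : (M.nrm θ).cup (false, c) (false, t 1) = 0 := cup_eq M θ rfl
    rw [h1, zero_mul, zero_mul]
  rw [e1, add_zero, Finset.mul_sum]
  refine Finset.sum_congr rfl fun c _ => ?_
  rw [Fintype.sum_prod_type, Fintype.sum_bool]
  have e2 : ∑ z : ι, (M.nrm θ).cup (true, c) (false, t 1) *
      tw (rdM (M.nrm θ) fun x : Bool × ι => κ x.2) k ![(false, s 1), (true, c)]
        ![(true, z), (true, t 0)] * (M.nrm θ).cap (true, s 0) (true, z) = 0 := by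
    refine Finset.sum_eq_zero fun z _ => ?_
    have h1 : (M.nrm θ).cap (true, s 0) (true, z) = 0 := cap_eq M θ rfl
    rw [h1, mul_zero]
  rw [e2, zero_add, Finset.mul_sum]
  refine Finset.sum_congr rfl fun z _ => ?_
  rw [e c z]
  change M.cup c (t 1) * _ * M.cap (s 0) z = _
  ring

/-! ### The product of the three matrices -/

/-- parallel strands -/
theorem mat_tt (hTYP : TYP_Stmt) (M : Mats A ι) (κ : ι → A) (θ : Bool → A) (k m : ℤ)
    (n : ℕ) (w : Word) (hB : Bd n w) (hK : LibH11.IsKnot (ev n w)) (a : Fin 2 → ι)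
    (y : Fin 2 → Bool × ι) :
    (ptr (blkD (rdM (M.nrm θ) fun x : Bool × ι => κ x.2) 1) n w *
      tw (rdM (M.nrm θ) fun x : Bool × ι => κ x.2) m * rt M κ θ k)
      (lft ![true, true] a) y = 0 := by
  obtain ⟨h1, -⟩ := ptr_ty hTYP M κ θ ![true, true]
    (fun e => (([e, e, e, e] : List Bool).map θ).prod)
    (fun e => by rw [sns_tt]) n w hB hK
  rw [Matrix.mul_apply]
  refine Finset.sum_eq_zero fun z _ => ?_
  by_cases hz : (fun i => (z i).1) = ![true, true]
  · rw [rot_zero M κ θ k z y, mul_zero]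
    have h2 := congrFun hz 0
    have h3 := congrFun hz 1
    simp only [Matrix.cons_val_zero, Matrix.cons_val_one] at h2 h3
    rw [h2, h3]
  · rw [Matrix.mul_apply, Finset.sum_eq_zero, zero_mul]
    intro u _
    by_cases hu : (fun i => (u i).1) = ![true, true]
    · rw [← eta u, ← eta z, tw_zero M _ θ m, mul_zero]
      rw [hu]
      exact hz
    · rw [h1 a u hu, zero_mul]

/-- antiparallel strands -/
theorem mat_tf (hTYP : TYP_Stmt) (M : Mats A ι) (κ : ι → A) (θ : Bool → A)
    (hθ : ∀ e, θ e * θ (!e) = 1) (k m : ℤ)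
    (n : ℕ) (w : Word) (hB : Bd n w) (hK : LibH11.IsKnot (ev n w)) (a : Fin 2 → ι)
    (y : Fin 2 → Bool × ι) (g : (Fin 2 → ι) → A) (hg : ∀ c : Fin 2 → ι,
      rt M κ θ k (lft ![true, false] c) y = g c) :
    (ptr (blkD (rdM (M.nrm θ) fun x : Bool × ι => κ x.2) 1) n w *
      tw (rdM (M.nrm θ) fun x : Bool × ι => κ x.2) m * rt M κ θ k)
      (lft ![true, false] a) y = θ (!(decide (0 < m))) ^ (2 * m.natAbs) *
      ∑ c, (ptr (blkD (rdM M κ) 1) n w * tw (rdM M κ) m) a c * g c := by
  obtain ⟨h1, h2⟩ := ptr_ty hTYP M κ θ ![true, false] (fun _ => 1)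
    (fun e => by
      rw [sns_tf]
      simp only [List.map_cons, List.map_nil, List.prod_cons, List.prod_nil, mul_one]
      have h3 := hθ e
      calc θ (!e) * (θ e * (θ e * θ (!e))) = (θ e * θ (!e)) * (θ e * θ (!e)) := by ring
        _ = 1 := by rw [h3, one_mul]) n w hB hK
  have hne : (![true, false] : Fin 2 → Bool) 0 ≠ (![true, false] : Fin 2 → Bool) 1 := by decide
  have h3 : ∀ (z : Fin 2 → Bool × ι),
      (ptr (blkD (rdM (M.nrm θ) fun x : Bool × ι => κ x.2) 1) n w *
        tw (rdM (M.nrm θ) fun x : Bool × ι => κ x.2) m) (lft ![true, false] a) z =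
      ∑ c : Fin 2 → ι, ptr (blkD (rdM M κ) 1) n w a c *
        tw (rdM (M.nrm θ) fun x : Bool × ι => κ x.2) m (lft ![true, false] c) z := by
    intro z
    rw [Matrix.mul_apply, sum_one ![true, false]]
    · refine Finset.sum_congr rfl fun c _ => ?_
      rw [h2, List.map_const', List.prod_replicate, one_pow, one_mul]
    · intro u hu
      rw [h1 a u hu, zero_mul]
  rw [Matrix.mul_apply, sum_one ![true, false], Finset.mul_sum]
  · refine Finset.sum_congr rfl fun c _ => ?_
    rw [h3, hg, ← mul_assoc]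
    congr 1
    rw [Matrix.mul_apply, Finset.mul_sum]
    refine Finset.sum_congr rfl fun d _ => ?_
    rw [tw_lft M κ _ θ m hne]
    ring
  · intro z hz
    rw [h3, Finset.sum_eq_zero, zero_mul]
    intro c _
    rw [← eta z, tw_zero M _ θ m hz, mul_zero]

end

end NRK

open Pool.Agent.WD.NRD NRK in
theorem t_NRK (hDVK : DVK_Stmt) (hTYP : TYP_Stmt) : NRK_Stmt := by
  intro A _ ι _ _ M ε κ θ hP hZ hθ k m n w hB hK F a
  rw [hDVK A (Bool × ι) (M.nrm θ) ε (fun x : Bool × ι => κ x.2) (piv_nrm hP θ) (zig_nrm hZ θ)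
    k m n w hB F (true, a), hDVK A ι M ε κ hP hZ k m n w hB _ a]
  have key : ∀ u : Bool × ι, (∑ b : Bool × ι, κ b.2 *
      (ptr (blkD (rdM (M.nrm θ) fun x : Bool × ι => κ x.2) 1) n w *
        tw (rdM (M.nrm θ) fun x : Bool × ι => κ x.2) m * rt M κ θ k)
        ![(true, a), b] ![u, b]) =
      if u.1 = true then θ (!(decide (0 < k))) ^ (2 * k.natAbs) *
        θ (!(decide (0 < m))) ^ (2 * m.natAbs) *
        ∑ b : ι, κ b * (ptr (blkD (rdM M κ) 1) n w * tw (rdM M κ) m *
          rot M (tw (rdM M κ) k)) ![a, b] ![u.2, b] else 0 := by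
    intro u
    obtain ⟨o, u⟩ := u
    rw [Fintype.sum_prod_type, Fintype.sum_bool]
    have e1 : ∑ b : ι, κ ((true, b) : Bool × ι).2 *
        (ptr (blkD (rdM (M.nrm θ) fun x : Bool × ι => κ x.2) 1) n w *
          tw (rdM (M.nrm θ) fun x : Bool × ι => κ x.2) m * rt M κ θ k)
          ![(true, a), (true, b)] ![(o, u), (true, b)] = 0 := by
      refine Finset.sum_eq_zero fun b _ => ?_
      rw [vec_lft true true a b, NRK.mat_tt hTYP M κ θ k m n w hB hK, mul_zero]
    rw [e1, zero_add]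
    cases o with
    | false =>
      rw [if_neg (fun h : false = true => Bool.false_ne_true h)]
      refine Finset.sum_eq_zero fun b _ => ?_
      rw [vec_lft true false a b, NRK.mat_tf hTYP M κ θ hθ k m n w hB hK _ _ (fun _ => 0)]
      · rw [Finset.sum_eq_zero (fun c _ => mul_zero _), mul_zero, mul_zero]
      · intro c
        exact rot_zero' M κ θ k _ _ rfl
    | true =>
      rw [if_pos rfl, Finset.mul_sum]
      refine Finset.sum_congr rfl fun b _ => ?_
      rw [vec_lft true false a b, vec_lft true false u b,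
        NRK.mat_tf hTYP M κ θ hθ k m n w hB hK _ _
          (fun c => θ (!(decide (0 < k))) ^ (2 * k.natAbs) *
            rot M (tw (rdM M κ) k) c ![u, b])]
      · rw [Matrix.mul_apply]
        change κ b * (_ * _) = _ * (κ b * _)
        have e2 : ∑ c, (ptr (blkD (rdM M κ) 1) n w * tw (rdM M κ) m) ![a, b] c *
            (θ (!(decide (0 < k))) ^ (2 * k.natAbs) * rot M (tw (rdM M κ) k) c ![u, b]) =
            θ (!(decide (0 < k))) ^ (2 * k.natAbs) *
            ∑ c, (ptr (blkD (rdM M κ) 1) n w * tw (rdM M κ) m) ![a, b] c *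
              rot M (tw (rdM M κ) k) c ![u, b] := by
          rw [Finset.mul_sum]
          refine Finset.sum_congr rfl fun c _ => ?_
          ring
        rw [e2]
        ring
      · intro c
        exact rot_tf M κ θ k c ![u, b]
  rw [Finset.sum_congr rfl fun u _ => congrArg (· * F [u]) (key u)]
  rw [Fintype.sum_prod_type, Fintype.sum_bool]
  have z : ∑ y : ι, (if ((false, y) : Bool × ι).1 = true then
      θ (!(decide (0 < k))) ^ (2 * k.natAbs) * θ (!(decide (0 < m))) ^ (2 * m.natAbs) *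
        ∑ b : ι, κ b * (ptr (blkD (rdM M κ) 1) n w * tw (rdM M κ) m *
          rot M (tw (rdM M κ) k)) ![a, b] ![((false, y) : Bool × ι).2, b] else 0) *
      F [(false, y)] = 0 := by
    refine Finset.sum_eq_zero fun y _ => ?_
    rw [if_neg (fun h : false = true => Bool.false_ne_true h), zero_mul]
  rw [z, add_zero, Finset.mul_sum, Finset.mul_sum, Finset.mul_sum]
  refine Finset.sum_congr rfl fun y _ => ?_
  rw [if_pos rfl]
  change _ = _ * (_ * (_ * F [(true, y)]))
  ring

end Pool.Agent.WD3
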