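import Pool.Agent.WD3.StI
import Pool.Agent.WD2.PLD

/-!
# Module PLK: the coefficients of the cyclotomic form for generalised doubles are polynomials in `N`
-/

set_option autoImplicit false

namespace Pool.Agent.WD3

open Pool.Agent.LibH11 Pool.Agent.IT Pool.Agent.GK Pool.Agent.TwoBr Pool.Agent.WD Pool.Agent.WD2
open scoped BigOperators
open PowerSeries

namespace PLK

/-- the sum can be extended -/
theorem cyk_eq (k : ℤ) {N M : ℕ} (hN : 1 ≤ N) (h : N ≤ M) (y : ℕ → ℚ⟦X⟧) : cyk k N y =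
    ∑ i ∈ Finset.range M, (-1) ^ i * PT N i * (FU k i * FF y i) := by
  unfold cyk
  refine Finset.sum_subset (Finset.range_mono h) fun i _ hi => ?_
  rw [Finset.mem_range, not_lt] at hi
  rw [PT_of_le hi hN]
  ring

end PLK

open PLK in
theorem t_PLK (hFUN : FUN_Stmt) : PLK_Stmt := by
  intro k y J hJ r
  have h : PolyC (fun N => ∑ i ∈ Finset.range (r + 1), (-1) ^ i * PT (N : ℚ) i *
      (FU k i * FF y i)) :=
    PLD.sum _ (fun i N => (-1) ^ i * PT (N : ℚ) i * (FU k i * FF y i)) fun i =>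
      PLD.mul (PLD.mul (PLD.const _) (PLD.pPT i)) (PLD.const _)
  obtain ⟨p, hp⟩ := h r
  refine ⟨p, fun N hN => ?_⟩
  rw [← hp N hN, hJ N hN, cyk_eq k hN (Nat.le_add_right N (r + 1)) y, map_sum, map_sum]
  symm
  refine Finset.sum_subset (Finset.range_mono (by omega)) fun i _ hi => ?_
  rw [Finset.mem_range, not_lt] at hi
  obtain ⟨u, hu⟩ := (hFUN k i).1
  have e : (-1 : ℚ⟦X⟧) ^ i * PT (N : ℚ) i * (FU k i * FF y i) =
      X ^ i * ((-1) ^ i * PT (N : ℚ) i * (u * FF y i)) := by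
    rw [hu]
    ring
  rw [e, coeff_X_pow_mul', if_neg (by omega)]

end Pool.Agent.WD3
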