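import Pool.Agent.WD3.StG
import Pool.Agent.WD.SCD

/-!
# Generalised doubles: the value of a generalised double is a scalar (module SCK)
-/

set_option autoImplicit false

namespace Pool.Agent.WD3

open Pool.Agent.LibH11 Pool.Agent.IT Pool.Agent.GK Pool.Agent.TwoBr Pool.Agent.WD Pool.Agent.WD2
open scoped BigOperators

open Pool.Agent.WD.SCDM in
/-- (SCK) -/
theorem t_SCK (h1 : DVK_Stmt) (h2 : CUPM_Stmt) (h3 : PTM_Stmt) (h4 : CLK_Stmt) (h5 : GPT_Stmt)
    (h6 : BLKD_Stmt) (h7 : MOP_Stmt) (h8 : PTR_Stmt) (h9 : IT.SCHUR_Stmt) (_ : TENSOK_Stmt)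
    (h11 : FPOWOK_Stmt) (h12 : IT.VOK_Stmt) : SCK_Stmt := by
  intro K _ s hs N hN k m n w hw
  obtain ⟨-, hzig, -, hpiv, -, -⟩ := h2 K s hs N hN
  have hV : IT.Ok s (V s N) := (h12 K s hs).1 N
  have hW : IT.Ok s (fpow s (V s N) 2) := h11 K s hs (Fin N) (V s N) hV 2
  have hB : blkD (RD s (V s N)) 1 = RD s (fpow s (V s N) 2) :=
    h6 K s hs (Fin N) (V s N) hV 1
  have hP : Mor (fpow s (V s N) 2) (fpow s (V s N) 2) (ptr (blkD (RD s (V s N)) 1) n w) := by
    rw [hB]
    exact h3 K s hs (Fin 2 → Fin N) (fpow s (V s N) 2) hW n w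
  have hT : Mor (fpow s (V s N) 2) (fpow s (V s N) 2) (tw (RD s (V s N)) m) :=
    h7 K s hs (Fin N) (V s N) hV 1 _
  have hC := h4 K s hs N hN k
  obtain ⟨Y, hYd⟩ : ∃ Y : Matrix (Fin 2 → Fin N) (Fin 2 → Fin N) K,
      Y = ptr (blkD (RD s (V s N)) 1) n w * tw (RD s (V s N)) m * rtw s N k := ⟨_, rfl⟩
  have hY : Mor (fpow s (V s N) 2) (fpow s (V s N) 2) Y := by
    rw [hYd]
    exact mor_mul (mor_mul hP hT) hC
  obtain ⟨x, hx⟩ := h9 K s hs N _
    (h8 K s hs (Fin N) (Fin N) (V s N) (V s N) hV hV _ (mor_two hY))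
  have hx' : ∀ a u : Fin N, ∑ b, kap s N b * Y ![a, b] ![u, b] = if a = u then x else 0 := by
    intro a u
    have h := congrFun (congrFun hx a) u
    have hr : (x • (1 : Matrix (Fin N) (Fin N) K)) a u = if a = u then x else 0 := by
      rw [Matrix.smul_apply, Matrix.one_apply, smul_eq_mul, mul_ite, mul_one, mul_zero]
    rw [← hr, ← h]
    refine Finset.sum_congr rfl fun b _ => ?_
    rw [mul_comm]
    rfl
  refine ⟨(-1) ^ (N - 1) * x, ?_, ?_⟩
  · intro F a
    have h := h1 K (Fin N) (MV s N) _ _ hpiv hzig k m n w hw F a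
    have hr : rot (MV s N) (tw (RD s (V s N)) k) = rtw s N k := rfl
    rw [rd, hr, ← hYd, eps] at h
    rw [h, mul_assoc]
    congr 1
    rw [Finset.sum_congr rfl fun u _ => by rw [hx' a u], Finset.sum_eq_single a]
    · rw [if_pos rfl]
    · intro u _ hu
      rw [if_neg hu.symm, zero_mul]
    · intro ha
      exact absurd (Finset.mem_univ a) ha
  · have hG := (h5 K (Fin (1 + 1) → Fin N) (blkD (RD s (V s N)) 1) n w).1
      (tw (RD s (V s N)) m * rtw s N k)
    rw [hG, mul_assoc]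
    congr 1
    have hs1 : ∑ a : Fin (1 + 1) → Fin N, (blkD (RD s (V s N)) 1).κ a *
        (ptr (blkD (RD s (V s N)) 1) n w *
          (tw (RD s (V s N)) m * rtw s N k)) a a =
        ∑ a : Fin 2 → Fin N, (kap s N (a 0) * kap s N (a 1)) * Y a a := by
      refine Finset.sum_congr rfl fun a _ => ?_
      rw [hYd, Matrix.mul_assoc]
      congr 1
      change ∏ i, (RD s (V s N)).κ (a i) = _
      rw [Fin.prod_univ_two]
      rfl
    rw [hs1, ← (ψ (Fin N)).sum_comp, Fintype.sum_prod_type, Finset.mul_sum]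
    refine Finset.sum_congr rfl fun a _ => ?_
    have h3 := hx' a a
    rw [if_pos rfl] at h3
    rw [← h3, mul_comm, Finset.mul_sum]
    refine Finset.sum_congr rfl fun b _ => ?_
    change kap s N a * (kap s N b * Y ![a, b] ![a, b]) =
      kap s N a * kap s N b * Y ![a, b] ![a, b]
    ring

end Pool.Agent.WD3
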