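import Pool.Agent.WD3.StG
import Pool.Agent.WD2.D2

/-!
# SID: a `q`-difference

Induction with Pascal's rule.
-/

set_option autoImplicit false

namespace Pool.Agent.WD3

open Pool.Agent.LibH11 Pool.Agent.IT Pool.Agent.GK Pool.Agent.TwoBr Pool.Agent.WD Pool.Agent.WD2
open scoped BigOperators

namespace SID

variable {K : Type} [Field K] {s : K}

/-- `{k + r}! / {k}!` -/
noncomputable def ff (s : K) (r k : ℕ) : K := bf s (k + r) / bf s k

/-- the sign and the power of `s` in the `m`-th summand -/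
noncomputable def tt (s : K) (r i m : ℕ) : K :=
  (-1) ^ m * s ^ (2 * (((i : ℤ) - 1 - r) * m))

/-- the sum -/
noncomputable def UU (s : K) (r i n : ℕ) : K :=
  ∑ m ∈ Finset.range (i + 1), D2.bb s i m * (tt s r i m * ff s r (n - m))

/-- the closed form -/
noncomputable def CC (s : K) (r i n : ℕ) : K :=
  if i ≤ r then s ^ (2 * ((i : ℤ) * n)) * (bf s r * bf s (n + r - i) / (bf s (r - i) * bf s n))
  else 0

theorem sg_false : sg false = -1 := rfl

theorem tt_1 (h0 : s ≠ 0) (r i m : ℕ) :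
    s ^ (sg false * (2 * (m : ℤ))) * tt s r (i + 1) m = tt s r i m := by
  unfold tt
  have e1 : 2 * (((i : ℤ) - 1 - r) * m) = sg false * (2 * (m : ℤ)) +
      2 * ((((i + 1 : ℕ) : ℤ) - 1 - r) * m) := by
    rw [sg_false]
    push_cast
    ring
  rw [e1, zpow_add₀ h0]
  ring

theorem tt_2 (h0 : s ≠ 0) (r i k : ℕ) :
    s ^ (sg false * (2 * ((k : ℤ) - i))) * tt s r (i + 1) (k + 1) =
      -(s ^ (2 * (2 * (i : ℤ) - r)) * tt s r i k) := by
  unfold tt
  have e1 : sg false * (2 * ((k : ℤ) - i)) + 2 * ((((i + 1 : ℕ) : ℤ) - 1 - r) * ((k + 1 : ℕ) : ℤ)) =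
      2 * (2 * (i : ℤ) - r) + 2 * (((i : ℤ) - 1 - r) * k) := by
    rw [sg_false]
    push_cast
    ring
  have e2 := congrArg (fun x => s ^ x) e1
  beta_reduce at e2
  rw [zpow_add₀ h0, zpow_add₀ h0] at e2
  rw [pow_succ]
  linear_combination (-(-1 : K) ^ k) * e2

theorem step (hs : IT.Gen s) (r i n : ℕ) :
    UU s r (i + 1) (n + 1) = UU s r i (n + 1) - s ^ (2 * (2 * (i : ℤ) - r)) * UU s r i n := by
  have h0 := hs.1
  have j1 : UU s r i (n + 1) = ∑ m ∈ Finset.range (i + 1 + 1),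
      D2.bb s i m * (tt s r i m * ff s r (n + 1 - m)) := by
    rw [Finset.sum_range_succ (fun m => D2.bb s i m * (tt s r i m * ff s r (n + 1 - m))) (i + 1),
      D2.bb_lt (Nat.lt_succ_self i)]
    unfold UU
    ring
  rw [j1, Finset.sum_range_succ', D2.bb_zero hs]
  unfold UU
  rw [Finset.sum_range_succ', D2.bb_zero hs]
  have j3 : tt s r (i + 1) 0 = tt s r i 0 := by
    unfold tt
    simp
  have j2 : ∑ k ∈ Finset.range (i + 1), D2.bb s (i + 1) (k + 1) *
      (tt s r (i + 1) (k + 1) * ff s r (n + 1 - (k + 1))) =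
      ∑ k ∈ Finset.range (i + 1), D2.bb s i (k + 1) *
        (tt s r i (k + 1) * ff s r (n + 1 - (k + 1))) -
      s ^ (2 * (2 * (i : ℤ) - r)) *
        ∑ k ∈ Finset.range (i + 1), D2.bb s i k * (tt s r i k * ff s r (n - k)) := by
    rw [Finset.mul_sum, ← Finset.sum_sub_distrib]
    refine Finset.sum_congr rfl fun k _ => ?_
    have k1 := tt_1 h0 r i (k + 1)
    have k2 := tt_2 h0 r i k
    have k4 : n + 1 - (k + 1) = n - k := by omega
    rw [D2.pascal hs false, k4]
    have k3 : sg false * (2 * (((k + 1 : ℕ)) : ℤ)) = sg false * (2 * ((k : ℤ) + 1)) := by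
      push_cast
      ring
    rw [k3] at k1
    linear_combination (D2.bb s i (k + 1) * ff s r (n - k)) * k1 +
      (D2.bb s i k * ff s r (n - k)) * k2
  rw [j2, j3]
  ring

theorem cstep (hs : IT.Gen s) (r i n : ℕ) :
    CC s r (i + 1) (n + 1) = CC s r i (n + 1) - s ^ (2 * (2 * (i : ℤ) - r)) * CC s r i n := by
  have h0 := hs.1
  unfold CC
  rcases lt_trichotomy i r with h | h | h
  · obtain ⟨d, rfl⟩ : ∃ d, r = i + 1 + d := ⟨r - (i + 1), by omega⟩
    rw [if_pos (by omega), if_pos (by omega), if_pos (by omega)]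
    have h1 : n + 1 + (i + 1 + d) - (i + 1) = n + d + 1 := by omega
    have h2 : n + 1 + (i + 1 + d) - i = n + d + 1 + 1 := by omega
    have h3 : n + (i + 1 + d) - i = n + d + 1 := by omega
    have h4 : i + 1 + d - (i + 1) = d := by omega
    have h5 : i + 1 + d - i = d + 1 := by omega
    rw [h1, h2, h3, h4, h5, bf_succ (n + d + 1), bf_succ d, bf_succ n]
    have n1 := bf_ne hs n
    have n2 := bf_ne hs d
    have n3 : br s ((n : ℤ) + 1) ≠ 0 := br_ne hs (by omega)
    have n4 : br s ((d : ℤ) + 1) ≠ 0 := br_ne hs (by omega)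
    have key := D2.pascal0 h0 true (((n + d + 1 : ℕ) : ℤ) + 1) ((n : ℤ) + 1)
    have e0 : sg true = 1 := rfl
    have e1 : ((n + d + 1 : ℕ) : ℤ) + 1 - ((n : ℤ) + 1) = (d : ℤ) + 1 := by
      push_cast
      ring
    rw [e0, e1] at key
    have e2 : s ^ (2 * (((i + 1 : ℕ) : ℤ) * ((n + 1 : ℕ) : ℤ))) =
        s ^ (2 * ((i : ℤ) * ((n + 1 : ℕ) : ℤ))) * s ^ (1 * (2 * ((n : ℤ) + 1))) := by
      rw [← zpow_add₀ h0]
      congr 1
      push_cast
      ring
    have e3 : s ^ (2 * (2 * (i : ℤ) - ((i + 1 + d : ℕ) : ℤ))) * s ^ (2 * ((i : ℤ) * (n : ℤ))) =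
        s ^ (2 * ((i : ℤ) * ((n + 1 : ℕ) : ℤ))) *
          s ^ (1 * (2 * ((n : ℤ) + 1 - (((n + d + 1 : ℕ) : ℤ) + 1)))) := by
      rw [← zpow_add₀ h0, ← zpow_add₀ h0]
      congr 1
      push_cast
      ring
    rw [← mul_assoc (s ^ (2 * (2 * (i : ℤ) - ((i + 1 + d : ℕ) : ℤ)))), e3, e2, key]
    field_simp
    ring
  · subst h
    rw [if_neg (by omega), if_pos le_rfl, if_pos le_rfl]
    have h1 : n + 1 + i - i = n + 1 := by omega
    have h2 : n + i - i = n := by omega
    rw [h1, h2, Nat.sub_self, bf_zero]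
    have n1 := bf_ne hs n
    have n2 := bf_ne hs (n + 1)
    have e1 : s ^ (2 * ((i : ℤ) * ((n + 1 : ℕ) : ℤ))) =
        s ^ (2 * (2 * (i : ℤ) - i)) * s ^ (2 * ((i : ℤ) * (n : ℤ))) := by
      rw [← zpow_add₀ h0]
      congr 1
      push_cast
      ring
    rw [e1]
    field_simp
    ring
  · rw [if_neg (by omega), if_neg (by omega), if_neg (by omega)]
    ring

theorem main (hs : IT.Gen s) (r : ℕ) : ∀ i n : ℕ, i ≤ n → UU s r i n = CC s r i n := by
  intro i
  induction i with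
  | zero =>
    intro n _
    unfold UU CC ff tt
    rw [Finset.sum_range_one, D2.bb_self hs, if_pos (Nat.zero_le r)]
    have n1 := bf_ne hs r
    have n2 := bf_ne hs n
    simp only [Nat.sub_zero, pow_zero, Nat.cast_zero, mul_zero, zpow_zero, one_mul, zero_mul]
    field_simp
  | succ i ih =>
    intro n hn
    obtain ⟨n', rfl⟩ : ∃ n', n = n' + 1 := ⟨n - 1, by omega⟩
    rw [step hs, cstep hs, ih (n' + 1) (by omega), ih n' (by omega)]

end SID

theorem t_SID : SID_Stmt := by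
  intro K _ s hs r i n hin
  have h := SID.main hs r i n hin
  unfold SID.UU SID.CC at h
  rw [← h]
  refine Finset.sum_congr rfl fun m hm => ?_
  have hm := Finset.mem_range.mp hm
  unfold D2.bb SID.tt SID.ff
  rw [if_pos (by omega)]
  ring

end Pool.Agent.WD3
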