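import Pool.Agent.WD3.StI

/-!
# Generalised doubles: operations with the leading coefficients (module SJM)
-/

set_option autoImplicit false

namespace Pool.Agent.WD3

open Pool.Agent.LibH11 Pool.Agent.IT Pool.Agent.GK Pool.Agent.TwoBr Pool.Agent.WD Pool.Agent.WD2
open scoped BigOperators
open PowerSeries

namespace SJM

theorem mul_part {y y' : ℕ → ℚ⟦X⟧} {σ σ' : ℚ⟦X⟧} (h : SymJ y σ) (h' : SymJ y' σ') :
    SymJ (fun j => y j * y' j) (σ * σ') := by
  choose P hP1 hP2 hP3 using h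
  choose Q hQ1 hQ2 hQ3 using h'
  intro m
  refine ⟨∑ c ∈ Finset.HasAntidiagonal.antidiagonal m, P c.1 * Q c.2, ?_, ?_, ?_⟩
  · refine Polynomial.natDegree_sum_le_of_forall_le _ _ fun c hc => ?_
    have h1 : c.1 + c.2 = m := Finset.HasAntidiagonal.mem_antidiagonal.1 hc
    refine Polynomial.natDegree_mul_le.trans ?_
    have h2 := hP1 c.1
    have h3 := hQ1 c.2
    omega
  · rw [Polynomial.finsetSum_coeff, PowerSeries.coeff_mul]
    refine Finset.sum_congr rfl fun c hc => ?_
    have h1 : c.1 + c.2 = m := Finset.HasAntidiagonal.mem_antidiagonal.1 hc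
    rw [← h1, Polynomial.coeff_mul_add_eq_of_natDegree_le (hP1 c.1) (hQ1 c.2), hP2, hQ2]
  · intro j
    rw [Polynomial.eval_finsetSum, PowerSeries.coeff_mul]
    refine Finset.sum_congr rfl fun c _ => ?_
    rw [Polynomial.eval_mul, hP3, hQ3]

theorem exp_part (t : ℚ) : SymJ (fun j => E (2 * j * (j + 1) * t)) (E (2 * t)) := by
  intro m
  refine ⟨Polynomial.C ((2 * t) ^ m / (m.factorial : ℚ)) * Polynomial.X ^ m,
    Polynomial.natDegree_C_mul_X_pow_le _ _, ?_, ?_⟩
  · rw [Polynomial.coeff_C_mul_X_pow, if_pos rfl]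
    unfold E
    rw [PowerSeries.coeff_mk]
  · intro j
    rw [Polynomial.eval_mul, Polynomial.eval_C, Polynomial.eval_pow, Polynomial.eval_X]
    unfold E
    rw [PowerSeries.coeff_mk]
    have h1 : (2 * (j : ℚ) * (j + 1) * t) ^ m = (2 * t) ^ m * ((j : ℚ) * (j + 1)) ^ m := by
      rw [← mul_pow]
      congr 1
      ring
    rw [h1]
    ring

theorem jones_part (J : ℕ → ℚ⟦X⟧) (h : ∀ m : ℕ, ∃ p : Polynomial ℚ, 2 * p.natDegree ≤ m ∧
    ∀ M : ℕ, Odd M → coeff m (J M) = p.eval ((M : ℚ) ^ 2)) (h1 : constantCoeff (J 1) = 1) :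
    SymJ (fun j => J (2 * j + 1)) 1 := by
  intro m
  obtain ⟨p, hp1, hp2⟩ := h m
  have hev : ∀ z : ℚ, (p.comp (Polynomial.C 4 * Polynomial.X + 1)).eval z = p.eval (4 * z + 1) := by
    intro z
    rw [Polynomial.eval_comp, Polynomial.eval_add, Polynomial.eval_mul, Polynomial.eval_C,
      Polynomial.eval_X, Polynomial.eval_one]
  have hd : (p.comp (Polynomial.C 4 * Polynomial.X + 1)).natDegree ≤ p.natDegree := by
    have h2 : (Polynomial.C 4 * Polynomial.X + 1 : Polynomial ℚ).natDegree ≤ 1 :=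
      Polynomial.natDegree_linear_le
    refine Polynomial.natDegree_comp_le.trans ?_
    calc p.natDegree * (Polynomial.C 4 * Polynomial.X + 1 : Polynomial ℚ).natDegree
        ≤ p.natDegree * 1 := Nat.mul_le_mul_left _ h2
      _ = p.natDegree := mul_one _
  refine ⟨p.comp (Polynomial.C 4 * Polynomial.X + 1), by omega, ?_, ?_⟩
  · rcases Nat.eq_zero_or_pos m with h0 | h0
    · subst h0
      rw [Polynomial.coeff_zero_eq_eval_zero, hev, mul_zero, zero_add]
      have h3 := hp2 1 odd_one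
      rw [Nat.cast_one, one_pow, PowerSeries.coeff_zero_eq_constantCoeff_apply, h1] at h3
      rw [← h3, PowerSeries.coeff_zero_eq_constantCoeff_apply, map_one]
    · rw [PowerSeries.coeff_one, if_neg (by omega)]
      exact Polynomial.coeff_eq_zero_of_natDegree_lt (by omega)
  · intro j
    rw [hev]
    have h3 := hp2 (2 * j + 1) ⟨j, rfl⟩
    rw [h3]
    congr 1
    push_cast
    ring

end SJM

/-- (SJM) -/
theorem t_SJM : SJM_Stmt :=
  ⟨fun _ _ _ _ h h' => SJM.mul_part h h', SJM.exp_part, SJM.jones_part⟩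

end Pool.Agent.WD3
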