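import Pool.Agent.WD3.StG
import Pool.Agent.WD.GSUM
import Pool.Agent.WD2.GMF

/-!
# Generalised doubles: the full twists on the summands (module TWS)
-/

set_option autoImplicit false

namespace Pool.Agent.WD3

open Pool.Agent.LibH11 Pool.Agent.IT Pool.Agent.GK Pool.Agent.TwoBr Pool.Agent.WD Pool.Agent.WD2
open scoped BigOperators

open GSUMM in
/-- TWS -/
theorem t_TWS (hMULT : MULT_Stmt) (hDBL : DBL_Stmt) (hMOP : MOP_Stmt)
    (hFPOWOK : FPOWOK_Stmt) (hVOK : VOK_Stmt) (hRINV : RINV_Stmt) : TWS_Stmt := by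
  intro K _ s hs N hN k j hj
  have hV : IT.Ok s (V s N) := (hVOK K s hs).1 N
  have hW : IT.Ok s (fpow s (V s N) 2) := hFPOWOK K s hs (Fin N) (V s N) hV 2
  have hTm : Mor (fpow s (V s N) 2) (fpow s (V s N) 2) (tw (RD s (V s N)) k) :=
    hMOP K s hs (Fin N) (V s N) hV 1 _
  obtain ⟨r, P, Q, hQP, hEP, hwP, hQ⟩ :=
    hMULT K s hs (Fin 2 → Fin N) (fpow s (V s N) 2) hW (2 * j)
  have hT := tw_act hDBL hRINV hVOK hs ((2 * j : ℕ) : ℤ) P hEP hwP k
  have h1 := trace_act (1 : Matrix (Fin 2 → Fin N) (Fin 2 → Fin N) K) (tw (RD s (V s N)) k) P Q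
    hQP (hQ _ (GMF.mor_one N _)).1 _ hT
  have hc : ((2 * j : ℕ) : ℤ) = 2 * (j : ℤ) := by push_cast; ring
  rw [Matrix.mul_one, (hQ _ hTm).2, (hQ _ (GMF.mor_one N _)).2, hc, GMF.wtr_diff s N j hj,
    mul_one] at h1
  unfold chn
  rw [h1, mul_comm k, zpow_mul]
  congr 2
  ring

end Pool.Agent.WD3
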