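import Pool.Agent.WD2.QAll
import Pool.Agent.WD3.DVK
import Pool.Agent.WD3.NRK
import Pool.Agent.WD3.CLK
import Pool.Agent.WD3.SCK
import Pool.Agent.WD3.GSY
import Pool.Agent.WD3.TWS
import Pool.Agent.WD3.DIA
import Pool.Agent.WD3.MOM
import Pool.Agent.WD3.MNR
import Pool.Agent.WD3.SID
import Pool.Agent.WD3.INV
import Pool.Agent.WD3.CNK
import Pool.Agent.WD3.GMK
import Pool.Agent.WD3.JFK
import Pool.Agent.WD3.JXK
import Pool.Agent.WD3.CYK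
import Pool.Agent.WD3.SJM
import Pool.Agent.WD3.DIV
import Pool.Agent.WD3.FUN
import Pool.Agent.WD3.FU1
import Pool.Agent.WD3.LDK
import Pool.Agent.WD3.LDF
import Pool.Agent.WD3.ADK

/-!
The modules of the project on iterated generalised doubles, first part, assembled.
-/

set_option autoImplicit false

namespace Pool.Agent.WD3

open Pool.Agent.IT.Fin Pool.Agent.GK.Fin Pool.Agent.WD Pool.Agent.WD2 Pool.Agent.WD.QA

theorem xDVK : DVK_Stmt := t_DVK qVRI qDCL qVOP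
theorem xNRK : NRK_Stmt := t_NRK xDVK qTYP
theorem xCLK : CLK_Stmt := t_CLK qCUPM fMOP fTENSOK fFPOWOK fVOK fFPOWT fATP
theorem xSCK : SCK_Stmt :=
  t_SCK xDVK qCUPM qPTM xCLK qGPT fBLKD fMOP fPTR fSCHUR fTENSOK fFPOWOK fVOK
theorem xGSY : GSY_Stmt := t_GSY fBLKD fCABSUM fMULT fDBL fMOP fFPOWOK fVOK fRINV
theorem xTWS : TWS_Stmt := t_TWS fMULT fDBL fMOP fFPOWOK fVOK fRINV
theorem xMOM : MOM_Stmt := t_MOM t_FEN
theorem xINV : INV_Stmt := t_INV t_D0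
theorem xCNK : CNK_Stmt := t_CNK t_D1
theorem xGMK : GMK_Stmt :=
  t_GMK wENT wBIV wCND t_UNQ xCLK xTWS t_DIA xMOM t_MNR t_SID xINV xCNK fMOP fVOK
theorem xJFK : JFK_Stmt := t_JFK qMPM qGAU xNRK xSCK qCUPM fESER
theorem xJXK : JXK_Stmt :=
  t_JXK xJFK xGSY xCLK qEVT qINT qMPM qOKF qGAU qFTZ qJFD qCJF wGS2 qPAR fJMAP fESER
theorem xCYK : CYK_Stmt := t_CYK xGMK fESER
theorem xDIV : DIV_Stmt := t_DIV t_SJM wSG0
theorem xFUN : FUN_Stmt := t_FUN t_SJM xDIV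
theorem xFU1 : FU1_Stmt := t_FU1 wSG0 t_GCV
theorem xLDK : LDK_Stmt := t_LDK wSG0 t_GCV xFUN xFU1
theorem xLDF : LDF_Stmt := t_LDF wSG0 xLDK
theorem xADK : ADK_Stmt := t_ADK xCYK

end Pool.Agent.WD3
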